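import Pool.Agent.Strip.Ft

open Finset

set_option linter.unusedSectionVars false

namespace Pool.Agent.Strip

variable {K : Type} [Field K] [Fintype K] {V : Type} [AddCommGroup V] [Module K V] [Fintype V]

theorem card_K_gt : (1 : ℝ) < Fintype.card K := by
  exact_mod_cast Fintype.one_lt_card

theorem sum_kap : ∑ a : K, kap a = 0 := by
  classical
  have h1 := card_K_gt (K := K)
  have h2 : ((Fintype.card K : ℝ) - 1) ≠ 0 := by linarith
  rw [← Finset.add_sum_erase _ _ (mem_univ (0 : K))]
  have h3 : ∀ a ∈ univ.erase (0 : K), kap a = -1 / ((Fintype.card K : ℝ) - 1) := by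
    intro a ha
    rw [kap, if_neg (Finset.ne_of_mem_erase ha)]
  rw [Finset.sum_congr rfl h3, Finset.sum_const, Finset.card_erase_of_mem (mem_univ _),
    Finset.card_univ, nsmul_eq_mul, Nat.cast_sub Fintype.card_pos, kap, if_pos rfl]
  push_cast
  field_simp
  ring

theorem sum_kap_add (b : K) : ∑ t : K, kap (b + t) = 0 := by
  rw [← sum_kap (K := K)]
  exact Fintype.sum_equiv (Equiv.addLeft b) _ _ fun t => rfl

theorem kap_zero : kap (0 : K) = 1 := if_pos rfl

theorem kap_smul {a : K} (ha : a ≠ 0) (b : K) : kap (a * b) = kap b := by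
  unfold kap
  by_cases hb : b = 0
  · simp [hb]
  · simp [hb, ha]

theorem kap_sq (a : K) : kap a * kap a = 1 / ((Fintype.card K : ℝ) - 1) +
    (((Fintype.card K : ℝ) - 2) / ((Fintype.card K : ℝ) - 1)) * kap a := by
  have h1 := card_K_gt (K := K)
  have h2 : ((Fintype.card K : ℝ) - 1) ≠ 0 := by linarith
  unfold kap
  split_ifs
  · field_simp
    ring
  · field_simp
    ring

/-- The translation trick. -/
theorem sum_kap_mul (S : Finset (Module.Dual K V)) (c1 : Module.Dual K V) {x : V} (y : V)
    (hx : c1 x = 1) (hy : c1 y = 0) (hS : ∀ t : K, ∀ c ∈ S, c + t • c1 ∈ S) :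
    ∑ c ∈ S, kap (c x) * kap (c y) = 0 := by
  have h1 : ∀ t : K, ∑ c ∈ S, kap (c x + t) * kap (c y) = ∑ c ∈ S, kap (c x) * kap (c y) := by
    intro t
    refine Finset.sum_nbij' (fun c => c + t • c1) (fun c => c + (-t) • c1) (hS t) (hS (-t)) ?_ ?_ ?_
    · intro c _
      ext v
      simp
    · intro c _
      ext v
      simp
    · intro c _
      simp [hx, hy]
  have h2 : (Fintype.card K : ℝ) * ∑ c ∈ S, kap (c x) * kap (c y) = 0 := by
    calc (Fintype.card K : ℝ) * ∑ c ∈ S, kap (c x) * kap (c y)
        = ∑ _t : K, ∑ c ∈ S, kap (c x) * kap (c y) := by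
          rw [Finset.sum_const, Finset.card_univ, nsmul_eq_mul]
      _ = ∑ t : K, ∑ c ∈ S, kap (c x + t) * kap (c y) :=
          Finset.sum_congr rfl fun t _ => (h1 t).symm
      _ = ∑ c ∈ S, ∑ t : K, kap (c x + t) * kap (c y) := Finset.sum_comm
      _ = 0 := by
          refine Finset.sum_eq_zero fun c _ => ?_
          rw [← Finset.sum_mul, sum_kap_add, zero_mul]
  have h3 : (Fintype.card K : ℝ) ≠ 0 := by
    have := card_K_gt (K := K)
    linarith
  exact (mul_eq_zero.mp h2).resolve_left h3

theorem sum_kap_set (S : Finset (Module.Dual K V)) (c1 : Module.Dual K V) {x : V}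
    (hx : c1 x ≠ 0) (hS : ∀ t : K, ∀ c ∈ S, c + t • c1 ∈ S) :
    ∑ c ∈ S, kap (c x) = 0 := by
  have h := sum_kap_mul S ((c1 x)⁻¹ • c1) (x := x) 0 (by simp [hx]) (by simp) (by
    intro t c hc
    rw [smul_smul]
    exact hS _ c hc)
  simpa [kap_zero] using h

theorem exists_dual_ne {A : Submodule K V} {x : V} (hx : x ∉ A) :
    ∃ c : Module.Dual K V, (∀ y ∈ A, c y = 0) ∧ c x = 1 := by
  obtain ⟨c, hc, hA⟩ := Submodule.exists_le_ker_of_notMem hx
  refine ⟨(c x)⁻¹ • c, fun y hy => ?_, by simp [hc]⟩
  have : c y = 0 := hA hy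
  simp [this]

theorem card_dual [Fintype (Module.Dual K V)] :
    Fintype.card (Module.Dual K V) = Fintype.card V := by
  have : FiniteDimensional K V := Module.Finite.of_finite
  rw [Module.card_eq_pow_finrank (K := K) (V := V),
    Module.card_eq_pow_finrank (K := K) (V := Module.Dual K V), Subspace.dual_finrank_eq]

open Classical in
/-- The size of an annihilator. -/
theorem card_ann [Fintype (Module.Dual K V)] (U : Submodule K V) :
    #(univ.filter (fun c : Module.Dual K V => ∀ x ∈ U, c x = 0)) *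
      #(sF U.toAddSubgroup) = Fintype.card V := by
  have : FiniteDimensional K V := Module.Finite.of_finite
  have h1 : #(univ.filter (fun c : Module.Dual K V => ∀ x ∈ U, c x = 0)) =
      Nat.card U.dualAnnihilator := by
    rw [Nat.card_eq_fintype_card, Fintype.card_subtype]
    congr 1
    ext c
    simp only [mem_filter, mem_univ, true_and]
    exact (Submodule.mem_dualAnnihilator c).symm
  have h2 : #(sF U.toAddSubgroup) = Nat.card U := card_sF _
  rw [h1, h2, Module.natCard_eq_pow_finrank (K := K) (V := U),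
    Module.natCard_eq_pow_finrank (K := K) (V := U.dualAnnihilator), ← pow_add,
    Module.card_eq_pow_finrank (K := K) (V := V), Nat.card_eq_fintype_card]
  congr 1
  rw [add_comm]
  exact Subspace.finrank_add_finrank_dualAnnihilator_eq U

open Classical in
/-- The sum of the coefficients over an annihilator. -/
theorem sum_ftW_ann [Fintype (Module.Dual K V)] (f : V → ℝ) (U W : Submodule K V) :
    (#(sF (U ⊓ W).toAddSubgroup) : ℝ) *
      ∑ c ∈ univ.filter (fun c : Module.Dual K V => ∀ x ∈ U ⊓ W, c x = 0), ftW W f c =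
      Fintype.card V * ∑ x ∈ sF (U ⊓ W).toAddSubgroup, f x := by
  set S := univ.filter (fun c : Module.Dual K V => ∀ x ∈ U ⊓ W, c x = 0) with hS
  have hcard := card_ann (K := K) (U ⊓ W)
  have h1 : ∑ c ∈ S, ftW W f c = ∑ x ∈ sF W.toAddSubgroup, f x * ∑ c ∈ S, kap (c x) := by
    unfold ftW
    rw [Finset.sum_comm]
    refine Finset.sum_congr rfl fun x _ => ?_
    rw [Finset.mul_sum]
  have h2 : ∀ x ∈ U ⊓ W, ∑ c ∈ S, kap (c x) = #S := by
    intro x hx
    have : ∀ c ∈ S, kap (c x) = 1 := by
      intro c hc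
      rw [(mem_filter.mp hc).2 x hx, kap_zero]
    rw [Finset.sum_congr rfl this]
    simp
  have h3 : ∀ x, x ∉ U ⊓ W → ∑ c ∈ S, kap (c x) = 0 := by
    intro x hx
    obtain ⟨c1, hc1, hc1x⟩ := exists_dual_ne hx
    refine sum_kap_set S c1 (by rw [hc1x]; exact one_ne_zero) ?_
    intro t c hc
    refine mem_filter.mpr ⟨mem_univ _, fun y hy => ?_⟩
    rw [LinearMap.add_apply, LinearMap.smul_apply, (mem_filter.mp hc).2 y hy, hc1 y hy]
    simp
  have hsub : sF (U ⊓ W).toAddSubgroup ⊆ sF W.toAddSubgroup := by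
    intro x hx
    have hx' : x ∈ U ⊓ W := mem_sF.mp hx
    exact mem_sF.mpr hx'.2
  have h4 : ∑ x ∈ sF W.toAddSubgroup, f x * ∑ c ∈ S, kap (c x) =
      ∑ x ∈ sF (U ⊓ W).toAddSubgroup, f x * #S := by
    rw [← Finset.sum_subset hsub]
    · refine Finset.sum_congr rfl fun x hx => ?_
      rw [h2 x (mem_sF.mp hx)]
    · intro x _ hx
      rw [h3 x (fun hx' => hx (mem_sF.mpr hx')), mul_zero]
  rw [h1, h4, ← Finset.sum_mul, ← hcard, ← hS]
  push_cast
  ring

/-- The sum of all coefficients. -/
theorem sum_ftW [Fintype (Module.Dual K V)] (f : V → ℝ) (W : Submodule K V) :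
    ∑ c : Module.Dual K V, ftW W f c = Fintype.card V * f 0 := by
  classical
  have h := sum_ftW_ann f ⊥ W
  have h1 : univ.filter (fun c : Module.Dual K V => ∀ x ∈ (⊥ : Submodule K V) ⊓ W, c x = 0) =
      univ := by
    refine Finset.filter_true_of_mem fun c _ x hx => ?_
    have hx' : x ∈ (⊥ : Submodule K V) := hx.1
    rw [Submodule.mem_bot] at hx'
    rw [hx', map_zero]
  have h2 : sF ((⊥ : Submodule K V) ⊓ W).toAddSubgroup = {0} := by
    ext x
    rw [mem_sF, mem_singleton]
    constructor
    · intro hx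
      have hx' : x ∈ (⊥ : Submodule K V) := hx.1
      rwa [Submodule.mem_bot] at hx'
    · rintro rfl
      exact AddSubgroup.zero_mem _
  rw [h1, h2] at h
  simpa using h

/-- Inversion formula. -/
theorem inversion [Fintype (Module.Dual K V)] {f : V → ℝ} (hf : Inv K f) (x : V) :
    ∑ c : Module.Dual K V, ftW (⊤ : Submodule K V) f c * kap (c x) = Fintype.card V * f x := by
  classical
  have hq := card_K_gt (K := K)
  have hq1 : ((Fintype.card K : ℝ) - 1) ≠ 0 := by linarith
  have hT : ∀ c : Module.Dual K V, ftW (⊤ : Submodule K V) f c = ∑ y : V, f y * kap (c y) := by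
    intro c
    unfold ftW
    have : sF (⊤ : Submodule K V).toAddSubgroup = univ := by
      ext y
      simp [mem_sF]
    rw [this]
  by_cases hx : x = 0
  · subst hx
    have h := sum_ftW f (⊤ : Submodule K V)
    rw [← h]
    refine Finset.sum_congr rfl fun c _ => ?_
    rw [map_zero, kap_zero, mul_one]
  have h1 : ∑ c : Module.Dual K V, ftW (⊤ : Submodule K V) f c * kap (c x) =
      ∑ y : V, f y * ∑ c : Module.Dual K V, kap (c x) * kap (c y) := by
    simp only [hT, Finset.sum_mul, Finset.mul_sum]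
    rw [Finset.sum_comm]
    refine Finset.sum_congr rfl fun y _ => Finset.sum_congr rfl fun c _ => ?_
    ring
  let L : Finset V := (univ.erase (0 : K)).image fun a => a • x
  have hLcard : (#L : ℝ) = (Fintype.card K : ℝ) - 1 := by
    have : #L = #(univ.erase (0 : K)) := by
      refine Finset.card_image_of_injective _ ?_
      intro a b hab
      exact smul_left_injective K hx hab
    rw [this, Finset.card_erase_of_mem (mem_univ _), Finset.card_univ,
      Nat.cast_sub Fintype.card_pos]
    simp
  have h2 : ∀ y ∈ L, f y * ∑ c : Module.Dual K V, kap (c x) * kap (c y) =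
      f x * (Fintype.card V / ((Fintype.card K : ℝ) - 1)) := by
    intro y hy
    obtain ⟨a, ha, rfl⟩ := Finset.mem_image.mp hy
    have ha0 := Finset.ne_of_mem_erase ha
    rw [hf a ha0 x]
    congr 1
    have h3 : ∀ c : Module.Dual K V, kap (c x) * kap (c (a • x)) =
        1 / ((Fintype.card K : ℝ) - 1) +
          (((Fintype.card K : ℝ) - 2) / ((Fintype.card K : ℝ) - 1)) * kap (c x) := by
      intro c
      rw [map_smul, smul_eq_mul, kap_smul ha0, kap_sq]
    obtain ⟨c1, -, hc1⟩ := exists_dual_ne (K := K) (A := ⊥) (x := x) (by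
      rw [Submodule.mem_bot]
      exact hx)
    have h4 : ∑ c : Module.Dual K V, kap (c x) = 0 :=
      sum_kap_set univ c1 (by rw [hc1]; exact one_ne_zero) fun _ _ _ => mem_univ _
    simp only [h3]
    rw [Finset.sum_add_distrib, ← Finset.mul_sum, h4, mul_zero, add_zero, Finset.sum_const,
      Finset.card_univ, card_dual, nsmul_eq_mul]
    ring
  have h5 : ∀ y, y ∉ L → f y * ∑ c : Module.Dual K V, kap (c x) * kap (c y) = 0 := by
    intro y hy
    have hxy : x ∉ Submodule.span K {y} := by
      intro hmem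
      obtain ⟨a, ha⟩ := Submodule.mem_span_singleton.mp hmem
      have ha0 : a ≠ 0 := by
        rintro rfl
        rw [zero_smul] at ha
        exact hx ha.symm
      apply hy
      refine Finset.mem_image.mpr ⟨a⁻¹, Finset.mem_erase.mpr ⟨inv_ne_zero ha0, mem_univ _⟩, ?_⟩
      rw [← ha, smul_smul, inv_mul_cancel₀ ha0, one_smul]
    obtain ⟨c1, hc1, hc1x⟩ := exists_dual_ne hxy
    rw [sum_kap_mul univ c1 y hc1x (hc1 y (Submodule.mem_span_singleton_self y))
      fun _ _ _ => mem_univ _, mul_zero]
  rw [h1, ← Finset.sum_subset (Finset.subset_univ L) fun y _ hy => h5 y hy,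
    Finset.sum_congr rfl h2, Finset.sum_const, nsmul_eq_mul, hLcard]
  field_simp

theorem PD_sum {G : Type} [AddCommGroup G] [Fintype G] {ι : Type} (s : Finset ι)
    (g : ι → G → ℝ) (h : ∀ i ∈ s, PD (g i)) : PD (fun x => ∑ i ∈ s, g i x) := by
  classical
  refine ⟨fun x => ?_, fun w => ?_⟩
  · exact Finset.sum_congr rfl fun i hi => (h i hi).symm x
  · have h1 : bil (fun x => ∑ i ∈ s, g i x) w w = ∑ i ∈ s, bil (g i) w w := by
      unfold bil
      simp only [Finset.mul_sum]
      rw [Finset.sum_comm' (s := s) (t := fun _ => univ) (t' := univ) (s' := fun _ => s) (by simp)]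
      refine Finset.sum_congr rfl fun x _ => ?_
      rw [Finset.sum_comm]
    rw [h1]
    exact Finset.sum_nonneg fun i hi => (h i hi).nonneg w

theorem PD_smul {G : Type} [AddCommGroup G] [Fintype G] {a : ℝ} (ha : 0 ≤ a)
    {g : G → ℝ} (h : PD g) : PD (fun x => a * g x) := by
  refine ⟨fun x => by rw [h.symm x], fun w => ?_⟩
  have h1 : bil (fun x => a * g x) w w = a * bil g w w := by
    unfold bil
    simp only [Finset.mul_sum]
    refine Finset.sum_congr rfl fun x _ => Finset.sum_congr rfl fun y _ => ?_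
    ring
  rw [h1]
  exact mul_nonneg ha (h.nonneg w)

/-- Inversion: invariant functions with nonnegative Fourier transform are positive definite. -/
theorem pd_of_ft {f : V → ℝ} (hf : Inv K f) (h : ∀ c, 0 ≤ ftW (⊤ : Submodule K V) f c) :
    PD f := by
  classical
  have : FiniteDimensional K V := Module.Finite.of_finite
  have : Finite (Module.Dual K V) := Module.finite_of_finite K
  have : Fintype (Module.Dual K V) := Fintype.ofFinite _
  have hV : (Fintype.card V : ℝ) ≠ 0 := by
    have : 0 < Fintype.card V := Fintype.card_pos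
    positivity
  have h1 : f = fun x => ∑ c : Module.Dual K V,
      (((Fintype.card V : ℝ))⁻¹ * ftW (⊤ : Submodule K V) f c) * kap (c x) := by
    funext x
    have h2 := inversion hf x
    simp only [mul_assoc]
    rw [← Finset.mul_sum, h2, ← mul_assoc, inv_mul_cancel₀ hV, one_mul]
  rw [h1]
  refine PD_sum _ _ fun c _ => PD_smul (mul_nonneg (by positivity) (h c)) (PD.kap c)

end Pool.Agent.Strip
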