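import Pool.Agent.Strip.Base

open Finset

namespace Pool.Agent.Strip

section matrix

/-- Positive semidefinite real matrices by their quadratic form. -/
theorem base2_psd_iff {ι : Type} [Fintype ι] (N : ι → ι → ℝ) (hsymm : ∀ x y, N x y = N y x) :
    (Matrix.of N).PosSemidef ↔ ∀ w : ι → ℝ, 0 ≤ ∑ x, ∑ y, w x * w y * N x y := by
  have hform : ∀ w : ι → ℝ, star w ⬝ᵥ (Matrix.of N).mulVec w = ∑ x, ∑ y, w x * w y * N x y := by
    intro w
    simp only [dotProduct, Matrix.mulVec, star_trivial, Matrix.of_apply]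
    refine Finset.sum_congr rfl (fun x _ => ?_)
    rw [Finset.mul_sum]
    refine Finset.sum_congr rfl (fun y _ => ?_)
    ring
  constructor
  · intro h w
    rw [← hform w]
    exact h.dotProduct_mulVec_nonneg w
  · intro h
    refine Matrix.PosSemidef.of_dotProduct_mulVec_nonneg ?_ (fun w => ?_)
    · ext x y
      simp only [Matrix.conjTranspose_apply, Matrix.of_apply, star_trivial]
      exact hsymm y x
    · rw [hform w]; exact h w

/-- Schur product in terms of quadratic forms. -/
theorem base2_schur {ι : Type} [Fintype ι] (N N' : ι → ι → ℝ) (hsymm : ∀ x y, N x y = N y x)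
    (hsymm' : ∀ x y, N' x y = N' y x)
    (hN : ∀ w : ι → ℝ, 0 ≤ ∑ x, ∑ y, w x * w y * N x y)
    (hN' : ∀ w : ι → ℝ, 0 ≤ ∑ x, ∑ y, w x * w y * N' x y) (w : ι → ℝ) :
    0 ≤ ∑ x, ∑ y, w x * w y * (N x y * N' x y) := by
  have h1 := ((base2_psd_iff N hsymm).mpr hN).hadamard ((base2_psd_iff N' hsymm').mpr hN')
  have h2 : Matrix.hadamard (Matrix.of N) (Matrix.of N') =
      Matrix.of (fun x y => N x y * N' x y) := by
    ext x y; rfl
  rw [h2] at h1
  exact (base2_psd_iff (fun x y => N x y * N' x y)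
    (fun x y => by rw [hsymm, hsymm'])).mp h1 w

/-- An entrywise cube of a positive semidefinite matrix indexed by a finite set. -/
theorem cube_nonneg {ι : Type} (A : Finset ι) (N : ι → ι → ℝ) (hsymm : ∀ x y, N x y = N y x)
    (hN : ∀ w : ι → ℝ, 0 ≤ ∑ x ∈ A, ∑ y ∈ A, w x * w y * N x y) :
    0 ≤ ∑ x ∈ A, ∑ y ∈ A, (N x y) ^ 3 := by
  classical
  have hA : ∀ w : A → ℝ, 0 ≤ ∑ x : A, ∑ y : A, w x * w y * N x y := by
    intro w
    have h1 := hN (fun x => if hx : x ∈ A then w ⟨x, hx⟩ else 0)
    have h2 : ∑ x ∈ A, ∑ y ∈ A, (if hx : x ∈ A then w ⟨x, hx⟩ else 0) *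
        (if hy : y ∈ A then w ⟨y, hy⟩ else 0) * N x y = ∑ x : A, ∑ y : A, w x * w y * N x y := by
      rw [← Finset.sum_coe_sort A]
      refine Finset.sum_congr rfl (fun x _ => ?_)
      rw [← Finset.sum_coe_sort A]
      refine Finset.sum_congr rfl (fun y _ => ?_)
      rw [dif_pos x.2, dif_pos y.2]
    rw [h2] at h1
    exact h1
  have hs : ∀ x y : A, N x y = N y x := fun x y => hsymm x y
  have h2 := base2_schur (fun x y : A => N x y) (fun x y : A => N x y) hs hs hA hA
  have h3 := base2_schur (fun x y : A => N x y * N x y) (fun x y : A => N x y)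
    (fun x y => by rw [hs]) hs h2 hA (fun _ => 1)
  have h4 : ∑ x : A, ∑ y : A, (1 : ℝ) * 1 * (N x y * N x y * N x y) =
      ∑ x ∈ A, ∑ y ∈ A, (N x y) ^ 3 := by
    rw [← Finset.sum_coe_sort A]
    refine Finset.sum_congr rfl (fun x _ => ?_)
    rw [← Finset.sum_coe_sort A]
    refine Finset.sum_congr rfl (fun y _ => ?_)
    ring
  rw [h4] at h3
  exact h3

end matrix

variable {G : Type} [AddCommGroup G] [Fintype G]

theorem base2_symm {f : G → ℝ} (h : ∀ x, f (-x) = f x) (x y : G) : f (x - y) = f (y - x) := by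
  rw [← h (x - y), neg_sub]

/-- Schur product theorem. -/
theorem PD.mul {f g : G → ℝ} (hf : PD f) (hg : PD g) : PD (fun x => f x * g x) := by
  refine ⟨fun x => ?_, fun w => ?_⟩
  · show f (-x) * g (-x) = f x * g x
    rw [hf.symm, hg.symm]
  · exact base2_schur (fun x y => f (x - y)) (fun x y => g (x - y)) (base2_symm hf.symm)
      (base2_symm hg.symm) hf.nonneg hg.nonneg w

/-- Autocorrelation of a finite set. -/
theorem PD.conv {f : G → ℝ} (h : PD f) (A : Finset G) :
    PD (fun z => ∑ x ∈ A, ∑ y ∈ A, f (x - y + z)) := by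
  classical
  refine ⟨fun z => ?_, fun w => ?_⟩
  · show ∑ x ∈ A, ∑ y ∈ A, f (x - y + -z) = ∑ x ∈ A, ∑ y ∈ A, f (x - y + z)
    rw [Finset.sum_comm]
    refine Finset.sum_congr rfl (fun x _ => Finset.sum_congr rfl (fun y _ => ?_))
    rw [← h.symm (x - y + z)]
    congr 1
    abel
  · -- the form of `f` at the convolution of `w` with the indicator of `A`
    have h1 := h.nonneg (fun z => ∑ x ∈ A, w (z - x))
    have h2 : bil f (fun z => ∑ x ∈ A, w (z - x)) (fun z => ∑ x ∈ A, w (z - x)) =
        bil (fun z => ∑ x ∈ A, ∑ y ∈ A, f (x - y + z)) w w := by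
      unfold bil
      have e1 : ∀ z z' : G, (∑ x ∈ A, w (z - x)) * (∑ y ∈ A, w (z' - y)) * f (z - z') =
          ∑ x ∈ A, ∑ y ∈ A, w (z - x) * w (z' - y) * f (z - z') := by
        intro z z'
        rw [Finset.sum_mul_sum, Finset.sum_mul]
        refine Finset.sum_congr rfl (fun x _ => ?_)
        rw [Finset.sum_mul]
      simp_rw [e1]
      have e2 : ∀ v v' : G, w v * w v' * ∑ x ∈ A, ∑ y ∈ A, f (x - y + (v - v')) =
          ∑ x ∈ A, ∑ y ∈ A, w v * w v' * f (x - y + (v - v')) := by
        intro v v'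
        rw [Finset.mul_sum]
        refine Finset.sum_congr rfl (fun x _ => ?_)
        rw [Finset.mul_sum]
      simp_rw [e2]
      -- move the sums over `A` outside
      have e3 : ∀ F : G → G → G → G → ℝ, ∑ z : G, ∑ z' : G, ∑ x ∈ A, ∑ y ∈ A, F z z' x y =
          ∑ x ∈ A, ∑ y ∈ A, ∑ z : G, ∑ z' : G, F z z' x y := by
        intro F
        have : ∀ z : G, ∑ z' : G, ∑ x ∈ A, ∑ y ∈ A, F z z' x y =
            ∑ x ∈ A, ∑ y ∈ A, ∑ z' : G, F z z' x y := by
          intro z
          rw [Finset.sum_comm]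
          refine Finset.sum_congr rfl (fun x _ => ?_)
          rw [Finset.sum_comm]
        simp_rw [this]
        rw [Finset.sum_comm]
        refine Finset.sum_congr rfl (fun x _ => ?_)
        rw [Finset.sum_comm]
      rw [e3, e3]
      refine Finset.sum_congr rfl (fun x _ => Finset.sum_congr rfl (fun y _ => ?_))
      -- translate the variables
      have e4 : ∑ z : G, ∑ z' : G, w (z - x) * w (z' - y) * f (z - z') =
          ∑ v : G, ∑ z' : G, w v * w (z' - y) * f (v + x - z') := by
        rw [← Equiv.sum_comp (Equiv.addRight x)]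
        refine Finset.sum_congr rfl (fun v _ => Finset.sum_congr rfl (fun z' _ => ?_))
        rw [Equiv.coe_addRight, add_sub_cancel_right]
      rw [e4]
      refine Finset.sum_congr rfl (fun v _ => ?_)
      rw [← Equiv.sum_comp (Equiv.addRight y)]
      refine Finset.sum_congr rfl (fun v' _ => ?_)
      rw [Equiv.coe_addRight, add_sub_cancel_right]
      have e5 : v + x - (v' + y) = x - y + (v - v') := by abel
      rw [e5]
    rw [h2] at h1
    exact h1

theorem card_mul_card_le (U U' : AddSubgroup G) :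
    #(sF U) * #(sF U') ≤ Fintype.card G * #(sF (U ⊓ U')) := by
  classical
  -- the map `(x, y) ↦ x - y` has small fibres
  rw [← Finset.card_product]
  have h1 : ∀ z ∈ (univ : Finset G),
      #((sF U ×ˢ sF U').filter (fun p => p.1 - p.2 = z)) ≤ #(sF (U ⊓ U')) := by
    intro z _
    rcases Finset.eq_empty_or_nonempty ((sF U ×ˢ sF U').filter (fun p => p.1 - p.2 = z)) with h0 | ⟨p0, hp0⟩
    · rw [h0, Finset.card_empty]; exact Nat.zero_le _
    · rw [Finset.mem_filter, Finset.mem_product] at hp0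
      refine Finset.card_le_card_of_injOn (fun p => p.1 - p0.1) ?_ ?_
      · intro p hp
        rw [Finset.mem_coe, Finset.mem_filter, Finset.mem_product] at hp
        rw [Finset.mem_coe, mem_sF]
        refine ⟨U.sub_mem (mem_sF.mp hp.1.1) (mem_sF.mp hp0.1.1), ?_⟩
        have h3 : p.1 - p0.1 = p.2 - p0.2 := by
          have h4 : p.1 - p.2 = p0.1 - p0.2 := by rw [hp.2, hp0.2]
          have h5 : p.1 = p0.1 - p0.2 + p.2 := by rw [← h4]; abel
          rw [h5]; abel
        show p.1 - p0.1 ∈ U'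
        rw [h3]
        exact U'.sub_mem (mem_sF.mp hp.1.2) (mem_sF.mp hp0.1.2)
      · intro p hp p' hp' hpp
        rw [Finset.mem_coe, Finset.mem_filter] at hp hp'
        have h3 : p.1 = p'.1 := sub_left_injective hpp
        have h4 : p.1 - p.2 = p'.1 - p'.2 := by rw [hp.2, hp'.2]
        rw [h3] at h4
        exact Prod.ext h3 (sub_right_injective h4)
  calc #(sF U ×ˢ sF U') = ∑ z ∈ (univ : Finset G),
        #((sF U ×ˢ sF U').filter (fun p => p.1 - p.2 = z)) :=
        Finset.card_eq_sum_card_fiberwise (fun p _ => Finset.mem_univ _)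
    _ ≤ ∑ _z ∈ (univ : Finset G), #(sF (U ⊓ U')) := Finset.sum_le_sum h1
    _ = Fintype.card G * #(sF (U ⊓ U')) := by
        rw [Finset.sum_const, smul_eq_mul, Finset.card_univ]

end Pool.Agent.Strip
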