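import Pool.Agent.Strip.Base2

open Finset

namespace Pool.Agent.Strip

variable {G : Type} [AddCommGroup G] [Fintype G]

private theorem avg_sum_neg (E : AddSubgroup G) (g : G → ℝ) :
    ∑ h ∈ sF E, g (-h) = ∑ h ∈ sF E, g h := by
  refine Finset.sum_equiv (Equiv.neg G) (fun i => ?_) (fun i _ => rfl)
  rw [mem_sF, mem_sF]
  exact (E.neg_mem_iff).symm

private theorem avg_sum_add (E : AddSubgroup G) (g : G → ℝ) {k : G} (hk : k ∈ E) :
    ∑ h ∈ sF E, g (k + h) = ∑ h ∈ sF E, g h := by
  refine Finset.sum_equiv (Equiv.addLeft k) (fun i => ?_) (fun i _ => rfl)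
  rw [mem_sF, mem_sF]
  exact (E.add_mem_cancel_left hk).symm

private theorem avg_card_ne (E : AddSubgroup G) : (#(sF E) : ℝ) ≠ 0 := by
  have := card_sF_pos E
  exact_mod_cast this.ne'

/-- Averages over cosets are invariant under the subgroup. -/
theorem av_add (E : AddSubgroup G) (f : G → ℝ) (x h : G) (hh : h ∈ E) :
    av E f (x + h) = av E f x := by
  unfold av
  congr 1
  have h1 := avg_sum_add E (fun k => f (x + k)) hh
  rw [← h1]
  refine Finset.sum_congr rfl fun k _ => ?_
  rw [add_assoc]

/-- Summing over the whole group does not see the averaging. -/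
theorem sum_av (E : AddSubgroup G) (f : G → ℝ) : ∑ x, av E f x = ∑ x, f x := by
  unfold av
  rw [← Finset.sum_div, Finset.sum_comm]
  have h1 : ∀ h ∈ sF E, ∑ x, f (x + h) = ∑ x, f x := fun h _ =>
    Equiv.sum_comp (Equiv.addRight h) f
  rw [Finset.sum_congr rfl h1, Finset.sum_const, nsmul_eq_mul, mul_comm,
    mul_div_assoc, div_self (avg_card_ne E), mul_one]

private theorem avg_sum_sF (E : AddSubgroup G) (f : G → ℝ) :
    ∑ x ∈ sF E, av E f x = ∑ x ∈ sF E, f x := by
  have h1 : ∀ x ∈ sF E, av E f x = av E f 0 := fun x hx => by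
    have := av_add E f 0 x (mem_sF.1 hx)
    rwa [zero_add] at this
  rw [Finset.sum_congr rfl h1, Finset.sum_const, nsmul_eq_mul]
  unfold av
  rw [mul_comm, div_mul_cancel₀ _ (avg_card_ne E)]
  refine Finset.sum_congr rfl fun k _ => ?_
  rw [zero_add]

open Classical in
/-- Summing over the complement of the subgroup does not see the averaging. -/
theorem sum_av_compl (E : AddSubgroup G) (f : G → ℝ) :
    ∑ x ∈ univ.filter (fun x => x ∉ E), av E f x = ∑ x ∈ univ.filter (fun x => x ∉ E), f x := by
  have h1 := Finset.sum_filter_add_sum_filter_not univ (fun x => x ∈ E) (fun x => av E f x)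
  have h2 := Finset.sum_filter_add_sum_filter_not univ (fun x => x ∈ E) f
  have h3 := sum_av E f
  have h4 := avg_sum_sF E f
  unfold sF at h4
  linarith

private theorem avg_symm {f : G → ℝ} (hf : ∀ x, f (-x) = f x) (E : AddSubgroup G) (x : G) :
    av E f (-x) = av E f x := by
  unfold av
  congr 1
  rw [← avg_sum_neg E (fun h => f (-x + h))]
  refine Finset.sum_congr rfl fun k _ => ?_
  rw [← hf (x + k)]
  congr 1
  abel

private theorem avg_idem (E : AddSubgroup G) (w : G → ℝ) (x : G) :
    av E (av E w) x = av E w x := by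
  have h1 : ∀ h ∈ sF E, av E w (x + h) = av E w x := fun h hh => av_add E w x h (mem_sF.1 hh)
  show (∑ h ∈ sF E, av E w (x + h)) / (#(sF E) : ℝ) = av E w x
  rw [Finset.sum_congr rfl h1, Finset.sum_const, nsmul_eq_mul, mul_comm, mul_div_assoc,
    div_self (avg_card_ne E), mul_one]

/-- averaging the function is the same as averaging the left vector -/
private theorem avg_bil_left (E : AddSubgroup G) (f v w : G → ℝ) :
    bil (av E f) v w = bil f (av E v) w := by
  have hn := avg_card_ne E
  have e1 : bil (av E f) v w * (#(sF E) : ℝ) =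
      ∑ h ∈ sF E, ∑ x, ∑ y, v x * w y * f (x - y + h) := by
    unfold bil av
    rw [Finset.sum_mul, Finset.sum_comm (s := sF E)]
    refine Finset.sum_congr rfl fun x _ => ?_
    rw [Finset.sum_mul, Finset.sum_comm (s := sF E)]
    refine Finset.sum_congr rfl fun y _ => ?_
    rw [mul_assoc, div_mul_cancel₀ _ hn, Finset.mul_sum]
  have e2 : bil f (av E v) w * (#(sF E) : ℝ) =
      ∑ h ∈ sF E, ∑ x, ∑ y, v (x + h) * w y * f (x - y) := by
    unfold bil av
    rw [Finset.sum_mul, Finset.sum_comm (s := sF E)]
    refine Finset.sum_congr rfl fun x _ => ?_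
    rw [Finset.sum_mul, Finset.sum_comm (s := sF E)]
    refine Finset.sum_congr rfl fun y _ => ?_
    rw [mul_right_comm, mul_right_comm _ (w y), div_mul_cancel₀ _ hn, Finset.sum_mul,
      Finset.sum_mul]
  have e3 : ∀ h : G, ∑ x, ∑ y, v (x + h) * w y * f (x - y) =
      ∑ x, ∑ y, v x * w y * f (x - y + -h) := fun h => by
    rw [← Equiv.sum_comp (Equiv.addRight h) (fun x => ∑ y, v x * w y * f (x - y + -h))]
    refine Finset.sum_congr rfl fun x _ => Finset.sum_congr rfl fun y _ => ?_
    show v (x + h) * w y * f (x - y) = v (x + h) * w y * f (x + h - y + -h)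
    congr 2
    abel
  have e4 : bil f (av E v) w * (#(sF E) : ℝ) = bil (av E f) v w * (#(sF E) : ℝ) := by
    rw [e1, e2, Finset.sum_congr rfl fun h _ => e3 h]
    exact avg_sum_neg E (fun h => ∑ x, ∑ y, v x * w y * f (x - y + h))
  exact (mul_right_cancel₀ hn e4).symm

private theorem avg_bil_swap {f : G → ℝ} (hf : ∀ x, f (-x) = f x) (E : AddSubgroup G)
    (v w : G → ℝ) : bil f (av E v) w = bil f v (av E w) := by
  rw [← avg_bil_left, bil_comm (avg_symm hf E), avg_bil_left, bil_comm hf]

private theorem avg_bil_idem {f : G → ℝ} (hf : ∀ x, f (-x) = f x) (E : AddSubgroup G)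
    (v w : G → ℝ) : bil f (av E v) (av E w) = bil f (av E v) w := by
  rw [← avg_bil_swap hf E (av E v) w]
  congr 1
  funext x
  exact avg_idem E v x

theorem PD.av {f : G → ℝ} (h : PD f) (E : AddSubgroup G) : PD (av E f) := by
  refine ⟨avg_symm h.symm E, fun w => ?_⟩
  rw [avg_bil_left, ← avg_bil_idem h.symm]
  exact h.nonneg _

theorem PD.sub_av {f : G → ℝ} (h : PD f) (E : AddSubgroup G) :
    PD (fun x => f x - Strip.av E f x) := by
  refine ⟨fun x => ?_, fun w => ?_⟩
  · show f (-x) - Strip.av E f (-x) = f x - Strip.av E f x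
    rw [h.symm, avg_symm h.symm]
  · have h1 : bil (fun x => f x - Strip.av E f x) w w = bil f w w - bil (Strip.av E f) w w := by
      unfold bil
      rw [← Finset.sum_sub_distrib]
      refine Finset.sum_congr rfl fun x _ => ?_
      rw [← Finset.sum_sub_distrib]
      refine Finset.sum_congr rfl fun y _ => ?_
      ring
    have h2 := h.nonneg (fun x => w x + (-1) * Strip.av E w x)
    rw [bil_add_self h.symm w (fun x => (-1) * Strip.av E w x), bil_smul_right h.symm,
      bil_smul_left, bil_smul_right h.symm, avg_bil_idem h.symm, ← avg_bil_swap h.symm] at h2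
    rw [h1, avg_bil_left]
    linarith

theorem PD.coset_sum {f : G → ℝ} (h : PD f) (E : AddSubgroup G) (y : G) :
    |∑ z ∈ sF E, f (y + z)| ≤ ∑ z ∈ sF E, f z := by
  have hn : (0 : ℝ) < (#(sF E) : ℝ) := by
    have := card_sF_pos E
    exact_mod_cast this
  have h1 := (h.av E).abs_le y
  unfold Strip.av at h1
  rw [abs_div, abs_of_pos hn, div_le_div_iff_of_pos_right hn] at h1
  have h2 : ∑ z ∈ sF E, f (0 + z) = ∑ z ∈ sF E, f z :=
    Finset.sum_congr rfl fun z _ => by rw [zero_add]
  rwa [h2] at h1

private theorem avg_pd_delta [DecidableEq G] : PD (fun x : G => if x = 0 then (1 : ℝ) else 0) := by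
  refine ⟨fun x => ?_, fun w => ?_⟩
  · simp only [neg_eq_zero]
  · have h1 : bil (fun x : G => if x = 0 then (1 : ℝ) else 0) w w = ∑ x, w x * w x := by
      unfold bil
      refine Finset.sum_congr rfl fun x _ => ?_
      rw [Finset.sum_eq_single x]
      · beta_reduce
        rw [sub_self, if_pos rfl, mul_one]
      · intro y _ hy
        beta_reduce
        rw [if_neg (sub_ne_zero.2 hy.symm), mul_zero]
      · intro h
        exact absurd (Finset.mem_univ _) h
    rw [h1]
    exact Finset.sum_nonneg fun x _ => mul_self_nonneg _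

theorem PD.ind (E : AddSubgroup G) : PD (fun x => (ind E x : ℝ)) := by
  classical
  have hn : (0 : ℝ) < (#(sF E) : ℝ) := by
    have := card_sF_pos E
    exact_mod_cast this
  have h1 := ((avg_pd_delta (G := G)).av E).smul hn.le
  have h2 : (fun x => (#(sF E) : ℝ) * Strip.av E (fun x : G => if x = 0 then (1 : ℝ) else 0) x) =
      (fun x => (Strip.ind E x : ℝ)) := by
    funext x
    unfold Strip.av Strip.ind
    rw [mul_div_cancel₀ _ hn.ne']
    by_cases hx : x ∈ E
    · rw [if_pos hx, Finset.sum_eq_single (-x)]
      · beta_reduce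
        rw [add_neg_cancel, if_pos rfl]
        norm_num
      · intro y _ hy
        refine if_neg fun h0 => hy ?_
        exact eq_neg_of_add_eq_zero_right h0
      · intro h
        exact absurd (mem_sF.2 (E.neg_mem hx)) h
    · rw [if_neg hx, Finset.sum_eq_zero]
      · norm_num
      · intro y hy
        refine if_neg fun h0 => hx ?_
        have h3 : x = -y := eq_neg_of_add_eq_zero_left h0
        rw [h3]
        exact E.neg_mem (mem_sF.1 hy)
  rw [h2] at h1
  exact h1

omit [AddCommGroup G] in
private theorem avg_sum_fibre {H : Type} [Fintype H] [DecidableEq G] (i : H → G) (v : H → ℝ)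
    (g : G → ℝ) : ∑ z, (∑ x, if i x = z then v x else 0) * g z = ∑ x, v x * g (i x) := by
  have h1 : ∀ z, (∑ x, if i x = z then v x else 0) * g z =
      ∑ x, (if i x = z then v x * g z else 0) := fun z => by
    rw [Finset.sum_mul]
    refine Finset.sum_congr rfl fun x _ => ?_
    by_cases h : i x = z
    · rw [if_pos h, if_pos h]
    · rw [if_neg h, if_neg h, zero_mul]
  rw [Finset.sum_congr rfl fun z _ => h1 z, Finset.sum_comm]
  refine Finset.sum_congr rfl fun x _ => ?_
  rw [Finset.sum_ite_eq, if_pos (Finset.mem_univ _)]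

/-- Restriction to a subgroup, as a function on the subgroup. -/
theorem PD.restr {f : G → ℝ} (h : PD f) {H : Type} [AddCommGroup H] [Fintype H] (i : H →+ G)
    (hi : Function.Injective i) : PD (fun x => f (i x)) := by
  classical
  refine ⟨fun x => ?_, fun w => ?_⟩
  · show f (i (-x)) = f (i x)
    rw [map_neg, h.symm]
  · have h1 := h.nonneg (fun z => ∑ x, if i x = z then w x else 0)
    have h2 : bil f (fun z => ∑ x, if i x = z then w x else 0)
        (fun z => ∑ x, if i x = z then w x else 0) = bil (fun x => f (i x)) w w := by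
      have e1 : bil f (fun z => ∑ x, if i x = z then w x else 0)
          (fun z => ∑ x, if i x = z then w x else 0) =
          ∑ z, (∑ x, if i x = z then w x else 0) *
            (∑ z', (∑ x, if i x = z' then w x else 0) * f (z - z')) := by
        unfold bil
        refine Finset.sum_congr rfl fun z _ => ?_
        rw [Finset.mul_sum]
        refine Finset.sum_congr rfl fun z' _ => ?_
        beta_reduce
        ring
      rw [e1, avg_sum_fibre]
      unfold bil
      refine Finset.sum_congr rfl fun x _ => ?_
      rw [avg_sum_fibre, Finset.mul_sum]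
      refine Finset.sum_congr rfl fun y _ => ?_
      beta_reduce
      rw [map_sub]
      ring
    rw [h2] at h1
    exact h1

open Classical in
/-- Push-forward along a homomorphism. -/
theorem PD.push {f : G → ℝ} (h : PD f) {H : Type} [AddCommGroup H] [Fintype H] (p : G →+ H)
    (hp : Function.Surjective p) : PD (fun y => ∑ x ∈ univ.filter (fun x => p x = y), f x) := by
  refine ⟨fun y => ?_, fun w => ?_⟩
  · beta_reduce
    refine Finset.sum_equiv (Equiv.neg G) (fun x => ?_) (fun x _ => ?_)
    · rw [Finset.mem_filter, Finset.mem_filter]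
      simp only [Finset.mem_univ, true_and, Equiv.neg_apply, map_neg]
      exact ⟨fun h0 => by rw [h0, neg_neg], fun h0 => by rw [← h0, neg_neg]⟩
    · exact (h.symm x).symm
  · have h1 := h.nonneg (fun g => w (p g))
    set κ : ℕ := #(univ.filter (fun g => p g = 0)) with hκ
    have hκ0 : 0 < κ := Finset.card_pos.2 ⟨0, by simp⟩
    have hfib : ∀ y : H, #(univ.filter (fun g => p g = y)) = κ := fun y =>
      AddMonoidHom.card_fiber_eq_of_mem_range p (hp y) (hp 0)
    have hsum : ∀ Φ : H → ℝ, ∑ g, Φ (p g) = κ * ∑ y, Φ y := fun Φ => by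
      rw [← Finset.sum_fiberwise univ p (fun g => Φ (p g)), Finset.mul_sum]
      refine Finset.sum_congr rfl fun y _ => ?_
      have e1 : ∀ g ∈ univ.filter (fun g => p g = y), Φ (p g) = Φ y := fun g hg => by
        rw [(Finset.mem_filter.1 hg).2]
      rw [Finset.sum_congr rfl e1, Finset.sum_const, hfib y, nsmul_eq_mul]
    have h2 : bil f (fun g => w (p g)) (fun g => w (p g)) =
        κ * bil (fun y => ∑ x ∈ univ.filter (fun x => p x = y), f x) w w := by
      have e1 : bil f (fun g => w (p g)) (fun g => w (p g)) =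
          ∑ g', (fun y' => ∑ x, w (p x + y') * w y' * f x) (p g') := by
        unfold bil
        rw [Finset.sum_comm]
        refine Finset.sum_congr rfl fun g' _ => ?_
        rw [← Equiv.sum_comp (Equiv.addRight g') (fun x => w (p x) * w (p g') * f (x - g'))]
        refine Finset.sum_congr rfl fun x _ => ?_
        show w (p (x + g')) * w (p g') * f (x + g' - g') = w (p x + p g') * w (p g') * f x
        rw [map_add, add_sub_cancel_right]
      rw [e1, hsum (fun y' : H => ∑ x : G, w (p x + y') * w y' * f x)]
      congr 1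
      unfold bil
      refine Eq.trans ?_ Finset.sum_comm
      refine Finset.sum_congr rfl fun y' _ => ?_
      rw [← Equiv.sum_comp (Equiv.addRight y')
        (fun y => w y * w y' * ∑ x ∈ univ.filter (fun x => p x = y - y'), f x)]
      rw [← Finset.sum_fiberwise univ p (fun x => w (p x + y') * w y' * f x)]
      refine Finset.sum_congr rfl fun z _ => ?_
      show ∑ x ∈ univ.filter (fun x => p x = z), w (p x + y') * w y' * f x =
        w (z + y') * w y' * ∑ x ∈ univ.filter (fun x => p x = z + y' - y'), f x
      rw [add_sub_cancel_right, Finset.mul_sum]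
      refine Finset.sum_congr rfl fun x hx => ?_
      rw [(Finset.mem_filter.1 hx).2]
    rw [h2] at h1
    have h3 : (0 : ℝ) < κ := by exact_mod_cast hκ0
    exact nonneg_of_mul_nonneg_right h1 h3

end Pool.Agent.Strip
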