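import Pool.Agent.Strip.Ft2

open Finset

namespace Pool.Agent.Strip

section griesAux

variable {K : Type} [Field K] [Fintype K] {V : Type} [AddCommGroup V] [Module K V] [Fintype V]

theorem gries_sum_top (f : V → ℝ) :
    ∑ x ∈ sF (⊤ : Submodule K V).toAddSubgroup, f x = ∑ x, f x := by
  apply Finset.sum_congr _ (fun _ _ => rfl)
  ext x
  rw [mem_sF]
  simp

theorem gries_ft_zero (f : V → ℝ) : ftW (⊤ : Submodule K V) f 0 = ∑ x, f x := by
  unfold ftW
  rw [gries_sum_top]
  apply Finset.sum_congr rfl
  intro x _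
  simp [kap]

theorem gries_ft_sub (f : V → ℤ) (e : ℤ) [DecidableEq V] (c : Module.Dual K V) :
    ftW (⊤ : Submodule K V) (fun x => ((f x - (if x = 0 then e else 0) : ℤ) : ℝ)) c =
      ftW (⊤ : Submodule K V) (fun x => (f x : ℝ)) c - e := by
  unfold ftW
  rw [gries_sum_top, gries_sum_top]
  have h : ∀ x : V, ((f x - (if x = 0 then e else 0) : ℤ) : ℝ) * kap (c x) =
      (f x : ℝ) * kap (c x) - (if x = 0 then (e : ℝ) else 0) := by
    intro x
    by_cases hx : x = 0
    · subst hx
      simp only [if_true, map_zero, kap]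
      push_cast
      ring
    · simp [hx]
  rw [Finset.sum_congr rfl (fun x _ => h x), Finset.sum_sub_distrib]
  simp

/-- Some nonzero functional has a coefficient below the value at zero. -/
theorem gries_exists_small (f : V → ℤ) (hinv : Inv K f) (m : ℕ) (hm : f 0 = m)
    (hR : (m : ℤ) < ∑ x, f x) :
    ∃ c : Module.Dual K V, c ≠ 0 ∧ ftW (⊤ : Submodule K V) (fun x => (f x : ℝ)) c ≤ (m : ℝ) - 1 := by
  classical
  have : Finite (Module.Dual K V) := Module.finite_of_finite K
  letI : Fintype (Module.Dual K V) := Fintype.ofFinite _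
  by_contra hcon
  push Not at hcon
  have h1 : ∀ c : Module.Dual K V, c ≠ 0 →
      (m : ℝ) ≤ ftW (⊤ : Submodule K V) (fun x => (f x : ℝ)) c := by
    intro c hc
    obtain ⟨z, hz⟩ := ftW_int hinv (⊤ : Submodule K V) c
    have h2 := hcon c hc
    rw [hz] at h2 ⊢
    have h3 : (m : ℤ) - 1 < z := by exact_mod_cast h2
    have h4 : (m : ℤ) ≤ z := by omega
    exact_mod_cast h4
  have hcard : Fintype.card (Module.Dual K V) = Fintype.card V := by
    rw [Module.card_eq_pow_finrank (K := K) (V := Module.Dual K V),
      Module.card_eq_pow_finrank (K := K) (V := V), Subspace.dual_finrank_eq]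
  have hs := sum_ftW (fun x => (f x : ℝ)) (⊤ : Submodule K V)
  rw [← Finset.add_sum_erase _ _ (Finset.mem_univ (0 : Module.Dual K V)), gries_ft_zero, hm] at hs
  have h5 : ∑ c ∈ Finset.univ.erase (0 : Module.Dual K V), (m : ℝ) ≤
      ∑ c ∈ Finset.univ.erase (0 : Module.Dual K V),
        ftW (⊤ : Submodule K V) (fun x => (f x : ℝ)) c :=
    Finset.sum_le_sum (fun c hc => h1 c (Finset.ne_of_mem_erase hc))
  rw [Finset.sum_const, Finset.card_erase_of_mem (Finset.mem_univ _), Finset.card_univ, hcard,
    nsmul_eq_mul] at h5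
  have hpos : 1 ≤ Fintype.card V := Fintype.card_pos
  rw [Nat.cast_sub hpos] at h5
  have hR' : (m : ℝ) < ∑ x, (f x : ℝ) := by exact_mod_cast hR
  push_cast at h5 hs
  nlinarith

theorem gries_sum_ker (f : V → ℤ) (c : Module.Dual K V) [Fintype (LinearMap.ker c)]
    (h : ftW (⊤ : Submodule K V) (fun x => (f x : ℝ)) c = 0) :
    ∑ x, f x = (Fintype.card K : ℤ) * ∑ x : LinearMap.ker c, f x := by
  classical
  have h1 := ftW_ker (fun x => (f x : ℝ)) (⊤ : Submodule K V) c
  rw [h, mul_zero, gries_sum_top] at h1
  have h2 : ∑ x ∈ sF ((⊤ : Submodule K V) ⊓ LinearMap.ker c).toAddSubgroup, (f x : ℝ) =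
      ∑ x : LinearMap.ker c, (f x : ℝ) := by
    symm
    rw [← Finset.sum_coe_sort (sF ((⊤ : Submodule K V) ⊓ LinearMap.ker c).toAddSubgroup)
      (fun x => (f x : ℝ))]
    refine Fintype.sum_equiv (Equiv.subtypeEquivRight ?_) _ _ ?_
    · intro x
      rw [mem_sF]
      simp
    · intro x
      rfl
  rw [h2] at h1
  have h3 : (∑ x, (f x : ℝ)) = (Fintype.card K : ℝ) * ∑ x : LinearMap.ker c, (f x : ℝ) := by
    linarith
  exact_mod_cast h3

theorem gries_psum (q e : ℕ) (s : Multiset ℕ) :
    psum q (Multiset.replicate e 0 + s.map (fun u => u + 1)) = e + q * psum q s := by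
  unfold psum
  rw [Multiset.map_add, Multiset.sum_add, Multiset.map_replicate, Multiset.sum_replicate,
    Multiset.map_map]
  have h : ((fun u : ℕ => (q : ℤ) ^ u) ∘ fun u => u + 1) = fun u => (q : ℤ) * (q : ℤ) ^ u := by
    funext u
    simp [pow_succ, mul_comm]
  rw [h, Multiset.sum_map_mul_left]
  simp

end griesAux

theorem gries_aux {K : Type} [Field K] [Fintype K] (d : ℕ) : ∀ (V : Type) [AddCommGroup V]
    [Module K V] [Fintype V] (f : V → ℤ), Module.finrank K V = d →
    PD (fun x => (f x : ℝ)) → Inv K f → ∀ m : ℕ, f 0 = m →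
    ∃ s : Multiset ℕ, s.card ≤ m ∧ (∀ u ∈ s, u ≤ d) ∧
      ∑ x, f x = psum (Fintype.card K) s := by
  classical
  induction d with
  | zero =>
    intro V _ _ _ f hd _ _ m hm
    have : Subsingleton V := Module.finrank_zero_iff.mp hd
    refine ⟨Multiset.replicate m 0, by simp, ?_, ?_⟩
    · intro u hu
      rw [Multiset.eq_of_mem_replicate hu]
    · rw [Fintype.sum_subsingleton _ (0 : V), hm]
      simp [psum]
  | succ d ih =>
    intro V _ _ _ f hd hpd hinv m hm
    have hnn : 0 ≤ ∑ x, f x := by
      have h1 := hpd.sum_nonneg (⊤ : Submodule K V).toAddSubgroup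
      rw [gries_sum_top] at h1
      exact_mod_cast h1
    by_cases hR : ∑ x, f x ≤ m
    · obtain ⟨r, hr⟩ := Int.eq_ofNat_of_zero_le hnn
      refine ⟨Multiset.replicate r 0, ?_, ?_, ?_⟩
      · rw [Multiset.card_replicate]
        rw [hr] at hR
        exact_mod_cast hR
      · intro u hu
        rw [Multiset.eq_of_mem_replicate hu]
        omega
      · rw [hr]
        simp [psum]
    · push Not at hR
      obtain ⟨c1, hc1, hc1m⟩ := gries_exists_small f hinv m hm hR
      have : Finite (Module.Dual K V) := Module.finite_of_finite K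
      obtain ⟨c0, hc0, hmin⟩ := Set.exists_min_image {c : Module.Dual K V | c ≠ 0}
        (fun c => ftW (⊤ : Submodule K V) (fun x => (f x : ℝ)) c) (Set.toFinite _) ⟨c1, hc1⟩
      obtain ⟨z, hz⟩ := ftW_int hinv (⊤ : Submodule K V) c0
      have hz0 : 0 ≤ z := by
        have h1 := ftW_nonneg hpd (⊤ : Submodule K V) c0
        rw [hz] at h1
        exact_mod_cast h1
      obtain ⟨e, rfl⟩ := Int.eq_ofNat_of_zero_le hz0
      have hem : e + 1 ≤ m := by
        have h1 : ftW (⊤ : Submodule K V) (fun x => (f x : ℝ)) c0 ≤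
            ftW (⊤ : Submodule K V) (fun x => (f x : ℝ)) c1 := hmin c1 hc1
        rw [hz] at h1
        have h2 : ((e : ℤ) : ℝ) ≤ (m : ℝ) - 1 := le_trans h1 hc1m
        have h3 : (e : ℤ) ≤ (m : ℤ) - 1 := by exact_mod_cast h2
        omega
      set f1 : V → ℤ := fun x => f x - (if x = 0 then (e : ℤ) else 0) with hf1
      have hinv1 : Inv K f1 := by
        intro a ha x
        show f (a • x) - (if a • x = 0 then (e : ℤ) else 0) = f x - (if x = 0 then (e : ℤ) else 0)
        rw [hinv a ha x]
        have : (a • x = 0) ↔ (x = 0) := by simp [ha]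
        simp [this]
      have hft1 : ∀ c, ftW (⊤ : Submodule K V) (fun x => (f1 x : ℝ)) c =
          ftW (⊤ : Submodule K V) (fun x => (f x : ℝ)) c - e := by
        intro c
        have := gries_ft_sub (K := K) f (e : ℤ) c
        rw [hf1]
        rw [this]
        push_cast
        rfl
      have hinv1' : Inv K (fun x => (f1 x : ℝ)) := by
        intro a ha x
        show ((f1 (a • x) : ℤ) : ℝ) = f1 x
        rw [hinv1 a ha x]
      have hpd1 : PD (fun x => (f1 x : ℝ)) := by
        apply pd_of_ft hinv1'
        intro c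
        rw [hft1]
        by_cases hc : c = 0
        · subst hc
          rw [gries_ft_zero]
          have h1 : (m : ℝ) < ∑ x, (f x : ℝ) := by exact_mod_cast hR
          have h2 : ((e : ℕ) : ℝ) + 1 ≤ m := by exact_mod_cast hem
          linarith
        · have h1 : ftW (⊤ : Submodule K V) (fun x => (f x : ℝ)) c0 ≤
            ftW (⊤ : Submodule K V) (fun x => (f x : ℝ)) c := hmin c hc
          rw [hz] at h1
          push_cast at h1
          linarith
      letI : Fintype (LinearMap.ker c0) := Fintype.ofFinite _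
      have hker : ∑ x, f1 x = (Fintype.card K : ℤ) * ∑ x : LinearMap.ker c0, f1 x := by
        apply gries_sum_ker f1 c0
        rw [hft1, hz]
        push_cast
        ring
      have hfin : Module.finrank K (LinearMap.ker c0) = d := by
        have h1 := LinearMap.finrank_range_add_finrank_ker c0
        have h2 : Module.finrank K (LinearMap.range c0) = 1 := by
          have h3 : LinearMap.range c0 = ⊤ := LinearMap.range_eq_top.mpr
            (LinearMap.surjective (fun h => hc0 h))
          rw [h3, finrank_top]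
          simp
        rw [hd, h2] at h1
        omega
      have h0 : f1 0 = ((m - e : ℕ) : ℤ) := by
        show f 0 - (if (0 : V) = 0 then (e : ℤ) else 0) = _
        rw [if_pos rfl, hm]
        have : e ≤ m := by omega
        push_cast [Nat.cast_sub this]
        ring
      obtain ⟨s, hs, hsd, hsum⟩ := ih (LinearMap.ker c0) (fun x => f1 x) hfin
        (hpd1.restr (LinearMap.ker c0).subtype.toAddMonoidHom Subtype.val_injective)
        (fun a ha x => hinv1 a ha x) (m - e) (by simpa using h0)
      refine ⟨Multiset.replicate e 0 + s.map (fun u => u + 1), ?_, ?_, ?_⟩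
      · rw [Multiset.card_add, Multiset.card_replicate, Multiset.card_map]
        omega
      · intro u hu
        rw [Multiset.mem_add] at hu
        rcases hu with hu | hu
        · rw [Multiset.eq_of_mem_replicate hu]
          omega
        · obtain ⟨v, hv, rfl⟩ := Multiset.mem_map.mp hu
          have := hsd v hv
          omega
      · rw [gries_psum, ← hsum, ← hker]
        show ∑ x, f x = (e : ℤ) + ∑ x, (f x - (if x = 0 then (e : ℤ) else 0))
        rw [Finset.sum_sub_distrib]
        simp

/-- The Griesmer bound for positive definite functions. -/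
theorem griesmer {K : Type} [Field K] [Fintype K] {V : Type} [AddCommGroup V] [Module K V]
    [Fintype V] (f : V → ℤ) (hpd : PD (fun x => (f x : ℝ))) (hinv : Inv K f) (m : ℕ)
    (hm : f 0 = m) :
    ∃ s : Multiset ℕ, s.card ≤ m ∧ (∀ u ∈ s, u ≤ Module.finrank K V) ∧
      ∑ x, f x = psum (Fintype.card K) s :=
  gries_aux _ V f rfl hpd hinv m hm

end Pool.Agent.Strip
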