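import Mathlib

open Finset

namespace Pool.Agent.Strip

section defs

variable {G : Type} [AddCommGroup G] [Fintype G]

/-- The bilinear form attached to a function on a finite abelian group. -/
def bil (f v w : G → ℝ) : ℝ := ∑ x, ∑ y, v x * w y * f (x - y)

/-- Positive definite (real, symmetric) functions on a finite abelian group. -/
structure PD (f : G → ℝ) : Prop where
  symm : ∀ x, f (-x) = f x
  nonneg : ∀ w : G → ℝ, 0 ≤ bil f w w

/-- Integer valued positive definite functions, with value `M` at `0` and at most `1`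
elsewhere. -/
structure Nu (M : ℕ) (ν : G → ℤ) : Prop where
  pd : PD (fun x => (ν x : ℝ))
  zero : ν 0 = M
  le : ∀ x, x ≠ 0 → ν x ≤ 1

open Classical in
/-- The finset of elements of a subgroup. -/
noncomputable def sF (E : AddSubgroup G) : Finset G := univ.filter (fun x => x ∈ E)

theorem mem_sF {E : AddSubgroup G} {x : G} : x ∈ sF E ↔ x ∈ E := by
  classical
  unfold sF
  rw [Finset.mem_filter]
  exact ⟨fun h => h.2, fun h => ⟨Finset.mem_univ _, h⟩⟩

theorem zero_mem_sF (E : AddSubgroup G) : (0 : G) ∈ sF E := mem_sF.mpr E.zero_mem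

theorem card_sF_pos (E : AddSubgroup G) : 0 < #(sF E) := Finset.card_pos.mpr ⟨0, zero_mem_sF E⟩

theorem card_sF (E : AddSubgroup G) : #(sF E) = Nat.card E := by
  classical
  rw [Nat.card_eq_fintype_card, Fintype.card_subtype]
  rfl

/-- Average of `f` over the coset of `x`. -/
noncomputable def av (E : AddSubgroup G) (f : G → ℝ) (x : G) : ℝ :=
  (∑ h ∈ sF E, f (x + h)) / (#(sF E) : ℝ)

open Classical in
/-- The indicator function of a subgroup. -/
noncomputable def ind (E : AddSubgroup G) (x : G) : ℤ := if x ∈ E then 1 else 0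

/-- All row averages over `A` are close to `1`. -/
def Rows (ν : G → ℤ) (A : Finset G) : Prop :=
  ∀ x ∈ A, |∑ y ∈ A, (ν (x - y) : ℝ) - (#A : ℝ)| ≤ (#A : ℝ) / 100

/-- Constants. -/
def cQ (M : ℕ) : ℕ := 2 * (M + 1) ^ 3
/-- Constants. -/
def cQ2 (M : ℕ) : ℕ := 4 * (M + 1) ^ 4
/-- Constants. -/
def cK (M : ℕ) : ℕ := 32 * (M + 1) ^ 4
/-- Constants. -/
def cNc (M : ℕ) : ℕ := 10 ^ 11 * (M + 1) ^ 9
/-- Constants. -/
def cN1 (M : ℕ) : ℕ := 10 ^ 12 * (M + 1) ^ 10
/-- Constants. -/
def cTheta (M : ℕ) : ℕ := 2 ^ (1603 * M) * (cN1 M + 800 * M ^ 2)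
/-- Constants. -/
def cT (M : ℕ) : ℕ := 4 * (M + 1) ^ 4 * cK M + 4 * cTheta M
/-- Constants. -/
def cDel (M : ℕ) : ℕ := M ^ 4 * cTheta M + M ^ 3 + 3 * cK M + 1
/-- Constants. -/
def cBig (M D : ℕ) : ℕ := cTheta M + 8 * M * cK M ^ 3 * D

/-- Clusters: subgroups `U` with a sign character `s` on which `ν` is nearly `s`, and such that
`ν` is nearly `0` on all other cosets of `U`. -/
structure IsCl (M : ℕ) (ν : G → ℤ) (U : AddSubgroup G) (s : G → ℤ) : Prop where
  sign : ∀ x ∈ U, s x = 1 ∨ s x = -1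
  mul : ∀ x ∈ U, ∀ y ∈ U, s (x + y) = s x * s y
  big : cNc M ≤ #(sF U)
  on : ∑ x ∈ sF U, (ν x - s x) ^ 2 ≤ (cK M : ℤ)
  off : ∀ y, y ∉ U → ∑ h ∈ sF U, (ν (y + h)) ^ 2 ≤ (cK M : ℤ)

end defs

section vec

/-- Invariance under nonzero scalars. -/
def Inv (K : Type) [Field K] {V α : Type} [AddCommGroup V] [Module K V] (f : V → α) : Prop :=
  ∀ a : K, a ≠ 0 → ∀ x, f (a • x) = f x

variable {K : Type} [Field K] [Fintype K] {V : Type} [AddCommGroup V] [Module K V] [Fintype V]

open Classical in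
/-- The average of all nontrivial characters: `1` at `0` and `-1/(q-1)` elsewhere. -/
noncomputable def kap (a : K) : ℝ := if a = 0 then 1 else -1 / ((Fintype.card K : ℝ) - 1)

/-- Fourier transform over a subspace `W` (for invariant functions). -/
noncomputable def ftW (W : Submodule K V) (f : V → ℝ) (c : Module.Dual K V) : ℝ :=
  ∑ x ∈ sF W.toAddSubgroup, f x * kap (c x)

/-- Sums of powers of `q` given by a multiset of exponents. -/
def psum (q : ℕ) (s : Multiset ℕ) : ℤ := (s.map (fun u => (q : ℤ) ^ u)).sum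

/-- Sums of at most `M` powers of `q`, any two with product at most `q ^ k`. -/
def Good (q k M : ℕ) (T : ℤ) : Prop :=
  ∃ r : ℕ, r ≤ M ∧ ∃ u : Fin r → ℕ, (∀ a b, a ≠ b → u a + u b ≤ k) ∧
    T = ∑ a, (q : ℤ) ^ (u a)

end vec

end Pool.Agent.Strip
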