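import Pool.Agent.Strip.Minihyper

open Finset Module
open scoped LinearAlgebra.Projectivization

namespace Pool.Agent.Strip.MH

open Classical in
/-- The theorem on point sets, in terms of existence of a point set. -/
theorem mh_iff (F : Type) [Field F] [Fintype F] (n m b M : ℕ) [Fintype (ℙ F (Fin (n + 1) → F))]
    (hm : m = Fintype.card F * b + M) (hM : 4000 * M ≤ n + 1)
    (hq : (Fintype.card F).Prime ∨
      Fintype.card F * m ≤ Fintype.card F * b + Fintype.card F ^ ((n + 1) / 2) ∨
      Fintype.card F * b + Fintype.card F ^ ((n + 2) / 2 + 4000 * M) ≤ Fintype.card F * m)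
    (hm2 : (Fintype.card F - 1) * m < Fintype.card F ^ (n + 1)) :
    (∃ U : Finset (ℙ F (Fin (n + 1) → F)), #U = m ∧
      ∀ H : Submodule F (Fin (n + 1) → F), finrank F H = n →
        b ≤ #(U.filter (fun p => p.submodule ≤ H))) ↔
    ∃ r : ℕ, r ≤ M ∧ ∃ u : Fin r → ℕ, (∀ a b, a ≠ b → u a + u b ≤ n + 1) ∧
      Fintype.card F * m = Fintype.card F * b + ∑ a, Fintype.card F ^ u a := by
  have hdim : finrank F (Fin (n + 1) → F) = n + 1 := Module.finrank_fin_fun F
  have hq2 : 2 ≤ Fintype.card F := Fintype.one_lt_card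
  constructor
  · rintro ⟨U, hU, hH⟩
    obtain ⟨ν, hν, hinv, hsum⟩ := mh_nu hdim U hU hm hH
    have hgood : Good (Fintype.card F) (finrank F (Fin (n + 1) → F)) M (∑ x, ν x) := by
      rcases hq with hp | hsmall | hlarge
      · exact struct_prime hp hν hinv (by rw [hdim]; omega)
      · apply struct_small hν hinv
        rw [hdim, hsum]
        have h1 : ((Fintype.card F * m : ℕ) : ℤ) ≤
            ((Fintype.card F * b + Fintype.card F ^ ((n + 1) / 2) : ℕ) : ℤ) := by
          exact_mod_cast hsmall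
        push_cast at h1 ⊢
        linarith
      · have hM1 : 1 ≤ M := by
          by_contra hM0
          have hM0' : M = 0 := by omega
          subst hM0'
          have h0 : ∀ x, ν x = 0 := by
            intro x
            have h1 := hν.pd.abs_le x
            rw [hν.zero] at h1
            simpa using h1
          have h1 : ∑ x, ν x = 0 := Finset.sum_eq_zero (fun x _ => h0 x)
          have h2 : ((Fintype.card F * b +
              Fintype.card F ^ ((n + 2) / 2 + 4000 * 0) : ℕ) : ℤ) ≤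
              ((Fintype.card F * m : ℕ) : ℤ) := by exact_mod_cast hlarge
          push_cast at h2
          rw [h1] at hsum
          have h3 : (0 : ℤ) < (Fintype.card F : ℤ) ^ ((n + 2) / 2 + 4000 * 0) := by
            have : (0 : ℤ) < (Fintype.card F : ℤ) := by exact_mod_cast (by omega : 0 < Fintype.card F)
            positivity
          linarith
        refine struct_large hν hinv hM1 ?_
        rw [hdim, hsum]
        have h2 : ((Fintype.card F * b +
            Fintype.card F ^ ((n + 2) / 2 + 4000 * M) : ℕ) : ℤ) ≤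
            ((Fintype.card F * m : ℕ) : ℤ) := by exact_mod_cast hlarge
        push_cast at h2
        have h3 : (n + 1 + 1) / 2 = (n + 2) / 2 := by congr 1
        rw [h3]
        linarith
    rw [hdim] at hgood
    obtain ⟨r, hr, u, hu, hT⟩ := hgood
    refine ⟨r, hr, u, hu, ?_⟩
    rw [hsum] at hT
    have h5 : ((Fintype.card F * m : ℕ) : ℤ) =
        ((Fintype.card F * b + ∑ a, Fintype.card F ^ u a : ℕ) : ℤ) := by
      push_cast at hT ⊢
      linarith
    exact_mod_cast h5
  · rintro ⟨r, hr, u, hu, hT⟩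
    obtain ⟨Q, hQ⟩ : ∃ Q, Fintype.card F = Q + 1 := ⟨Fintype.card F - 1, by omega⟩
    have huk : ∀ a, u a ≤ n + 1 := by
      intro a
      by_contra hcon
      have h1 : Fintype.card F ^ (n + 2) ≤ Fintype.card F ^ u a :=
        Nat.pow_le_pow_right (by omega) (by omega)
      have h2 : Fintype.card F ^ u a ≤ ∑ a, Fintype.card F ^ u a :=
        Finset.single_le_sum (f := fun a => Fintype.card F ^ u a)
          (fun _ _ => Nat.zero_le _) (Finset.mem_univ a)
      -- q^(n+2) ≤ q (m - b), while (q-1) m < q^(n+1)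
      have h3 : Fintype.card F * Fintype.card F ^ (n + 1) ≤ Fintype.card F * m := by
        rw [← pow_succ']
        show Fintype.card F ^ (n + 2) ≤ Fintype.card F * m
        omega
      have h4 : Fintype.card F ^ (n + 1) ≤ m := Nat.le_of_mul_le_mul_left h3 (by omega)
      have h5 : m ≤ (Fintype.card F - 1) * m := Nat.le_mul_of_pos_left m (by omega)
      omega
    have hrk : r ≤ Fintype.card F ^ ((n + 1) / 2) := by
      calc r ≤ (n + 1) / 2 := by omega
        _ ≤ 2 ^ ((n + 1) / 2) := le_of_lt (Nat.lt_two_pow_self)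
        _ ≤ Fintype.card F ^ ((n + 1) / 2) := Nat.pow_le_pow_left (by omega) _
    obtain ⟨U, hU, hdis⟩ := spread F (n + 1) r u huk hu hrk
    exact mh_constr hdim hm hr u hT U hU hdis

open Classical in
/-- The number of points on a hyperplane. -/
theorem mh_compl (F : Type) [Field F] [Fintype F] (n m a : ℕ) [Fintype (ℙ F (Fin (n + 1) → F))]
    {s t : ℕ} (hs : (Fintype.card F - 1) * s + 1 = Fintype.card F ^ n)
    (ht : (Fintype.card F - 1) * t + 1 = Fintype.card F ^ (n + 1)) (hmt : m ≤ t) :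
    (∃ U : Finset (ℙ F (Fin (n + 1) → F)), #U = m ∧
      ∀ H : Submodule F (Fin (n + 1) → F), finrank F H = n →
        #(U.filter (fun p => p.submodule ≤ H)) ≤ a) ↔
    (∃ U : Finset (ℙ F (Fin (n + 1) → F)), #U = t - m ∧
      ∀ H : Submodule F (Fin (n + 1) → F), finrank F H = n →
        s - a ≤ #(U.filter (fun p => p.submodule ≤ H))) := by
  have hq2 : 2 ≤ Fintype.card F := Fintype.one_lt_card
  have hall : #(univ : Finset (ℙ F (Fin (n + 1) → F))) = t := by
    have h1 := mh_card (F := F) (V := Fin (n + 1) → F) ⊤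
    rw [finrank_top, Module.finrank_fin_fun, ← ht] at h1
    have h2 : (Fintype.card F - 1) * #(univ.filter
        (fun p : ℙ F (Fin (n + 1) → F) => p.submodule ≤ ⊤)) = (Fintype.card F - 1) * t := by omega
    have h3 := Nat.eq_of_mul_eq_mul_left (by omega) h2
    rw [Finset.filter_true_of_mem (fun p _ => le_top)] at h3
    exact h3
  have hhyp : ∀ H : Submodule F (Fin (n + 1) → F), finrank F H = n →
      #((univ : Finset (ℙ F (Fin (n + 1) → F))).filter (fun p => p.submodule ≤ H)) = s := by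
    intro H hH
    have h1 := mh_card (F := F) H
    rw [hH, ← hs] at h1
    have h2 : (Fintype.card F - 1) * #(univ.filter
        (fun p : ℙ F (Fin (n + 1) → F) => p.submodule ≤ H)) = (Fintype.card F - 1) * s := by omega
    exact Nat.eq_of_mul_eq_mul_left (by omega) h2
  have hsplit : ∀ (U : Finset (ℙ F (Fin (n + 1) → F))) (H : Submodule F (Fin (n + 1) → F)),
      finrank F H = n → #(U.filter (fun p => p.submodule ≤ H)) +
        #(Uᶜ.filter (fun p => p.submodule ≤ H)) = s := by
    intro U H hH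
    rw [← hhyp H hH, ← Finset.card_union_of_disjoint, ← Finset.filter_union,
      Finset.union_compl]
    exact Finset.disjoint_filter_filter disjoint_compl_right
  constructor
  · rintro ⟨U, hU, h⟩
    refine ⟨Uᶜ, ?_, ?_⟩
    · rw [Finset.card_compl, ← Finset.card_univ, hall, hU]
    · intro H hH
      have h1 := h H hH
      have h2 := hsplit U H hH
      omega
  · rintro ⟨U, hU, h⟩
    refine ⟨Uᶜ, ?_, ?_⟩
    · rw [Finset.card_compl, ← Finset.card_univ, hall, hU]
      omega
    · intro H hH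
      have h1 := h H hH
      have h2 := hsplit U H hH
      omega

open Classical in
theorem mh_max_iff (F : Type) [Field F] [Fintype F] (n m b : ℕ)
    (hm2 : (Fintype.card F - 1) * m < Fintype.card F ^ (n + 1)) :
    b ≤ sSup {b : ℕ | ∃ U : Finset (ℙ F (Fin (n + 1) → F)), #U = m ∧
      IsLeast {c : ℕ | ∃ H : Submodule F (Fin (n + 1) → F), finrank F H = n ∧
        #(U.filter (fun p => p.submodule ≤ H)) = c} b} ↔
    (∃ U : Finset (ℙ F (Fin (n + 1) → F)), #U = m ∧
      ∀ H : Submodule F (Fin (n + 1) → F), finrank F H = n →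
        b ≤ #(U.filter (fun p => p.submodule ≤ H))) := by
  letI : Fintype (ℙ F (Fin (n + 1) → F)) := Fintype.ofFinite _
  have hq2 : 2 ≤ Fintype.card F := Fintype.one_lt_card
  obtain ⟨H0, hH0⟩ := spread_sub F (V := Fin (n + 1) → F) (d := n)
    (by rw [Module.finrank_fin_fun]; omega)
  have hex : ∀ U : Finset (ℙ F (Fin (n + 1) → F)), ∃ c,
      IsLeast {c : ℕ | ∃ H : Submodule F (Fin (n + 1) → F), finrank F H = n ∧
        #(U.filter (fun p => p.submodule ≤ H)) = c} c := by
    intro U
    exact ⟨_, Nat.sInf_mem ⟨_, H0, hH0, rfl⟩, fun x hx => Nat.sInf_le hx⟩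
  have hbdd : BddAbove {b : ℕ | ∃ U : Finset (ℙ F (Fin (n + 1) → F)), #U = m ∧
      IsLeast {c : ℕ | ∃ H : Submodule F (Fin (n + 1) → F), finrank F H = n ∧
        #(U.filter (fun p => p.submodule ≤ H)) = c} b} := by
    refine ⟨m, ?_⟩
    rintro b ⟨U, hU, ⟨H, _, hc⟩, _⟩
    rw [← hc, ← hU]
    exact Finset.card_filter_le _ _
  have hne : ∃ U : Finset (ℙ F (Fin (n + 1) → F)), #U = m := by
    have h1 := mh_card (F := F) (V := Fin (n + 1) → F) ⊤
    rw [finrank_top, Module.finrank_fin_fun,
      Finset.filter_true_of_mem (fun p _ => le_top)] at h1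
    have h2 : (Fintype.card F - 1) * m ≤
        (Fintype.card F - 1) * #(univ : Finset (ℙ F (Fin (n + 1) → F))) := by omega
    have h3 : m ≤ #(univ : Finset (ℙ F (Fin (n + 1) → F))) :=
      Nat.le_of_mul_le_mul_left h2 (by omega)
    obtain ⟨U, _, hU⟩ := Finset.exists_subset_card_eq h3
    exact ⟨U, hU⟩
  constructor
  · intro h
    obtain ⟨U0, hU0⟩ := hne
    obtain ⟨c0, hc0⟩ := hex U0
    have hmem := Nat.sSup_mem (s := {b : ℕ | ∃ U : Finset (ℙ F (Fin (n + 1) → F)), #U = m ∧
      IsLeast {c : ℕ | ∃ H : Submodule F (Fin (n + 1) → F), finrank F H = n ∧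
        #(U.filter (fun p => p.submodule ≤ H)) = c} b}) ⟨c0, U0, hU0, hc0⟩ hbdd
    obtain ⟨U, hU, hleast⟩ := hmem
    exact ⟨U, hU, fun H hH => h.trans (hleast.2 ⟨H, hH, rfl⟩)⟩
  · rintro ⟨U, hU, h⟩
    obtain ⟨c, hc⟩ := hex U
    have h1 : b ≤ c := by
      obtain ⟨⟨H, hH, hHc⟩, _⟩ := hc
      rw [← hHc]
      exact h H hH
    exact h1.trans (le_csSup hbdd ⟨U, hU, hc⟩)

open Classical in
theorem mh_min_iff (F : Type) [Field F] [Fintype F] (n m a : ℕ)
    (hm2 : (Fintype.card F - 1) * m < Fintype.card F ^ (n + 1)) :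
    sInf {a : ℕ | ∃ U : Finset (ℙ F (Fin (n + 1) → F)), #U = m ∧
      IsGreatest {c : ℕ | ∃ H : Submodule F (Fin (n + 1) → F), finrank F H = n ∧
        #(U.filter (fun p => p.submodule ≤ H)) = c} a} ≤ a ↔
    (∃ U : Finset (ℙ F (Fin (n + 1) → F)), #U = m ∧
      ∀ H : Submodule F (Fin (n + 1) → F), finrank F H = n →
        #(U.filter (fun p => p.submodule ≤ H)) ≤ a) := by
  letI : Fintype (ℙ F (Fin (n + 1) → F)) := Fintype.ofFinite _
  have hq2 : 2 ≤ Fintype.card F := Fintype.one_lt_card
  obtain ⟨H0, hH0⟩ := spread_sub F (V := Fin (n + 1) → F) (d := n)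
    (by rw [Module.finrank_fin_fun]; omega)
  have hex : ∀ U : Finset (ℙ F (Fin (n + 1) → F)), ∃ c,
      IsGreatest {c : ℕ | ∃ H : Submodule F (Fin (n + 1) → F), finrank F H = n ∧
        #(U.filter (fun p => p.submodule ≤ H)) = c} c := by
    intro U
    have hb : BddAbove {c : ℕ | ∃ H : Submodule F (Fin (n + 1) → F), finrank F H = n ∧
        #(U.filter (fun p => p.submodule ≤ H)) = c} := by
      refine ⟨#U, ?_⟩
      rintro c ⟨H, _, hc⟩
      rw [← hc]
      exact Finset.card_filter_le _ _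
    exact ⟨_, Nat.sSup_mem ⟨_, H0, hH0, rfl⟩ hb, fun x hx => le_csSup hb hx⟩
  have hne : ∃ U : Finset (ℙ F (Fin (n + 1) → F)), #U = m := by
    have h1 := mh_card (F := F) (V := Fin (n + 1) → F) ⊤
    rw [finrank_top, Module.finrank_fin_fun,
      Finset.filter_true_of_mem (fun p _ => le_top)] at h1
    have h2 : (Fintype.card F - 1) * m ≤
        (Fintype.card F - 1) * #(univ : Finset (ℙ F (Fin (n + 1) → F))) := by omega
    have h3 : m ≤ #(univ : Finset (ℙ F (Fin (n + 1) → F))) :=
      Nat.le_of_mul_le_mul_left h2 (by omega)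
    obtain ⟨U, _, hU⟩ := Finset.exists_subset_card_eq h3
    exact ⟨U, hU⟩
  constructor
  · intro h
    obtain ⟨U0, hU0⟩ := hne
    obtain ⟨c0, hc0⟩ := hex U0
    have hmem := Nat.sInf_mem (s := {a : ℕ | ∃ U : Finset (ℙ F (Fin (n + 1) → F)), #U = m ∧
      IsGreatest {c : ℕ | ∃ H : Submodule F (Fin (n + 1) → F), finrank F H = n ∧
        #(U.filter (fun p => p.submodule ≤ H)) = c} a}) ⟨c0, U0, hU0, hc0⟩
    obtain ⟨U, hU, hgreat⟩ := hmem
    exact ⟨U, hU, fun H hH => (hgreat.2 ⟨H, hH, rfl⟩).trans h⟩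
  · rintro ⟨U, hU, h⟩
    obtain ⟨c, hc⟩ := hex U
    have h1 : c ≤ a := by
      obtain ⟨⟨H, hH, hHc⟩, _⟩ := hc
      rw [← hHc]
      exact h H hH
    refine le_trans (Nat.sInf_le ?_) h1
    exact ⟨U, hU, hc⟩

end Pool.Agent.Strip.MH
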