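import Mathlib

open Finset Module

namespace Pool.Agent.Strip

theorem spread_inj (F : Type) [Field F] {V W : Type} [AddCommGroup V] [Module F V]
    [FiniteDimensional F V] [AddCommGroup W] [Module F W] [FiniteDimensional F W]
    (h : finrank F V ≤ finrank F W) : ∃ f : V →ₗ[F] W, Function.Injective f := by
  let b := finBasis F W
  apply Module.Free.exists_linearMap_injective_of_linearIndependent_of_rank_le b.linearIndependent
  rw [← finrank_eq_rank, Cardinal.mk_fin]
  exact_mod_cast h

theorem spread_sub (F : Type) [Field F] {V : Type} [AddCommGroup V] [Module F V]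
    [FiniteDimensional F V] {d : ℕ} (h : d ≤ finrank F V) :
    ∃ W : Submodule F V, finrank F W = d := by
  obtain ⟨f, hf⟩ := spread_inj F (V := Fin d → F) (W := V) (by simpa using h)
  refine ⟨LinearMap.range f, ?_⟩
  rw [LinearMap.finrank_range_of_inj hf]
  simp

/-- the spread inside `L × Y` -/
theorem spread_aux (F : Type) [Field F] [Finite F] (l y r : ℕ) (hl : l ≠ 0) (hy : y ≤ l)
    (u : Fin r → ℕ) (a₀ : Fin r) (h0 : u a₀ ≤ l) (hu : ∀ a, a ≠ a₀ → u a ≤ y)
    (hr : r ≤ Nat.card F ^ l) :
    ∃ (V : Type) (_ : AddCommGroup V) (_ : Module F V) (_ : FiniteDimensional F V)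
      (U : Fin r → Submodule F V), finrank F V = l + y ∧ (∀ a, finrank F (U a) = u a) ∧
      ∀ a b, a ≠ b → U a ⊓ U b = ⊥ := by
  classical
  obtain ⟨p, hp⟩ := CharP.exists F
  have hprime : Fact p.Prime := ⟨CharP.char_is_prime F p⟩
  have hnz : NeZero l := ⟨hl⟩
  let L := FiniteField.Extension F p l
  have hL : finrank F L = l := FiniteField.finrank_extension F p l
  have hLc : Nat.card L = Nat.card F ^ l := FiniteField.natCard_extension F p l
  obtain ⟨Y, hY⟩ := spread_sub F (V := L) (d := y) (by rw [hL]; exact hy)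
  have hfinL : FiniteDimensional F L := inferInstance
  -- distinct scalars
  have := Fintype.ofFinite L
  obtain ⟨lam, hlam⟩ : ∃ lam : Fin r → L, Function.Injective lam := by
    have h1 : Fintype.card (Fin r) ≤ Fintype.card L := by
      rw [Fintype.card_fin, ← Nat.card_eq_fintype_card, hLc]
      exact hr
    obtain ⟨e⟩ := Function.Embedding.nonempty_of_card_le h1
    exact ⟨e, e.injective⟩
  -- the subspaces
  obtain ⟨X, hX⟩ := spread_sub F (V := L) (d := u a₀) (by rw [hL]; exact h0)
  have hZ : ∀ a, ∃ Z : Submodule F Y, a ≠ a₀ → finrank F Z = u a := by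
    intro a
    by_cases ha : a = a₀
    · exact ⟨⊥, fun h => absurd ha h⟩
    · obtain ⟨Z, hZ⟩ := spread_sub F (V := Y) (d := u a) (by rw [hY]; exact hu a ha)
      exact ⟨Z, fun _ => hZ⟩
  choose Z hZ using hZ
  let g : Fin r → (Y →ₗ[F] L × Y) := fun a =>
    LinearMap.prod ((LinearMap.mulLeft F (lam a)).comp Y.subtype) LinearMap.id
  have hg : ∀ a z, g a z = (lam a * (z : L), z) := fun a z => rfl
  have hginj : ∀ a, Function.Injective (g a) := by
    intro a z z' h
    rw [hg, hg] at h
    exact congrArg Prod.snd h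
  let U : Fin r → Submodule F (L × Y) := fun a =>
    if a = a₀ then X.map (LinearMap.inl F L Y) else (Z a).map (g a)
  have hdis : ∀ a b, a ≠ b → ∀ v, v ∈ U a → v ∈ U b → v = 0 := by
    have key1 : ∀ b, b ≠ a₀ → ∀ v, v ∈ U a₀ → v ∈ U b → v = 0 := by
      intro b hb v hv hv'
      simp only [U, if_true] at hv
      simp only [U, if_neg hb] at hv'
      obtain ⟨x, -, rfl⟩ := hv
      obtain ⟨z, -, hz⟩ := hv'
      rw [hg] at hz
      have h1 : z = 0 := congrArg Prod.snd hz
      rw [h1] at hz
      rw [← hz]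
      simp
    have key2 : ∀ a b, a ≠ a₀ → b ≠ a₀ → a ≠ b → ∀ v, v ∈ U a → v ∈ U b → v = 0 := by
      intro a b ha hb hab v hv hv'
      simp only [U, if_neg ha] at hv
      simp only [U, if_neg hb] at hv'
      obtain ⟨z, -, rfl⟩ := hv
      obtain ⟨z', -, hz⟩ := hv'
      rw [hg, hg] at hz
      have h1 : z' = z := congrArg Prod.snd hz
      have h2 : lam b * (z' : L) = lam a * (z : L) := congrArg Prod.fst hz
      rw [h1] at h2
      have h3 : (lam b - lam a) * (z : L) = 0 := by rw [sub_mul, h2, sub_self]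
      rcases mul_eq_zero.mp h3 with h4 | h4
      · exact absurd (hlam (sub_eq_zero.mp h4)) hab.symm
      · have h5 : z = 0 := Subtype.ext h4
        rw [h5, map_zero]
    intro a b hab v hv hv'
    by_cases ha : a = a₀
    · subst ha
      exact key1 b hab.symm v hv hv'
    · by_cases hb : b = a₀
      · subst hb
        exact key1 a hab v hv' hv
      · exact key2 a b ha hb hab v hv hv'
  refine ⟨L × Y, inferInstance, inferInstance, inferInstance, U, ?_, ?_, ?_⟩
  · rw [finrank_prod, hL, hY]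
  · intro a
    by_cases ha : a = a₀
    · subst ha
      have h1 : U a = X.map (LinearMap.inl F L Y) := if_pos rfl
      rw [h1, ← hX]
      exact (Submodule.equivMapOfInjective (LinearMap.inl F L Y)
        LinearMap.inl_injective X).symm.finrank_eq
    · have h1 : U a = (Z a).map (g a) := if_neg ha
      rw [h1, ← hZ a ha]
      exact (Submodule.equivMapOfInjective _ (hginj a) (Z a)).symm.finrank_eq
  · intro a b hab
    rw [eq_bot_iff]
    rintro v ⟨hv, hv'⟩
    exact hdis a b hab v hv hv'

/-- Spreads with prescribed dimensions. -/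
theorem spread (F : Type) [Field F] [Fintype F] (k r : ℕ) (u : Fin r → ℕ)
    (hu : ∀ a, u a ≤ k) (hpair : ∀ a b, a ≠ b → u a + u b ≤ k)
    (hr : r ≤ Fintype.card F ^ (k / 2)) :
    ∃ U : Fin r → Submodule F (Fin k → F), (∀ a, finrank F (U a) = u a) ∧
      ∀ a b, a ≠ b → U a ⊓ U b = ⊥ := by
  classical
  by_cases hall : ∀ a, u a = 0
  · exact ⟨fun _ => ⊥, fun a => by rw [hall a]; simp, fun a b _ => by simp⟩
  push Not at hall
  obtain ⟨a₁, ha₁⟩ := hall
  have hne : Nonempty (Fin r) := ⟨a₁⟩
  obtain ⟨a₀, ha₀⟩ := Finite.exists_max u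
  have hpos : 1 ≤ u a₀ := by
    have := ha₀ a₁
    omega
  have hr' : r ≤ Nat.card F ^ (k / 2) := by rw [Nat.card_eq_fintype_card]; exact hr
  have hq : 1 ≤ Nat.card F := Nat.card_pos
  have key : ∃ l y : ℕ, l ≠ 0 ∧ y ≤ l ∧ u a₀ ≤ l ∧ (∀ a, a ≠ a₀ → u a ≤ y) ∧ k / 2 ≤ l ∧
      l + y ≤ k := by
    by_cases hc : u a₀ ≤ k / 2
    · refine ⟨k / 2, k / 2, by omega, le_refl _, hc, ?_, le_refl _, by omega⟩
      intro a _
      exact (ha₀ a).trans hc
    · refine ⟨u a₀, k - u a₀, by omega, by omega, le_refl _, ?_, by omega, ?_⟩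
      · intro a ha
        have := hpair a a₀ ha
        omega
      · have := hu a₀
        omega
  obtain ⟨l, y, hl, hy, h0, h1, h2, h3⟩ := key
  obtain ⟨V, i1, i2, i3, U, hV, hU1, hU2⟩ := spread_aux F l y r hl hy u a₀ h0 h1
    (hr'.trans (Nat.pow_le_pow_right hq h2))
  obtain ⟨f, hf⟩ := spread_inj F (V := V) (W := Fin k → F) (by
    rw [hV]; simpa using h3)
  refine ⟨fun a => (U a).map f, ?_, ?_⟩
  · intro a
    rw [← hU1 a]
    exact (Submodule.equivMapOfInjective f hf (U a)).symm.finrank_eq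
  · intro a b hab
    rw [← Submodule.map_inf _ hf, hU2 a b hab, Submodule.map_bot]

end Pool.Agent.Strip
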