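import Pool.Agent.Strip.Ft2

open Finset Module

namespace Pool.Agent.Strip

section trans

variable {F : Type} [Field F] [Fintype F]

theorem trans_one_lt : (1 : ℝ) < (Fintype.card F : ℝ) := by
  exact_mod_cast Fintype.one_lt_card (α := F)

theorem trans_kap_zero : kap (0 : F) = 1 := by
  unfold kap
  rw [if_pos rfl]

theorem trans_kap_ne {a : F} (ha : a ≠ 0) : kap a = -1 / ((Fintype.card F : ℝ) - 1) := by
  unfold kap
  rw [if_neg ha]

theorem trans_card_units [DecidableEq F] :
    (Fintype.card Fˣ : ℝ) = (Fintype.card F : ℝ) - 1 := by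
  rw [Fintype.card_units, Nat.cast_sub Fintype.card_pos, Nat.cast_one]

theorem trans_sum_units [DecidableEq F] (b : F) :
    ∑ a : Fˣ, kap ((a : F) * b) =
      if b = 0 then (Fintype.card F : ℝ) - 1 else -1 := by
  have h1 := trans_one_lt (F := F)
  by_cases hb : b = 0
  · rw [if_pos hb, hb]
    simp only [mul_zero, trans_kap_zero, Finset.sum_const, Finset.card_univ, nsmul_eq_mul,
      mul_one]
    exact trans_card_units
  · rw [if_neg hb]
    have h2 : ∀ a : Fˣ, kap ((a : F) * b) = -1 / ((Fintype.card F : ℝ) - 1) :=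
      fun a => trans_kap_ne (mul_ne_zero a.ne_zero hb)
    have h3 : (Fintype.card F : ℝ) - 1 ≠ 0 := by linarith
    rw [Finset.sum_congr rfl (fun a _ => h2 a), Finset.sum_const, Finset.card_univ, nsmul_eq_mul,
      trans_card_units, mul_div_assoc', mul_neg_one, neg_div, div_self h3]

theorem trans_sum_kap : ∑ t : F, kap t = 0 := by
  classical
  have h1 := trans_one_lt (F := F)
  rw [← Finset.add_sum_erase Finset.univ (fun t : F => kap t) (Finset.mem_univ (0 : F))]
  have h2 : ∑ t ∈ Finset.univ.erase (0 : F), kap t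
      = ∑ t ∈ Finset.univ.erase (0 : F), (-1 / ((Fintype.card F : ℝ) - 1)) :=
    Finset.sum_congr rfl (fun t ht => trans_kap_ne (Finset.ne_of_mem_erase ht))
  rw [h2, Finset.sum_const, Finset.card_erase_of_mem (Finset.mem_univ _), Finset.card_univ,
    nsmul_eq_mul, trans_kap_zero, Nat.cast_sub Fintype.card_pos, Nat.cast_one]
  have h3 : (Fintype.card F : ℝ) - 1 ≠ 0 := by linarith
  field_simp
  ring

open Classical in
theorem trans_sum_kap_dual {V : Type} [AddCommGroup V] [Module F V] [Fintype V]
    (c : Dual F V) : ∑ x : V, kap (c x) = if c = 0 then (Fintype.card V : ℝ) else 0 := by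
  by_cases hc : c = 0
  · rw [if_pos hc, hc]
    simp only [LinearMap.zero_apply, trans_kap_zero, Finset.sum_const, Finset.card_univ,
      nsmul_eq_mul, mul_one]
  · rw [if_neg hc]
    obtain ⟨x0, hx0⟩ : ∃ x0, c x0 ≠ 0 := by
      by_contra hcon
      push Not at hcon
      exact hc (LinearMap.ext hcon)
    have h1 : ∀ t : F, ∑ x : V, kap (c x) = ∑ x : V, kap (c x + t * c x0) := by
      intro t
      rw [← Equiv.sum_comp (Equiv.addRight (t • x0)) (fun x : V => kap (c x))]
      refine Finset.sum_congr rfl (fun x _ => ?_)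
      simp
    have h2 : (Fintype.card F : ℝ) * ∑ x : V, kap (c x) = 0 := by
      calc (Fintype.card F : ℝ) * ∑ x : V, kap (c x)
          = ∑ t : F, ∑ x : V, kap (c x) := by
            rw [Finset.sum_const, Finset.card_univ, nsmul_eq_mul]
        _ = ∑ t : F, ∑ x : V, kap (c x + t * c x0) := Finset.sum_congr rfl (fun t _ => h1 t)
        _ = ∑ x : V, ∑ t : F, kap (c x + t * c x0) := Finset.sum_comm
        _ = ∑ x : V, (0 : ℝ) := by
            refine Finset.sum_congr rfl (fun x _ => ?_)
            rw [← trans_sum_kap (F := F),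
              ← Equiv.sum_comp ((Equiv.mulRight₀ (c x0) hx0).trans (Equiv.addLeft (c x)))
                (fun t : F => kap t)]
            rfl
        _ = 0 := Finset.sum_const_zero
    have h3 : (Fintype.card F : ℝ) ≠ 0 := by
      have := trans_one_lt (F := F)
      linarith
    exact (mul_eq_zero.mp h2).resolve_left h3

end trans

/-- From a code to a positive definite function. -/
theorem of_code {F : Type} [Field F] [Fintype F] [DecidableEq F] {n d j : ℕ}
    (C : Submodule F (Fin n → F)) [Fintype (Dual F C)]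
    (hC : ∀ x ∈ C, x ≠ 0 → d ≤ hammingNorm x)
    (hj : (Fintype.card F - 1) * n = Fintype.card F * d + j)
    (hd : Fintype.card F * d ≤ Fintype.card F ^ finrank F C) :
    ∃ M : ℕ, M ≤ j + 1 ∧ ∃ ν : Dual F C → ℤ, Nu M ν ∧ Inv F ν ∧
      ∑ x, ν x = (Fintype.card F : ℤ) ^ finrank F C - Fintype.card F * d := by
  classical
  let e : Fin n → Dual F C := fun i => (LinearMap.proj i).comp C.subtype
  have he : ∀ (i : Fin n) (v : C), e i v = (v : Fin n → F) i := fun i v => rfl
  let φ : Fin n × Fˣ → Dual F C := fun ia => (ia.2 : F) • e ia.1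
  let cnt : Dual F C → ℕ := fun x => #(univ.filter (fun ia => φ ia = x))
  let ν : Dual F C → ℤ := fun x => 1 + (if x = 0 then (j : ℤ) else 0) - cnt x
  have hν : ∀ x, ν x = 1 + (if x = 0 then (j : ℤ) else 0) - cnt x := fun x => rfl
  have hcardV : Fintype.card (Dual F C) = Fintype.card F ^ finrank F C := by
    rw [Module.card_eq_pow_finrank (K := F) (V := Dual F C), Subspace.dual_finrank_eq]
  have hq1 : 1 ≤ Fintype.card F := Fintype.card_pos
  have hjR : ((Fintype.card F : ℝ) - 1) * n = Fintype.card F * d + j := by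
    have : (((Fintype.card F - 1) * n : ℕ) : ℝ) = ((Fintype.card F * d + j : ℕ) : ℝ) := by
      rw [hj]
    rw [Nat.cast_mul, Nat.cast_sub hq1, Nat.cast_one, Nat.cast_add, Nat.cast_mul] at this
    exact this
  -- general counting identity
  have hfib : ∀ g : Dual F C → ℝ, ∑ x, (cnt x : ℝ) * g x = ∑ i : Fin n, ∑ a : Fˣ, g ((a : F) • e i) := by
    intro g
    rw [← Fintype.sum_prod_type' (fun (i : Fin n) (a : Fˣ) => g ((a : F) • e i)),
      ← Finset.sum_fiberwise Finset.univ φ]
    refine Finset.sum_congr rfl (fun x _ => ?_)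
    rw [Finset.sum_congr rfl (g := fun _ => g x)]
    · rw [Finset.sum_const, nsmul_eq_mul]
    · intro ia hia
      rw [Finset.mem_filter] at hia
      rw [← hia.2]
  -- invariance
  have hinv : Inv F ν := by
    intro a ha x
    have h1 : cnt (a • x) = cnt x := by
      refine Finset.card_bij (fun ia _ => (ia.1, (Units.mk0 a ha)⁻¹ * ia.2)) ?_ ?_ ?_
      · intro ia hia
        rw [Finset.mem_filter] at hia ⊢
        refine ⟨Finset.mem_univ _, ?_⟩
        have h2 : (ia.2 : F) • e ia.1 = a • x := hia.2
        change (((Units.mk0 a ha)⁻¹ * ia.2 : Fˣ) : F) • e ia.1 = x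
        rw [Units.val_mul, mul_smul, h2, ← mul_smul, Units.val_inv_eq_inv_val, Units.val_mk0,
          inv_mul_cancel₀ ha, one_smul]
      · intro ia _ ib _ h
        rw [Prod.mk.injEq] at h
        exact Prod.ext h.1 (mul_left_cancel h.2)
      · intro ib hib
        rw [Finset.mem_filter] at hib
        have h2 : (ib.2 : F) • e ib.1 = x := hib.2
        refine ⟨(ib.1, Units.mk0 a ha * ib.2), ?_, ?_⟩
        · rw [Finset.mem_filter]
          refine ⟨Finset.mem_univ _, ?_⟩
          change ((Units.mk0 a ha * ib.2 : Fˣ) : F) • e ib.1 = a • x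
          rw [Units.val_mul, mul_smul, h2, Units.val_mk0]
        · exact Prod.ext rfl (inv_mul_cancel_left _ _)
    have h2 : (a • x = 0) ↔ (x = 0) := by
      rw [smul_eq_zero]
      exact ⟨fun h => h.resolve_left ha, fun h => Or.inr h⟩
    rw [hν, hν, h1]
    by_cases hx : x = 0
    · rw [if_pos hx, if_pos (h2.mpr hx)]
    · rw [if_neg hx, if_neg (fun h => hx (h2.mp h))]
  -- the Fourier transform
  have hft : ∀ c : Dual F (Dual F C), 0 ≤ ftW (⊤ : Submodule F (Dual F C)) (fun x => (ν x : ℝ)) c := by
    intro c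
    obtain ⟨v, rfl⟩ := (evalEquiv F C).surjective c
    have htop : sF (⊤ : Submodule F (Dual F C)).toAddSubgroup = Finset.univ := by
      ext x
      simp [mem_sF]
    unfold ftW
    rw [htop]
    have h1 : ∀ x : Dual F C, (ν x : ℝ) * kap ((evalEquiv F C v) x) = kap ((evalEquiv F C v) x)
        + (if x = 0 then (j : ℝ) * kap ((evalEquiv F C v) x) else 0)
        - (cnt x : ℝ) * kap ((evalEquiv F C v) x) := by
      intro x
      rw [hν]
      split_ifs with hx
      · push_cast; ring
      · push_cast; ring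
    rw [Finset.sum_congr rfl (fun x _ => h1 x), Finset.sum_sub_distrib, Finset.sum_add_distrib,
      Finset.sum_ite_eq' Finset.univ (0 : Dual F C)
        (fun x => (j : ℝ) * kap ((evalEquiv F C v) x)),
      if_pos (Finset.mem_univ _), map_zero, trans_kap_zero, mul_one, hfib, trans_sum_kap_dual]
    have h2 : ∀ i : Fin n, ∑ a : Fˣ, kap ((evalEquiv F C v) ((a : F) • e i))
        = (if (v : Fin n → F) i = 0 then (Fintype.card F : ℝ) else 0) - 1 := by
      intro i
      have h3 : ∀ a : Fˣ, (evalEquiv F C v) ((a : F) • e i) = (a : F) * (v : Fin n → F) i := by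
        intro a
        rw [map_smul, smul_eq_mul]
        rfl
      rw [Finset.sum_congr rfl (fun a _ => congrArg kap (h3 a)), trans_sum_units]
      split_ifs <;> ring
    rw [Finset.sum_congr rfl (fun i _ => h2 i), Finset.sum_sub_distrib, ← Finset.sum_filter,
      Finset.sum_const, Finset.sum_const, Finset.card_univ, Fintype.card_fin, nsmul_eq_mul,
      nsmul_eq_mul, mul_one]
    have h4 : (#(univ.filter (fun i : Fin n => (v : Fin n → F) i = 0)) : ℝ)
        + (hammingNorm (v : Fin n → F) : ℝ) = n := by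
      have h5 := Finset.card_filter_add_card_filter_not (s := (Finset.univ : Finset (Fin n)))
        (fun i : Fin n => (v : Fin n → F) i = 0)
      rw [Finset.card_univ, Fintype.card_fin] at h5
      have h6 : hammingNorm (v : Fin n → F)
          = #(univ.filter (fun i : Fin n => ¬ (v : Fin n → F) i = 0)) := rfl
      rw [h6]
      exact_mod_cast h5
    have h5 : (#(univ.filter (fun i : Fin n => (v : Fin n → F) i = 0)) : ℝ)
        = n - (hammingNorm (v : Fin n → F) : ℝ) := by linarith
    rw [h5]
    by_cases hv : v = 0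
    · have hv0 : (evalEquiv F C) v = 0 := by rw [hv, map_zero]
      rw [if_pos hv0, hcardV]
      have h6 : (hammingNorm (v : Fin n → F) : ℝ) = 0 := by
        rw [hv]; simp
      rw [h6]
      have h7 : ((Fintype.card F * d : ℕ) : ℝ) ≤ ((Fintype.card F ^ finrank F C : ℕ) : ℝ) := by
        exact_mod_cast hd
      push_cast at h7 ⊢
      linarith
    · have hv0 : (evalEquiv F C) v ≠ 0 := by
        intro h
        exact hv ((evalEquiv F C).map_eq_zero_iff.mp h)
      rw [if_neg hv0]
      have h6 : d ≤ hammingNorm (v : Fin n → F) := by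
        apply hC _ v.2
        intro h
        exact hv (Subtype.ext h)
      have h7 : (d : ℝ) ≤ (hammingNorm (v : Fin n → F) : ℝ) := by exact_mod_cast h6
      have h8 : (Fintype.card F : ℝ) * d ≤ Fintype.card F * (hammingNorm (v : Fin n → F) : ℝ) :=
        mul_le_mul_of_nonneg_left h7 (Nat.cast_nonneg _)
      linarith
  have hinvR : Inv F (fun x => (ν x : ℝ)) := by
    intro a ha x
    exact congrArg (fun z : ℤ => (z : ℝ)) (hinv a ha x)
  have hpd : PD (fun x => (ν x : ℝ)) := pd_of_ft hinvR hft
  have h0 : 0 ≤ ν 0 := by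
    have := hpd.zero_nonneg
    exact_mod_cast this
  have h0le : ν 0 ≤ j + 1 := by
    rw [hν, if_pos rfl]
    have : (0 : ℤ) ≤ (cnt 0 : ℤ) := Int.natCast_nonneg _
    linarith
  refine ⟨(ν 0).toNat, ?_, ν, ⟨hpd, ?_, ?_⟩, hinv, ?_⟩
  · have h1 : ((ν 0).toNat : ℤ) = ν 0 := Int.toNat_of_nonneg h0
    have h2 : ((ν 0).toNat : ℤ) ≤ ((j + 1 : ℕ) : ℤ) := by
      rw [h1]; push_cast; exact h0le
    exact_mod_cast h2
  · exact (Int.toNat_of_nonneg h0).symm
  · intro x hx
    rw [hν, if_neg hx]
    have : (0 : ℤ) ≤ (cnt x : ℤ) := Int.natCast_nonneg _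
    linarith
  · have h1 : ∑ x, (ν x : ℝ) = (Fintype.card F : ℝ) ^ finrank F C - Fintype.card F * d := by
      have h2 : ∀ x : Dual F C, (ν x : ℝ) = 1 + (if x = 0 then (j : ℝ) else 0)
          - (cnt x : ℝ) * 1 := by
        intro x
        rw [hν]
        split_ifs
        · push_cast; ring
        · push_cast; ring
      rw [Finset.sum_congr rfl (fun x _ => h2 x), Finset.sum_sub_distrib,
        Finset.sum_add_distrib, Finset.sum_ite_eq' Finset.univ (0 : Dual F C) (fun _ => (j : ℝ)),
        if_pos (Finset.mem_univ _), hfib (fun _ => 1)]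
      simp only [Finset.sum_const, Finset.card_univ, Fintype.card_fin, nsmul_eq_mul, mul_one]
      rw [trans_card_units, hcardV]
      push_cast
      linarith
    exact_mod_cast h1

end Pool.Agent.Strip
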