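import Pool.Agent.Strip.Defs

open Finset

namespace Pool.Agent.Strip

variable {G : Type} [AddCommGroup G] [Fintype G]

theorem bil_add_left (f v v' w : G → ℝ) :
    bil f (fun x => v x + v' x) w = bil f v w + bil f v' w := by
  unfold bil
  rw [← Finset.sum_add_distrib]
  refine Finset.sum_congr rfl (fun x _ => ?_)
  rw [← Finset.sum_add_distrib]
  refine Finset.sum_congr rfl (fun y _ => ?_)
  ring

theorem bil_smul_left (f v w : G → ℝ) (a : ℝ) :
    bil f (fun x => a * v x) w = a * bil f v w := by
  unfold bil
  rw [Finset.mul_sum]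
  refine Finset.sum_congr rfl (fun x _ => ?_)
  rw [Finset.mul_sum]
  refine Finset.sum_congr rfl (fun y _ => ?_)
  ring

theorem bil_comm {f : G → ℝ} (hf : ∀ x, f (-x) = f x) (v w : G → ℝ) :
    bil f v w = bil f w v := by
  unfold bil
  rw [Finset.sum_comm]
  refine Finset.sum_congr rfl (fun x _ => Finset.sum_congr rfl (fun y _ => ?_))
  have h1 : f (y - x) = f (x - y) := by rw [← hf (x - y), neg_sub]
  rw [h1]
  ring

theorem bil_add_right {f : G → ℝ} (hf : ∀ x, f (-x) = f x) (v w w' : G → ℝ) :
    bil f v (fun x => w x + w' x) = bil f v w + bil f v w' := by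
  rw [bil_comm hf, bil_add_left, bil_comm hf w, bil_comm hf w']

theorem bil_smul_right {f : G → ℝ} (hf : ∀ x, f (-x) = f x) (v w : G → ℝ) (a : ℝ) :
    bil f v (fun x => a * w x) = a * bil f v w := by
  rw [bil_comm hf, bil_smul_left, bil_comm hf w]

/-- `f 0` is the value of the form at a point mass. -/
theorem bil_single [DecidableEq G] (f w : G → ℝ) (z : G) :
    bil f (fun x => if x = z then 1 else 0) w = ∑ y, w y * f (z - y) := by
  unfold bil
  rw [Finset.sum_eq_single z]
  · refine Finset.sum_congr rfl (fun y _ => ?_)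
    beta_reduce
    rw [if_pos rfl, one_mul]
  · intro x _ hx
    refine Finset.sum_eq_zero (fun y _ => ?_)
    beta_reduce
    rw [if_neg hx]; ring
  · intro h; exact absurd (Finset.mem_univ _) h

theorem bil_single_single [DecidableEq G] (f : G → ℝ) (z z' : G) :
    bil f (fun x => if x = z then 1 else 0) (fun x => if x = z' then 1 else 0) = f (z - z') := by
  rw [bil_single, Finset.sum_eq_single z']
  · rw [if_pos rfl, one_mul]
  · intro x _ hx
    rw [if_neg hx, zero_mul]
  · intro h; exact absurd (Finset.mem_univ _) h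

/-- Expansion of the quadratic form. -/
theorem bil_add_self {f : G → ℝ} (hf : ∀ x, f (-x) = f x) (v w : G → ℝ) :
    bil f (fun x => v x + w x) (fun x => v x + w x) = bil f v v + 2 * bil f v w + bil f w w := by
  rw [bil_add_left, bil_add_right hf, bil_add_right hf, bil_comm hf w v]
  ring

/-- Cauchy-Schwarz. -/
theorem PD.cs {f : G → ℝ} (h : PD f) (v w : G → ℝ) :
    (bil f v w) ^ 2 ≤ bil f v v * bil f w w := by
  have key : ∀ t : ℝ, 0 ≤ bil f v v + 2 * (t * bil f v w) + t ^ 2 * bil f w w := by
    intro t
    have h1 := h.nonneg (fun x => v x + t * w x)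
    rw [bil_add_self h.symm v (fun x => t * w x), bil_smul_right h.symm, bil_smul_left,
      bil_smul_right h.symm] at h1
    nlinarith
  have h0 := h.nonneg w
  have h1 := h.nonneg v
  rcases eq_or_lt_of_le h0 with h2 | h2
  · -- the form vanishes at `w`
    rw [← h2, mul_zero]
    have h3 : bil f v w = 0 := by
      by_contra hne
      have h4 := key (-(bil f v v + 1) / (2 * bil f v w))
      rw [← h2] at h4
      have h5 : 2 * (-(bil f v v + 1) / (2 * bil f v w) * bil f v w) = -(bil f v v + 1) := by
        field_simp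
      rw [h5] at h4
      linarith
    rw [h3]; norm_num
  · have h4 := key (-(bil f v w) / bil f w w)
    have h5 : bil f v v + 2 * (-(bil f v w) / bil f w w * bil f v w) +
        (-(bil f v w) / bil f w w) ^ 2 * bil f w w =
        (bil f v v * bil f w w - (bil f v w) ^ 2) / bil f w w := by
      field_simp
      ring
    rw [h5] at h4
    have h6 : 0 ≤ bil f v v * bil f w w - (bil f v w) ^ 2 := by
      by_contra hneg
      push Not at hneg
      have := div_neg_of_neg_of_pos hneg h2
      linarith
    linarith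

theorem PD.zero_nonneg {f : G → ℝ} (h : PD f) : 0 ≤ f 0 := by
  classical
  have h1 := h.nonneg (fun x => if x = 0 then 1 else 0)
  rw [bil_single_single, sub_zero] at h1
  exact h1

theorem PD.abs_le {f : G → ℝ} (h : PD f) (x : G) : |f x| ≤ f 0 := by
  classical
  have h1 := h.cs (fun y => if y = x then 1 else 0) (fun y => if y = 0 then 1 else 0)
  rw [bil_single_single, bil_single_single, bil_single_single, sub_zero, sub_self, sub_self] at h1
  have h2 := h.zero_nonneg
  exact abs_le_of_sq_le_sq (by nlinarith) h2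

theorem PD.add {f g : G → ℝ} (hf : PD f) (hg : PD g) : PD (fun x => f x + g x) := by
  refine ⟨fun x => ?_, fun w => ?_⟩
  · show f (-x) + g (-x) = f x + g x
    rw [hf.symm, hg.symm]
  · have h1 : bil (fun x => f x + g x) w w = bil f w w + bil g w w := by
      unfold bil
      rw [← Finset.sum_add_distrib]
      refine Finset.sum_congr rfl (fun x _ => ?_)
      rw [← Finset.sum_add_distrib]
      refine Finset.sum_congr rfl (fun y _ => ?_)
      ring
    rw [h1]
    exact add_nonneg (hf.nonneg w) (hg.nonneg w)

theorem PD.smul {f : G → ℝ} (hf : PD f) {a : ℝ} (ha : 0 ≤ a) : PD (fun x => a * f x) := by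
  refine ⟨fun x => ?_, fun w => ?_⟩
  · show a * f (-x) = a * f x
    rw [hf.symm]
  · have h1 : bil (fun x => a * f x) w w = a * bil f w w := by
      unfold bil
      rw [Finset.mul_sum]
      refine Finset.sum_congr rfl (fun x _ => ?_)
      rw [Finset.mul_sum]
      refine Finset.sum_congr rfl (fun y _ => ?_)
      ring
    rw [h1]
    exact mul_nonneg ha (hf.nonneg w)

/-- Triangle inequality for three points. -/
theorem PD.triple {f : G → ℝ} (h : PD f) {a b : ℝ} (ha : a = 1 ∨ a = -1) (hb : b = 1 ∨ b = -1)
    (x y : G) :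
    2 * f 0 - 2 * (a * b * f (x + y)) ≤
      2 * (2 * f 0 - 2 * (a * f x)) + 2 * (2 * f 0 - 2 * (b * f y)) := by
  classical
  -- the quadratic form at `d_p + c d_q`
  have key : ∀ (p q : G) (c : ℝ), c ^ 2 = 1 →
      bil f (fun z => (if z = p then 1 else 0) + c * (if z = q then 1 else 0))
        (fun z => (if z = p then 1 else 0) + c * (if z = q then 1 else 0)) =
      2 * f 0 + 2 * (c * f (p - q)) := by
    intro p q c hc
    rw [bil_add_self h.symm (fun z => if z = p then 1 else 0)
      (fun z => c * (if z = q then 1 else 0)), bil_smul_right h.symm, bil_smul_left,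
      bil_smul_right h.symm, bil_single_single, bil_single_single, bil_single_single, sub_self,
      sub_self]
    have : c * (c * f 0) = f 0 := by
      rw [← mul_assoc, ← sq, hc, one_mul]
    rw [this]; ring
  have ha2 : a ^ 2 = 1 := by rcases ha with rfl | rfl <;> norm_num
  have hb2 : b ^ 2 = 1 := by rcases hb with rfl | rfl <;> norm_num
  -- `w1 = d_x - a d_0`, `w2 = a (d_0 - b d_{-y})`
  set w1 : G → ℝ := fun z => (if z = x then 1 else 0) + (-a) * (if z = 0 then 1 else 0) with hw1
  set w2 : G → ℝ := fun z => (if z = 0 then 1 else 0) + (-b) * (if z = -y then 1 else 0) with hw2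
  have e1 : bil f w1 w1 = 2 * f 0 - 2 * (a * f x) := by
    rw [hw1, key x 0 (-a) (by rw [neg_sq, ha2]), sub_zero]; ring
  have e2 : bil f w2 w2 = 2 * f 0 - 2 * (b * f y) := by
    rw [hw2, key 0 (-y) (-b) (by rw [neg_sq, hb2]), sub_neg_eq_add, zero_add]; ring
  have e2' : bil f (fun z => a * w2 z) (fun z => a * w2 z) = bil f w2 w2 := by
    rw [bil_smul_right h.symm, bil_smul_left, ← mul_assoc, ← sq, ha2, one_mul]
  have e3 : bil f (fun z => w1 z + a * w2 z) (fun z => w1 z + a * w2 z) =
      2 * f 0 - 2 * (a * b * f (x + y)) := by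
    have h3 : (fun z => w1 z + a * w2 z) =
        (fun z => (if z = x then 1 else 0) + (-(a * b)) * (if z = -y then (1 : ℝ) else 0)) := by
      funext z
      rw [hw1, hw2]
      ring
    rw [h3, key x (-y) (-(a * b)) (by rw [neg_sq, mul_pow, ha2, hb2, one_mul]), sub_neg_eq_add]
    ring
  have e4 := bil_add_self h.symm w1 (fun z => a * w2 z)
  have e5 := bil_add_self h.symm w1 (fun z => (-1) * (a * w2 z))
  rw [bil_smul_right h.symm, bil_smul_left f (fun z => a * w2 z) (fun z => -1 * (a * w2 z)),
    bil_smul_right h.symm (fun z => a * w2 z) (fun z => a * w2 z)] at e5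
  have e6 := h.nonneg (fun z => w1 z + (-1) * (a * w2 z))
  rw [e5] at e6
  rw [e3] at e4
  rw [e2'] at e4 e6
  rw [e1, e2] at e4 e6
  linarith

theorem PD.sum_nonneg {f : G → ℝ} (h : PD f) (E : AddSubgroup G) :
    0 ≤ ∑ x ∈ sF E, f x := by
  classical
  have h1 := h.nonneg (fun x => if x ∈ sF E then 1 else 0)
  have h2 : bil f (fun x => if x ∈ sF E then 1 else 0) (fun x => if x ∈ sF E then 1 else 0) =
      (#(sF E) : ℝ) * ∑ x ∈ sF E, f x := by
    unfold bil
    have h3 : ∀ x : G, (∑ y, (if x ∈ sF E then (1 : ℝ) else 0) * (if y ∈ sF E then 1 else 0) *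
        f (x - y)) = if x ∈ sF E then ∑ z ∈ sF E, f z else 0 := by
      intro x
      by_cases hx : x ∈ sF E
      · rw [if_pos hx]
        have h4 : ∀ y : G, (1 : ℝ) * (if y ∈ sF E then 1 else 0) * f (x - y) =
            if y ∈ sF E then f (x - y) else 0 := by
          intro y; split_ifs <;> ring
        simp_rw [if_pos hx, h4]
        rw [← Finset.sum_filter, Finset.filter_mem_eq_inter, Finset.univ_inter]
        have hxE := mem_sF.mp hx
        exact Finset.sum_bij' (s := sF E) (t := sF E) (f := fun y => f (x - y)) (g := f)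
          (fun y _ => x - y) (fun y _ => x - y)
          (fun y hy => mem_sF.mpr (E.sub_mem hxE (mem_sF.mp hy)))
          (fun y hy => mem_sF.mpr (E.sub_mem hxE (mem_sF.mp hy)))
          (fun y _ => sub_sub_cancel x y) (fun y _ => sub_sub_cancel x y) (fun y _ => rfl)
      · simp only [if_neg hx, zero_mul, Finset.sum_const_zero]
    simp_rw [h3]
    rw [← Finset.sum_filter, Finset.filter_mem_eq_inter, Finset.univ_inter, Finset.sum_const,
      nsmul_eq_mul]
  rw [h2] at h1
  have h3 : (0 : ℝ) < #(sF E) := by exact_mod_cast card_sF_pos E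
  exact nonneg_of_mul_nonneg_right h1 h3

end Pool.Agent.Strip
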