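import Pool.Agent.Strip.Base2

open Finset

namespace Pool.Agent.Strip

variable {G : Type} [AddCommGroup G] [Fintype G]

private theorem clInt_half {M : ℕ} {ν : G → ℤ} {U U' : AddSubgroup G} {s s' : G → ℤ}
    (h1 : IsCl M ν U s) (h2 : IsCl M ν U' s') (hne : ¬ U' ≤ U) :
    #(sF (U ⊓ U')) ≤ 2 * cK M := by
  classical
  obtain ⟨y, hy', hy⟩ := SetLike.not_le_iff_exists.1 hne
  have hinj : Set.InjOn (fun h => y + h) (sF (U ⊓ U') : Set G) := fun a _ b _ hab =>
    add_left_cancel hab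
  have hA : ∑ h ∈ sF (U ⊓ U'), (ν (y + h) - s' (y + h)) ^ 2 ≤ (cK M : ℤ) := by
    refine le_trans ?_ h2.on
    rw [← Finset.sum_image (f := fun x => (ν x - s' x) ^ 2) hinj]
    refine Finset.sum_le_sum_of_subset_of_nonneg (fun x hx => ?_) (fun _ _ _ => sq_nonneg _)
    obtain ⟨h, hh, rfl⟩ := Finset.mem_image.1 hx
    exact mem_sF.2 (U'.add_mem hy' (mem_sF.1 hh).2)
  have hB : ∑ h ∈ sF (U ⊓ U'), (ν (y + h)) ^ 2 ≤ (cK M : ℤ) := by
    refine le_trans ?_ (h1.off y hy)
    refine Finset.sum_le_sum_of_subset_of_nonneg (fun x hx => ?_) (fun _ _ _ => sq_nonneg _)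
    exact mem_sF.2 (mem_sF.1 hx).1
  have hC : ∑ _h ∈ sF (U ⊓ U'), (1 : ℤ) ≤
      ∑ h ∈ sF (U ⊓ U'), ((ν (y + h) - s' (y + h)) ^ 2 + (ν (y + h)) ^ 2) := by
    refine Finset.sum_le_sum fun h hh => ?_
    have hs := h2.sign (y + h) (U'.add_mem hy' (mem_sF.1 hh).2)
    rcases eq_or_ne (ν (y + h)) 0 with h0 | h0
    · rw [h0]
      rcases hs with hs | hs <;> rw [hs] <;> norm_num
    · have h3 : 0 < (ν (y + h)) ^ 2 := by positivity
      have h4 := sq_nonneg (ν (y + h) - s' (y + h))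
      linarith
  rw [Finset.sum_add_distrib, Finset.sum_const, nsmul_eq_mul, mul_one] at hC
  have : ((#(sF (U ⊓ U')) : ℕ) : ℤ) ≤ 2 * (cK M : ℤ) := by linarith
  exact_mod_cast this

/-- Different clusters have a small intersection. -/
theorem cl_inter {M : ℕ} {ν : G → ℤ} {U U' : AddSubgroup G} {s s' : G → ℤ}
    (h1 : IsCl M ν U s) (h2 : IsCl M ν U' s') (hne : U ≠ U') :
    #(sF (U ⊓ U')) ≤ 2 * cK M := by
  by_cases h : U' ≤ U
  · have h' : ¬ U ≤ U' := fun h3 => hne (le_antisymm h3 h)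
    have := clInt_half h2 h1 h'
    rwa [inf_comm] at this
  · exact clInt_half h1 h2 h

private theorem clInt_abs_le_sq (n : ℤ) : |n| ≤ n ^ 2 := by
  rw [← sq_abs]
  rcases eq_or_ne n 0 with h | h
  · simp [h]
  · have : 1 ≤ |n| := Int.one_le_abs h
    nlinarith

private theorem clInt_sign_sq {M : ℕ} {ν : G → ℤ} {U : AddSubgroup G} {s : G → ℤ}
    (h1 : IsCl M ν U s) {x : G} (hx : x ∈ U) : s x * s x = 1 := by
  rcases h1.sign x hx with h | h <;> rw [h] <;> norm_num

private theorem clInt_sign_sub {M : ℕ} {ν : G → ℤ} {U : AddSubgroup G} {s : G → ℤ}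
    (h1 : IsCl M ν U s) {x y : G} (hx : x ∈ U) (hy : y ∈ U) : s (x - y) = s x * s y := by
  have e1 := h1.mul (x - y) (U.sub_mem hx hy) y hy
  rw [sub_add_cancel] at e1
  rw [e1, mul_assoc, clInt_sign_sq h1 hy, mul_one]

/-- the correlation of `ν` with `s` on `U` -/
private theorem clInt_corr {M : ℕ} {ν : G → ℤ} {U : AddSubgroup G} {s : G → ℤ}
    (h1 : IsCl M ν U s) : |∑ x ∈ sF U, s x * ν x - (#(sF U) : ℤ)| ≤ (cK M : ℤ) := by
  have e1 : ∑ x ∈ sF U, s x * ν x - (#(sF U) : ℤ) = ∑ x ∈ sF U, s x * (ν x - s x) := by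
    have e2 : (#(sF U) : ℤ) = ∑ _x ∈ sF U, (1 : ℤ) := by
      rw [Finset.sum_const, nsmul_eq_mul, mul_one]
    rw [e2, ← Finset.sum_sub_distrib]
    refine Finset.sum_congr rfl fun x hx => ?_
    rw [mul_sub, clInt_sign_sq h1 (mem_sF.1 hx)]
  rw [e1]
  refine (Finset.abs_sum_le_sum_abs _ _).trans (le_trans (Finset.sum_le_sum fun x hx => ?_) h1.on)
  rw [abs_mul]
  have e3 : |s x| = 1 := by
    rcases h1.sign x (mem_sF.1 hx) with h | h <;> rw [h] <;> norm_num
  rw [e3, one_mul]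
  exact clInt_abs_le_sq _

/-- sum of absolute values on the cluster -/
private theorem clInt_abs_sum {M : ℕ} {ν : G → ℤ} {U : AddSubgroup G} {s : G → ℤ}
    (h1 : IsCl M ν U s) : ∑ x ∈ sF U, |ν x| ≤ (#(sF U) : ℤ) + (cK M : ℤ) := by
  have e1 : ∀ x ∈ sF U, |ν x| ≤ 1 + (ν x - s x) ^ 2 := fun x hx => by
    have e3 : |s x| = 1 := by
      rcases h1.sign x (mem_sF.1 hx) with h | h <;> rw [h] <;> norm_num
    have e4 : |ν x| ≤ |ν x - s x| + |s x| := by
      have := abs_add_le (ν x - s x) (s x)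
      rwa [sub_add_cancel] at this
    have e5 := clInt_abs_le_sq (ν x - s x)
    linarith
  refine (Finset.sum_le_sum e1).trans ?_
  rw [Finset.sum_add_distrib, Finset.sum_const, nsmul_eq_mul, mul_one]
  have := h1.on
  linarith

/-- sum of absolute values on a coset outside the cluster -/
private theorem clInt_abs_off {M : ℕ} {ν : G → ℤ} {U : AddSubgroup G} {s : G → ℤ}
    (h1 : IsCl M ν U s) {y : G} (hy : y ∉ U) : ∑ x ∈ sF U, |ν (y + x)| ≤ (cK M : ℤ) :=
  (Finset.sum_le_sum fun x _ => clInt_abs_le_sq (ν (y + x))).trans (h1.off y hy)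

private theorem clInt_sum_neg (E : AddSubgroup G) (g : G → ℤ) :
    ∑ h ∈ sF E, g (-h) = ∑ h ∈ sF E, g h := by
  refine Finset.sum_equiv (Equiv.neg G) (fun i => ?_) (fun i _ => rfl)
  rw [mem_sF, mem_sF]
  exact (E.neg_mem_iff).symm

private theorem clInt_sum_add (E : AddSubgroup G) (g : G → ℤ) {k : G} (hk : k ∈ E) :
    ∑ h ∈ sF E, g (k + h) = ∑ h ∈ sF E, g h := by
  refine Finset.sum_equiv (Equiv.addLeft k) (fun i => ?_) (fun i _ => rfl)
  rw [mem_sF, mem_sF]
  exact (E.add_mem_cancel_left hk).symm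

/-- `∑_{x ∈ U, y ∈ U} s(x) s(y) ν(x - y) = |U| ∑_{z ∈ U} s(z) ν(z)` -/
private theorem clInt_diag {M : ℕ} {ν : G → ℤ} {U : AddSubgroup G} {s : G → ℤ}
    (h1 : IsCl M ν U s) :
    ∑ x ∈ sF U, ∑ y ∈ sF U, s x * s y * ν (x - y) =
      (#(sF U) : ℤ) * ∑ z ∈ sF U, s z * ν z := by
  have e1 : ∀ x ∈ sF U, ∑ y ∈ sF U, s x * s y * ν (x - y) = ∑ z ∈ sF U, s z * ν z := by
    intro x hx
    rw [← clInt_sum_add U (fun z => s z * ν z) (mem_sF.1 hx),
      ← clInt_sum_neg U (fun z => s (x + z) * ν (x + z))]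
    refine Finset.sum_congr rfl fun y hy => ?_
    rw [← clInt_sign_sub h1 (mem_sF.1 hx) (mem_sF.1 hy), ← sub_eq_add_neg]
  rw [Finset.sum_congr rfl e1, Finset.sum_const, nsmul_eq_mul]

/-- off-diagonal terms -/
private theorem clInt_offdiag {M : ℕ} {ν : G → ℤ} {U V : AddSubgroup G} {s r : G → ℤ}
    (h1 : IsCl M ν U s) (h2 : IsCl M ν V r) (hne : U ≠ V) :
    ∑ x ∈ sF U, ∑ y ∈ sF V, s x * r y * ν (x - y) ≤
      (#(sF U) : ℤ) * cK M + 2 * cK M * (#(sF V) + cK M) := by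
  classical
  have e1 : ∀ x ∈ sF U, ∑ y ∈ sF V, s x * r y * ν (x - y) ≤
      (cK M : ℤ) + (if x ∈ V then ((#(sF V) : ℤ) + cK M) else 0) := by
    intro x hx
    have hsx : |s x| = 1 := by
      rcases h1.sign x (mem_sF.1 hx) with h | h <;> rw [h] <;> norm_num
    have e2 : ∑ y ∈ sF V, s x * r y * ν (x - y) ≤ ∑ y ∈ sF V, |ν (x - y)| := by
      refine Finset.sum_le_sum fun y hy => ?_
      have hry : |r y| = 1 := by
        rcases h2.sign y (mem_sF.1 hy) with h | h <;> rw [h] <;> norm_num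
      refine (le_abs_self _).trans ?_
      rw [abs_mul, abs_mul, hsx, hry, one_mul, one_mul]
    have e3 : ∑ y ∈ sF V, |ν (x - y)| = ∑ y ∈ sF V, |ν (x + y)| := by
      rw [← clInt_sum_neg V (fun y => |ν (x + y)|)]
      refine Finset.sum_congr rfl fun y _ => ?_
      rw [sub_eq_add_neg]
    rw [e3] at e2
    refine e2.trans ?_
    by_cases hxV : x ∈ V
    · rw [if_pos hxV, clInt_sum_add V (fun y => |ν y|) hxV]
      have := clInt_abs_sum h2
      have h0 : (0 : ℤ) ≤ cK M := by positivity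
      linarith
    · rw [if_neg hxV, add_zero]
      exact clInt_abs_off h2 hxV
  refine (Finset.sum_le_sum e1).trans ?_
  rw [Finset.sum_add_distrib, Finset.sum_const, nsmul_eq_mul, ← Finset.sum_filter,
    Finset.sum_const, nsmul_eq_mul]
  have e4 : #((sF U).filter (fun x => x ∈ V)) ≤ 2 * cK M := by
    refine le_trans (Finset.card_le_card fun x hx => ?_) (cl_inter h1 h2 hne)
    obtain ⟨hx1, hx2⟩ := Finset.mem_filter.1 hx
    exact mem_sF.2 ⟨mem_sF.1 hx1, hx2⟩
  have e5 : ((#((sF U).filter (fun x => x ∈ V)) : ℕ) : ℤ) ≤ 2 * cK M := by exact_mod_cast e4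
  have e6 : (0 : ℤ) ≤ (#(sF V) : ℤ) + cK M := by positivity
  have e7 := mul_le_mul_of_nonneg_right e5 e6
  linarith

private theorem clInt_bil_sum_left {ι : Type} (C : Finset ι) (f : G → ℝ) (g : ι → G → ℝ)
    (w : G → ℝ) : bil f (fun x => ∑ i ∈ C, g i x) w = ∑ i ∈ C, bil f (g i) w := by
  unfold bil
  rw [Finset.sum_comm (s := C)]
  refine Finset.sum_congr rfl fun x _ => ?_
  rw [Finset.sum_comm (s := C)]
  refine Finset.sum_congr rfl fun y _ => ?_
  rw [Finset.sum_mul, Finset.sum_mul]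

open Classical in
/-- the normalised vector of a cluster -/
private noncomputable def clInt_g (U : AddSubgroup G) (s : G → ℤ) (x : G) : ℝ :=
  if x ∈ U then (s x : ℝ) / (#(sF U) : ℝ) else 0

open Classical in
private theorem clInt_bil_g (f : G → ℝ) (U V : AddSubgroup G) (s r : G → ℤ) :
    bil f (clInt_g U s) (clInt_g V r) =
      (∑ x ∈ sF U, ∑ y ∈ sF V, (s x : ℝ) * r y * f (x - y)) / ((#(sF U) : ℝ) * #(sF V)) := by
  unfold bil clInt_g sF
  rw [Finset.sum_filter, Finset.sum_div]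
  refine Finset.sum_congr rfl fun x _ => ?_
  by_cases hx : x ∈ U
  · rw [if_pos hx, if_pos hx, Finset.sum_filter, Finset.sum_div]
    refine Finset.sum_congr rfl fun y _ => ?_
    by_cases hy : y ∈ V
    · rw [if_pos hy, if_pos hy]
      ring
    · rw [if_neg hy, if_neg hy]
      ring
  · rw [if_neg hx, if_neg hx, zero_div]
    exact Finset.sum_eq_zero fun y _ => by ring

private theorem clInt_bil_delta {f : G → ℝ} (hf : ∀ x, f (-x) = f x) [DecidableEq G]
    (U : AddSubgroup G) (s : G → ℤ) :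
    bil f (fun x => if x = 0 then 1 else 0) (clInt_g U s) =
      (∑ x ∈ sF U, (s x : ℝ) * f x) / (#(sF U) : ℝ) := by
  classical
  rw [bil_single]
  unfold clInt_g sF
  rw [Finset.sum_filter, Finset.sum_div]
  refine Finset.sum_congr rfl fun x _ => ?_
  rw [zero_sub, hf]
  by_cases hx : x ∈ U
  · rw [if_pos hx, if_pos hx]
    ring
  · rw [if_neg hx, if_neg hx]
    ring

/-- The number of clusters is at most `M`. -/
theorem cl_count {M : ℕ} {ν : G → ℤ} (h : Nu M ν) (hM : 1 ≤ M) (C : Finset (AddSubgroup G))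
    (hC : ∀ U ∈ C, ∃ s, IsCl M ν U s) : #C ≤ M := by
  classical
  by_contra hcon
  obtain ⟨C', hC'C, hC'⟩ := Finset.exists_subset_card_eq (show M + 1 ≤ #C by omega)
  have hex : ∀ U : AddSubgroup G, ∃ s : G → ℤ, U ∈ C' → IsCl M ν U s := fun U => by
    by_cases hU : U ∈ C'
    · obtain ⟨s, hs⟩ := hC U (hC'C hU)
      exact ⟨s, fun _ => hs⟩
    · exact ⟨fun _ => 1, fun h => absurd h hU⟩
  choose s hs using hex
  set f : G → ℝ := fun x => (ν x : ℝ) with hf
  have hpd : PD f := h.pd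
  set N : ℝ := (M : ℝ) + 1 with hN
  have hN1 : 1 ≤ N := by
    have : (0 : ℝ) ≤ M := Nat.cast_nonneg M
    linarith
  set ε : ℝ := (cK M : ℝ) / cNc M with hε
  have hNc : (cNc M : ℝ) = 10 ^ 11 * N ^ 9 := by
    unfold cNc
    push_cast
    norm_num [hN]
  have hK : (cK M : ℝ) = 32 * N ^ 4 := by
    unfold cK
    push_cast
    rfl
  have hNc0 : (0 : ℝ) < cNc M := by rw [hNc]; positivity
  have hK0 : (0 : ℝ) < cK M := by rw [hK]; positivity
  have hε0 : 0 < ε := by positivity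
  have hεN : ε * N ^ 2 ≤ 32 / 10 ^ 11 := by
    have e1 : ε * N ^ 5 = 32 / 10 ^ 11 := by
      rw [hε, hNc, hK]
      field_simp
    have e2 : N ^ 2 ≤ N ^ 5 := pow_le_pow_right₀ hN1 (by norm_num)
    calc ε * N ^ 2 ≤ ε * N ^ 5 := by gcongr
      _ = _ := e1
  have hε1 : ε ≤ 1 := by
    have e2 : 1 ≤ N ^ 2 := one_le_pow₀ hN1
    nlinarith
  -- sizes
  have hsize : ∀ U ∈ C', (cNc M : ℝ) ≤ #(sF U) := fun U hU => by
    exact_mod_cast (hs U hU).big
  have hKU : ∀ U ∈ C', (cK M : ℝ) / #(sF U) ≤ ε := fun U hU => by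
    have := hsize U hU
    rw [hε]
    gcongr
  -- the correlations
  set a : AddSubgroup G → ℝ := fun U => (∑ x ∈ sF U, (s U x : ℝ) * f x) / (#(sF U) : ℝ) with ha
  have hac : ∀ U ∈ C', |a U - 1| ≤ ε := fun U hU => by
    have hU0 : (0 : ℝ) < #(sF U) := by
      have := hsize U hU
      linarith
    have e1 := clInt_corr (hs U hU)
    have e2 : |(∑ x ∈ sF U, (s U x : ℝ) * f x) - (#(sF U) : ℝ)| ≤ (cK M : ℝ) := by
      simp only [hf]
      exact_mod_cast e1
    have e3 : a U - 1 = ((∑ x ∈ sF U, (s U x : ℝ) * f x) - (#(sF U) : ℝ)) / #(sF U) := by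
      rw [ha]
      field_simp
    rw [e3, abs_div, abs_of_pos hU0]
    refine le_trans ?_ (hKU U hU)
    gcongr
  have hdelta : ∀ U, bil f (fun x => if x = 0 then 1 else 0) (clInt_g U (s U)) = a U := fun U =>
    clInt_bil_delta hpd.symm U (s U)
  have hdiag : ∀ U ∈ C', bil f (clInt_g U (s U)) (clInt_g U (s U)) = a U := fun U hU => by
    have hU0 : (0 : ℝ) < #(sF U) := by
      have := hsize U hU
      linarith
    have e1 := clInt_diag (hs U hU)
    have e2 : (∑ x ∈ sF U, ∑ y ∈ sF U, (s U x : ℝ) * s U y * f (x - y)) =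
        (#(sF U) : ℝ) * ∑ z ∈ sF U, (s U z : ℝ) * f z := by
      simp only [hf]
      exact_mod_cast e1
    rw [clInt_bil_g, e2, ha]
    field_simp
  have hoff : ∀ U ∈ C', ∀ V ∈ C', U ≠ V →
      bil f (clInt_g U (s U)) (clInt_g V (s V)) ≤ 5 * ε := fun U hU V hV hUV => by
    have hU0 : (0 : ℝ) < #(sF U) := by
      have := hsize U hU
      linarith
    have hV0 : (0 : ℝ) < #(sF V) := by
      have := hsize V hV
      linarith
    have e1 := clInt_offdiag (hs U hU) (hs V hV) hUV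
    have e2 : (∑ x ∈ sF U, ∑ y ∈ sF V, (s U x : ℝ) * s V y * f (x - y)) ≤
        (#(sF U) : ℝ) * cK M + 2 * cK M * (#(sF V) + cK M) := by
      simp only [hf]
      exact_mod_cast e1
    have e3 := hKU U hU
    have e4 := hKU V hV
    have p1 : 0 ≤ (cK M : ℝ) / #(sF U) := by positivity
    have p2 : 0 ≤ (cK M : ℝ) / #(sF V) := by positivity
    rw [clInt_bil_g]
    calc (∑ x ∈ sF U, ∑ y ∈ sF V, (s U x : ℝ) * s V y * f (x - y)) /
          ((#(sF U) : ℝ) * #(sF V))
        ≤ ((#(sF U) : ℝ) * cK M + 2 * cK M * (#(sF V) + cK M)) /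
          ((#(sF U) : ℝ) * #(sF V)) := by gcongr
      _ = cK M / #(sF V) + 2 * (cK M / #(sF U)) +
          2 * ((cK M / #(sF U)) * (cK M / #(sF V))) := by
          field_simp
          ring
      _ ≤ ε + 2 * ε + 2 * (ε * ε) := by gcongr
      _ ≤ 5 * ε := by nlinarith
  -- Cauchy-Schwarz
  set w : G → ℝ := fun x => ∑ U ∈ C', clInt_g U (s U) x with hw
  have hcs := hpd.cs (fun x => if x = 0 then 1 else 0) w
  have e1 : bil f (fun x => if x = 0 then 1 else 0) w = ∑ U ∈ C', a U := by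
    rw [bil_comm hpd.symm, hw, clInt_bil_sum_left]
    refine Finset.sum_congr rfl fun U _ => ?_
    rw [bil_comm hpd.symm, hdelta]
  have e2 : bil f w w ≤ N * (1 + ε + 5 * N * ε) := by
    have e3 : bil f w w = ∑ U ∈ C', ∑ V ∈ C', bil f (clInt_g U (s U)) (clInt_g V (s V)) := by
      rw [hw, clInt_bil_sum_left]
      refine Finset.sum_congr rfl fun U _ => ?_
      rw [bil_comm hpd.symm, clInt_bil_sum_left]
      refine Finset.sum_congr rfl fun V _ => ?_
      rw [bil_comm hpd.symm]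
    rw [e3]
    have e4 : ∀ U ∈ C', ∑ V ∈ C', bil f (clInt_g U (s U)) (clInt_g V (s V)) ≤
        1 + ε + 5 * N * ε := fun U hU => by
      have e5 : ∀ V ∈ C', bil f (clInt_g U (s U)) (clInt_g V (s V)) ≤
          (if U = V then 1 + ε else 0) + 5 * ε := fun V hV => by
        by_cases hUV : U = V
        · subst hUV
          rw [if_pos rfl, hdiag U hU]
          have := (abs_le.1 (hac U hU)).2
          linarith
        · rw [if_neg hUV, zero_add]
          exact hoff U hU V hV hUV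
      refine (Finset.sum_le_sum e5).trans ?_
      rw [Finset.sum_add_distrib, Finset.sum_ite_eq, if_pos hU, Finset.sum_const, hC',
        nsmul_eq_mul]
      push_cast
      rw [← hN]
      linarith
    refine (Finset.sum_le_sum e4).trans ?_
    rw [Finset.sum_const, hC', nsmul_eq_mul]
    push_cast
    rw [← hN]
  have e6 : N * (1 - ε) ≤ ∑ U ∈ C', a U := by
    have e7 : ∑ _U ∈ C', (1 - ε) ≤ ∑ U ∈ C', a U := Finset.sum_le_sum fun U hU => by
      have := (abs_le.1 (hac U hU)).1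
      linarith
    rw [Finset.sum_const, hC', nsmul_eq_mul] at e7
    push_cast at e7
    rwa [← hN] at e7
  have e8 : bil f (fun x => if x = 0 then 1 else 0) (fun x => if x = 0 then 1 else 0) = M := by
    rw [bil_single_single, sub_zero, hf]
    show ((ν 0 : ℤ) : ℝ) = M
    rw [h.zero]
    norm_cast
  rw [e1, e8] at hcs
  have hM0 : (0 : ℝ) ≤ M := Nat.cast_nonneg M
  have e9 : (N * (1 - ε)) ^ 2 ≤ M * (N * (1 + ε + 5 * N * ε)) := by
    have p1 : 0 ≤ N * (1 - ε) := mul_nonneg (by linarith) (by linarith)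
    calc (N * (1 - ε)) ^ 2 ≤ (∑ U ∈ C', a U) ^ 2 := by gcongr
      _ ≤ M * bil f w w := hcs
      _ ≤ _ := by gcongr
  have e10 : N * (1 - ε) ^ 2 ≤ M * (1 + ε + 5 * N * ε) := by
    have hN0 : 0 < N := by linarith
    have : N * (N * (1 - ε) ^ 2) ≤ N * (M * (1 + ε + 5 * N * ε)) := by
      calc N * (N * (1 - ε) ^ 2) = (N * (1 - ε)) ^ 2 := by ring
        _ ≤ M * (N * (1 + ε + 5 * N * ε)) := e9
        _ = _ := by ring
    exact le_of_mul_le_mul_left this hN0
  have hMN : (M : ℝ) = N - 1 := by rw [hN]; ring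
  rw [hMN] at e10
  nlinarith [mul_nonneg hε0.le (sq_nonneg (N - 1)), sq_nonneg ε, mul_pos hε0 (by linarith : 0 < N),
    mul_nonneg (by linarith : (0:ℝ) ≤ N) (sq_nonneg ε)]

/-- A cluster with a sign that is not constant has a small sum. -/
theorem cl_sum_signed {M : ℕ} {ν : G → ℤ} {U : AddSubgroup G} {s : G → ℤ}
    (h1 : IsCl M ν U s) (hs : ∃ x ∈ U, s x = -1) : |∑ x ∈ sF U, ν x| ≤ (cK M : ℤ) := by
  obtain ⟨x, hx, hsx⟩ := hs
  have e1 : ∑ y ∈ sF U, s y = 0 := by
    have e2 := clInt_sum_add U s hx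
    have e3 : ∑ y ∈ sF U, s (x + y) = -∑ y ∈ sF U, s y := by
      rw [← Finset.sum_neg_distrib]
      refine Finset.sum_congr rfl fun y hy => ?_
      rw [h1.mul x hx y (mem_sF.1 hy), hsx]
      ring
    rw [e3] at e2
    linarith
  have e4 : ∑ x ∈ sF U, ν x = ∑ x ∈ sF U, (ν x - s x) := by
    rw [Finset.sum_sub_distrib, e1, sub_zero]
  rw [e4]
  exact (Finset.abs_sum_le_sum_abs _ _).trans
    (le_trans (Finset.sum_le_sum fun x _ => clInt_abs_le_sq _) h1.on)

/-- If the sign is constant we may take it to be `1`. -/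
theorem cl_unsigned {M : ℕ} {ν : G → ℤ} {U : AddSubgroup G} {s : G → ℤ}
    (h1 : IsCl M ν U s) (hs : ¬ ∃ x ∈ U, s x = -1) : IsCl M ν U (fun _ => 1) := by
  have e1 : ∀ x ∈ U, s x = 1 := fun x hx => by
    rcases h1.sign x hx with h | h
    · exact h
    · exact absurd ⟨x, hx, h⟩ hs
  refine ⟨fun x _ => Or.inl rfl, fun x _ y _ => (mul_one _).symm, h1.big, ?_, h1.off⟩
  refine le_of_eq_of_le ?_ h1.on
  refine Finset.sum_congr rfl fun x hx => ?_
  rw [e1 x (mem_sF.1 hx)]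

/-- Sizes of clusters are controlled by the size of one of them. -/
theorem cl_size {M : ℕ} {ν : G → ℤ} (hM : 1 ≤ M) {U U' : AddSubgroup G} {s s' : G → ℤ}
    (h1 : IsCl M ν U s) (h2 : IsCl M ν U' s') (D : ℕ) (hD : Fintype.card G ≤ D * #(sF U) ^ 2) :
    #(sF U') ≤ 2 * cK M * D * #(sF U) := by
  have hU := card_sF_pos U
  have hG : 0 < Fintype.card G := Fintype.card_pos
  have hD0 : 0 < D := by
    rcases Nat.eq_zero_or_pos D with h | h
    · rw [h, zero_mul] at hD
      omega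
    · exact h
  have hK : 0 < cK M := by
    unfold cK
    positivity
  by_cases hne : U = U'
  · subst hne
    have : 1 ≤ 2 * cK M * D := Nat.succ_le_of_lt (by positivity)
    calc #(sF U) = 1 * #(sF U) := (one_mul _).symm
      _ ≤ 2 * cK M * D * #(sF U) := Nat.mul_le_mul_right _ this
  · have e1 := card_mul_card_le U U'
    have e2 := cl_inter h1 h2 hne
    have e3 : #(sF U) * #(sF U') ≤ #(sF U) * (2 * cK M * D * #(sF U)) := by
      calc #(sF U) * #(sF U') ≤ Fintype.card G * #(sF (U ⊓ U')) := e1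
        _ ≤ (D * #(sF U) ^ 2) * (2 * cK M) := Nat.mul_le_mul hD e2
        _ = #(sF U) * (2 * cK M * D * #(sF U)) := by ring
    exact Nat.le_of_mul_le_mul_left e3 hU

end Pool.Agent.Strip
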