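import Pool.Agent.Strip.Base

open Finset

namespace Pool.Agent.Strip

variable {G : Type} [AddCommGroup G] [Fintype G]

theorem Clique_symm {M : ℕ} {ν : G → ℤ} (h : Nu M ν) (x y : G) : ν (x - y) = ν (y - x) := by
  have := h.pd.symm (y - x)
  simp only [neg_sub] at this
  exact_mod_cast this

open Classical in
/-- Point of large row average. -/
theorem Clique_step {M : ℕ} {ν : G → ℤ} (h : Nu M ν) (A : Finset G) (hA : A.Nonempty) (ρ : ℝ)
    (hρ : ρ * (#A : ℝ) ^ 2 ≤ ∑ x ∈ A, ∑ y ∈ A, (ν (x - y) : ℝ)) :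
    ∃ x ∈ A, ρ * (#A : ℝ) - M ≤ (#(A.filter (fun y => y ≠ x ∧ ν (x - y) = 1)) : ℝ) := by
  have h1 : ∑ _x ∈ A, ρ * (#A : ℝ) ≤ ∑ x ∈ A, ∑ y ∈ A, (ν (x - y) : ℝ) := by
    rw [Finset.sum_const, nsmul_eq_mul]
    calc (#A : ℝ) * (ρ * #A) = ρ * (#A : ℝ) ^ 2 := by ring
      _ ≤ _ := hρ
  obtain ⟨x, hx, hle⟩ := Finset.exists_le_of_sum_le hA h1
  refine ⟨x, hx, ?_⟩
  have h2 : ∑ y ∈ A, (ν (x - y) : ℝ) ≤
      ∑ y ∈ A, ((if y = x then (M : ℝ) else 0) + (if y ≠ x ∧ ν (x - y) = 1 then 1 else 0)) := by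
    refine Finset.sum_le_sum fun y _ => ?_
    by_cases hy : y = x
    · subst hy
      simp only [sub_self, h.zero, if_true, ne_eq, not_true, false_and, if_false]
      push_cast
      linarith
    · have hne : x - y ≠ 0 := sub_ne_zero.mpr (Ne.symm hy)
      have hle1 := h.le _ hne
      by_cases h1 : ν (x - y) = 1
      · simp [hy, h1]
      · have h0 : ν (x - y) ≤ 0 := by omega
        have h0' : (ν (x - y) : ℝ) ≤ 0 := by exact_mod_cast h0
        simp [hy, h1]
        exact_mod_cast h0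
  rw [Finset.sum_add_distrib, Finset.sum_ite_eq' A x, if_pos hx, Finset.sum_boole] at h2
  linarith

/-- The invariant of the greedy process. -/
def CliqueInv (M : ℕ) (ν : G → ℤ) (S : Finset G) (i : ℕ) (A : Finset G) (v : G → ℝ) : Prop :=
  A ⊆ S ∧ bil (fun x => (ν x : ℝ)) v v = (i : ℝ) * ((M : ℝ) + i - 1) ∧
    ∀ y ∈ A, ∑ x, v x * (ν (x - y) : ℝ) = i

open Classical in
theorem Clique_bil_ind {f v : G → ℝ} (A : Finset G) :
    bil f v (fun y => if y ∈ A then 1 else 0) = ∑ y ∈ A, ∑ x, v x * f (x - y) := by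
  unfold bil
  rw [Finset.sum_comm]
  rw [← Finset.sum_filter_add_sum_filter_not univ (fun y => y ∈ A)]
  have h2 : ∑ y ∈ univ.filter (fun y => ¬ y ∈ A), ∑ x, v x * (if y ∈ A then (1 : ℝ) else 0) *
      f (x - y) = 0 := by
    refine Finset.sum_eq_zero fun y hy => ?_
    rw [Finset.mem_filter] at hy
    simp [hy.2]
  rw [h2, add_zero]
  have h3 : univ.filter (fun y => y ∈ A) = A := by
    ext y
    simp
  rw [h3]
  refine Finset.sum_congr rfl fun y hy => ?_
  simp [hy]

open Classical in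
theorem Clique_bil_ind_ind {f : G → ℝ} (A : Finset G) :
    bil f (fun y => if y ∈ A then 1 else 0) (fun y => if y ∈ A then 1 else 0) =
      ∑ x ∈ A, ∑ y ∈ A, f (x - y) := by
  rw [Clique_bil_ind]
  have h3 : univ.filter (fun y => y ∈ A) = A := by
    ext y
    simp
  rw [Finset.sum_comm (s := A) (t := A)]
  refine Finset.sum_congr rfl fun y _ => ?_
  simp only [ite_mul, one_mul, zero_mul]
  rw [← Finset.sum_filter, h3]

theorem Clique_dens {M : ℕ} {ν : G → ℤ} (h : Nu M ν) (S A : Finset G) (v : G → ℝ) (i : ℕ)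
    (hi : 1 ≤ i) (hinv : CliqueInv M ν S i A v) :
    (i : ℝ) * (#A : ℝ) ^ 2 ≤ ((M : ℝ) + i - 1) * ∑ x ∈ A, ∑ y ∈ A, (ν (x - y) : ℝ) := by
  classical
  obtain ⟨-, h1, h2⟩ := hinv
  have hcs := h.pd.cs v (fun y => if y ∈ A then 1 else 0)
  rw [Clique_bil_ind, Clique_bil_ind_ind, h1, Finset.sum_congr rfl h2, Finset.sum_const,
    nsmul_eq_mul] at hcs
  have hi' : (0 : ℝ) < i := by exact_mod_cast hi
  have : (i : ℝ) * ((i : ℝ) * (#A : ℝ) ^ 2) ≤
      (i : ℝ) * (((M : ℝ) + i - 1) * ∑ x ∈ A, ∑ y ∈ A, (ν (x - y) : ℝ)) := by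
    calc (i : ℝ) * ((i : ℝ) * (#A : ℝ) ^ 2) = ((#A : ℝ) * i) ^ 2 := by ring
      _ ≤ _ := hcs
      _ = _ := by ring
  exact le_of_mul_le_mul_left this hi'

open Classical in
theorem Clique_inv_succ {M : ℕ} {ν : G → ℤ} (h : Nu M ν) (S A : Finset G) (v : G → ℝ) (i : ℕ)
    (hinv : CliqueInv M ν S i A v) (x : G) (hx : x ∈ A) :
    CliqueInv M ν S (i + 1) (A.filter (fun y => y ≠ x ∧ ν (x - y) = 1))
      (fun z => v z + (if z = x then 1 else 0)) := by
  obtain ⟨h0, h1, h2⟩ := hinv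
  have hsym : ∀ z, ((ν (-z) : ℤ) : ℝ) = ν z := h.pd.symm
  refine ⟨(Finset.filter_subset _ _).trans h0, ?_, ?_⟩
  · have e1 : bil (fun x => (ν x : ℝ)) (fun z => if z = x then (1 : ℝ) else 0) v = i := by
      rw [bil_single]
      rw [← h2 x hx]
      refine Finset.sum_congr rfl fun y _ => ?_
      rw [Clique_symm h x y]
    have e2 : bil (fun x => (ν x : ℝ)) v (fun z => if z = x then (1 : ℝ) else 0) = i := by
      rw [bil_comm hsym, e1]
    have e3 : bil (fun x => (ν x : ℝ)) (fun z => if z = x then (1 : ℝ) else 0)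
        (fun z => if z = x then (1 : ℝ) else 0) = M := by
      rw [bil_single]
      simp [h.zero]
    rw [bil_add_left, bil_comm hsym v, bil_comm hsym (fun z => if z = x then (1 : ℝ) else 0),
      bil_add_left, bil_add_left, h1, e1, e2, e3]
    push_cast
    ring
  · intro y hy
    rw [Finset.mem_filter] at hy
    have : ∑ z, (v z + (if z = x then 1 else 0)) * (ν (z - y) : ℝ) =
        ∑ z, v z * (ν (z - y) : ℝ) + (ν (x - y) : ℝ) := by
      simp only [add_mul, Finset.sum_add_distrib, ite_mul, one_mul, zero_mul,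
        Finset.sum_ite_eq', Finset.mem_univ, if_true]
    rw [this, h2 y hy.1, hy.2.2]
    push_cast
    ring

/-- The binomial coefficients controlling the loss. -/
def CliqueC (M i : ℕ) : ℕ := (M + i - 2).choose (M - 1)

theorem CliqueC_succ {M i : ℕ} (hM : 1 ≤ M) (hi : 1 ≤ i) :
    CliqueC M (i + 1) * i = CliqueC M i * (M + i - 1) := by
  unfold CliqueC
  have h := Nat.choose_mul_succ_eq (M + i - 2) (M - 1)
  have e1 : M + (i + 1) - 2 = (M + i - 2) + 1 := by omega
  have e2 : M + i - 1 = (M + i - 2) + 1 := by omega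
  have e3 : (M + i - 2) + 1 - (M - 1) = i := by omega
  rw [e1, e2, h, e3]

theorem CliqueC_mono {M i j : ℕ} (hij : i ≤ j) : CliqueC M i ≤ CliqueC M j :=
  Nat.choose_le_choose _ (by omega)

theorem CliqueC_le {M i : ℕ} : CliqueC M i ≤ 2 ^ (M + i - 2) := Nat.choose_le_two_pow _ _

open Classical in
theorem Clique_main {M : ℕ} {ν : G → ℤ} (h : Nu M ν) (hM : 1 ≤ M) (S : Finset G) (r : ℤ)
    (hr : r ≠ 0) (hS : ∀ x ∈ S, ν x = r) (B t : ℕ) (hB : 1 ≤ B)
    (hcard : M * CliqueC M t * (B + t * M) ≤ #S) (i : ℕ) (hi : 1 ≤ i) (hit : i ≤ t) :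
    ∃ A v, CliqueInv M ν S i A v ∧ #S ≤ M * CliqueC M i * (#A + i * M) := by
  have hMr : (1 : ℝ) ≤ M := by exact_mod_cast hM
  have hsym : ∀ z, ((ν (-z) : ℤ) : ℝ) = ν z := h.pd.symm
  induction i, hi using Nat.le_induction with
  | base =>
    have hCt : 1 ≤ CliqueC M t := Nat.succ_le_of_lt (Nat.choose_pos (by omega))
    have hSpos : S.Nonempty := by
      rw [← Finset.card_pos]
      have : 0 < M * CliqueC M t * (B + t * M) := by positivity
      omega
    have hdens : (1 / (M : ℝ)) * (#S : ℝ) ^ 2 ≤ ∑ x ∈ S, ∑ y ∈ S, (ν (x - y) : ℝ) := by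
      have hcs := h.pd.cs (fun x => if x = 0 then 1 else 0) (fun y => if y ∈ S then 1 else 0)
      rw [Clique_bil_ind_ind, bil_single, bil_single] at hcs
      have e1 : ∑ y, (if y ∈ S then (1 : ℝ) else 0) * (ν (0 - y) : ℝ) = #S * r := by
        have h3 : univ.filter (fun y => y ∈ S) = S := by
          ext y
          simp
        simp only [ite_mul, one_mul, zero_mul]
        rw [← Finset.sum_filter, h3]
        have : ∀ y ∈ S, ((ν (0 - y) : ℤ) : ℝ) = r := by
          intro y hy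
          rw [zero_sub, hsym, hS y hy]
        rw [Finset.sum_congr rfl this, Finset.sum_const, nsmul_eq_mul]
      have e2 : ∑ y, (if y = (0 : G) then (1 : ℝ) else 0) * (ν (0 - y) : ℝ) = M := by
        simp [h.zero]
      rw [e1, e2] at hcs
      have hr1 : (1 : ℝ) ≤ (r : ℝ) ^ 2 := by
        have : (1 : ℤ) ≤ r ^ 2 := by
          have := Int.one_le_abs hr
          nlinarith [abs_nonneg r, sq_abs r]
        exact_mod_cast this
      rw [div_mul_eq_mul_div, one_mul, div_le_iff₀ (by linarith)]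
      have : (#S : ℝ) ^ 2 * 1 ≤ (#S : ℝ) ^ 2 * (r : ℝ) ^ 2 :=
        mul_le_mul_of_nonneg_left hr1 (by positivity)
      nlinarith
    obtain ⟨x, hx, hle⟩ := Clique_step h S hSpos _ hdens
    refine ⟨S.filter (fun y => y ≠ x ∧ ν (x - y) = 1), fun z => if z = x then 1 else 0, ?_, ?_⟩
    · refine ⟨Finset.filter_subset _ _, ?_, ?_⟩
      · rw [bil_single]
        simp [h.zero]
      · intro y hy
        rw [Finset.mem_filter] at hy
        simp [hy.2.2]
    · have hC1 : CliqueC M 1 = 1 := by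
        unfold CliqueC
        have : M + 1 - 2 = M - 1 := by omega
        rw [this, Nat.choose_self]
      rw [hC1, mul_one, one_mul]
      have : (#S : ℝ) ≤ M * (#(S.filter (fun y => y ≠ x ∧ ν (x - y) = 1)) + M) := by
        have h5 : (1 / (M : ℝ)) * (#S : ℝ) ≤ #(S.filter (fun y => y ≠ x ∧ ν (x - y) = 1)) + M := by
          linarith
        rw [div_mul_eq_mul_div, one_mul, div_le_iff₀ (by linarith)] at h5
        linarith
      exact_mod_cast this
  | succ i hi ih =>
    obtain ⟨A, v, hinv, hA⟩ := ih (by omega)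
    have hCi : CliqueC M i ≤ CliqueC M t := CliqueC_mono (by omega)
    have hCt : 1 ≤ CliqueC M t := Nat.succ_le_of_lt (Nat.choose_pos (by omega))
    have hApos : A.Nonempty := by
      rw [← Finset.card_pos]
      by_contra hcon
      have h0 : #A = 0 := by omega
      rw [h0, zero_add] at hA
      have h1 : M * CliqueC M i * (i * M) ≤ M * CliqueC M t * (t * M) := by
        refine Nat.mul_le_mul (Nat.mul_le_mul_left _ hCi) (Nat.mul_le_mul_right _ (by omega))
      have h2 : M * CliqueC M t * (t * M) < M * CliqueC M t * (B + t * M) := by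
        refine Nat.mul_lt_mul_of_pos_left (by omega) (by positivity)
      omega
    have hden := Clique_dens h S A v i hi hinv
    have hpos : (0 : ℝ) < (M : ℝ) + i - 1 := by
      have : (1 : ℝ) ≤ i := by exact_mod_cast hi
      linarith
    have hden' : ((i : ℝ) / ((M : ℝ) + i - 1)) * (#A : ℝ) ^ 2 ≤
        ∑ x ∈ A, ∑ y ∈ A, (ν (x - y) : ℝ) := by
      rw [div_mul_eq_mul_div, div_le_iff₀ hpos]
      linarith
    obtain ⟨x, hx, hle⟩ := Clique_step h A hApos _ hden'
    refine ⟨_, _, Clique_inv_succ h S A v i hinv x hx, ?_⟩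
    set A' := A.filter (fun y => y ≠ x ∧ ν (x - y) = 1) with hA'
    have hle2 : (i : ℝ) * #A ≤ ((M : ℝ) + i - 1) * (#A' + M) := by
      have : ((i : ℝ) / ((M : ℝ) + i - 1)) * (#A : ℝ) ≤ #A' + M := by linarith
      rw [div_mul_eq_mul_div, div_le_iff₀ hpos] at this
      linarith
    have hle3 : i * #A ≤ (M + i - 1) * (#A' + M) := by
      have e : ((M + i - 1 : ℕ) : ℝ) = (M : ℝ) + i - 1 := by
        rw [Nat.cast_sub (by omega)]
        push_cast
        ring
      have : ((i * #A : ℕ) : ℝ) ≤ (((M + i - 1) * (#A' + M) : ℕ) : ℝ) := by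
        push_cast
        rw [e]
        exact hle2
      exact_mod_cast this
    have hCs := CliqueC_succ hM hi
    have key : i * #S ≤ i * (M * CliqueC M (i + 1) * (#A' + (i + 1) * M)) := by
      calc i * #S ≤ i * (M * CliqueC M i * (#A + i * M)) := Nat.mul_le_mul_left _ hA
        _ = M * CliqueC M i * (i * #A + i * (i * M)) := by ring
        _ ≤ M * CliqueC M i * ((M + i - 1) * (#A' + M) + (M + i - 1) * (i * M)) := by
            refine Nat.mul_le_mul_left _ (Nat.add_le_add hle3 ?_)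
            exact Nat.mul_le_mul_right _ (by omega)
        _ = M * (CliqueC M i * (M + i - 1)) * (#A' + (i + 1) * M) := by ring
        _ = M * (CliqueC M (i + 1) * i) * (#A' + (i + 1) * M) := by rw [hCs]
        _ = i * (M * CliqueC M (i + 1) * (#A' + (i + 1) * M)) := by ring
    exact Nat.le_of_mul_le_mul_left key (by omega)

/-- Greedy extraction of a nearly perfect clique. -/
theorem clique {M : ℕ} {ν : G → ℤ} (h : Nu M ν) (hM : 1 ≤ M) (S : Finset G) (r : ℤ)
    (hr : r ≠ 0) (hS : ∀ x ∈ S, ν x = r) (N : ℕ) (hN : 1600 * M ≤ N)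
    (hcard : 2 ^ (1603 * M) * (N + 800 * M ^ 2) ≤ #S) :
    ∃ A ⊆ S, N ≤ #A ∧ Rows ν A := by
  classical
  have hMr : (1 : ℝ) ≤ M := by exact_mod_cast hM
  set t := 1600 * M with ht
  have hcard2 : M * CliqueC M t * (2 * N + t * M) ≤ #S := by
    refine le_trans ?_ hcard
    have h1 : M ≤ 2 ^ M := Nat.lt_two_pow_self.le
    have h2 : CliqueC M t ≤ 2 ^ (M + t - 2) := CliqueC_le
    calc M * CliqueC M t * (2 * N + t * M) ≤ 2 ^ M * 2 ^ (M + t - 2) * (2 * N + t * M) :=
          Nat.mul_le_mul_right _ (Nat.mul_le_mul h1 h2)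
      _ = 2 ^ M * 2 ^ (M + t - 2) * 2 * (N + 800 * M ^ 2) := by rw [ht]; ring
      _ = 2 ^ (M + (M + t - 2) + 1) * (N + 800 * M ^ 2) := by
          rw [pow_succ 2 (M + (M + t - 2)), pow_add 2 M (M + t - 2)]
      _ ≤ 2 ^ (1603 * M) * (N + 800 * M ^ 2) :=
          Nat.mul_le_mul_right _ (Nat.pow_le_pow_right (by norm_num) (by omega))
  obtain ⟨A, v, hinv, hA⟩ := Clique_main h hM S r hr hS (2 * N) t (by omega) hcard2 t (by omega)
    le_rfl
  have hCt : 0 < CliqueC M t := Nat.choose_pos (by omega)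
  have hA2 : 2 * N ≤ #A := by
    have := hcard2.trans hA
    have := Nat.le_of_mul_le_mul_left this (by positivity)
    omega
  have hApos : 0 < #A := by omega
  have hden := Clique_dens h S A v t (by omega) hinv
  set a : ℝ := (#A : ℝ) with ha
  set sg : ℝ := ∑ x ∈ A, ∑ y ∈ A, (ν (x - y) : ℝ) with hsg
  have haN : 3200 * (M : ℝ) ≤ a := by
    have : 3200 * M ≤ #A := by omega
    rw [ha]
    exact_mod_cast this
  have ht' : (t : ℝ) = 1600 * M := by rw [ht]; push_cast; ring
  rw [ht'] at hden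
  -- the density of the last set
  have hd : a ^ 2 - sg ≤ a ^ 2 / 1600 := by
    have h1 : 1600 * (M : ℝ) * a ^ 2 ≤ 1601 * (M : ℝ) * sg := by
      by_cases hs : 0 ≤ sg
      · calc 1600 * (M : ℝ) * a ^ 2 ≤ ((M : ℝ) + 1600 * M - 1) * sg := hden
          _ ≤ (1601 * (M : ℝ)) * sg := by
              apply mul_le_mul_of_nonneg_right _ hs
              linarith
      · exfalso
        push Not at hs
        have h3 : ((M : ℝ) + 1600 * M - 1) * sg < 0 := mul_neg_of_pos_of_neg (by linarith) hs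
        have h4 : 0 ≤ 1600 * (M : ℝ) * a ^ 2 := by positivity
        linarith
    have h2 : 1600 * a ^ 2 ≤ 1601 * sg := by
      have h3 : (M : ℝ) * (1600 * a ^ 2) ≤ (M : ℝ) * (1601 * sg) := by linarith
      exact le_of_mul_le_mul_left h3 (by linarith)
    nlinarith [sq_nonneg a]
  -- row defects
  let D : G → ℝ := fun x => ∑ y ∈ A.erase x, (1 - (ν (x - y) : ℝ))
  have hterm : ∀ x y, y ≠ x → (0 : ℝ) ≤ 1 - (ν (x - y) : ℝ) := by
    intro x y hy
    have := h.le (x - y) (sub_ne_zero.mpr (Ne.symm hy))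
    have h' : (ν (x - y) : ℝ) ≤ 1 := by exact_mod_cast this
    linarith
  have hD0 : ∀ x, 0 ≤ D x := fun x =>
    Finset.sum_nonneg fun y hy => hterm x y (Finset.ne_of_mem_erase hy)
  have hrow : ∀ (B : Finset G) (x : G), x ∈ B → ∑ y ∈ B, (ν (x - y) : ℝ) =
      (#B : ℝ) + (M - 1) - ∑ y ∈ B.erase x, (1 - (ν (x - y) : ℝ)) := by
    intro B x hx
    rw [← Finset.add_sum_erase B _ hx, Finset.sum_sub_distrib, Finset.sum_const,
      Finset.card_erase_of_mem hx, sub_self, h.zero, nsmul_eq_mul,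
      Nat.cast_sub (Finset.card_pos.mpr ⟨x, hx⟩)]
    push_cast
    ring
  have hDsum : ∑ x ∈ A, D x ≤ a ^ 2 / 1600 + a * M := by
    have : ∑ x ∈ A, D x = a * (a + (M - 1)) - sg := by
      have h1 : sg = ∑ x ∈ A, ((a + (M - 1)) - D x) := by
        rw [hsg]
        refine Finset.sum_congr rfl fun x hx => ?_
        rw [hrow A x hx]
      rw [h1, Finset.sum_sub_distrib, Finset.sum_const, nsmul_eq_mul]
      ring
    rw [this]
    nlinarith
  set A' := A.filter (fun x => D x ≤ a / 400) with hA'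
  set Bd := A.filter (fun x => ¬ D x ≤ a / 400) with hBd
  have hsplit : #A' + #Bd = #A := Finset.card_filter_add_card_filter_not _
  have hapos : 0 < a := by rw [ha]; exact_mod_cast hApos
  have hBdc : (#Bd : ℝ) * (a / 400) ≤ a ^ 2 / 1600 + a * M := by
    calc (#Bd : ℝ) * (a / 400) = ∑ _x ∈ Bd, a / 400 := by rw [Finset.sum_const, nsmul_eq_mul]
      _ ≤ ∑ x ∈ Bd, D x := by
          refine Finset.sum_le_sum fun x hx => ?_
          rw [hBd, Finset.mem_filter] at hx
          linarith [not_le.mp hx.2]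
      _ ≤ ∑ x ∈ A, D x :=
          Finset.sum_le_sum_of_subset_of_nonneg (Finset.filter_subset _ _) fun x _ _ => hD0 x
      _ ≤ _ := hDsum
  have hBd2 : (#Bd : ℝ) ≤ a / 4 + 400 * M := by
    have : (#Bd : ℝ) * (a / 400) ≤ (a / 4 + 400 * M) * (a / 400) := by
      calc (#Bd : ℝ) * (a / 400) ≤ a ^ 2 / 1600 + a * M := hBdc
        _ = (a / 4 + 400 * M) * (a / 400) := by ring
    exact le_of_mul_le_mul_right this (by positivity)
  have hA'r : a / 2 ≤ (#A' : ℝ) := by
    have : (#A' : ℝ) + #Bd = a := by rw [ha]; exact_mod_cast hsplit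
    linarith
  have hNA : N ≤ #A' := by
    have h1 : (N : ℝ) ≤ #A' := by
      have h2 : (2 : ℝ) * N ≤ a := by rw [ha]; exact_mod_cast hA2
      linarith
    exact_mod_cast h1
  refine ⟨A', (Finset.filter_subset _ _).trans hinv.1, hNA, ?_⟩
  intro x hx
  have hxA : x ∈ A := Finset.mem_of_mem_filter x hx
  have hDx : D x ≤ a / 400 := (Finset.mem_filter.mp hx).2
  have hN' : 1600 * (M : ℝ) ≤ #A' := by
    have : 1600 * M ≤ #A' := by omega
    exact_mod_cast this
  have hlow : 0 ≤ ∑ y ∈ A'.erase x, (1 - (ν (x - y) : ℝ)) :=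
    Finset.sum_nonneg fun y hy => hterm x y (Finset.ne_of_mem_erase hy)
  have hup : ∑ y ∈ A'.erase x, (1 - (ν (x - y) : ℝ)) ≤ D x :=
    Finset.sum_le_sum_of_subset_of_nonneg
      (Finset.erase_subset_erase x (Finset.filter_subset _ _))
      fun y hy _ => hterm x y (Finset.ne_of_mem_erase hy)
  rw [hrow A' x hx, abs_le]
  constructor
  · linarith
  · linarith

end Pool.Agent.Strip
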