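import Pool.Agent.Strip.Extract
import Pool.Agent.Strip.ClInt

open Finset

namespace Pool.Agent.Strip

variable {G : Type} [AddCommGroup G] [Fintype G]

theorem cover1_abs {M : ℕ} {ν : G → ℤ} (h : Nu M ν) (x : G) : |ν x| ≤ (M : ℤ) := by
  have h1 := h.pd.abs_le x
  simp only [h.zero] at h1
  exact_mod_cast h1

/-- Sum over an unsigned cluster. -/
theorem cover1_unsigned {M : ℕ} {ν : G → ℤ} {U : AddSubgroup G}
    (hU : IsCl M ν U (fun _ => 1)) : ∑ x ∈ sF U, ν x ≤ #(sF U) + (cK M : ℤ) := by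
  have h1 := hU.on
  have h2 : ∑ x ∈ sF U, ν x ≤ ∑ x ∈ sF U, (1 + (ν x - 1) ^ 2) := by
    refine Finset.sum_le_sum (fun x _ => ?_)
    nlinarith [sq_nonneg (ν x - 1), Int.le_self_sq (ν x - 1)]
  rw [Finset.sum_add_distrib, Finset.sum_const, nsmul_eq_mul, mul_one] at h2
  linarith

/-- If the sum is large there is a large unsigned cluster. -/
theorem big_unsigned {M : ℕ} {ν : G → ℤ} (h : Nu M ν) (hM : 1 ≤ M)
    (hT : (cT M : ℤ) ≤ ∑ x, ν x) :
    ∃ U : AddSubgroup G, IsCl M ν U (fun _ => 1) ∧ ∑ x, ν x ≤ 2 * M * #(sF U) := by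
  classical
  by_contra hcon
  push Not at hcon
  have : Fintype (AddSubgroup G) := Fintype.ofFinite _
  obtain ⟨C, hCmem⟩ : ∃ C : Finset (AddSubgroup G), ∀ U, U ∈ C ↔ ∃ s, IsCl M ν U s :=
    ⟨univ.filter (fun U => ∃ s, IsCl M ν U s), fun U => by simp⟩
  have hCc : #C ≤ M := cl_count h hM C (fun U hU => (hCmem U).mp hU)
  have habs := cover1_abs h
  -- multiplicities
  obtain ⟨m, hm⟩ : ∃ m : G → ℕ, ∀ x, m x = #(C.filter (fun U => x ∈ U)) := ⟨_, fun _ => rfl⟩
  obtain ⟨P, hP⟩ : ∃ P : G → ℕ, ∀ x, P x = #(C.offDiag.filter (fun p => x ∈ p.1 ⊓ p.2)) :=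
    ⟨_, fun _ => rfl⟩
  have hmP : ∀ x, m x ≤ P x + 1 := by
    intro x
    have h1 : (C.filter (fun U => x ∈ U)).offDiag ⊆ C.offDiag.filter (fun p => x ∈ p.1 ⊓ p.2) := by
      intro p hp
      rw [Finset.mem_offDiag] at hp
      rw [Finset.mem_filter, Finset.mem_offDiag, AddSubgroup.mem_inf]
      obtain ⟨h1, h2, h3⟩ := hp
      rw [Finset.mem_filter] at h1 h2
      exact ⟨⟨h1.1, h2.1, h3⟩, h1.2, h2.2⟩
    have h2 := Finset.card_le_card h1
    rw [Finset.offDiag_card, ← hm, ← hP] at h2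
    rcases Nat.eq_zero_or_pos (m x) with h0 | h0
    · omega
    · have h3 : m x ≤ m x * m x := Nat.le_mul_of_pos_left _ h0
      have h4 : m x + (m x - 1) ≤ m x * m x := by
        rcases Nat.lt_or_ge (m x) 2 with h5 | h5
        · have h6 : m x = 1 := by omega
          rw [h6]
        · have h6 : 2 * m x ≤ m x * m x := Nat.mul_le_mul_right _ h5
          omega
      omega
  have hm0 : ∀ x, m x = 0 → ∀ (U : AddSubgroup G) (s : G → ℤ), IsCl M ν U s → x ∉ U := by
    intro x hx U s hs hxU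
    rw [hm, Finset.card_eq_zero] at hx
    have h1 : U ∈ C.filter (fun U => x ∈ U) :=
      Finset.mem_filter.mpr ⟨(hCmem U).mpr ⟨s, hs⟩, hxU⟩
    rw [hx] at h1
    exact absurd h1 (Finset.notMem_empty U)
  -- pointwise inequality
  have hpt : ∀ x, ν x ≤ (m x : ℤ) * ν x + M * (P x : ℤ) + (if x = 0 then (M : ℤ) else 0) +
      (if (ν x = 1 ∧ ∀ (U : AddSubgroup G) (s : G → ℤ), IsCl M ν U s → x ∉ U)
        then (1 : ℤ) else 0) := by
    intro x
    have h5 : (0 : ℤ) ≤ (if x = 0 then (M : ℤ) else 0) := by split_ifs <;> positivity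
    have h6 : (0 : ℤ) ≤ (if (ν x = 1 ∧ ∀ (U : AddSubgroup G) (s : G → ℤ), IsCl M ν U s → x ∉ U)
        then (1 : ℤ) else 0) := by split_ifs <;> norm_num
    have h7 : (0 : ℤ) ≤ M * (P x : ℤ) := by positivity
    rcases Nat.eq_zero_or_pos (m x) with h0 | h0
    · rw [h0]
      by_cases hx : x = 0
      · have h8 : ν x = M := by rw [hx]; exact h.zero
        rw [if_pos hx]
        push_cast
        linarith
      · have h8 := h.le x hx
        by_cases h9 : ν x = 1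
        · rw [if_neg hx, if_pos ⟨h9, hm0 x h0⟩]
          push_cast
          linarith
        · have h10 : ν x ≤ 0 := by omega
          push_cast
          linarith
    · have h8 : (1 : ℤ) ≤ m x := by exact_mod_cast h0
      have h9 : (m x : ℤ) ≤ P x + 1 := by exact_mod_cast hmP x
      have h10 := (abs_le.mp (habs x)).1
      have h11 : 0 ≤ ((m x : ℤ) - 1) * (ν x + M) := mul_nonneg (by linarith) (by linarith)
      have h12 : 0 ≤ (M : ℤ) * (P x + 1 - m x) := mul_nonneg (by positivity) (by linarith)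
      nlinarith
  have hsum := Finset.sum_le_sum (s := (univ : Finset G)) (fun x _ => hpt x)
  rw [Finset.sum_add_distrib, Finset.sum_add_distrib, Finset.sum_add_distrib] at hsum
  -- first sum
  have hS1 : ∑ x, (m x : ℤ) * ν x = ∑ U ∈ C, ∑ x ∈ sF U, ν x := by
    have h1 : ∀ x, (m x : ℤ) * ν x = ∑ U ∈ C, if x ∈ U then ν x else 0 := by
      intro x
      rw [hm, ← Finset.sum_filter, Finset.sum_const, nsmul_eq_mul]
    rw [Finset.sum_congr rfl (fun x _ => h1 x), Finset.sum_comm]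
    refine Finset.sum_congr rfl (fun U _ => ?_)
    rw [← Finset.sum_filter]
    refine Finset.sum_congr ?_ (fun _ _ => rfl)
    ext x
    rw [mem_sF, Finset.mem_filter]
    simp
  have hS2 : ∑ x, (P x : ℤ) ≤ (M : ℤ) ^ 2 * (2 * cK M) := by
    have h1 : ∀ x, (P x : ℤ) = ∑ p ∈ C.offDiag, if x ∈ p.1 ⊓ p.2 then (1 : ℤ) else 0 := by
      intro x
      rw [hP, ← Finset.sum_filter, Finset.sum_const, nsmul_eq_mul, mul_one]
    rw [Finset.sum_congr rfl (fun x _ => h1 x), Finset.sum_comm]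
    have h2 : ∀ p ∈ C.offDiag, (∑ x, if x ∈ p.1 ⊓ p.2 then (1 : ℤ) else 0) ≤ 2 * cK M := by
      intro p hp
      rw [Finset.mem_offDiag] at hp
      obtain ⟨s, hs⟩ := (hCmem _).mp hp.1
      obtain ⟨s', hs'⟩ := (hCmem _).mp hp.2.1
      have h3 := cl_inter hs hs' hp.2.2
      rw [← Finset.sum_filter, Finset.sum_const, nsmul_eq_mul, mul_one]
      have h4 : univ.filter (fun x => x ∈ p.1 ⊓ p.2) = sF (p.1 ⊓ p.2) := by
        ext x
        rw [mem_sF, Finset.mem_filter]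
        simp
      rw [h4]
      exact_mod_cast h3
    refine (Finset.sum_le_card_nsmul _ _ _ h2).trans ?_
    rw [nsmul_eq_mul]
    have h3 : #C.offDiag ≤ M ^ 2 := by
      rw [Finset.offDiag_card, pow_two]
      exact (Nat.sub_le _ _).trans (Nat.mul_le_mul hCc hCc)
    have h4 : ((#C.offDiag : ℕ) : ℤ) ≤ (M : ℤ) ^ 2 := by exact_mod_cast h3
    exact mul_le_mul_of_nonneg_right h4 (by positivity)
  have hS3 : (∑ x : G, if x = 0 then (M : ℤ) else 0) = M := by simp
  have hS4 : (∑ x : G, if (ν x = 1 ∧ ∀ (U : AddSubgroup G) (s : G → ℤ), IsCl M ν U s → x ∉ U)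
        then (1 : ℤ) else 0) ≤ cTheta M := by
    rw [← Finset.sum_filter, Finset.sum_const, nsmul_eq_mul, mul_one]
    exact_mod_cast outside h hM 1 one_ne_zero
  rw [hS1, hS3, ← Finset.mul_sum] at hsum
  set T : ℤ := ∑ x, ν x with hTdef
  have hcK : (1 : ℤ) ≤ cK M := by
    have : 0 < cK M := by unfold cK; positivity
    exact_mod_cast this
  have hMz : (1 : ℤ) ≤ M := by exact_mod_cast hM
  have hT0 : 0 ≤ T := le_trans (by positivity) hT
  -- clusters
  have hcl : ∀ U ∈ C, 2 * (M : ℤ) * ∑ x ∈ sF U, ν x ≤ T + 2 * M * cK M := by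
    intro U hU
    obtain ⟨s, hs⟩ := (hCmem _).mp hU
    by_cases hneg : ∃ x ∈ U, s x = -1
    · have h1 := (abs_le.mp (cl_sum_signed hs hneg)).2
      have h2 : 2 * (M : ℤ) * ∑ x ∈ sF U, ν x ≤ 2 * M * cK M :=
        mul_le_mul_of_nonneg_left h1 (by positivity)
      linarith
    · have h1 := cl_unsigned hs hneg
      have h2 := hcon U h1
      have h3 := cover1_unsigned h1
      have h4 : 2 * (M : ℤ) * ∑ x ∈ sF U, ν x ≤ 2 * M * (#(sF U) + (cK M : ℤ)) :=
        mul_le_mul_of_nonneg_left h3 (by positivity)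
      linarith
  have hcl2 : 2 * (M : ℤ) * ∑ U ∈ C, ∑ x ∈ sF U, ν x ≤ M * (T + 2 * M * cK M) := by
    rw [Finset.mul_sum]
    refine (Finset.sum_le_card_nsmul _ _ _ hcl).trans ?_
    rw [nsmul_eq_mul]
    have h3 : ((#C : ℕ) : ℤ) ≤ (M : ℤ) := by exact_mod_cast hCc
    exact mul_le_mul_of_nonneg_right h3 (by positivity)
  have hfin : 2 * (M : ℤ) * T ≤ M * (T + 2 * M * cK M) +
      2 * M * (M * ((M : ℤ) ^ 2 * (2 * cK M)) + M + cTheta M) := by
    have h1 : T ≤ ∑ U ∈ C, ∑ x ∈ sF U, ν x + (M * ((M : ℤ) ^ 2 * (2 * cK M)) + M + cTheta M) := by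
      have h2 : (M : ℤ) * ∑ x, (P x : ℤ) ≤ M * ((M : ℤ) ^ 2 * (2 * cK M)) :=
        mul_le_mul_of_nonneg_left hS2 (by positivity)
      linarith
    have h3 := mul_le_mul_of_nonneg_left h1 (show (0 : ℤ) ≤ 2 * M by positivity)
    linarith
  have hfin2 : T ≤ 2 * M * cK M + 2 * (M * ((M : ℤ) ^ 2 * (2 * cK M)) + M + cTheta M) := by
    have h1 : (M : ℤ) * (2 * T) ≤ M * (T + 2 * M * cK M +
        2 * (M * ((M : ℤ) ^ 2 * (2 * cK M)) + M + cTheta M)) := by linarith
    have h2 := le_of_mul_le_mul_left h1 (by linarith)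
    linarith
  have hTh : (1 : ℤ) ≤ cTheta M := by
    have : 0 < cTheta M := by unfold cTheta cN1; positivity
    exact_mod_cast this
  have hcTe : (cT M : ℤ) = 4 * ((M : ℤ) + 1) ^ 4 * cK M + 4 * cTheta M := by
    unfold cT; push_cast; ring
  rw [hcTe] at hT
  have h9 : (0 : ℤ) ≤ (M : ℤ) ^ 3 * cK M := by positivity
  have h10 : (0 : ℤ) ≤ (M : ℤ) ^ 4 * cK M := by positivity
  have h11 : (0 : ℤ) ≤ (M : ℤ) ^ 2 * cK M := by positivity
  have h12 : (M : ℤ) ≤ M * cK M := le_mul_of_one_le_right (by positivity) hcK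
  nlinarith

end Pool.Agent.Strip
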