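import Pool.Agent.Strip.Extract
import Pool.Agent.Strip.ClInt

open Finset

namespace Pool.Agent.Strip

variable {G : Type} [AddCommGroup G] [Fintype G]

theorem cover2_abs {M : ℕ} {ν : G → ℤ} (h : Nu M ν) (x : G) : |ν x| ≤ (M : ℤ) := by
  have h1 := h.pd.abs_le x
  simp only [h.zero] at h1
  exact_mod_cast h1

/-- Energy on a cluster. -/
theorem cover2_cluster {M : ℕ} {ν : G → ℤ} {U : AddSubgroup G} {s : G → ℤ}
    (hU : IsCl M ν U s) : ∑ x ∈ sF U, (ν x) ^ 2 ≤ 2 * (cK M : ℤ) + 2 * #(sF U) := by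
  have h1 := hU.on
  have h2 : ∑ x ∈ sF U, (ν x) ^ 2 ≤ ∑ x ∈ sF U, (2 * (ν x - s x) ^ 2 + 2) := by
    refine Finset.sum_le_sum (fun x hx => ?_)
    have h3 : (s x) ^ 2 = 1 := by
      rcases hU.sign x (mem_sF.mp hx) with h4 | h4 <;> rw [h4] <;> norm_num
    nlinarith [sq_nonneg (ν x - 2 * s x)]
  rw [Finset.sum_add_distrib, Finset.sum_const, nsmul_eq_mul, ← Finset.mul_sum] at h2
  linarith

/-- Energy bound. -/
theorem energy {M : ℕ} {ν : G → ℤ} (h : Nu M ν) (hM : 1 ≤ M) (U : AddSubgroup G)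
    (hU : IsCl M ν U (fun _ => 1)) (D : ℕ) (hD : Fintype.card G ≤ D * #(sF U) ^ 2)
    (hbig : cTheta M ≤ #(sF U)) :
    ∑ x, (ν x) ^ 2 ≤ 8 * M * cK M * D * #(sF U) := by
  classical
  have : Fintype (AddSubgroup G) := Fintype.ofFinite _
  obtain ⟨C, hCmem⟩ : ∃ C : Finset (AddSubgroup G), ∀ W, W ∈ C ↔ ∃ s, IsCl M ν W s :=
    ⟨univ.filter (fun W => ∃ s, IsCl M ν W s), fun W => by simp⟩
  have hCc : #C ≤ M := cl_count h hM C (fun W hW => (hCmem W).mp hW)
  have habs := cover2_abs h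
  have hDpos : 1 ≤ D := by
    rcases Nat.eq_zero_or_pos D with h0 | h0
    · rw [h0, zero_mul] at hD
      have := Fintype.card_pos (α := G)
      omega
    · exact h0
  -- pointwise
  have hpt : ∀ x, (ν x) ^ 2 ≤ ∑ W ∈ C, (if x ∈ W then (ν x) ^ 2 else 0) +
      ∑ r ∈ (Finset.Icc (-(M : ℤ)) 1).erase 0,
        (if (ν x = r ∧ ∀ (W : AddSubgroup G) (s : G → ℤ), IsCl M ν W s → x ∉ W)
        then r ^ 2 else 0) := by
    intro x
    have hn1 : 0 ≤ ∑ W ∈ C, (if x ∈ W then (ν x) ^ 2 else 0) :=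
      Finset.sum_nonneg (fun W _ => by split_ifs <;> positivity)
    have hn2 : 0 ≤ ∑ r ∈ (Finset.Icc (-(M : ℤ)) 1).erase 0,
        (if (ν x = r ∧ ∀ (W : AddSubgroup G) (s : G → ℤ), IsCl M ν W s → x ∉ W)
        then r ^ 2 else 0) :=
      Finset.sum_nonneg (fun r _ => by split_ifs <;> positivity)
    by_cases hx : ∃ (W : AddSubgroup G) (s : G → ℤ), IsCl M ν W s ∧ x ∈ W
    · obtain ⟨W, s, hs, hxW⟩ := hx
      have h1 : (if x ∈ W then (ν x) ^ 2 else 0) ≤ ∑ W ∈ C, (if x ∈ W then (ν x) ^ 2 else 0) :=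
        Finset.single_le_sum (f := fun W => if x ∈ W then (ν x) ^ 2 else 0)
          (fun W _ => by split_ifs <;> positivity) ((hCmem W).mpr ⟨s, hs⟩)
      rw [if_pos hxW] at h1
      linarith
    · push Not at hx
      by_cases h0 : ν x = 0
      · have h00 : (ν x) ^ 2 = 0 := by rw [h0]; norm_num
        linarith
      · have hx0 : x ≠ 0 := by
          rintro rfl
          exact hx U _ hU U.zero_mem
        have hmem : ν x ∈ (Finset.Icc (-(M : ℤ)) 1).erase 0 := by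
          rw [Finset.mem_erase, Finset.mem_Icc]
          exact ⟨h0, (abs_le.mp (habs x)).1, h.le x hx0⟩
        have h1 : (if (ν x = ν x ∧ ∀ (W : AddSubgroup G) (s : G → ℤ), IsCl M ν W s → x ∉ W)
            then (ν x) ^ 2 else 0) ≤ ∑ r ∈ (Finset.Icc (-(M : ℤ)) 1).erase 0,
            (if (ν x = r ∧ ∀ (W : AddSubgroup G) (s : G → ℤ), IsCl M ν W s → x ∉ W)
              then r ^ 2 else 0) :=
          Finset.single_le_sum (f := fun r => if (ν x = r ∧ ∀ (W : AddSubgroup G) (s : G → ℤ),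
            IsCl M ν W s → x ∉ W) then r ^ 2 else 0)
            (fun r _ => by split_ifs <;> positivity) hmem
        rw [if_pos ⟨rfl, hx⟩] at h1
        linarith
  have hsum := Finset.sum_le_sum (s := (univ : Finset G)) (fun x _ => hpt x)
  rw [Finset.sum_add_distrib, Finset.sum_comm, Finset.sum_comm (s := (univ : Finset G))] at hsum
  have hcK : (1 : ℤ) ≤ cK M := by
    have : 0 < cK M := by unfold cK; positivity
    exact_mod_cast this
  have hMz : (1 : ℤ) ≤ M := by exact_mod_cast hM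
  have hDz : (1 : ℤ) ≤ D := by exact_mod_cast hDpos
  have hUz : (1 : ℤ) ≤ #(sF U) := by exact_mod_cast card_sF_pos U
  -- clusters
  have hcl : ∀ W ∈ C, (∑ x, if x ∈ W then (ν x) ^ 2 else 0) ≤
      2 * (cK M : ℤ) + 2 * (2 * cK M * D * #(sF U)) := by
    intro W hW
    obtain ⟨s, hs⟩ := (hCmem _).mp hW
    have h1 : (∑ x, if x ∈ W then (ν x) ^ 2 else 0) = ∑ x ∈ sF W, (ν x) ^ 2 := by
      rw [← Finset.sum_filter]
      refine Finset.sum_congr ?_ (fun _ _ => rfl)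
      ext x
      rw [mem_sF, Finset.mem_filter]
      simp
    rw [h1]
    have h2 := cover2_cluster hs
    have h3 := cl_size hM hU hs D hD
    have h4 : (#(sF W) : ℤ) ≤ 2 * cK M * D * #(sF U) := by exact_mod_cast h3
    linarith
  have hcl2 : ∑ W ∈ C, (∑ x, if x ∈ W then (ν x) ^ 2 else 0) ≤
      M * (2 * (cK M : ℤ) + 2 * (2 * cK M * D * #(sF U))) := by
    refine (Finset.sum_le_card_nsmul _ _ _ hcl).trans ?_
    rw [nsmul_eq_mul]
    have h3 : ((#C : ℕ) : ℤ) ≤ (M : ℤ) := by exact_mod_cast hCc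
    exact mul_le_mul_of_nonneg_right h3 (by positivity)
  -- outside
  have hout : ∀ r ∈ (Finset.Icc (-(M : ℤ)) 1).erase 0,
      (∑ x, if (ν x = r ∧ ∀ (W : AddSubgroup G) (s : G → ℤ), IsCl M ν W s → x ∉ W)
        then r ^ 2 else 0) ≤ (M : ℤ) ^ 2 * #(sF U) := by
    intro r hr
    rw [Finset.mem_erase, Finset.mem_Icc] at hr
    rw [← Finset.sum_filter, Finset.sum_const, nsmul_eq_mul]
    have h1 := outside h hM r hr.1
    have h2 : ((#(univ.filter (fun x => ν x = r ∧ ∀ (U : AddSubgroup G) (s : G → ℤ),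
        IsCl M ν U s → x ∉ U)) : ℕ) : ℤ) ≤ #(sF U) := by
      refine le_trans (le_of_eq ?_) ((Nat.cast_le (α := ℤ)).mpr (h1.trans hbig))
      congr
    have h3 : r ^ 2 ≤ (M : ℤ) ^ 2 := by
      apply sq_le_sq'
      · exact hr.2.1
      · linarith [hr.2.2]
    calc _ ≤ (#(sF U) : ℤ) * r ^ 2 := mul_le_mul_of_nonneg_right h2 (sq_nonneg r)
      _ ≤ (#(sF U) : ℤ) * (M : ℤ) ^ 2 := mul_le_mul_of_nonneg_left h3 (by positivity)
      _ = _ := mul_comm _ _
  have hout2 : ∑ r ∈ (Finset.Icc (-(M : ℤ)) 1).erase 0,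
      (∑ x, if (ν x = r ∧ ∀ (W : AddSubgroup G) (s : G → ℤ), IsCl M ν W s → x ∉ W)
        then r ^ 2 else 0) ≤ ((M : ℤ) + 1) * ((M : ℤ) ^ 2 * #(sF U)) := by
    refine (Finset.sum_le_card_nsmul _ _ _ hout).trans ?_
    rw [nsmul_eq_mul]
    have h3 : #((Finset.Icc (-(M : ℤ)) 1).erase 0) = M + 1 := by
      rw [Finset.card_erase_of_mem, Int.card_Icc]
      · omega
      · rw [Finset.mem_Icc]; omega
    rw [h3]
    push_cast
    exact le_refl _
  have hcKe : (cK M : ℤ) = 32 * ((M : ℤ) + 1) ^ 4 := by unfold cK; push_cast; ring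
  have hfin := (hsum.trans (add_le_add hcl2 hout2))
  set u : ℤ := (#(sF U) : ℤ) with hu
  set κ : ℤ := (cK M : ℤ) with hκ
  have h1 : (M : ℤ) * (2 * κ) ≤ 2 * M * κ * D * u := by
    have h2 : (M : ℤ) * (2 * κ) * 1 ≤ (M : ℤ) * (2 * κ) * (D * u) :=
      mul_le_mul_of_nonneg_left (by nlinarith) (by positivity)
    linarith
  have h2 : ((M : ℤ) + 1) * ((M : ℤ) ^ 2 * u) ≤ M * κ * D * u := by
    have h3 : ((M : ℤ) + 1) * (M : ℤ) ^ 2 ≤ κ := by
      rw [hcKe]
      have : (0 : ℤ) ≤ (M : ℤ) ^ 2 := by positivity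
      nlinarith [sq_nonneg ((M : ℤ) ^ 2), pow_pos (show (0 : ℤ) < M by linarith) 3]
    have h4 : κ ≤ M * κ * D := by
      have h5 : κ * 1 ≤ κ * (M * D) := mul_le_mul_of_nonneg_left (by nlinarith) (by linarith)
      linarith
    calc ((M : ℤ) + 1) * ((M : ℤ) ^ 2 * u) = (((M : ℤ) + 1) * (M : ℤ) ^ 2) * u := by ring
      _ ≤ (M * κ * D) * u := mul_le_mul_of_nonneg_right (h3.trans h4) (by linarith)
      _ = _ := by ring
  have h3 : (0 : ℤ) ≤ M * κ * D * u := by positivity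
  nlinarith

end Pool.Agent.Strip
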