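import Pool.Agent.Strip.Base2

open Finset

namespace Pool.Agent.Strip

variable {G : Type} [AddCommGroup G] [Fintype G]

/-- The form on functions supported on `A`. -/
theorem cube_bil_restrict (f : G → ℝ) (A : Finset G) (w : G → ℝ) [DecidableEq G] :
    bil f (fun x => if x ∈ A then w x else 0) (fun x => if x ∈ A then w x else 0) =
      ∑ x ∈ A, ∑ y ∈ A, w x * w y * f (x - y) := by
  unfold bil
  have h1 : ∀ x y : G, (if x ∈ A then w x else 0) * (if y ∈ A then w y else 0) * f (x - y) =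
      if x ∈ A then (if y ∈ A then w x * w y * f (x - y) else 0) else 0 := by
    intro x y
    split_ifs <;> ring
  simp_rw [h1]
  have h2 : ∀ x : G, ∑ y, (if x ∈ A then (if y ∈ A then w x * w y * f (x - y) else 0) else 0) =
      if x ∈ A then ∑ y ∈ A, w x * w y * f (x - y) else 0 := by
    intro x
    split_ifs with hx
    · rw [← Finset.sum_filter, Finset.filter_mem_eq_inter, Finset.univ_inter]
    · exact Finset.sum_const_zero
  simp_rw [h2]
  rw [← Finset.sum_filter, Finset.filter_mem_eq_inter, Finset.univ_inter]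

/-- Numerical core of the cube lemma. -/
theorem cube_point {k d e g : ℝ} (hk : k = -d + e) (he : |e| ≤ 3 / 100) (heg : |e| ≤ g)
    (hd : d = 0 ∨ 1 ≤ d) : k ^ 3 ≤ -(912673 / 1000000) * d + 9 / 10000 * g := by
  obtain ⟨h1, h2⟩ := abs_le.mp he
  have hg0 : 0 ≤ g := le_trans (abs_nonneg _) heg
  have he2 : e ^ 2 ≤ 9 / 10000 := by nlinarith
  rcases hd with rfl | hd
  · rw [neg_zero, zero_add] at hk
    rw [hk]
    have h3 : e ^ 3 ≤ |e| * e ^ 2 := by
      have : e ≤ |e| := le_abs_self e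
      nlinarith [sq_nonneg e]
    have h4 : |e| * e ^ 2 ≤ g * (9 / 10000) :=
      mul_le_mul heg he2 (sq_nonneg _) hg0
    linarith
  · -- `k ≤ -(97/100) d`
    have h3 : k ≤ -(97 / 100 * d) := by rw [hk]; linarith
    have h4 : k ^ 3 ≤ (-(97 / 100 * d)) ^ 3 := by
      have := Odd.strictMono_pow (R := ℝ) (n := 3) (by decide)
      exact this.monotone h3
    have h5 : (-(97 / 100 * d)) ^ 3 = -(912673 / 1000000) * d ^ 3 := by ring
    have h6 : d ≤ d ^ 3 := by nlinarith [sq_nonneg (d - 1)]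
    rw [h5] at h4
    linarith

/-- The cube lemma. -/
theorem cube {M : ℕ} {ν : G → ℤ} (h : Nu M ν) (hM : 1 ≤ M) (A : Finset G) (hA : A.Nonempty)
    (hrow : Rows ν A) :
    ∑ x ∈ A, ∑ y ∈ A, max 0 (1 - ν (x - y)) ≤ (cQ M : ℤ) * #A := by
  classical
  have hn : (0 : ℝ) < (#A : ℝ) := by exact_mod_cast Finset.card_pos.mpr hA
  obtain ⟨n, hnn⟩ : ∃ n : ℝ, (#A : ℝ) = n := ⟨_, rfl⟩
  rw [hnn] at hn
  have hn0 : n ≠ 0 := ne_of_gt hn
  have hMr : (1 : ℝ) ≤ (M : ℝ) := by exact_mod_cast hM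
  -- notation
  obtain ⟨N, hN⟩ : ∃ N : G → G → ℝ, N = fun x y => (ν (x - y) : ℝ) := ⟨_, rfl⟩
  have hNs : ∀ x y, N x y = N y x := by
    intro x y
    rw [hN]
    exact base2_symm (f := fun x => (ν x : ℝ)) h.pd.symm x y
  obtain ⟨τ, hτ⟩ : ∃ τ : G → ℝ, τ = fun x => (∑ y ∈ A, (1 - N x y)) / n := ⟨_, rfl⟩
  obtain ⟨tb, htb⟩ : ∃ tb : ℝ, tb = (∑ x ∈ A, τ x) / n := ⟨_, rfl⟩
  have hτn : ∀ x, n * τ x = ∑ y ∈ A, (1 - N x y) := by
    intro x; rw [hτ]; field_simp
  have htbn : n * tb = ∑ x ∈ A, τ x := by rw [htb]; field_simp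
  have hsumN : ∀ x, ∑ y ∈ A, N x y = n * (1 - τ x) := by
    intro x
    rw [mul_sub, mul_one, hτn x, Finset.sum_sub_distrib, Finset.sum_const, nsmul_eq_mul, mul_one,
      hnn]
    ring
  have hτ1 : ∀ x ∈ A, |τ x| ≤ 1 / 100 := by
    intro x hx
    have h1 := hrow x hx
    have h2 : ∑ y ∈ A, (ν (x - y) : ℝ) = n * (1 - τ x) := by rw [← hsumN x, hN]
    rw [h2, hnn] at h1
    have h3 : n * (1 - τ x) - n = -(n * τ x) := by ring
    rw [h3, abs_neg, abs_mul, abs_of_pos hn] at h1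
    have h4 : n * |τ x| ≤ n * (1 / 100) := by linarith
    exact le_of_mul_le_mul_left h4 hn
  have habs : n * |tb| ≤ ∑ x ∈ A, |τ x| := by
    rw [← abs_of_pos hn, ← abs_mul, htbn]
    exact Finset.abs_sum_le_sum_abs _ _
  have htb1 : |tb| ≤ 1 / 100 := by
    have h1 : ∑ x ∈ A, |τ x| ≤ ∑ _x ∈ A, (1 / 100 : ℝ) := Finset.sum_le_sum hτ1
    rw [Finset.sum_const, nsmul_eq_mul, hnn] at h1
    exact le_of_mul_le_mul_left (le_trans habs h1) hn
  -- the centred matrix
  obtain ⟨K, hK⟩ : ∃ K : G → G → ℝ, K = fun x y => N x y - (1 - τ x) - (1 - τ y) + (1 - tb) :=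
    ⟨_, rfl⟩
  have hKs : ∀ x y, K x y = K y x := by
    intro x y
    rw [hK]
    show N x y - (1 - τ x) - (1 - τ y) + (1 - tb) = N y x - (1 - τ y) - (1 - τ x) + (1 - tb)
    rw [hNs x y]; ring
  have hKpsd : ∀ w : G → ℝ, 0 ≤ ∑ x ∈ A, ∑ y ∈ A, w x * w y * K x y := by
    intro w
    obtain ⟨S, hS⟩ : ∃ S : ℝ, S = ∑ x ∈ A, w x := ⟨_, rfl⟩
    obtain ⟨R, hR⟩ : ∃ R : ℝ, R = ∑ x ∈ A, w x * (1 - τ x) := ⟨_, rfl⟩
    obtain ⟨E0, hE0⟩ : ∃ E0 : ℝ, E0 = ∑ x ∈ A, ∑ y ∈ A, w x * w y * N x y := ⟨_, rfl⟩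
    have hSS : ∑ x ∈ A, (1 - τ x) = n * (1 - tb) := by
      rw [Finset.sum_sub_distrib, Finset.sum_const, nsmul_eq_mul, mul_one, hnn, mul_sub, htbn,
        mul_one]
    have e1 : ∑ x ∈ A, ∑ y ∈ A, w x * w y * K x y = E0 - 2 * S * R + (1 - tb) * S ^ 2 := by
      have h1 : ∀ x, ∑ y ∈ A, w x * w y * K x y =
          ∑ y ∈ A, w x * w y * N x y - w x * (1 - τ x) * S - w x * R + (1 - tb) * (w x * S) := by
        intro x
        rw [hS, hR, Finset.mul_sum, Finset.mul_sum, Finset.mul_sum, Finset.mul_sum,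
          ← Finset.sum_sub_distrib, ← Finset.sum_sub_distrib, ← Finset.sum_add_distrib]
        refine Finset.sum_congr rfl (fun y _ => ?_)
        rw [hK]
        ring
      simp_rw [h1]
      rw [Finset.sum_add_distrib, Finset.sum_sub_distrib, Finset.sum_sub_distrib, ← hE0,
        ← Finset.sum_mul, ← Finset.sum_mul, ← Finset.mul_sum, ← Finset.sum_mul, ← hR, ← hS]
      ring
    have e2 : ∑ x ∈ A, ∑ y ∈ A, (w x - S / n) * (w y - S / n) * N x y =
        E0 - 2 * S * R + (1 - tb) * S ^ 2 := by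
      have h1 : ∀ x, ∑ y ∈ A, (w x - S / n) * (w y - S / n) * N x y =
          ∑ y ∈ A, w x * w y * N x y - S / n * ∑ y ∈ A, w y * N x y -
            S / n * (w x * (n * (1 - τ x))) + (S / n) ^ 2 * (n * (1 - τ x)) := by
        intro x
        rw [← hsumN x, Finset.mul_sum, Finset.mul_sum, Finset.mul_sum, Finset.mul_sum,
          ← Finset.sum_sub_distrib, ← Finset.sum_sub_distrib, ← Finset.sum_add_distrib]
        refine Finset.sum_congr rfl (fun y _ => ?_)
        ring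
      simp_rw [h1]
      rw [Finset.sum_add_distrib, Finset.sum_sub_distrib, Finset.sum_sub_distrib, ← hE0,
        ← Finset.mul_sum, ← Finset.mul_sum, ← Finset.mul_sum]
      have h2 : ∑ x ∈ A, ∑ y ∈ A, w y * N x y = n * R := by
        rw [Finset.sum_comm]
        have h3 : ∀ y, ∑ x ∈ A, w y * N x y = n * (w y * (1 - τ y)) := by
          intro y
          have h4 : ∀ x, w y * N x y = w y * N y x := fun x => by rw [hNs]
          simp_rw [h4]
          rw [← Finset.mul_sum, hsumN y]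
          ring
        simp_rw [h3]
        rw [← Finset.mul_sum, ← hR]
      have h3 : ∑ x ∈ A, w x * (n * (1 - τ x)) = n * R := by
        rw [hR, Finset.mul_sum]
        refine Finset.sum_congr rfl (fun x _ => ?_)
        ring
      have h4 : ∑ x ∈ A, n * (1 - τ x) = n * (n * (1 - tb)) := by
        rw [← Finset.mul_sum, hSS]
      rw [h2, h3, h4]
      field_simp
      ring
    have h1 := h.pd.nonneg (fun x => if x ∈ A then (w x - S / n) else 0)
    rw [cube_bil_restrict (fun x => (ν x : ℝ)) A (fun x => w x - S / n)] at h1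
    rw [e1, ← e2, hN]
    exact h1
  have hcube := cube_nonneg A K hKs hKpsd
  -- the missing mass
  obtain ⟨D, hD⟩ : ∃ D : G → G → ℝ, D = fun x y => ((max 0 (1 - ν (x - y)) : ℤ) : ℝ) := ⟨_, rfl⟩
  have hDdiag : ∀ x, D x x = 0 := by
    intro x
    rw [hD]
    show ((max 0 (1 - ν (x - x)) : ℤ) : ℝ) = 0
    rw [sub_self, h.zero, max_eq_left (by have : (1 : ℤ) ≤ (M : ℤ) := by exact_mod_cast hM
                                          linarith)]
    norm_num
  have hDoff : ∀ x y, x ≠ y → D x y = 1 - N x y ∧ (D x y = 0 ∨ 1 ≤ D x y) := by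
    intro x y hxy
    have h1 : ν (x - y) ≤ 1 := h.le _ (sub_ne_zero.mpr hxy)
    have h2 : max 0 (1 - ν (x - y)) = 1 - ν (x - y) := max_eq_right (by linarith)
    have h3 : D x y = 1 - N x y := by
      rw [hD, hN]
      show ((max 0 (1 - ν (x - y)) : ℤ) : ℝ) = 1 - (ν (x - y) : ℝ)
      rw [h2]; push_cast; ring
    refine ⟨h3, ?_⟩
    rcases (show ν (x - y) = 1 ∨ ν (x - y) ≤ 0 by omega) with h4 | h4
    · left; rw [h3, hN]
      show 1 - (ν (x - y) : ℝ) = 0
      rw [h4]; norm_num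
    · right; rw [h3, hN]
      show 1 ≤ 1 - (ν (x - y) : ℝ)
      have : (ν (x - y) : ℝ) ≤ 0 := by exact_mod_cast h4
      linarith
  have hNdiag : ∀ x, N x x = M := by
    intro x
    rw [hN]
    show (ν (x - x) : ℝ) = M
    rw [sub_self, h.zero]; norm_num
  have hD0 : ∀ x y, 0 ≤ D x y := by
    intro x y
    rw [hD]
    show (0 : ℝ) ≤ ((max 0 (1 - ν (x - y)) : ℤ) : ℝ)
    exact_mod_cast le_max_left _ _
  -- pointwise bound
  have hpt : ∀ x ∈ A, ∀ y ∈ A, (K x y) ^ 3 ≤ -(912673 / 1000000) * D x y +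
      9 / 10000 * (|τ x| + |τ y| + |tb|) + (if y = x then ((M : ℝ) + 1) ^ 3 else 0) := by
    intro x hx y hy
    obtain ⟨hx1, hx2⟩ := abs_le.mp (hτ1 x hx)
    obtain ⟨hy1, hy2⟩ := abs_le.mp (hτ1 y hy)
    obtain ⟨ht1, ht2⟩ := abs_le.mp htb1
    by_cases hxy : y = x
    · subst hxy
      rw [if_pos rfl, hDdiag]
      have h1 : K y y ≤ M + 1 := by
        rw [hK]
        show N y y - (1 - τ y) - (1 - τ y) + (1 - tb) ≤ M + 1
        rw [hNdiag]; linarith
      have h2 : (K y y) ^ 3 ≤ ((M : ℝ) + 1) ^ 3 :=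
        (Odd.strictMono_pow (R := ℝ) (n := 3) (by decide)).monotone h1
      have h3 : 0 ≤ |τ y| + |τ y| + |tb| := by positivity
      linarith
    · rw [if_neg hxy, add_zero]
      obtain ⟨h3, h4⟩ := hDoff x y (fun hh => hxy hh.symm)
      refine cube_point (e := τ x + τ y - tb) ?_ ?_ ?_ h4
      · rw [h3, hK]
        show N x y - (1 - τ x) - (1 - τ y) + (1 - tb) = _
        ring
      · rw [abs_le]; constructor <;> linarith
      · calc |τ x + τ y - tb| ≤ |τ x + τ y| + |tb| := abs_sub _ _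
          _ ≤ |τ x| + |τ y| + |tb| := by linarith [abs_add_le (τ x) (τ y)]
  obtain ⟨Miss, hMiss⟩ : ∃ Miss : ℝ, Miss = ∑ x ∈ A, ∑ y ∈ A, D x y := ⟨_, rfl⟩
  obtain ⟨T, hT⟩ : ∃ T : ℝ, T = ∑ x ∈ A, |τ x| := ⟨_, rfl⟩
  have hsum : ∑ x ∈ A, ∑ y ∈ A, (K x y) ^ 3 ≤ -(912673 / 1000000) * Miss +
      9 / 10000 * (n * T + n * T + n * (n * |tb|)) + n * ((M : ℝ) + 1) ^ 3 := by
    calc ∑ x ∈ A, ∑ y ∈ A, (K x y) ^ 3 ≤ ∑ x ∈ A, ∑ y ∈ A, (-(912673 / 1000000) * D x y +
          9 / 10000 * (|τ x| + |τ y| + |tb|) + (if y = x then ((M : ℝ) + 1) ^ 3 else 0)) :=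
          Finset.sum_le_sum (fun x hx => Finset.sum_le_sum (fun y hy => hpt x hx y hy))
      _ = ∑ x ∈ A, (-(912673 / 1000000) * ∑ y ∈ A, D x y +
          9 / 10000 * (n * |τ x| + T + n * |tb|) + ((M : ℝ) + 1) ^ 3) := by
          refine Finset.sum_congr rfl (fun x hx => ?_)
          rw [Finset.sum_add_distrib, Finset.sum_add_distrib, ← Finset.mul_sum, ← Finset.mul_sum,
            Finset.sum_add_distrib, Finset.sum_add_distrib, Finset.sum_const, Finset.sum_const,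
            nsmul_eq_mul, nsmul_eq_mul, hnn, ← hT, Finset.sum_ite_eq' A x, if_pos hx]
      _ = _ := by
          rw [Finset.sum_add_distrib, Finset.sum_add_distrib, ← Finset.mul_sum, ← Finset.mul_sum,
            Finset.sum_add_distrib, Finset.sum_add_distrib, Finset.sum_const, Finset.sum_const,
            Finset.sum_const, nsmul_eq_mul, nsmul_eq_mul, nsmul_eq_mul, hnn, ← Finset.mul_sum,
            ← hT, ← hMiss]
  have hTb : n * T ≤ Miss + n * ((M : ℝ) - 1) := by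
    have h1 : ∀ x ∈ A, n * |τ x| ≤ ∑ y ∈ A, D x y + ((M : ℝ) - 1) := by
      intro x hx
      have h2 : ∑ y ∈ A, (1 - N x y) = ∑ y ∈ A, D x y - ((M : ℝ) - 1) := by
        rw [← Finset.add_sum_erase A _ hx, ← Finset.add_sum_erase A (fun y => D x y) hx, hDdiag,
          hNdiag]
        have h3 : ∑ y ∈ A.erase x, (1 - N x y) = ∑ y ∈ A.erase x, D x y := by
          refine Finset.sum_congr rfl (fun y hy => ?_)
          exact ((hDoff x y (Finset.ne_of_mem_erase hy).symm).1).symm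
        rw [h3]; ring
      rw [← abs_of_pos hn, ← abs_mul, hτn x, h2]
      have h4 : 0 ≤ ∑ y ∈ A, D x y := Finset.sum_nonneg (fun y _ => hD0 x y)
      rw [abs_le]
      constructor <;> linarith
    rw [hT, Finset.mul_sum]
    refine le_trans (Finset.sum_le_sum h1) (le_of_eq ?_)
    rw [Finset.sum_add_distrib, Finset.sum_const, nsmul_eq_mul, hnn, ← hMiss]
  have hfin : Miss ≤ 2 * ((M : ℝ) + 1) ^ 3 * n := by
    have h1 : n * (n * |tb|) ≤ n * T := by
      rw [hT]; exact mul_le_mul_of_nonneg_left habs (le_of_lt hn)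
    have h2 : 0 ≤ -(912673 / 1000000) * Miss + 27 / 10000 * (Miss + n * ((M : ℝ) - 1)) +
        n * ((M : ℝ) + 1) ^ 3 := by linarith
    have h3 : (M : ℝ) - 1 ≤ ((M : ℝ) + 1) ^ 3 := by nlinarith [sq_nonneg (M : ℝ)]
    have h4 : n * ((M : ℝ) - 1) ≤ n * ((M : ℝ) + 1) ^ 3 :=
      mul_le_mul_of_nonneg_left h3 (le_of_lt hn)
    have h5 : 0 ≤ n * ((M : ℝ) + 1) ^ 3 := by positivity
    linarith
  have hcast : ((∑ x ∈ A, ∑ y ∈ A, max 0 (1 - ν (x - y)) : ℤ) : ℝ) = Miss := by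
    rw [hMiss, hD]; push_cast; rfl
  have hgoal : ((∑ x ∈ A, ∑ y ∈ A, max 0 (1 - ν (x - y)) : ℤ) : ℝ) ≤
      (((cQ M : ℤ) * #A : ℤ) : ℝ) := by
    rw [hcast]
    unfold cQ
    push_cast
    rw [hnn]
    exact hfin
  exact_mod_cast hgoal

end Pool.Agent.Strip
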