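import Pool.Agent.Strip.Ft2

open Finset

namespace Pool.Agent.Strip

variable {K : Type} [Field K] [Fintype K] {V : Type} [AddCommGroup V] [Module K V] [Fintype V]

open Classical in
/-- The sum over a punctured line. -/
noncomputable def descS (W : Submodule K V) (f : V → ℝ) (c e : Module.Dual K V) : ℝ :=
  ∑ t ∈ univ.erase (0 : K), ftW W f (c + t • e)

theorem desc_sub (W : Submodule K V) (f g : V → ℝ) (c : Module.Dual K V) :
    ftW W (fun x => f x - g x) c = ftW W f c - ftW W g c := by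
  unfold ftW
  rw [← Finset.sum_sub_distrib]
  apply Finset.sum_congr rfl
  intro x _
  ring

theorem desc_q_pos : (1 : ℝ) < (Fintype.card K : ℝ) := by
  have : 1 < Fintype.card K := Fintype.one_lt_card
  exact_mod_cast this

theorem desc_step_eq (W : Submodule K V) (f : V → ℝ) (c e : Module.Dual K V) :
    (Fintype.card K : ℝ) * ftW (W ⊓ LinearMap.ker e) f c = ftW W f c + descS W f c e := by
  classical
  rw [ftW_step]
  unfold descS
  rw [← Finset.add_sum_erase univ _ (Finset.mem_univ (0 : K))]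
  have h0 : c + (0 : K) • e = c := by rw [zero_smul, add_zero]
  rw [h0]

theorem desc_line (W : Submodule K V) (f : V → ℝ) (c e e' : Module.Dual K V) :
    (Fintype.card K : ℝ) * descS (W ⊓ LinearMap.ker e) f c e' =
      ∑ r : K, descS W f c (e' + r • e) := by
  classical
  unfold descS
  rw [Finset.mul_sum, Finset.sum_comm]
  apply Finset.sum_congr rfl
  intro t ht
  have ht0 : t ≠ 0 := (Finset.mem_erase.mp ht).1
  rw [ftW_step]
  symm
  apply Finset.sum_nbij' (fun r => t * r) (fun r => t⁻¹ * r)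
  · intro r _
    exact Finset.mem_univ _
  · intro r _
    exact Finset.mem_univ _
  · intro r _
    field_simp
  · intro r _
    field_simp
  · intro r _
    congr 1
    rw [smul_add, smul_smul, add_assoc]

/-- The size of the intersection with a hyperplane. -/
theorem desc_card (U W : Submodule K V) (e : Module.Dual K V) (he : ¬ ∀ x ∈ U ⊓ W, e x = 0) :
    #(sF (U ⊓ W).toAddSubgroup) =
      Fintype.card K * #(sF (U ⊓ (W ⊓ LinearMap.ker e)).toAddSubgroup) := by
  classical
  push Not at he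
  obtain ⟨x1, hx1, hne⟩ := he
  set x0 : V := (e x1)⁻¹ • x1 with hx0
  have hx0m : x0 ∈ U ⊓ W := (U ⊓ W).smul_mem _ hx1
  have hx0e : e x0 = 1 := by
    rw [hx0, map_smul, smul_eq_mul]
    exact inv_mul_cancel₀ hne
  have hcard : #((univ : Finset K) ×ˢ (sF (U ⊓ (W ⊓ LinearMap.ker e)).toAddSubgroup)) =
      #(sF (U ⊓ W).toAddSubgroup) := by
    apply Finset.card_nbij' (fun p => p.2 + p.1 • x0) (fun x => (e x, x - e x • x0))
    · intro p hp
      have h1 := (Finset.mem_product.mp hp).2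
      have h2 := mem_sF.mp h1
      rw [Submodule.mem_toAddSubgroup] at h2
      refine Finset.mem_coe.mpr (mem_sF.mpr ?_)
      rw [Submodule.mem_toAddSubgroup]
      have h3 : p.2 ∈ U ⊓ W := ⟨h2.1, h2.2.1⟩
      exact (U ⊓ W).add_mem h3 ((U ⊓ W).smul_mem _ hx0m)
    · intro x hx
      have h2 := mem_sF.mp (Finset.mem_coe.mp hx)
      rw [Submodule.mem_toAddSubgroup] at h2
      refine Finset.mem_coe.mpr (Finset.mem_product.mpr ⟨Finset.mem_univ _, ?_⟩)
      refine mem_sF.mpr ?_
      rw [Submodule.mem_toAddSubgroup]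
      have h3 : x - e x • x0 ∈ U ⊓ W := (U ⊓ W).sub_mem h2 ((U ⊓ W).smul_mem _ hx0m)
      refine ⟨h3.1, h3.2, ?_⟩
      rw [SetLike.mem_coe, LinearMap.mem_ker, map_sub, map_smul, hx0e]
      simp
    · intro p hp
      have h1 := (Finset.mem_product.mp hp).2
      have h2 := mem_sF.mp h1
      rw [Submodule.mem_toAddSubgroup] at h2
      have h3 : e p.2 = 0 := LinearMap.mem_ker.mp h2.2.2
      have h4 : e (p.2 + p.1 • x0) = p.1 := by
        rw [map_add, map_smul, h3, hx0e]
        simp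
      ext
      · exact h4
      · change p.2 + p.1 • x0 - e (p.2 + p.1 • x0) • x0 = p.2
        rw [h4]
        simp
    · intro x _
      change x - e x • x0 + e x • x0 = x
      simp
  rw [← hcard, Finset.card_product, Finset.card_univ]

theorem desc_ann_line {U W : Submodule K V} {c e : Module.Dual K V} (hc : ∀ x ∈ U, c x = 0)
    (he : ¬ ∀ x ∈ U ⊓ W, e x = 0) {t : K} (ht : t ≠ 0) :
    ¬ ∀ x ∈ U ⊓ W, (c + t • e) x = 0 := by
  intro h
  apply he
  intro x hx
  have h1 := h x hx
  rw [LinearMap.add_apply, hc x hx.1, zero_add, LinearMap.smul_apply, smul_eq_mul] at h1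
  exact (mul_eq_zero.mp h1).resolve_left ht

/-- Off the annihilator the coefficients are nonnegative. -/
theorem desc_nonneg {ν : V → ℤ} (hpd : PD (fun x => (ν x : ℝ))) (U W : Submodule K V)
    (c : Module.Dual K V) (hc : ¬ ∀ x ∈ U ⊓ W, c x = 0) :
    0 ≤ ftW W (fun x => ((ν x - ind U.toAddSubgroup x : ℤ) : ℝ)) c := by
  have h1 : (fun x => ((ν x - ind U.toAddSubgroup x : ℤ) : ℝ)) =
      (fun x => (ν x : ℝ) - (ind U.toAddSubgroup x : ℝ)) := by
    funext x
    push_cast
    rfl
  rw [h1, desc_sub, (ftW_ind U W c).2 hc, sub_zero]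
  exact ftW_nonneg hpd W c

theorem desc_S_nonneg {ν : V → ℤ} (hpd : PD (fun x => (ν x : ℝ))) (U W : Submodule K V)
    (c e : Module.Dual K V) (hc : ∀ x ∈ U, c x = 0) (he : ¬ ∀ x ∈ U ⊓ W, e x = 0) :
    0 ≤ descS W (fun x => ((ν x - ind U.toAddSubgroup x : ℤ) : ℝ)) c e := by
  classical
  unfold descS
  apply Finset.sum_nonneg
  intro t ht
  exact desc_nonneg hpd U W _ (desc_ann_line hc he (Finset.mem_erase.mp ht).1)

/-- The averaging argument. -/
theorem desc_avg {M : ℕ} {ν : V → ℤ} (h : Nu M ν) (U : Submodule K V)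
    (hon : ∑ x ∈ sF U.toAddSubgroup, (ν x - 1) ^ 2 ≤ (cK M : ℤ)) (W : Submodule K V)
    (c : Module.Dual K V) (hc : ∀ x ∈ U, c x = 0)
    (hbig : 2 * (M + cK M) + 3 ≤ #(sF (U ⊓ W).toAddSubgroup)) :
    ∃ e : Module.Dual K V, (¬ ∀ x ∈ U ⊓ W, e x = 0) ∧
      descS W (fun x => ((ν x - ind U.toAddSubgroup x : ℤ) : ℝ)) c e <
        ((Fintype.card K : ℝ) - 1) * ((M : ℝ) - 1 / 2) := by
  classical
  haveI : Finite (Module.Dual K V) :=
    Finite.of_injective (fun f => (f : V → K)) DFunLike.coe_injective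
  haveI : Fintype (Module.Dual K V) := Fintype.ofFinite _
  by_contra hcon
  push Not at hcon
  set f : V → ℝ := fun x => ((ν x - ind U.toAddSubgroup x : ℤ) : ℝ) with hf
  set q : ℝ := (Fintype.card K : ℝ) with hq
  have hq1 : 1 < q := desc_q_pos
  set B : Finset (Module.Dual K V) :=
    univ.filter (fun c : Module.Dual K V => ∀ x ∈ U ⊓ W, c x = 0) with hB
  set Bc : Finset (Module.Dual K V) :=
    univ.filter (fun c : Module.Dual K V => ¬ ∀ x ∈ U ⊓ W, c x = 0) with hBc
  have hsum1 : ∑ e ∈ Bc, descS W f c e = (q - 1) * ∑ e ∈ Bc, ftW W f e := by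
    unfold descS
    rw [Finset.sum_comm]
    have h1 : ∀ t ∈ univ.erase (0 : K), ∑ e ∈ Bc, ftW W f (c + t • e) = ∑ e ∈ Bc, ftW W f e := by
      intro t ht
      have ht0 : t ≠ 0 := (Finset.mem_erase.mp ht).1
      apply Finset.sum_nbij' (fun e => c + t • e) (fun e => t⁻¹ • (e - c))
      · intro e he
        rw [hBc, Finset.mem_filter] at he ⊢
        exact ⟨Finset.mem_univ _, desc_ann_line hc he.2 ht0⟩
      · intro e he
        rw [hBc, Finset.mem_filter] at he ⊢
        refine ⟨Finset.mem_univ _, ?_⟩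
        intro h2
        apply he.2
        intro x hx
        have h3 := h2 x hx
        rw [LinearMap.smul_apply, LinearMap.sub_apply, hc x hx.1, sub_zero, smul_eq_mul] at h3
        exact (mul_eq_zero.mp h3).resolve_left (inv_ne_zero ht0)
      · intro e _
        rw [add_sub_cancel_left, smul_smul, inv_mul_cancel₀ ht0, one_smul]
      · intro e _
        rw [smul_smul, mul_inv_cancel₀ ht0, one_smul]
        abel
      · intro e _
        rfl
    rw [Finset.sum_congr rfl h1, Finset.sum_const, nsmul_eq_mul, Finset.card_erase_of_mem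
      (Finset.mem_univ _), Finset.card_univ, Nat.cast_sub Fintype.card_pos]
    push_cast
    rfl
  have hall : ∑ e ∈ B, ftW W f e + ∑ e ∈ Bc, ftW W f e = Fintype.card V * f 0 := by
    rw [← sum_ftW f W, hB, hBc]
    exact Finset.sum_filter_add_sum_filter_not univ _ _
  have hf0 : f 0 = (M : ℝ) - 1 := by
    rw [hf]
    have h1 : ind U.toAddSubgroup (0 : V) = 1 := by
      unfold ind
      rw [if_pos U.toAddSubgroup.zero_mem]
    simp only [h.zero, h1]
    push_cast
    rfl
  have hann := sum_ftW_ann f U W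
  have hcardB := card_ann (U ⊓ W)
  have hcardD := card_ann (⊥ : Submodule K V)
  have hbot : #(sF (⊥ : Submodule K V).toAddSubgroup) = 1 := by
    rw [Finset.card_eq_one]
    refine ⟨0, ?_⟩
    ext x
    rw [mem_sF, Submodule.mem_toAddSubgroup, Submodule.mem_bot, Finset.mem_singleton]
  have hD : Fintype.card (Module.Dual K V) = Fintype.card V := by
    rw [hbot, mul_one] at hcardD
    rw [← hcardD, ← Finset.card_univ]
    congr 1
    ext c'
    rw [Finset.mem_filter]
    refine ⟨fun _ => ⟨Finset.mem_univ _, ?_⟩, fun _ => Finset.mem_univ _⟩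
    intro x hx
    rw [Submodule.mem_bot] at hx
    rw [hx, map_zero]
  have hBBc : #B + #Bc = Fintype.card V := by
    rw [← hD, hB, hBc, ← Finset.card_univ]
    exact Finset.card_filter_add_card_filter_not _
  set u : ℕ := #(sF (U ⊓ W).toAddSubgroup) with hu
  have hcardB' : #B * u = Fintype.card V := by
    rw [← hcardB, hB]
  have hannB : (u : ℝ) * ∑ e ∈ B, ftW W f e =
      Fintype.card V * ∑ x ∈ sF (U ⊓ W).toAddSubgroup, f x := by
    rw [← hann, hB]
  have hlowU : -(cK M : ℝ) ≤ ∑ x ∈ sF (U ⊓ W).toAddSubgroup, f x := by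
    have h1 : ∑ x ∈ sF (U ⊓ W).toAddSubgroup, f x =
        ((∑ x ∈ sF (U ⊓ W).toAddSubgroup, (ν x - 1) : ℤ) : ℝ) := by
      push_cast
      apply Finset.sum_congr rfl
      intro x hx
      have h2 := mem_sF.mp hx
      rw [Submodule.mem_toAddSubgroup] at h2
      have h3 : ind U.toAddSubgroup x = 1 := by
        unfold ind
        rw [if_pos]
        exact h2.1
      rw [hf]
      simp only [h3]
      push_cast
      rfl
    rw [h1]
    have h2 : -(∑ x ∈ sF (U ⊓ W).toAddSubgroup, (ν x - 1) ^ 2) ≤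
        ∑ x ∈ sF (U ⊓ W).toAddSubgroup, (ν x - 1) := by
      rw [← Finset.sum_neg_distrib]
      apply Finset.sum_le_sum
      intro x _
      nlinarith [sq_nonneg (ν x - 1), sq_nonneg (ν x), Int.le_self_sq (-(ν x - 1))]
    have h3 : ∑ x ∈ sF (U ⊓ W).toAddSubgroup, (ν x - 1) ^ 2 ≤
        ∑ x ∈ sF U.toAddSubgroup, (ν x - 1) ^ 2 := by
      apply Finset.sum_le_sum_of_subset_of_nonneg
      · intro x hx
        have h4 := mem_sF.mp hx
        rw [Submodule.mem_toAddSubgroup] at h4
        refine mem_sF.mpr ?_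
        rw [Submodule.mem_toAddSubgroup]
        exact h4.1
      · intro x _ _
        exact sq_nonneg _
    have h5 : -(cK M : ℤ) ≤ ∑ x ∈ sF (U ⊓ W).toAddSubgroup, (ν x - 1) := by linarith
    exact_mod_cast h5
  have hlow2 : ∑ e ∈ Bc, descS W f c e ≥ #Bc * ((q - 1) * ((M : ℝ) - 1 / 2)) := by
    have h1 : ∀ e ∈ Bc, (q - 1) * ((M : ℝ) - 1 / 2) ≤ descS W f c e := by
      intro e he
      rw [hBc, Finset.mem_filter] at he
      have he2 := he.2
      push Not at he2
      exact hcon e he2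
    have h4 := Finset.card_nsmul_le_sum Bc _ _ h1
    rw [nsmul_eq_mul] at h4
    exact h4
  rw [hsum1] at hlow2
  -- real numbers
  have hVr : (Fintype.card V : ℝ) = #B * (u : ℝ) := by exact_mod_cast hcardB'.symm
  have hVr2 : (Fintype.card V : ℝ) = #B + #Bc := by exact_mod_cast hBBc.symm
  have hu1 : (2 * ((M : ℝ) + cK M) + 3) ≤ u := by exact_mod_cast hbig
  have hM0 : (0 : ℝ) ≤ M := Nat.cast_nonneg M
  have hK0 : (0 : ℝ) ≤ cK M := Nat.cast_nonneg _
  have hu0 : (0 : ℝ) < u := by linarith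
  have hV0 : (0 : ℝ) < Fintype.card V := by
    have : 0 < Fintype.card V := Fintype.card_pos
    exact_mod_cast this
  have hB0 : (0 : ℝ) < #B := by
    rw [hVr] at hV0
    exact (pos_iff_pos_of_mul_pos hV0).mpr hu0
  have hsB : ∑ e ∈ B, ftW W f e = #B * ∑ x ∈ sF (U ⊓ W).toAddSubgroup, f x := by
    rw [hVr] at hannB
    have h1 : (u : ℝ) * ∑ e ∈ B, ftW W f e =
        u * (#B * ∑ x ∈ sF (U ⊓ W).toAddSubgroup, f x) := by
      rw [hannB]; ring
    exact mul_left_cancel₀ hu0.ne' h1
  have hq10 : 0 < q - 1 := by linarith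
  have h7 : (#Bc : ℝ) * ((M : ℝ) - 1 / 2) ≤ ∑ e ∈ Bc, ftW W f e := by
    have h8 : (q - 1) * ((#Bc : ℝ) * ((M : ℝ) - 1 / 2)) ≤ (q - 1) * ∑ e ∈ Bc, ftW W f e := by
      linarith
    exact le_of_mul_le_mul_left h8 hq10
  have h9 : ∑ e ∈ Bc, ftW W f e = #B * u * ((M : ℝ) - 1) -
      #B * ∑ x ∈ sF (U ⊓ W).toAddSubgroup, f x := by
    rw [hf0, hsB, hVr] at hall
    linarith
  have h10 : (#Bc : ℝ) = #B * (u - 1) := by
    have : (#Bc : ℝ) = #B * (u : ℝ) - #B := by linarith
    rw [this]; ring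
  rw [h9, h10] at h7
  have h11 : (#B : ℝ) * ((u - 1) * ((M : ℝ) - 1 / 2)) ≤
      #B * (u * ((M : ℝ) - 1) - ∑ x ∈ sF (U ⊓ W).toAddSubgroup, f x) := by
    linarith
  have h12 := le_of_mul_le_mul_left h11 hB0
  nlinarith

/-- The descent step. -/
theorem desc_step {M : ℕ} {ν : V → ℤ} (h : Nu M ν) (hinv : Inv K ν) (U : Submodule K V)
    (W : Submodule K V) (c : Module.Dual K V) (hc : ∀ x ∈ U, c x = 0)
    (hne : 1 < #(sF (U ⊓ W).toAddSubgroup))
    (hP : ∀ e : Module.Dual K V, (¬ ∀ x ∈ U ⊓ W, e x = 0) →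
      ((Fintype.card K : ℝ) - 1) *
        ftW W (fun x => ((ν x - ind U.toAddSubgroup x : ℤ) : ℝ)) c <
        descS W (fun x => ((ν x - ind U.toAddSubgroup x : ℤ) : ℝ)) c e) :
    ∃ W' : Submodule K V,
      ftW W (fun x => ((ν x - ind U.toAddSubgroup x : ℤ) : ℝ)) c + 1 ≤
        ftW W' (fun x => ((ν x - ind U.toAddSubgroup x : ℤ) : ℝ)) c ∧
      ftW W (fun x => ((ν x - ind U.toAddSubgroup x : ℤ) : ℝ)) c ≤
        (Fintype.card K : ℝ) * ftW W' (fun x => ((ν x - ind U.toAddSubgroup x : ℤ) : ℝ)) c ∧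
      #(sF (U ⊓ W).toAddSubgroup) = Fintype.card K * #(sF (U ⊓ W').toAddSubgroup) ∧
      ∀ e : Module.Dual K V, (¬ ∀ x ∈ U ⊓ W', e x = 0) →
        ((Fintype.card K : ℝ) - 1) *
          ftW W' (fun x => ((ν x - ind U.toAddSubgroup x : ℤ) : ℝ)) c <
          descS W' (fun x => ((ν x - ind U.toAddSubgroup x : ℤ) : ℝ)) c e := by
  classical
  haveI : Finite (Module.Dual K V) :=
    Finite.of_injective (fun f => (f : V → K)) DFunLike.coe_injective
  haveI : Fintype (Module.Dual K V) := Fintype.ofFinite _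
  set g : V → ℤ := fun x => ν x - ind U.toAddSubgroup x with hg
  set f : V → ℝ := fun x => ((ν x - ind U.toAddSubgroup x : ℤ) : ℝ) with hf
  have hgInv : Inv K g := by
    intro a ha x
    rw [hg]
    have h1 : ind U.toAddSubgroup (a • x) = ind U.toAddSubgroup x := by
      unfold ind
      have h2 : a • x ∈ U.toAddSubgroup ↔ x ∈ U.toAddSubgroup := by
        rw [Submodule.mem_toAddSubgroup, Submodule.mem_toAddSubgroup]
        exact Submodule.smul_mem_iff U ha
      by_cases h3 : x ∈ U.toAddSubgroup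
      · rw [if_pos h3, if_pos (h2.mpr h3)]
      · rw [if_neg h3, if_neg (fun h4 => h3 (h2.mp h4))]
    simp only [h1, hinv a ha x]
  have hint : ∀ (W : Submodule K V) (c : Module.Dual K V), ∃ z : ℤ, ftW W f c = z :=
    fun W c => ftW_int hgInv W c
  set q : ℝ := (Fintype.card K : ℝ) with hq
  have hq1 : 1 < q := desc_q_pos
  -- there is a functional off the annihilator
  set Bc : Finset (Module.Dual K V) :=
    univ.filter (fun c : Module.Dual K V => ¬ ∀ x ∈ U ⊓ W, c x = 0) with hBc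
  have hBne : Bc.Nonempty := by
    rw [Finset.one_lt_card] at hne
    obtain ⟨x, hx, y, hy, hxy⟩ := hne
    have hx' := mem_sF.mp hx
    have hy' := mem_sF.mp hy
    rw [Submodule.mem_toAddSubgroup] at hx' hy'
    have hsub : x - y ≠ 0 := sub_ne_zero.mpr hxy
    obtain ⟨e, he⟩ : ∃ e : Module.Dual K V, e (x - y) ≠ 0 := by
      by_contra hcon
      push Not at hcon
      exact hsub ((Module.forall_dual_apply_eq_zero_iff K (x - y)).mp hcon)
    refine ⟨e, ?_⟩
    rw [hBc, Finset.mem_filter]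
    refine ⟨Finset.mem_univ _, ?_⟩
    intro h2
    exact he (h2 _ ((U ⊓ W).sub_mem hx' hy'))
  obtain ⟨e, he, hmin⟩ := Finset.exists_min_image Bc (fun e => descS W f c e) hBne
  have heB : ¬ ∀ x ∈ U ⊓ W, e x = 0 := by
    rw [hBc, Finset.mem_filter] at he
    exact he.2
  have hmin' : ∀ e' : Module.Dual K V, (¬ ∀ x ∈ U ⊓ W, e' x = 0) →
      descS W f c e ≤ descS W f c e' := by
    intro e' he'
    apply hmin
    rw [hBc, Finset.mem_filter]
    exact ⟨Finset.mem_univ _, he'⟩
  have hPe := hP e heB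
  have hstep := desc_step_eq W f c e
  have hS0 : 0 ≤ descS W f c e := desc_S_nonneg h.pd U W c e hc heB
  obtain ⟨z, hz⟩ := hint W c
  obtain ⟨z', hz'⟩ := hint (W ⊓ LinearMap.ker e) c
  have hlt : ftW W f c < ftW (W ⊓ LinearMap.ker e) f c := by
    have h1 : q * ftW W f c < q * ftW (W ⊓ LinearMap.ker e) f c := by
      rw [hstep]
      linarith
    exact lt_of_mul_lt_mul_left h1 (by linarith)
  have hone : ftW W f c + 1 ≤ ftW (W ⊓ LinearMap.ker e) f c := by
    rw [hz, hz'] at hlt ⊢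
    have h1 : z < z' := by exact_mod_cast hlt
    have h2 : z + 1 ≤ z' := h1
    exact_mod_cast h2
  refine ⟨W ⊓ LinearMap.ker e, hone, ?_, desc_card U W e heB, ?_⟩
  · rw [hstep]
    linarith
  · intro e' he'
    have h1 := desc_line W f c e e'
    have h2 : q * descS W f c e ≤ ∑ r : K, descS W f c (e' + r • e) := by
      have h3 : ∀ r ∈ (univ : Finset K), descS W f c e ≤ descS W f c (e' + r • e) := by
        intro r _
        apply hmin'
        intro h4
        apply he'
        intro x hx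
        have h5 : x ∈ U ⊓ W := ⟨hx.1, hx.2.1⟩
        have h6 := h4 x h5
        have h7 : e x = 0 := LinearMap.mem_ker.mp hx.2.2
        rw [LinearMap.add_apply, LinearMap.smul_apply, h7, smul_zero, add_zero] at h6
        exact h6
      have h4 := Finset.card_nsmul_le_sum (univ : Finset K) _ _ h3
      rw [nsmul_eq_mul, Finset.card_univ] at h4
      exact h4
    rw [← h1] at h2
    have h5 : descS W f c e ≤ descS (W ⊓ LinearMap.ker e) f c e' :=
      le_of_mul_le_mul_left h2 (by linarith)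
    have h6 : (q - 1) * ftW (W ⊓ LinearMap.ker e) f c < descS W f c e := by
      nlinarith
    linarith

/-- First phase of the descent. -/
theorem desc_D1 {M : ℕ} {ν : V → ℤ} (h : Nu M ν) (hinv : Inv K ν) (U : Submodule K V)
    (hon : ∑ x ∈ sF U.toAddSubgroup, (ν x - 1) ^ 2 ≤ (cK M : ℤ))
    (c : Module.Dual K V) (hc : ∀ x ∈ U, c x = 0) (m : ℕ) :
    ∀ W : Submodule K V,
      Fintype.card K ^ m * (2 * (M + cK M) + 3) ≤ #(sF (U ⊓ W).toAddSubgroup) →
      (M : ℝ) - m ≤ ftW W (fun x => ((ν x - ind U.toAddSubgroup x : ℤ) : ℝ)) c →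
      (∀ e : Module.Dual K V, (¬ ∀ x ∈ U ⊓ W, e x = 0) →
        ((Fintype.card K : ℝ) - 1) *
          ftW W (fun x => ((ν x - ind U.toAddSubgroup x : ℤ) : ℝ)) c <
          descS W (fun x => ((ν x - ind U.toAddSubgroup x : ℤ) : ℝ)) c e) → False := by
  induction m with
  | zero =>
    intro W hu hF hP
    rw [pow_zero, one_mul] at hu
    obtain ⟨e, he, hlt⟩ := desc_avg h U hon W c hc hu
    have h1 := hP e he
    have hq1 : (1 : ℝ) < (Fintype.card K : ℝ) := desc_q_pos
    rw [Nat.cast_zero, sub_zero] at hF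
    nlinarith
  | succ m ih =>
    intro W hu hF hP
    have hqpos : 0 < Fintype.card K := Fintype.card_pos
    have hne : 1 < #(sF (U ⊓ W).toAddSubgroup) := by
      have h1 : 1 ≤ Fintype.card K ^ (m + 1) := Nat.one_le_pow _ _ hqpos
      have h2 : 1 * (2 * (M + cK M) + 3) ≤ Fintype.card K ^ (m + 1) * (2 * (M + cK M) + 3) :=
        Nat.mul_le_mul_right _ h1
      omega
    obtain ⟨W', h1, _, h3, h4⟩ := desc_step h hinv U W c hc hne hP
    apply ih W' _ _ h4
    · rw [h3, pow_succ] at hu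
      have h5 : Fintype.card K * (Fintype.card K ^ m * (2 * (M + cK M) + 3)) ≤
          Fintype.card K * #(sF (U ⊓ W').toAddSubgroup) := by
        calc Fintype.card K * (Fintype.card K ^ m * (2 * (M + cK M) + 3))
            = Fintype.card K ^ m * Fintype.card K * (2 * (M + cK M) + 3) := by ring
          _ ≤ _ := hu
      exact Nat.le_of_mul_le_mul_left h5 hqpos
    · rw [Nat.cast_succ] at hF
      linarith

/-- Second phase of the descent. -/
theorem desc_D2 {M : ℕ} {ν : V → ℤ} (h : Nu M ν) (hinv : Inv K ν) (U : Submodule K V)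
    (hon : ∑ x ∈ sF U.toAddSubgroup, (ν x - 1) ^ 2 ≤ (cK M : ℤ))
    (c : Module.Dual K V) (hc : ∀ x ∈ U, c x = 0) (l : ℕ) :
    ∀ W : Submodule K V,
      Fintype.card K ^ (l + M + 1) * (2 * (M + cK M) + 3) ≤ #(sF (U ⊓ W).toAddSubgroup) →
      -((Fintype.card K : ℝ) ^ l) ≤
        ftW W (fun x => ((ν x - ind U.toAddSubgroup x : ℤ) : ℝ)) c →
      (∀ e : Module.Dual K V, (¬ ∀ x ∈ U ⊓ W, e x = 0) →
        ((Fintype.card K : ℝ) - 1) *
          ftW W (fun x => ((ν x - ind U.toAddSubgroup x : ℤ) : ℝ)) c <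
          descS W (fun x => ((ν x - ind U.toAddSubgroup x : ℤ) : ℝ)) c e) → False := by
  induction l with
  | zero =>
    intro W hu hF hP
    apply desc_D1 h hinv U hon c hc (M + 1) W _ _ hP
    · rw [zero_add] at hu
      exact hu
    · rw [pow_zero] at hF
      rw [Nat.cast_succ]
      linarith
  | succ l ih =>
    intro W hu hF hP
    have hqpos : 0 < Fintype.card K := Fintype.card_pos
    have hq1 : (1 : ℝ) < (Fintype.card K : ℝ) := desc_q_pos
    have hne : 1 < #(sF (U ⊓ W).toAddSubgroup) := by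
      have h1 : 1 ≤ Fintype.card K ^ (l + 1 + M + 1) := Nat.one_le_pow _ _ hqpos
      have h2 : 1 * (2 * (M + cK M) + 3) ≤
          Fintype.card K ^ (l + 1 + M + 1) * (2 * (M + cK M) + 3) :=
        Nat.mul_le_mul_right _ h1
      omega
    obtain ⟨W', _, h2, h3, h4⟩ := desc_step h hinv U W c hc hne hP
    apply ih W' _ _ h4
    · rw [h3] at hu
      have h5 : Fintype.card K * (Fintype.card K ^ (l + M + 1) * (2 * (M + cK M) + 3)) ≤
          Fintype.card K * #(sF (U ⊓ W').toAddSubgroup) := by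
        calc Fintype.card K * (Fintype.card K ^ (l + M + 1) * (2 * (M + cK M) + 3))
            = Fintype.card K ^ (l + 1 + M + 1) * (2 * (M + cK M) + 3) := by ring
          _ ≤ _ := hu
      exact Nat.le_of_mul_le_mul_left h5 hqpos
    · have h6 : (Fintype.card K : ℝ) * (-((Fintype.card K : ℝ) ^ l)) ≤
          (Fintype.card K : ℝ) *
            ftW W' (fun x => ((ν x - ind U.toAddSubgroup x : ℤ) : ℝ)) c := by
        rw [pow_succ] at hF
        linarith
      exact le_of_mul_le_mul_left h6 (by linarith)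

/-- Descent: the pointwise bound implies that the indicator of the cluster can be subtracted. -/
theorem desc {M : ℕ} {ν : V → ℤ} (h : Nu M ν) (hM : 1 ≤ M) (hinv : Inv K ν)
    (U : Submodule K V) (hon : ∑ x ∈ sF U.toAddSubgroup, (ν x - 1) ^ 2 ≤ (cK M : ℤ))
    (Δ l : ℕ) (hl : Δ ≤ Fintype.card K ^ l)
    (hlow : ∀ c : Module.Dual K V, (∀ x ∈ U, c x = 0) →
      (#(sF U.toAddSubgroup) : ℝ) - Δ ≤ ftW ⊤ (fun x => (ν x : ℝ)) c)
    (hbig : Fintype.card K ^ (l + M + 1) * (2 * (M + cK M) + 3) ≤ #(sF U.toAddSubgroup)) :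
    PD (fun x => ((ν x - ind U.toAddSubgroup x : ℤ) : ℝ)) := by
  classical
  have _ := hM
  have hgInv : Inv K (fun x => ((ν x - ind U.toAddSubgroup x : ℤ) : ℝ)) := by
    intro a ha x
    have h1 : ind U.toAddSubgroup (a • x) = ind U.toAddSubgroup x := by
      unfold ind
      have h2 : a • x ∈ U.toAddSubgroup ↔ x ∈ U.toAddSubgroup := by
        rw [Submodule.mem_toAddSubgroup, Submodule.mem_toAddSubgroup]
        exact Submodule.smul_mem_iff U ha
      by_cases h3 : x ∈ U.toAddSubgroup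
      · rw [if_pos h3, if_pos (h2.mpr h3)]
      · rw [if_neg h3, if_neg (fun h4 => h3 (h2.mp h4))]
    simp only [h1, hinv a ha x]
  apply pd_of_ft hgInv
  intro c
  have htop : U ⊓ (⊤ : Submodule K V) = U := inf_top_eq U
  by_cases hc : ∀ x ∈ U, c x = 0
  · by_contra hneg
    push Not at hneg
    apply desc_D2 h hinv U hon c hc l ⊤
    · rw [htop]
      exact hbig
    · have h1 : (fun x => ((ν x - ind U.toAddSubgroup x : ℤ) : ℝ)) =
          (fun x => (ν x : ℝ) - (ind U.toAddSubgroup x : ℝ)) := by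
        funext x
        push_cast
        rfl
      have h2 : ∀ x ∈ U ⊓ (⊤ : Submodule K V), c x = 0 := by
        rw [htop]
        exact hc
      rw [h1, desc_sub, (ftW_ind U ⊤ c).1 h2, htop]
      have h3 := hlow c hc
      have h4 : (Δ : ℝ) ≤ (Fintype.card K : ℝ) ^ l := by exact_mod_cast hl
      linarith
    · intro e he
      have h1 := desc_S_nonneg h.pd U ⊤ c e hc he
      have hq1 : (1 : ℝ) < (Fintype.card K : ℝ) := desc_q_pos
      have h2 : ((Fintype.card K : ℝ) - 1) *
          ftW ⊤ (fun x => ((ν x - ind U.toAddSubgroup x : ℤ) : ℝ)) c < 0 :=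
        mul_neg_of_pos_of_neg (by linarith) hneg
      linarith
  · apply desc_nonneg h.pd U ⊤ c
    rw [htop]
    exact hc

end Pool.Agent.Strip
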