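import Pool.Agent.Strip.Near

open Finset

namespace Pool.Agent.Strip

variable {G : Type} [AddCommGroup G] [Fintype G]

/-- Sums over a larger subgroup do not see the averaging. -/
theorem newcl_sum_av {E U : AddSubgroup G} (hEU : E ≤ U) (f : G → ℝ) :
    ∑ y ∈ sF U, av E f y = ∑ y ∈ sF U, f y := by
  have hc : (0 : ℝ) < (#(sF E) : ℝ) := by exact_mod_cast card_sF_pos E
  unfold av
  rw [← Finset.sum_div, Finset.sum_comm]
  have key : ∀ h ∈ sF E, ∑ y ∈ sF U, f (y + h) = ∑ y ∈ sF U, f y := by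
    intro h hh
    have hU : h ∈ U := hEU (mem_sF.mp hh)
    apply Finset.sum_nbij' (fun y => y + h) (fun y => y - h)
    · intro y hy
      exact mem_sF.mpr (U.add_mem (mem_sF.mp hy) hU)
    · intro y hy
      exact mem_sF.mpr (U.sub_mem (mem_sF.mp hy) hU)
    · intro y _
      simp
    · intro y _
      simp
    · intro y _
      rfl
  rw [Finset.sum_congr rfl key, Finset.sum_const, nsmul_eq_mul]
  field_simp

/-- Distance of the average to an integer. -/
theorem newcl_av_close {M : ℕ} {ν : G → ℤ} (E : AddSubgroup G) (y : G) (m : ℤ)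
    (hm : ∑ z ∈ sF E, (ν (y + z) - m) ^ 2 ≤ 4 * (cQ2 M : ℤ)) :
    |av E (fun x => (ν x : ℝ)) y - m| ≤ 4 * (cQ2 M : ℝ) / (#(sF E) : ℝ) := by
  have hc : (0 : ℝ) < (#(sF E) : ℝ) := by exact_mod_cast card_sF_pos E
  have h1 : av E (fun x => (ν x : ℝ)) y - m =
      (∑ z ∈ sF E, ((ν (y + z) : ℝ) - m)) / (#(sF E) : ℝ) := by
    unfold av
    rw [Finset.sum_sub_distrib, Finset.sum_const, nsmul_eq_mul]
    field_simp
  rw [h1, abs_div, abs_of_pos hc]
  apply div_le_div_of_nonneg_right _ hc.le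
  have h2 : |∑ z ∈ sF E, ((ν (y + z) : ℝ) - m)| ≤ ∑ z ∈ sF E, |(ν (y + z) : ℝ) - m| :=
    Finset.abs_sum_le_sum_abs _ _
  have h3 : ∑ z ∈ sF E, |(ν (y + z) : ℝ) - m| ≤ ∑ z ∈ sF E, ((ν (y + z) : ℝ) - m) ^ 2 := by
    apply Finset.sum_le_sum
    intro z _
    have h4 : |ν (y + z) - m| ≤ (ν (y + z) - m) ^ 2 := by
      rw [← sq_abs]
      have := abs_nonneg (ν (y + z) - m)
      rcases eq_or_lt_of_le this with h0 | h0
      · rw [← h0]; norm_num
      · nlinarith [Int.add_one_le_iff.mpr h0]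
    have h5 : ((|ν (y + z) - m| : ℤ) : ℝ) ≤ (((ν (y + z) - m) ^ 2 : ℤ) : ℝ) := by
      exact_mod_cast h4
    push_cast at h5
    exact h5
  have h6 : ∑ z ∈ sF E, ((ν (y + z) : ℝ) - m) ^ 2 ≤ 4 * (cQ2 M : ℝ) := by
    have : ((∑ z ∈ sF E, (ν (y + z) - m) ^ 2 : ℤ) : ℝ) ≤ ((4 * (cQ2 M : ℤ) : ℤ) : ℝ) := by
      exact_mod_cast hm
    push_cast at this
    exact this
  linarith

theorem newcl_eps {M : ℕ} {n : ℕ} (hn : cNc M ≤ n) :
    4 * (cQ2 M : ℝ) / (n : ℝ) ≤ 1 / 100 := by
  have h0 : (0 : ℝ) < n := by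
    have : 0 < cNc M := by unfold cNc; positivity
    exact_mod_cast lt_of_lt_of_le this hn
  rw [div_le_iff₀ h0]
  have h1 : ((cNc M : ℕ) : ℝ) ≤ n := by exact_mod_cast hn
  have h2 : ((cNc M : ℕ) : ℝ) = 10 ^ 11 * ((M : ℝ) + 1) ^ 9 := by
    unfold cNc; push_cast; ring
  have h3 : ((cQ2 M : ℕ) : ℝ) = 4 * ((M : ℝ) + 1) ^ 4 := by
    unfold cQ2; push_cast; ring
  have hM : (0 : ℝ) ≤ M := Nat.cast_nonneg M
  have h4 : ((M : ℝ) + 1) ^ 4 ≤ ((M : ℝ) + 1) ^ 9 :=
    pow_le_pow_right₀ (by linarith) (by norm_num)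
  have h5 : (0 : ℝ) ≤ ((M : ℝ) + 1) ^ 4 := by positivity
  rw [h3]
  linarith

theorem newcl_100 {M n : ℕ} (hn : cNc M ≤ n) : 100 * M ≤ n := by
  have h1 : 100 * M ≤ cNc M := by
    unfold cNc
    have h2 : M ≤ (M + 1) ^ 9 := by
      calc M ≤ M + 1 := Nat.le_succ M
        _ = (M + 1) ^ 1 := (pow_one _).symm
        _ ≤ (M + 1) ^ 9 := Nat.pow_le_pow_right (Nat.succ_pos M) (by norm_num)
    have h3 : (100 : ℕ) ≤ 10 ^ 11 := by norm_num
    exact Nat.mul_le_mul h3 h2
  exact le_trans h1 hn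

theorem newcl_unique {M : ℕ} {ν : G → ℤ} {E : AddSubgroup G} (hE : cNc M ≤ #(sF E)) {y : G}
    {m m' : ℤ} (hm : ∑ z ∈ sF E, (ν (y + z) - m) ^ 2 ≤ 4 * (cQ2 M : ℤ))
    (hm' : ∑ z ∈ sF E, (ν (y + z) - m') ^ 2 ≤ 4 * (cQ2 M : ℤ)) : m = m' := by
  have h1 := newcl_av_close E y m hm
  have h2 := newcl_av_close E y m' hm'
  have h3 := newcl_eps hE
  have h4 : |(m : ℝ) - m'| < 1 := by
    rw [abs_lt]
    rw [abs_le] at h1 h2
    constructor <;> linarith [h1.1, h1.2, h2.1, h2.2]
  have h5 : |m - m'| < 1 := by exact_mod_cast h4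
  rw [Int.abs_lt_one_iff] at h5
  omega

/-- Every nearly perfect subgroup extends to a cluster. -/
theorem newcl {M : ℕ} {ν : G → ℤ} (h : Nu M ν) (hM : 1 ≤ M) (E : AddSubgroup G)
    (hE : cNc M ≤ #(sF E)) (hσ : (99 / 100 : ℝ) * #(sF E) ≤ ∑ x ∈ sF E, (ν x : ℝ)) :
    ∃ U : AddSubgroup G, ∃ s : G → ℤ, IsCl M ν U s ∧
      ∀ (y : G) (m : ℤ), m ≠ 0 → ∑ z ∈ sF E, (ν (y + z) - m) ^ 2 ≤ 4 * (cQ2 M : ℤ) →
        y ∈ U ∧ s y = m := by
  have hex : ∀ y : G, ∃ m : ℤ, ∑ z ∈ sF E, (ν (y + z) - m) ^ 2 ≤ 4 * (cQ2 M : ℤ) :=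
    fun y => near_coset h hM E (newcl_100 hE) hσ y
  choose m hm using hex
  set a : G → ℝ := av E (fun x => (ν x : ℝ)) with ha
  have haPD : PD a := PD.av h.pd E
  have heps := newcl_eps hE
  set e : ℝ := 4 * (cQ2 M : ℝ) / (#(sF E) : ℝ) with he
  have hclose : ∀ y, |a y - m y| ≤ e := fun y => newcl_av_close E y (m y) (hm y)
  have hcl1 : ∀ y, a y - m y ≤ e := fun y => (abs_le.mp (hclose y)).2
  have hcl2 : ∀ y, -e ≤ a y - m y := fun y => (abs_le.mp (hclose y)).1
  -- the value at zero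
  have hm0 : m 0 = 1 := by
    apply newcl_unique hE (hm 0)
    have h1 := near_sq h hM E (newcl_100 hE) hσ
    have h2 : ∑ z ∈ sF E, (ν (0 + z) - 1) ^ 2 = ∑ z ∈ sF E, (ν z - 1) ^ 2 := by
      apply Finset.sum_congr rfl
      intro z _
      rw [zero_add]
    rw [h2]
    have h3 : (0 : ℤ) ≤ (cQ2 M : ℤ) := Int.natCast_nonneg _
    linarith
  have ha0 : a 0 ≤ 1 + e := by
    have := hcl1 0
    rw [hm0] at this
    push_cast at this
    linarith
  have hm1 : ∀ y, m y ≤ 1 ∧ -1 ≤ m y := by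
    intro y
    have h1 := PD.abs_le haPD y
    rw [abs_le] at h1
    have h2 := hcl1 y
    have h3 := hcl2 y
    have h4 : (m y : ℝ) < 2 := by linarith [h1.2]
    have h5 : (-2 : ℝ) < (m y : ℝ) := by linarith [h1.1]
    have h6 : m y < 2 := by exact_mod_cast h4
    have h7 : -2 < m y := by exact_mod_cast h5
    omega
  have hm2 : ∀ y, m y ≠ 0 → m y = 1 ∨ m y = -1 := by
    intro y hy
    have := hm1 y
    omega
  have hmneg : ∀ y, m (-y) = m y := by
    intro y
    have h1 : a (-y) = a y := haPD.symm y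
    have h2 := hcl1 y
    have h3 := hcl2 y
    have h4 := hcl1 (-y)
    have h5 := hcl2 (-y)
    rw [h1] at h4 h5
    have h6 : |(m (-y) : ℝ) - m y| < 1 := by
      rw [abs_lt]
      constructor <;> linarith
    have h7 : |m (-y) - m y| < 1 := by exact_mod_cast h6
    rw [Int.abs_lt_one_iff] at h7
    omega
  have hmadd : ∀ x y, m x ≠ 0 → m y ≠ 0 → m (x + y) = m x * m y := by
    intro x y hx hy
    have hx1 := hm2 x hx
    have hy1 := hm2 y hy
    have hxR : (m x : ℝ) = 1 ∨ (m x : ℝ) = -1 := by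
      rcases hx1 with h1 | h1 <;> rw [h1] <;> norm_num
    have hyR : (m y : ℝ) = 1 ∨ (m y : ℝ) = -1 := by
      rcases hy1 with h1 | h1 <;> rw [h1] <;> norm_num
    have htr := PD.triple haPD hxR hyR x y
    have hxa : (m x : ℝ) * a x ≥ 1 - e := by
      rcases hxR with h1 | h1
      · have := hcl2 x
        rw [h1] at this ⊢
        linarith
      · have := hcl1 x
        rw [h1] at this ⊢
        linarith
    have hya : (m y : ℝ) * a y ≥ 1 - e := by
      rcases hyR with h1 | h1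
      · have := hcl2 y
        rw [h1] at this ⊢
        linarith
      · have := hcl1 y
        rw [h1] at this ⊢
        linarith
    have ha0' : 1 - e ≤ a 0 := by
      have := hcl2 0
      rw [hm0] at this
      push_cast at this
      linarith
    have hkey : (m x : ℝ) * (m y : ℝ) * a (x + y) ≥ 1 - 9 * e := by
      linarith
    have hzz := hm1 (x + y)
    have hxy := hcl1 (x + y)
    have hxy2 := hcl2 (x + y)
    rcases hx1 with h1 | h1 <;> rcases hy1 with h2 | h2 <;> rw [h1, h2] at hkey ⊢ <;>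
      push_cast at hkey <;> norm_num
    · have h3 : (0 : ℝ) < (m (x + y) : ℝ) := by linarith
      have h4 : 0 < m (x + y) := by exact_mod_cast h3
      omega
    · have h3 : (m (x + y) : ℝ) < 0 := by linarith
      have h4 : m (x + y) < 0 := by exact_mod_cast h3
      omega
    · have h3 : (m (x + y) : ℝ) < 0 := by linarith
      have h4 : m (x + y) < 0 := by exact_mod_cast h3
      omega
    · have h3 : (0 : ℝ) < (m (x + y) : ℝ) := by linarith
      have h4 : 0 < m (x + y) := by exact_mod_cast h3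
      omega
  -- the subgroups
  let U : AddSubgroup G :=
    { carrier := {y | m y ≠ 0}
      zero_mem' := by
        change m 0 ≠ 0
        rw [hm0]; norm_num
      add_mem' := by
        intro x y hx hy
        change m (x + y) ≠ 0
        rw [hmadd x y hx hy]
        exact mul_ne_zero hx hy
      neg_mem' := by
        intro x hx
        change m (-x) ≠ 0
        rw [hmneg x]
        exact hx }
  let U0 : AddSubgroup G :=
    { carrier := {y | m y = 1}
      zero_mem' := hm0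
      add_mem' := by
        intro x y hx hy
        have hx' : m x = 1 := hx
        have hy' : m y = 1 := hy
        change m (x + y) = 1
        rw [hmadd x y (by rw [hx']; norm_num) (by rw [hy']; norm_num), hx', hy']
        norm_num
      neg_mem' := by
        intro x hx
        change m (-x) = 1
        rw [hmneg x]
        exact hx }
  have memU : ∀ y, y ∈ U ↔ m y ≠ 0 := fun y => Iff.rfl
  have memU0 : ∀ y, y ∈ U0 ↔ m y = 1 := fun y => Iff.rfl
  have hU0U : U0 ≤ U := by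
    intro y hy
    rw [memU0] at hy
    rw [memU, hy]
    norm_num
  have hEU0 : E ≤ U0 := by
    intro x hx
    rw [memU0]
    have h1 : a x = a 0 := by
      have := av_add E (fun x => (ν x : ℝ)) 0 x hx
      rw [zero_add] at this
      exact this
    have h2 := hcl1 x
    have h3 := hcl2 x
    have h4 := hcl1 0
    have h5 := hcl2 0
    rw [hm0] at h4 h5
    push_cast at h4 h5
    rw [h1] at h2 h3
    have h6 : |(m x : ℝ) - 1| < 1 := by
      rw [abs_lt]
      constructor <;> linarith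
    have h7 : |m x - 1| < 1 := by exact_mod_cast h6
    rw [Int.abs_lt_one_iff] at h7
    omega
  have hcard0 : #(sF E) ≤ #(sF U0) := by
    apply Finset.card_le_card
    intro x hx
    exact mem_sF.mpr (hEU0 (mem_sF.mp hx))
  have hcard1 : #(sF U0) ≤ #(sF U) := by
    apply Finset.card_le_card
    intro x hx
    exact mem_sF.mpr (hU0U (mem_sF.mp hx))
  have hbig0 : cNc M ≤ #(sF U0) := le_trans hE hcard0
  have hσ0 : (99 / 100 : ℝ) * #(sF U0) ≤ ∑ x ∈ sF U0, (ν x : ℝ) := by
    rw [← newcl_sum_av hEU0 (fun x => (ν x : ℝ))]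
    have h1 : ∀ x ∈ sF U0, (99 / 100 : ℝ) ≤ a x := by
      intro x hx
      have h2 : m x = 1 := (memU0 x).mp (mem_sF.mp hx)
      have h3 := hcl2 x
      rw [h2] at h3
      push_cast at h3
      linarith
    have h4 := Finset.card_nsmul_le_sum (sF U0) a (99 / 100) h1
    rw [nsmul_eq_mul] at h4
    linarith
  have hsq0 := near_sq h hM U0 (newcl_100 hbig0) hσ0
  have hcos0 : ∀ y, ∑ z ∈ sF U0, (ν (y + z) - m y) ^ 2 ≤ 4 * (cQ2 M : ℤ) := by
    intro y
    obtain ⟨m', hm'⟩ := near_coset h hM U0 (newcl_100 hbig0) hσ0 y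
    have h1 : ∑ z ∈ sF E, (ν (y + z) - m') ^ 2 ≤ 4 * (cQ2 M : ℤ) := by
      refine le_trans ?_ hm'
      apply Finset.sum_le_sum_of_subset_of_nonneg
      · intro x hx
        exact mem_sF.mpr (hEU0 (mem_sF.mp hx))
      · intro x _ _
        positivity
    have h2 : m y = m' := newcl_unique hE (hm y) h1
    rw [h2]
    exact hm'
  have hQK : (8 : ℤ) * (cQ2 M : ℤ) = (cK M : ℤ) := by
    unfold cQ2 cK
    push_cast
    ring
  have hQ0 : (0 : ℤ) ≤ (cQ2 M : ℤ) := Int.natCast_nonneg _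
  -- splitting sums over `U`
  have hsplit : ∀ F : G → ℤ, (∀ x, 0 ≤ F x) → ∀ B1 B2 : ℤ, 0 ≤ B2 →
      ∑ x ∈ sF U0, F x ≤ B1 →
      (∀ y1, m y1 = -1 → ∑ z ∈ sF U0, F (y1 + z) ≤ B2) → ∑ x ∈ sF U, F x ≤ B1 + B2 := by
    intro F hF B1 B2 hB2 h1 h2
    by_cases hc : ∃ y1, m y1 = -1
    · obtain ⟨y1, hy1⟩ := hc
      classical
      have hsub : sF U ⊆ sF U0 ∪ (sF U0).image (fun z => y1 + z) := by
        intro x hx
        have hxU : m x ≠ 0 := (memU x).mp (mem_sF.mp hx)
        rw [Finset.mem_union]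
        rcases hm2 x hxU with h3 | h3
        · left
          exact mem_sF.mpr ((memU0 x).mpr h3)
        · right
          rw [Finset.mem_image]
          refine ⟨-y1 + x, ?_, by abel⟩
          apply mem_sF.mpr
          rw [memU0, hmadd (-y1) x (by rw [hmneg, hy1]; norm_num) hxU, hmneg, hy1, h3]
          norm_num
      have h3 : ∑ x ∈ sF U, F x ≤ ∑ x ∈ sF U0 ∪ (sF U0).image (fun z => y1 + z), F x :=
        Finset.sum_le_sum_of_subset_of_nonneg hsub (fun x _ _ => hF x)
      have h4 : ∑ x ∈ sF U0 ∪ (sF U0).image (fun z => y1 + z), F x ≤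
          ∑ x ∈ sF U0, F x + ∑ x ∈ (sF U0).image (fun z => y1 + z), F x := by
        have := Finset.sum_union_inter (s₁ := sF U0) (s₂ := (sF U0).image (fun z => y1 + z))
          (f := F)
        have h5 : 0 ≤ ∑ x ∈ sF U0 ∩ (sF U0).image (fun z => y1 + z), F x :=
          Finset.sum_nonneg (fun x _ => hF x)
        linarith
      have h5 : ∑ x ∈ (sF U0).image (fun z => y1 + z), F x = ∑ z ∈ sF U0, F (y1 + z) := by
        rw [Finset.sum_image]
        intro x _ y _ hxy
        exact add_left_cancel hxy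
      have h6 := h2 y1 hy1
      linarith
    · have hsub : sF U ⊆ sF U0 := by
        intro x hx
        have hxU : m x ≠ 0 := (memU x).mp (mem_sF.mp hx)
        rcases hm2 x hxU with h3 | h3
        · exact mem_sF.mpr ((memU0 x).mpr h3)
        · exact absurd ⟨x, h3⟩ hc
      have h3 : ∑ x ∈ sF U, F x ≤ ∑ x ∈ sF U0, F x :=
        Finset.sum_le_sum_of_subset_of_nonneg hsub (fun x _ _ => hF x)
      linarith
  refine ⟨U, m, ⟨?_, ?_, le_trans hbig0 hcard1, ?_, ?_⟩, ?_⟩
  · intro x hx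
    exact hm2 x ((memU x).mp hx)
  · intro x hx y hy
    exact hmadd x y ((memU x).mp hx) ((memU y).mp hy)
  · have h1 : ∑ x ∈ sF U, (ν x - m x) ^ 2 ≤ (cQ2 M : ℤ) + 4 * (cQ2 M : ℤ) := by
      apply hsplit (fun x => (ν x - m x) ^ 2) (fun x => sq_nonneg _)
      · linarith
      · refine le_trans (le_of_eq ?_) hsq0
        apply Finset.sum_congr rfl
        intro x hx
        have h2 : m x = 1 := (memU0 x).mp (mem_sF.mp hx)
        rw [h2]
      · intro y1 hy1
        refine le_trans (le_of_eq ?_) (hcos0 y1)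
        apply Finset.sum_congr rfl
        intro x hx
        have h2 : m x = 1 := (memU0 x).mp (mem_sF.mp hx)
        have h3 : m (y1 + x) = m y1 := by
          rw [hmadd y1 x (by rw [hy1]; norm_num) (by rw [h2]; norm_num), h2, mul_one]
        rw [h3]
    linarith
  · intro y hy
    have hy0 : m y = 0 := by
      by_contra hne
      exact hy ((memU y).mpr hne)
    have h1 : ∑ x ∈ sF U, (ν (y + x)) ^ 2 ≤ 4 * (cQ2 M : ℤ) + 4 * (cQ2 M : ℤ) := by
      apply hsplit (fun x => (ν (y + x)) ^ 2) (fun x => sq_nonneg _)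
      · linarith
      · have h2 := hcos0 y
        rw [hy0] at h2
        simpa using h2
      · intro y1 hy1
        have h3 : m (y + y1) = 0 := by
          by_contra hne
          have h4 : y1 ∈ U := (memU y1).mpr (by rw [hy1]; norm_num)
          have h5 : y + y1 ∈ U := (memU _).mpr hne
          have h6 : y ∈ U := by
            have := U.sub_mem h5 h4
            simpa using this
          exact hy h6
        have h2 := hcos0 (y + y1)
        rw [h3] at h2
        simpa [add_assoc] using h2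
    linarith
  · intro y m' hm' hsum
    have h1 : m y = m' := newcl_unique hE (hm y) hsum
    exact ⟨(memU y).mpr (by rw [h1]; exact hm'), h1⟩

end Pool.Agent.Strip
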