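import Pool.Agent.Strip.Subg1

open Finset

namespace Pool.Agent.Strip

variable {G : Type} [AddCommGroup G] [Fintype G]

open Classical in
/-- The form on sums of point masses. -/
theorem Subg2_bil_pts (f : G → ℝ) {ι κ : Type} (I : Finset ι) (J : Finset κ) (p : ι → G)
    (q : κ → G) :
    bil f (fun z => ∑ i ∈ I, if z = p i then (1 : ℝ) else 0)
      (fun z => ∑ j ∈ J, if z = q j then (1 : ℝ) else 0) =
      ∑ i ∈ I, ∑ j ∈ J, f (p i - q j) := by
  unfold bil
  have h1 : ∀ x y : G, (∑ i ∈ I, if x = p i then (1 : ℝ) else 0) *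
      (∑ j ∈ J, if y = q j then (1 : ℝ) else 0) * f (x - y) =
      ∑ i ∈ I, ∑ j ∈ J, (if x = p i then (if y = q j then f (x - y) else 0) else 0) := by
    intro x y
    rw [Finset.sum_mul_sum, Finset.sum_mul]
    refine Finset.sum_congr rfl fun i _ => ?_
    rw [Finset.sum_mul]
    refine Finset.sum_congr rfl fun j _ => ?_
    by_cases hx : x = p i <;> by_cases hy : y = q j <;> simp [hx, hy]
  simp only [h1]
  have h2 : ∀ x : G, ∑ y, ∑ i ∈ I, ∑ j ∈ J,
      (if x = p i then (if y = q j then f (x - y) else 0) else 0) =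
      ∑ i ∈ I, ∑ j ∈ J, (if x = p i then f (x - q j) else 0) := by
    intro x
    rw [Finset.sum_comm]
    refine Finset.sum_congr rfl fun i _ => ?_
    rw [Finset.sum_comm]
    refine Finset.sum_congr rfl fun j _ => ?_
    by_cases hx : x = p i
    · simp [hx]
    · simp [hx]
  simp only [h2]
  rw [Finset.sum_comm]
  refine Finset.sum_congr rfl fun i _ => ?_
  rw [Finset.sum_comm]
  refine Finset.sum_congr rfl fun j _ => ?_
  simp

open Classical in
/-- The subgroup of a nearly perfect clique. -/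
theorem subg {M : ℕ} {ν : G → ℤ} (h : Nu M ν) (hM : 1 ≤ M) (A : Finset G)
    (hN : cN1 M ≤ #A) (hA : Rows ν A) :
    ∃ E : AddSubgroup G, (99 / 100 : ℝ) * #(sF E) ≤ ∑ x ∈ sF E, (ν x : ℝ) ∧
      ∃ w ∈ A, #A ≤ 2 * M * #(A.filter (fun x => x - w ∈ E)) := by
  have hMr : (1 : ℝ) ≤ M := by exact_mod_cast hM
  have hApos : 0 < #A := by
    have : 0 < cN1 M := by unfold cN1; positivity
    omega
  obtain ⟨a0, ha0⟩ := Finset.card_pos.mp hApos
  set n : ℝ := (#A : ℝ) with hn
  have hnpos : 0 < n := by rw [hn]; exact_mod_cast hApos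
  have hn2 : 0 < n ^ 2 := by positivity
  set ζ : ℝ := 1 / (1000 * ((M : ℝ) + 1)) with hζ
  have hζpos : 0 < ζ := by rw [hζ]; positivity
  have hζM : ζ * M ≤ 1 / 1000 := by
    rw [hζ, div_mul_eq_mul_div, div_le_div_iff₀ (by positivity) (by norm_num)]
    nlinarith
  have hζle : ζ ≤ 1 / 1000 := by nlinarith
  set S : G → ℝ := fun z => ∑ x ∈ A, ∑ y ∈ A, (ν (x - y + z) : ℝ) with hS
  have hPD : PD S := h.pd.conv A
  -- value at zero
  have hrow : ∀ x ∈ A, (99 / 100) * n ≤ ∑ y ∈ A, (ν (x - y) : ℝ) ∧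
      ∑ y ∈ A, (ν (x - y) : ℝ) ≤ (101 / 100) * n := by
    intro x hx
    have := hA x hx
    rw [abs_le] at this
    constructor
    · linarith [this.1]
    · linarith [this.2]
  have hS0u : S 0 ≤ (101 / 100) * n ^ 2 := by
    calc S 0 = ∑ x ∈ A, ∑ y ∈ A, (ν (x - y) : ℝ) := by simp [hS]
      _ ≤ ∑ _x ∈ A, (101 / 100) * n := Finset.sum_le_sum fun x hx => (hrow x hx).2
      _ = (101 / 100) * n ^ 2 := by rw [Finset.sum_const, nsmul_eq_mul]; ring
  have hS0l : (99 / 100) * n ^ 2 ≤ S 0 := by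
    calc (99 / 100) * n ^ 2 = ∑ _x ∈ A, (99 / 100) * n := by
          rw [Finset.sum_const, nsmul_eq_mul]; ring
      _ ≤ ∑ x ∈ A, ∑ y ∈ A, (ν (x - y) : ℝ) := Finset.sum_le_sum fun x hx => (hrow x hx).1
      _ = S 0 := by simp [hS]
  have hdich : ∀ z, S z ≤ ζ * n ^ 2 ∨ (1 - ζ) * n ^ 2 ≤ S z := by
    intro z
    rcases dichotomy h hM A hN hA z with h1 | h1
    · left
      rwa [div_le_iff₀ hn2] at h1
    · right
      rwa [le_div_iff₀ hn2] at h1
  -- the subgroup
  let E : AddSubgroup G :=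
    { carrier := {z | (1 / 2) * n ^ 2 ≤ S z}
      zero_mem' := by
        show (1 / 2) * n ^ 2 ≤ S 0
        nlinarith
      neg_mem' := by
        intro z hz
        have hz' : (1 / 2) * n ^ 2 ≤ S z := hz
        show (1 / 2) * n ^ 2 ≤ S (-z)
        rw [hPD.symm]
        exact hz'
      add_mem' := by
        intro y z hy hz
        have hy' : (1 / 2) * n ^ 2 ≤ S y := hy
        have hz' : (1 / 2) * n ^ 2 ≤ S z := hz
        have hy1 : (1 - ζ) * n ^ 2 ≤ S y := by
          rcases hdich y with h1 | h1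
          · exfalso; nlinarith
          · exact h1
        have hz1 : (1 - ζ) * n ^ 2 ≤ S z := by
          rcases hdich z with h1 | h1
          · exfalso; nlinarith
          · exact h1
        have ht := hPD.triple (Or.inl rfl) (Or.inl rfl) y z
        show (1 / 2) * n ^ 2 ≤ S (y + z)
        nlinarith }
  have hE : ∀ z, z ∈ E ↔ (1 / 2) * n ^ 2 ≤ S z := fun z => Iff.rfl
  have hE1 : ∀ z, z ∈ E → (1 - ζ) * n ^ 2 ≤ S z := by
    intro z hz
    rw [hE] at hz
    rcases hdich z with h1 | h1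
    · exfalso; nlinarith
    · exact h1
  have hE2 : ∀ z, z ∉ E → S z ≤ ζ * n ^ 2 := by
    intro z hz
    rw [hE] at hz
    rcases hdich z with h1 | h1
    · exact h1
    · exfalso; apply hz; nlinarith
  refine ⟨E, ?_, ?_⟩
  · have h1 : (#(sF E) : ℝ) * ((1 - ζ) * n ^ 2) ≤ ∑ z ∈ sF E, S z := by
      calc (#(sF E) : ℝ) * ((1 - ζ) * n ^ 2) = ∑ _z ∈ sF E, (1 - ζ) * n ^ 2 := by
            rw [Finset.sum_const, nsmul_eq_mul]
        _ ≤ _ := Finset.sum_le_sum fun z hz => hE1 z (mem_sF.mp hz)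
    have h2 : ∑ z ∈ sF E, S z ≤ n ^ 2 * ∑ z ∈ sF E, (ν z : ℝ) := by
      calc ∑ z ∈ sF E, S z = ∑ x ∈ A, ∑ y ∈ A, ∑ z ∈ sF E, (ν (x - y + z) : ℝ) := by
            simp only [hS]
            rw [Finset.sum_comm]
            refine Finset.sum_congr rfl fun x _ => ?_
            rw [Finset.sum_comm]
        _ ≤ ∑ x ∈ A, ∑ y ∈ A, ∑ z ∈ sF E, (ν z : ℝ) := by
            refine Finset.sum_le_sum fun x _ => Finset.sum_le_sum fun y _ => ?_
            exact le_trans (le_abs_self _) (h.pd.coset_sum E (x - y))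
        _ = n ^ 2 * ∑ z ∈ sF E, (ν z : ℝ) := by
            simp only [Finset.sum_const, nsmul_eq_mul]
            ring
    have h3 : n ^ 2 * ((1 - ζ) * #(sF E)) ≤ n ^ 2 * ∑ z ∈ sF E, (ν z : ℝ) := by
      calc n ^ 2 * ((1 - ζ) * #(sF E)) = (#(sF E) : ℝ) * ((1 - ζ) * n ^ 2) := by ring
        _ ≤ _ := h1.trans h2
    have h4 := le_of_mul_le_mul_left h3 hn2
    have h5 : (0 : ℝ) ≤ #(sF E) := by positivity
    nlinarith
  · -- representatives of the cosets meeting A
    let qm : G → G ⧸ E := fun x => QuotientAddGroup.mk x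
    let Q : Finset (G ⧸ E) := A.image qm
    have hrep : ∀ c : G ⧸ E, c ∈ Q → ∃ x ∈ A, qm x = c := by
      intro c hc
      exact Finset.mem_image.mp hc
    let rp : G ⧸ E → G := fun c => if hc : c ∈ Q then (hrep c hc).choose else 0
    have hrpA : ∀ c ∈ Q, rp c ∈ A := by
      intro c hc
      simp only [rp, dif_pos hc]
      exact (hrep c hc).choose_spec.1
    have hrpq : ∀ c ∈ Q, qm (rp c) = c := by
      intro c hc
      simp only [rp, dif_pos hc]
      exact (hrep c hc).choose_spec.2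
    have hqm : ∀ x y, qm x = qm y ↔ y - x ∈ E := by
      intro x y
      simp only [qm]
      rw [QuotientAddGroup.eq]
      rw [neg_add_eq_sub]
    have hNpos : 0 < #Q := Finset.card_pos.mpr ⟨qm a0, Finset.mem_image_of_mem _ ha0⟩
    set Nq : ℝ := (#Q : ℝ) with hNq
    have hNqpos : 0 < Nq := by rw [hNq]; exact_mod_cast hNpos
    -- Cauchy-Schwarz
    have hcs := h.pd.cs (fun z => if z = 0 then 1 else 0)
      (fun z => ∑ i ∈ Q ×ˢ A, if z = i.2 - rp i.1 then (1 : ℝ) else 0)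
    have e0 : bil (fun x => (ν x : ℝ)) (fun z => if z = (0 : G) then (1 : ℝ) else 0)
        (fun z => if z = (0 : G) then (1 : ℝ) else 0) = M := by
      rw [bil_single]
      simp [h.zero]
    have e1 : bil (fun x => (ν x : ℝ)) (fun z => if z = (0 : G) then (1 : ℝ) else 0)
        (fun z => ∑ i ∈ Q ×ˢ A, if z = i.2 - rp i.1 then (1 : ℝ) else 0) =
        ∑ c ∈ Q, ∑ y ∈ A, (ν (rp c - y) : ℝ) := by
      have := Subg2_bil_pts (fun x => (ν x : ℝ)) ({()} : Finset Unit) (Q ×ˢ A)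
        (fun _ => (0 : G)) (fun i => i.2 - rp i.1)
      simp only [Finset.sum_singleton] at this
      rw [this, Finset.sum_product]
      simp
    have e2 : bil (fun x => (ν x : ℝ))
        (fun z => ∑ i ∈ Q ×ˢ A, if z = i.2 - rp i.1 then (1 : ℝ) else 0)
        (fun z => ∑ i ∈ Q ×ˢ A, if z = i.2 - rp i.1 then (1 : ℝ) else 0) =
        ∑ c ∈ Q, ∑ c' ∈ Q, S (rp c' - rp c) := by
      rw [Subg2_bil_pts, Finset.sum_product]
      refine Finset.sum_congr rfl fun c _ => ?_
      have : ∀ y ∈ A, ∑ j ∈ Q ×ˢ A, (ν ((c, y).2 - rp (c, y).1 - (j.2 - rp j.1)) : ℝ) =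
          ∑ c' ∈ Q, ∑ y' ∈ A, (ν (y - y' + (rp c' - rp c)) : ℝ) := by
        intro y _
        rw [Finset.sum_product]
        refine Finset.sum_congr rfl fun c' _ => Finset.sum_congr rfl fun y' _ => ?_
        congr 2
        abel
      rw [Finset.sum_congr rfl this, Finset.sum_comm]
    rw [e0, e1, e2] at hcs
    have h1 : Nq * ((99 / 100) * n) ≤ ∑ c ∈ Q, ∑ y ∈ A, (ν (rp c - y) : ℝ) := by
      calc Nq * ((99 / 100) * n) = ∑ _c ∈ Q, (99 / 100) * n := by
            rw [Finset.sum_const, nsmul_eq_mul]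
        _ ≤ _ := Finset.sum_le_sum fun c hc => (hrow _ (hrpA c hc)).1
    have h2 : ∑ c ∈ Q, ∑ c' ∈ Q, S (rp c' - rp c) ≤
        Nq * ((101 / 100) * n ^ 2) + Nq ^ 2 * (ζ * n ^ 2) := by
      have h3 : ∀ c ∈ Q, ∑ c' ∈ Q, S (rp c' - rp c) ≤ (101 / 100) * n ^ 2 + Nq * (ζ * n ^ 2) := by
        intro c hc
        rw [← Finset.add_sum_erase Q _ hc, sub_self]
        have h4 : ∑ c' ∈ Q.erase c, S (rp c' - rp c) ≤ ∑ _c' ∈ Q.erase c, ζ * n ^ 2 := by
          refine Finset.sum_le_sum fun c' hc' => hE2 _ fun hmem => ?_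
          have h5 := (hqm (rp c) (rp c')).mpr hmem
          rw [hrpq c hc, hrpq c' (Finset.mem_of_mem_erase hc')] at h5
          exact Finset.ne_of_mem_erase hc' h5.symm
        have h6 : ∑ _c' ∈ Q.erase c, ζ * n ^ 2 ≤ Nq * (ζ * n ^ 2) := by
          rw [Finset.sum_const, nsmul_eq_mul]
          apply mul_le_mul_of_nonneg_right _ (by positivity)
          rw [hNq]
          exact_mod_cast Finset.card_le_card (Finset.erase_subset c Q)
        linarith
      calc ∑ c ∈ Q, ∑ c' ∈ Q, S (rp c' - rp c) ≤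
            ∑ _c ∈ Q, ((101 / 100) * n ^ 2 + Nq * (ζ * n ^ 2)) := Finset.sum_le_sum h3
        _ = _ := by rw [Finset.sum_const, nsmul_eq_mul]; ring
    have h7 : (Nq * ((99 / 100) * n)) ^ 2 ≤
        M * (Nq * ((101 / 100) * n ^ 2) + Nq ^ 2 * (ζ * n ^ 2)) := by
      calc (Nq * ((99 / 100) * n)) ^ 2 ≤ (∑ c ∈ Q, ∑ y ∈ A, (ν (rp c - y) : ℝ)) ^ 2 :=
            pow_le_pow_left₀ (by positivity) h1 2
        _ ≤ _ := hcs
        _ ≤ _ := mul_le_mul_of_nonneg_left h2 (by positivity)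
    have h8 : (Nq * n ^ 2) * ((9801 / 10000) * Nq) ≤
        (Nq * n ^ 2) * ((101 / 100) * M + Nq * (ζ * M)) := by
      calc (Nq * n ^ 2) * ((9801 / 10000) * Nq) = (Nq * ((99 / 100) * n)) ^ 2 := by ring
        _ ≤ _ := h7
        _ = _ := by ring
    have h9 := le_of_mul_le_mul_left h8 (by positivity)
    have h10 : Nq ≤ 2 * M := by
      have : Nq * (ζ * M) ≤ Nq * (1 / 1000) := mul_le_mul_of_nonneg_left hζM hNqpos.le
      linarith
    have h11 : #Q ≤ 2 * M := by
      have : ((#Q : ℕ) : ℝ) ≤ ((2 * M : ℕ) : ℝ) := by push_cast; exact h10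
      exact_mod_cast this
    -- pigeonhole
    have hcardA : #A = ∑ c ∈ Q, #(A.filter (fun x => qm x = c)) :=
      Finset.card_eq_sum_card_image qm A
    have hQne : Q.Nonempty := Finset.card_pos.mp hNpos
    obtain ⟨c, hc, hmax⟩ := Finset.exists_max_image Q (fun c => #(A.filter (fun x => qm x = c)))
      hQne
    refine ⟨rp c, hrpA c hc, ?_⟩
    have h12 : A.filter (fun x => qm x = c) ⊆ A.filter (fun x => x - rp c ∈ E) := by
      intro x hx
      rw [Finset.mem_filter] at hx ⊢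
      refine ⟨hx.1, ?_⟩
      rw [← hqm, hrpq c hc]
      exact hx.2.symm
    calc #A = ∑ c ∈ Q, #(A.filter (fun x => qm x = c)) := hcardA
      _ ≤ ∑ _c ∈ Q, #(A.filter (fun x => qm x = c)) := by
          refine Finset.sum_le_sum fun c' hc' => ?_
          exact hmax c' hc'
      _ = #Q * #(A.filter (fun x => qm x = c)) := by
          rw [Finset.sum_const, smul_eq_mul]
      _ ≤ 2 * M * #(A.filter (fun x => x - rp c ∈ E)) :=
          Nat.mul_le_mul h11 (Finset.card_le_card h12)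

end Pool.Agent.Strip
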