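import Pool.Agent.Strip.Clique
import Pool.Agent.Strip.Subg2
import Pool.Agent.Strip.NewCl

open Finset

namespace Pool.Agent.Strip

variable {G : Type} [AddCommGroup G] [Fintype G]

/-- Many points with the same nonzero value force a cluster through one of them. -/
theorem extract {M : ℕ} {ν : G → ℤ} (h : Nu M ν) (hM : 1 ≤ M) (S : Finset G) (r : ℤ)
    (hr : r ≠ 0) (hS : ∀ x ∈ S, ν x = r) (hcard : cTheta M ≤ #S) :
    ∃ U : AddSubgroup G, ∃ s : G → ℤ, IsCl M ν U s ∧ ∃ w ∈ S, w ∈ U ∧ s w = r := by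
  classical
  have hN : 1600 * M ≤ cN1 M := by
    unfold cN1
    have h1 : M ≤ (M + 1) ^ 10 := by
      calc M ≤ M + 1 := by omega
        _ = (M + 1) ^ 1 := (pow_one _).symm
        _ ≤ (M + 1) ^ 10 := Nat.pow_le_pow_right (by omega) (by norm_num)
    nlinarith
  obtain ⟨A, hAS, hAN, hAR⟩ := clique h hM S r hr hS (cN1 M) hN (by unfold cTheta at hcard; exact hcard)
  obtain ⟨E, hE, w, hwA, hw⟩ := subg h hM A hAN hAR
  -- the part of `A` in the coset of `w`
  obtain ⟨B, hB⟩ : ∃ B : Finset G, B = A.filter (fun x => x - w ∈ E) := ⟨_, rfl⟩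
  have hw' : #A ≤ 2 * M * #B := by rw [hB]; exact hw
  have hBE : #B ≤ #(sF E) := by
    refine Finset.card_le_card_of_injOn (fun x => x - w) ?_ ?_
    · intro x hx
      rw [hB, Finset.mem_coe, Finset.mem_filter] at hx
      exact Finset.mem_coe.mpr (mem_sF.mpr hx.2)
    · intro x _ x' _ hxx
      exact sub_left_injective hxx
  have hBbig : 5 * 10 ^ 11 * (M + 1) ^ 9 ≤ #B := by
    have h1 : 10 ^ 12 * (M + 1) ^ 10 ≤ 2 * M * #B := le_trans hAN hw'
    have h2 : 2 * (M + 1) * (5 * 10 ^ 11 * (M + 1) ^ 9) ≤ 2 * (M + 1) * #B := by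
      calc 2 * (M + 1) * (5 * 10 ^ 11 * (M + 1) ^ 9) = 10 ^ 12 * (M + 1) ^ 10 := by ring
        _ ≤ 2 * M * #B := h1
        _ ≤ 2 * (M + 1) * #B := Nat.mul_le_mul_right _ (by omega)
    exact Nat.le_of_mul_le_mul_left h2 (by omega)
  have hENc : cNc M ≤ #(sF E) := by
    unfold cNc
    have h1 : 10 ^ 11 * (M + 1) ^ 9 ≤ 5 * 10 ^ 11 * (M + 1) ^ 9 := by
      apply Nat.mul_le_mul_right; norm_num
    omega
  have hM9 : M + 1 ≤ (M + 1) ^ 9 := by
    calc M + 1 = (M + 1) ^ 1 := (pow_one _).symm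
      _ ≤ (M + 1) ^ 9 := Nat.pow_le_pow_right (by omega) (by norm_num)
  have hM4 : (M + 1) ^ 4 ≤ (M + 1) ^ 9 := Nat.pow_le_pow_right (by omega) (by norm_num)
  have hE100 : 100 * M ≤ #(sF E) := by
    unfold cNc at hENc
    omega
  obtain ⟨m, hm⟩ := near_coset h hM E hE100 hE w
  have hmr : m = r := by
    by_contra hne
    have h1 : (#B : ℤ) ≤ ∑ z ∈ sF E, (ν (w + z) - m) ^ 2 := by
      calc (#B : ℤ) = ∑ _x ∈ B, (1 : ℤ) := by rw [Finset.sum_const, nsmul_eq_mul, mul_one]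
        _ ≤ ∑ x ∈ B, (ν (w + (x - w)) - m) ^ 2 := by
            refine Finset.sum_le_sum (fun x hx => ?_)
            rw [hB, Finset.mem_filter] at hx
            have h2 : ν (w + (x - w)) = r := by
              rw [add_sub_cancel]; exact hS x (hAS hx.1)
            rw [h2]
            have h3 : r - m ≠ 0 := sub_ne_zero.mpr (fun hh => hne hh.symm)
            have h4 : 0 < (r - m) ^ 2 := by positivity
            omega
        _ = ∑ z ∈ B.image (fun x => x - w), (ν (w + z) - m) ^ 2 := by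
            rw [Finset.sum_image (fun x _ x' _ hxx => sub_left_injective hxx)]
        _ ≤ ∑ z ∈ sF E, (ν (w + z) - m) ^ 2 := by
            refine Finset.sum_le_sum_of_subset_of_nonneg ?_ (fun z _ _ => sq_nonneg _)
            intro z hz
            rw [Finset.mem_image] at hz
            obtain ⟨x, hx, rfl⟩ := hz
            rw [hB, Finset.mem_filter] at hx
            exact mem_sF.mpr hx.2
    have h2 : (#B : ℤ) ≤ 4 * (cQ2 M : ℤ) := le_trans h1 hm
    have h3 : #B ≤ 4 * cQ2 M := by exact_mod_cast h2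
    unfold cQ2 at h3
    have h4 : 0 < (M + 1) ^ 9 := by positivity
    omega
  obtain ⟨U, s, hU, hUs⟩ := newcl h hM E hENc hE
  have h5 := hUs w m (by rw [hmr]; exact hr) hm
  exact ⟨U, s, hU, w, hAS hwA, h5.1, by rw [h5.2, hmr]⟩

/-- Values at most `-2` are rare. -/
theorem rare {M : ℕ} {ν : G → ℤ} (h : Nu M ν) (hM : 1 ≤ M) (r : ℤ) (hr : r ≤ -2) :
    #(univ.filter (fun x => ν x = r)) ≤ cTheta M := by
  by_contra hcon
  push Not at hcon
  obtain ⟨U, s, hU, w, hwS, hwU, hsw⟩ := extract h hM (univ.filter (fun x => ν x = r)) r (by omega)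
    (fun x hx => (Finset.mem_filter.mp hx).2) (le_of_lt hcon)
  rcases hU.sign w hwU with h1 | h1 <;> omega

open Classical in
/-- Few points with a given nonzero value lie outside all clusters. -/
theorem outside {M : ℕ} {ν : G → ℤ} (h : Nu M ν) (hM : 1 ≤ M) (r : ℤ) (hr : r ≠ 0) :
    #(univ.filter (fun x => ν x = r ∧ ∀ (U : AddSubgroup G) (s : G → ℤ), IsCl M ν U s → x ∉ U)) ≤
      cTheta M := by
  by_contra hcon
  push Not at hcon
  obtain ⟨U, s, hU, w, hwS, hwU, hsw⟩ := extract h hM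
    (univ.filter (fun x => ν x = r ∧ ∀ (U : AddSubgroup G) (s : G → ℤ), IsCl M ν U s → x ∉ U)) r hr
    (fun x hx => (Finset.mem_filter.mp hx).2.1) (le_of_lt hcon)
  exact (Finset.mem_filter.mp hwS).2.2 U s hU hwU

end Pool.Agent.Strip
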