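import Pool.Agent.Strip.Avg

open Finset

namespace Pool.Agent.Strip

variable {K : Type} [Field K] [Fintype K] {V : Type} [AddCommGroup V] [Module K V] [Fintype V]

theorem Ft_card_gt : (1 : ℝ) < (Fintype.card K : ℝ) := by
  exact_mod_cast Fintype.one_lt_card

theorem Ft_kap_zero : kap (0 : K) = 1 := by
  unfold kap
  rw [if_pos rfl]

theorem Ft_kap_ne {a : K} (ha : a ≠ 0) : kap a = -1 / ((Fintype.card K : ℝ) - 1) := by
  unfold kap
  rw [if_neg ha]

theorem Ft_kap_neg (a : K) : kap (-a) = kap a := by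
  by_cases h : a = 0
  · rw [h, neg_zero]
  · rw [Ft_kap_ne h, Ft_kap_ne (neg_ne_zero.mpr h)]

open Classical in
theorem Ft_kap_mul (a : K) : ((Fintype.card K : ℝ) - 1) * kap a =
    Fintype.card K * (if a = 0 then (1 : ℝ) else 0) - 1 := by
  have hq : (Fintype.card K : ℝ) - 1 ≠ 0 := by
    have := Ft_card_gt (K := K)
    linarith
  by_cases h : a = 0
  · rw [if_pos h, h, Ft_kap_zero]
    ring
  · rw [if_neg h, Ft_kap_ne h]
    field_simp
    ring

theorem Ft_sum_kap : ∑ y : K, kap y = 0 := by
  classical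
  have hq : (Fintype.card K : ℝ) - 1 ≠ 0 := by
    have := Ft_card_gt (K := K)
    linarith
  have h : ((Fintype.card K : ℝ) - 1) * ∑ y : K, kap y = 0 := by
    rw [Finset.mul_sum, Finset.sum_congr rfl (fun a _ => Ft_kap_mul a), Finset.sum_sub_distrib,
      ← Finset.mul_sum, Finset.sum_ite_eq' Finset.univ (0 : K) (fun _ => (1 : ℝ)),
      if_pos (Finset.mem_univ _)]
    simp
  exact (mul_eq_zero.mp h).resolve_left hq

open Classical in
/-- Sum over a line. -/
theorem Ft_sum_line (a b : K) :
    ∑ t : K, kap (a + t * b) = if b = 0 then (Fintype.card K : ℝ) * kap a else 0 := by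
  by_cases hb : b = 0
  · rw [if_pos hb]
    simp [hb]
  · rw [if_neg hb, ← Ft_sum_kap (K := K)]
    refine Fintype.sum_bijective (fun t : K => a + t * b) ?_ _ _ (fun t => rfl)
    refine ⟨?_, ?_⟩
    · intro s t hst
      have h1 : s * b = t * b := add_left_cancel hst
      exact mul_right_cancel₀ hb h1
    · intro y
      refine ⟨(y - a) / b, ?_⟩
      show a + (y - a) / b * b = y
      rw [div_mul_cancel₀ _ hb]
      ring

/-- The kernel `kap (c x)` is positive definite. -/
theorem PD.kap (c : Module.Dual K V) : PD (fun x : V => kap (c x)) := by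
  classical
  refine ⟨?_, ?_⟩
  · intro x
    show Strip.kap (c (-x)) = Strip.kap (c x)
    rw [map_neg, Ft_kap_neg]
  · intro w
    have hq0 := Ft_card_gt (K := K)
    have hq : 0 < (Fintype.card K : ℝ) - 1 := by linarith
    have key : ((Fintype.card K : ℝ) - 1) * bil (fun x : V => Strip.kap (c x)) w w =
        Fintype.card K * ∑ a : K, (∑ x ∈ univ.filter (fun x => c x = a), w x) ^ 2 -
          (∑ a : K, ∑ x ∈ univ.filter (fun x => c x = a), w x) ^ 2 := by
      have h1 : ((Fintype.card K : ℝ) - 1) * bil (fun x : V => Strip.kap (c x)) w w =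
          ∑ x, ∑ y, w x * w y *
            (Fintype.card K * (if c (x - y) = 0 then (1 : ℝ) else 0) - 1) := by
        unfold bil
        rw [Finset.mul_sum]
        refine Finset.sum_congr rfl fun x _ => ?_
        rw [Finset.mul_sum]
        refine Finset.sum_congr rfl fun y _ => ?_
        rw [← Ft_kap_mul]
        ring
      have h2 : ∑ x, ∑ y, w x * w y *
            ((Fintype.card K : ℝ) * (if c (x - y) = 0 then (1 : ℝ) else 0) - 1) =
          Fintype.card K * (∑ x, ∑ y, w x * w y * (if c (x - y) = 0 then (1 : ℝ) else 0)) -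
            (∑ x, w x) * (∑ y, w y) := by
        rw [Finset.sum_mul_sum, Finset.mul_sum, ← Finset.sum_sub_distrib]
        refine Finset.sum_congr rfl fun x _ => ?_
        rw [Finset.mul_sum, ← Finset.sum_sub_distrib]
        refine Finset.sum_congr rfl fun y _ => ?_
        ring
      have h3 : ∑ a : K, ∑ x ∈ univ.filter (fun x => c x = a), w x = ∑ x, w x :=
        Finset.sum_fiberwise univ (fun x => c x) w
      have h4 : ∑ x, ∑ y, w x * w y * (if c (x - y) = 0 then (1 : ℝ) else 0) =
          ∑ a : K, (∑ x ∈ univ.filter (fun x => c x = a), w x) ^ 2 := by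
        rw [← Finset.sum_fiberwise univ (fun x => c x)]
        refine Finset.sum_congr rfl fun a _ => ?_
        rw [sq, Finset.sum_mul_sum]
        refine Finset.sum_congr rfl fun x hx => ?_
        rw [Finset.mem_filter] at hx
        rw [Finset.sum_filter]
        refine Finset.sum_congr rfl fun y _ => ?_
        by_cases hy : c y = a
        · rw [if_pos hy, if_pos (by rw [map_sub, hx.2, hy, sub_self])]
          ring
        · rw [if_neg hy, if_neg]
          · ring
          · rw [map_sub, hx.2, sub_eq_zero]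
            exact fun h => hy h.symm
      rw [h1, h2, h3, h4]
      ring
    have hcs : (∑ a : K, ∑ x ∈ univ.filter (fun x => c x = a), w x) ^ 2 ≤
        (Fintype.card K : ℝ) * ∑ a : K, (∑ x ∈ univ.filter (fun x => c x = a), w x) ^ 2 := by
      have := sq_sum_le_card_mul_sum_sq (s := (univ : Finset K))
        (f := fun a : K => ∑ x ∈ univ.filter (fun x => c x = a), w x)
      rw [Finset.card_univ] at this
      exact this
    have h5 : 0 ≤ ((Fintype.card K : ℝ) - 1) * bil (fun x : V => Strip.kap (c x)) w w := by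
      rw [key]
      linarith
    exact nonneg_of_mul_nonneg_right h5 hq

/-- The Fourier transform of a positive definite function is nonnegative. -/
theorem ftW_nonneg {f : V → ℝ} (h : PD f) (W : Submodule K V) (c : Module.Dual K V) :
    0 ≤ ftW W f c := by
  unfold ftW
  exact PD.sum_nonneg (PD.mul h (PD.kap c)) W.toAddSubgroup

/-- Kernel form. -/
theorem ftW_ker (f : V → ℝ) (W : Submodule K V) (c : Module.Dual K V) :
    ((Fintype.card K : ℝ) - 1) * ftW W f c =
      Fintype.card K * (∑ x ∈ sF (W ⊓ LinearMap.ker c).toAddSubgroup, f x) -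
        ∑ x ∈ sF W.toAddSubgroup, f x := by
  classical
  have h0 : sF (W ⊓ LinearMap.ker c).toAddSubgroup =
      (sF W.toAddSubgroup).filter (fun x => c x = 0) := by
    ext x
    rw [Finset.mem_filter, mem_sF, mem_sF]
    simp
  unfold ftW
  rw [h0, Finset.sum_filter, Finset.mul_sum, Finset.mul_sum, ← Finset.sum_sub_distrib]
  refine Finset.sum_congr rfl fun x _ => ?_
  have := Ft_kap_mul (c x)
  calc ((Fintype.card K : ℝ) - 1) * (f x * kap (c x))
      = f x * (((Fintype.card K : ℝ) - 1) * kap (c x)) := by ring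
    _ = f x * (Fintype.card K * (if c x = 0 then (1 : ℝ) else 0) - 1) := by rw [this]
    _ = Fintype.card K * (if c x = 0 then f x else 0) - f x := by
        split_ifs <;> ring

/-- The Fourier transform of an invariant integer valued function is integer valued. -/
theorem ftW_int {f : V → ℤ} (hf : Inv K f) (W : Submodule K V) (c : Module.Dual K V) :
    ∃ z : ℤ, ftW W (fun x => (f x : ℝ)) c = z := by
  classical
  have hq0 := Ft_card_gt (K := K)
  have hq : (Fintype.card K : ℝ) - 1 ≠ 0 := by linarith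
  set S : Finset V := sF W.toAddSubgroup with hS
  have hSm : ∀ x, x ∈ S ↔ x ∈ W := fun x => by
    rw [hS, mem_sF]
    rfl
  refine ⟨∑ x ∈ S.filter (fun x => c x = 0), f x - ∑ x ∈ S.filter (fun x => c x = 1), f x, ?_⟩
  have hfib : ∀ a : K, a ≠ 0 → ∑ x ∈ S.filter (fun x => c x = a), f x =
      ∑ x ∈ S.filter (fun x => c x = 1), f x := by
    intro a ha
    refine Finset.sum_bij' (fun x _ => a⁻¹ • x) (fun x _ => a • x) ?_ ?_ ?_ ?_ ?_
    · intro x hx
      rw [Finset.mem_filter, hSm] at hx ⊢
      refine ⟨W.smul_mem _ hx.1, ?_⟩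
      rw [map_smul, hx.2, smul_eq_mul, inv_mul_cancel₀ ha]
    · intro x hx
      rw [Finset.mem_filter, hSm] at hx ⊢
      refine ⟨W.smul_mem _ hx.1, ?_⟩
      rw [map_smul, hx.2, smul_eq_mul, mul_one]
    · intro x _
      exact smul_inv_smul₀ ha x
    · intro x _
      exact inv_smul_smul₀ ha x
    · intro x _
      exact (hf a⁻¹ (inv_ne_zero ha) x).symm
  have htot : ∑ x ∈ S, f x = ∑ x ∈ S.filter (fun x => c x = 0), f x +
      ((Fintype.card K : ℤ) - 1) * ∑ x ∈ S.filter (fun x => c x = 1), f x := by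
    rw [← Finset.sum_fiberwise S (fun x => c x) f,
      ← Finset.add_sum_erase univ _ (Finset.mem_univ (0 : K))]
    congr 1
    rw [Finset.sum_congr rfl (fun a ha => hfib a (Finset.ne_of_mem_erase ha)),
      Finset.sum_const, Finset.card_erase_of_mem (Finset.mem_univ _), Finset.card_univ,
      nsmul_eq_mul, Nat.cast_sub Fintype.card_pos]
    push_cast
    ring
  have hk := ftW_ker (fun x => (f x : ℝ)) W c
  have h0 : sF (W ⊓ LinearMap.ker c).toAddSubgroup = S.filter (fun x => c x = 0) := by
    ext x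
    rw [Finset.mem_filter, mem_sF, hSm]
    simp
  rw [h0, ← hS] at hk
  have htot' : ∑ x ∈ S, (f x : ℝ) = ∑ x ∈ S.filter (fun x => c x = 0), (f x : ℝ) +
      ((Fintype.card K : ℝ) - 1) * ∑ x ∈ S.filter (fun x => c x = 1), (f x : ℝ) := by
    exact_mod_cast htot
  rw [htot'] at hk
  have hk2 : ((Fintype.card K : ℝ) - 1) * ftW W (fun x => (f x : ℝ)) c =
      ((Fintype.card K : ℝ) - 1) * (∑ x ∈ S.filter (fun x => c x = 0), (f x : ℝ) -
        ∑ x ∈ S.filter (fun x => c x = 1), (f x : ℝ)) := by
    rw [hk]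
    ring
  rw [mul_left_cancel₀ hq hk2]
  push_cast
  rfl

/-- Restriction to a hyperplane. -/
theorem ftW_step (f : V → ℝ) (W : Submodule K V) (c e : Module.Dual K V) :
    (Fintype.card K : ℝ) * ftW (W ⊓ LinearMap.ker e) f c = ∑ t : K, ftW W f (c + t • e) := by
  classical
  have h0 : sF (W ⊓ LinearMap.ker e).toAddSubgroup =
      (sF W.toAddSubgroup).filter (fun x => e x = 0) := by
    ext x
    rw [Finset.mem_filter, mem_sF, mem_sF]
    simp
  unfold ftW
  rw [h0, Finset.sum_filter, Finset.sum_comm, Finset.mul_sum]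
  refine Finset.sum_congr rfl fun x _ => ?_
  rw [← Finset.mul_sum]
  have h1 : ∑ t : K, kap ((c + t • e) x) = ∑ t : K, kap (c x + t * e x) := by
    refine Finset.sum_congr rfl fun t _ => ?_
    rw [LinearMap.add_apply, LinearMap.smul_apply, smul_eq_mul]
  rw [h1, Ft_sum_line]
  split_ifs <;> ring

/-- Indicators of subspaces. -/
theorem ftW_ind (U W : Submodule K V) (c : Module.Dual K V) :
    ((∀ x ∈ U ⊓ W, c x = 0) →
      ftW W (fun x => (ind U.toAddSubgroup x : ℝ)) c = #(sF (U ⊓ W).toAddSubgroup)) ∧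
    ((¬ ∀ x ∈ U ⊓ W, c x = 0) → ftW W (fun x => (ind U.toAddSubgroup x : ℝ)) c = 0) := by
  classical
  have h0 : sF (U ⊓ W).toAddSubgroup =
      (sF W.toAddSubgroup).filter (fun x => x ∈ U.toAddSubgroup) := by
    ext x
    rw [Finset.mem_filter, mem_sF, mem_sF]
    simp only [Submodule.mem_toAddSubgroup, Submodule.mem_inf]
    exact and_comm
  have h1 : ftW W (fun x => (ind U.toAddSubgroup x : ℝ)) c =
      ∑ x ∈ sF (U ⊓ W).toAddSubgroup, kap (c x) := by
    unfold ftW
    rw [h0, Finset.sum_filter]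
    refine Finset.sum_congr rfl fun x _ => ?_
    unfold ind
    by_cases hx : x ∈ U.toAddSubgroup
    · beta_reduce
      rw [if_pos hx, if_pos hx]
      push_cast
      ring
    · beta_reduce
      rw [if_neg hx, if_neg hx]
      push_cast
      ring
  have hm : ∀ x, x ∈ sF (U ⊓ W).toAddSubgroup ↔ x ∈ U ⊓ W := fun x => by
    rw [mem_sF]
    rfl
  refine ⟨?_, ?_⟩
  · intro h
    rw [h1, Finset.sum_congr rfl (fun x hx => by rw [h x ((hm x).mp hx), Ft_kap_zero]),
      Finset.sum_const, nsmul_eq_mul, mul_one]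
  · intro h
    rw [h1]
    push Not at h
    obtain ⟨x0, hx0, hc0⟩ := h
    have hq0 := Ft_card_gt (K := K)
    have hq : (Fintype.card K : ℝ) ≠ 0 := by linarith
    have h2 : ∀ t : K, ∑ x ∈ sF (U ⊓ W).toAddSubgroup, kap (c x) =
        ∑ x ∈ sF (U ⊓ W).toAddSubgroup, kap (c x + t * c x0) := by
      intro t
      refine Finset.sum_bij' (fun x _ => x - t • x0) (fun x _ => x + t • x0) ?_ ?_ ?_ ?_ ?_
      · intro x hx
        rw [hm] at hx ⊢
        exact (U ⊓ W).sub_mem hx ((U ⊓ W).smul_mem _ hx0)
      · intro x hx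
        rw [hm] at hx ⊢
        exact (U ⊓ W).add_mem hx ((U ⊓ W).smul_mem _ hx0)
      · intro x _
        exact sub_add_cancel x _
      · intro x _
        exact add_sub_cancel_right x _
      · intro x _
        rw [map_sub, map_smul, smul_eq_mul, sub_add_cancel]
    have h3 : (Fintype.card K : ℝ) * ∑ x ∈ sF (U ⊓ W).toAddSubgroup, kap (c x) = 0 := by
      calc (Fintype.card K : ℝ) * ∑ x ∈ sF (U ⊓ W).toAddSubgroup, kap (c x)
          = ∑ t : K, ∑ x ∈ sF (U ⊓ W).toAddSubgroup, kap (c x) := by
            rw [Finset.sum_const, nsmul_eq_mul, Finset.card_univ]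
        _ = ∑ t : K, ∑ x ∈ sF (U ⊓ W).toAddSubgroup, kap (c x + t * c x0) :=
            Finset.sum_congr rfl fun t _ => h2 t
        _ = ∑ x ∈ sF (U ⊓ W).toAddSubgroup, ∑ t : K, kap (c x + t * c x0) :=
            Finset.sum_comm
        _ = 0 := by
            refine Finset.sum_eq_zero fun x _ => ?_
            rw [Ft_sum_line, if_neg hc0]
    exact (mul_eq_zero.mp h3).resolve_left hq

end Pool.Agent.Strip
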