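import Pool.Agent.Strip.ClInt

open Finset

namespace Pool.Agent.Strip

variable {K : Type} [Field K] [Fintype K] {V : Type} [AddCommGroup V] [Module K V] [Fintype V]

/-- A cluster of size larger than the square root is a subspace. -/
theorem exists_submodule_of_large {M : ℕ} {ν : V → ℤ} (hinv : Inv K ν) (A : AddSubgroup V)
    (hA : IsCl M ν A (fun _ => 1)) (hlarge : 2 * cK M * Fintype.card V < #(sF A) ^ 2) :
    ∃ W : Submodule K V, W.toAddSubgroup = A := by
  classical
  -- the subgroups `a A`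
  set B : K → AddSubgroup V := fun a => A.map (DistribSMul.toAddMonoidHom V a) with hB
  have hmem : ∀ a : K, a ≠ 0 → ∀ x, x ∈ B a ↔ a⁻¹ • x ∈ A := by
    intro a ha x
    rw [hB]
    beta_reduce
    rw [AddSubgroup.mem_map]
    constructor
    · rintro ⟨y, hy, rfl⟩
      rw [DistribSMul.toAddMonoidHom_apply, smul_smul, inv_mul_cancel₀ ha, one_smul]
      exact hy
    · intro hx
      refine ⟨a⁻¹ • x, hx, ?_⟩
      rw [DistribSMul.toAddMonoidHom_apply, smul_smul, mul_inv_cancel₀ ha, one_smul]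
  have hsum : ∀ a : K, a ≠ 0 → ∀ F : V → ℤ, ∑ x ∈ sF (B a), F x = ∑ x ∈ sF A, F (a • x) := by
    intro a ha F
    symm
    refine Finset.sum_bij (fun x _ => a • x) ?_ ?_ ?_ ?_
    · intro x hx
      rw [mem_sF] at hx ⊢
      rw [hmem a ha, smul_smul, inv_mul_cancel₀ ha, one_smul]
      exact hx
    · intro x _ x' _ hxx
      exact smul_right_injective V ha hxx
    · intro x hx
      rw [mem_sF, hmem a ha] at hx
      exact ⟨a⁻¹ • x, mem_sF.mpr hx, by rw [smul_smul, mul_inv_cancel₀ ha, one_smul]⟩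
    · intro x _
      rfl
  have hcard : ∀ a : K, a ≠ 0 → #(sF (B a)) = #(sF A) := by
    intro a ha
    have h1 := hsum a ha (fun _ => 1)
    simp only [Finset.sum_const, nsmul_eq_mul, mul_one] at h1
    exact_mod_cast h1
  have hcl : ∀ a : K, a ≠ 0 → IsCl M ν (B a) (fun _ => 1) := by
    intro a ha
    refine ⟨fun _ _ => Or.inl rfl, fun _ _ _ _ => rfl, ?_, ?_, ?_⟩
    · rw [hcard a ha]
      exact hA.big
    · rw [hsum a ha]
      have h1 : ∑ x ∈ sF A, (ν (a • x) - 1) ^ 2 = ∑ x ∈ sF A, (ν x - 1) ^ 2 :=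
        Finset.sum_congr rfl fun x _ => by rw [hinv a ha]
      rw [h1]
      exact hA.on
    · intro y hy
      rw [hsum a ha]
      have h1 : ∑ h ∈ sF A, (ν (y + a • h)) ^ 2 = ∑ h ∈ sF A, (ν (a⁻¹ • y + h)) ^ 2 := by
        refine Finset.sum_congr rfl fun x _ => ?_
        have h2 : y + a • x = a • (a⁻¹ • y + x) := by
          rw [smul_add, smul_smul, mul_inv_cancel₀ ha, one_smul]
        rw [h2, hinv a ha]
      rw [h1]
      exact hA.off _ fun h => hy ((hmem a ha y).mpr h)
  have heq : ∀ a : K, a ≠ 0 → B a = A := by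
    intro a ha
    by_contra hne
    have h1 := cl_inter (hcl a ha) hA hne
    have h2 := card_mul_card_le (B a) A
    rw [hcard a ha] at h2
    have h3 : Fintype.card V * #(sF (B a ⊓ A)) ≤ Fintype.card V * (2 * cK M) :=
      Nat.mul_le_mul_left _ h1
    have h4 : #(sF A) ^ 2 ≤ 2 * cK M * Fintype.card V := by
      rw [sq]
      calc #(sF A) * #(sF A) ≤ Fintype.card V * #(sF (B a ⊓ A)) := h2
        _ ≤ Fintype.card V * (2 * cK M) := h3
        _ = 2 * cK M * Fintype.card V := Nat.mul_comm _ _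
    omega
  refine ⟨{ A with smul_mem' := ?_ }, ?_⟩
  · intro a x hx
    have hx' : x ∈ A := hx
    by_cases ha : a = 0
    · rw [ha, zero_smul]
      exact A.zero_mem
    · have h1 : a • x ∈ B a := by
        rw [hmem a ha, smul_smul, inv_mul_cancel₀ ha, one_smul]
        exact hx'
      rw [heq a ha] at h1
      exact h1
  · rfl

end Pool.Agent.Strip
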