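import Pool.Agent.Strip.Struct
import Pool.Agent.Strip.Trans
import Pool.Agent.Strip.Spread

open Finset Module
open scoped LinearAlgebra.Projectivization

namespace Pool.Agent.Strip

namespace MH

variable {F : Type} [Field F] [Fintype F] {V : Type} [AddCommGroup V] [Module F V] [Fintype V]

theorem mh_inj {p p' : ℙ F V} {a a' : F} (ha : a ≠ 0) (he : a • p.rep = a' • p'.rep) :
    p = p' ∧ a = a' := by
  have hp : p = p' := by
    rw [← p.mk_rep, ← p'.mk_rep]
    rw [Projectivization.mk_eq_mk_iff']
    refine ⟨a⁻¹ * a', ?_⟩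
    rw [mul_smul, ← he, smul_smul, inv_mul_cancel₀ ha, one_smul]
  subst hp
  exact ⟨rfl, smul_left_injective F p.rep_nonzero he⟩

theorem mh_le_iff (p : ℙ F V) (W : Submodule F V) : p.submodule ≤ W ↔ p.rep ∈ W := by
  rw [Projectivization.submodule_eq, Submodule.span_singleton_le_iff_mem]

open Classical in
/-- The projective points of a subspace. -/
theorem mh_card [Fintype (ℙ F V)] (W : Submodule F V) :
    (Fintype.card F - 1) * #(univ.filter (fun p : ℙ F V => p.submodule ≤ W)) + 1 =
      Fintype.card F ^ finrank F W := by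
  have hfin : FiniteDimensional F V := Module.Finite.of_finite
  have h1 : #(univ.filter (fun a : F => a ≠ 0)) = Fintype.card F - 1 := by
    rw [Finset.filter_ne' univ (0 : F), Finset.card_erase_of_mem (Finset.mem_univ _),
      Finset.card_univ]
  have h2 : #((univ.filter (fun p : ℙ F V => p.submodule ≤ W)) ×ˢ
      (univ.filter (fun a : F => a ≠ 0))) = #((univ.filter (fun x : V => x ∈ W)).erase 0) := by
    refine Finset.card_bij (fun (z : ℙ F V × F) _ => z.2 • z.1.rep) ?_ ?_ ?_
    · rintro ⟨p, a⟩ h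
      rw [Finset.mem_product, Finset.mem_filter, Finset.mem_filter] at h
      have hp := (mh_le_iff p W).mp h.1.2
      have ha : a ≠ 0 := h.2.2
      rw [Finset.mem_erase, Finset.mem_filter]
      exact ⟨smul_ne_zero ha p.rep_nonzero, Finset.mem_univ _, W.smul_mem a hp⟩
    · rintro ⟨p, a⟩ h ⟨p', a'⟩ h' he
      rw [Finset.mem_product, Finset.mem_filter, Finset.mem_filter] at h
      have h3 := mh_inj h.2.2 he
      exact Prod.ext h3.1 h3.2
    · intro x hx
      rw [Finset.mem_erase, Finset.mem_filter] at hx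
      obtain ⟨a, ha⟩ := Projectivization.exists_smul_eq_mk_rep F x hx.1
      have ha' : (a : F) • x = (Projectivization.mk F x hx.1).rep := ha
      refine ⟨(Projectivization.mk F x hx.1, ((a : F))⁻¹), ?_, ?_⟩
      · rw [Finset.mem_product, Finset.mem_filter, Finset.mem_filter]
        refine ⟨⟨Finset.mem_univ _, ?_⟩, Finset.mem_univ _, inv_ne_zero a.ne_zero⟩
        rw [mh_le_iff]
        change (Projectivization.mk F x hx.1).rep ∈ W
        rw [← ha']
        exact W.smul_mem _ hx.2.2
      · simp only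
        rw [← ha', smul_smul, inv_mul_cancel₀ a.ne_zero, one_smul]
  rw [Finset.card_product, h1] at h2
  rw [mul_comm, h2, Finset.card_erase_add_one, ← Module.card_eq_pow_finrank (K := F) (V := W)]
  · exact (Fintype.card_subtype _).symm
  · simp

open Classical in
/-- From a set of points meeting all hyperplanes often to a positive definite function. -/
theorem mh_nu [Fintype (ℙ F V)] {k m b M : ℕ} (hk : finrank F V = k + 1)
    (U : Finset (ℙ F V)) (hU : #U = m) (hm : m = Fintype.card F * b + M)
    (hH : ∀ H : Submodule F V, finrank F H = k → b ≤ #(U.filter (fun p => p.submodule ≤ H))) :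
    ∃ ν : V → ℤ, Nu M ν ∧ Inv F ν ∧
      ∑ x, ν x = (Fintype.card F : ℤ) * m - Fintype.card F * b := by
  have hfin : FiniteDimensional F V := Module.Finite.of_finite
  have hq1 := trans_one_lt (F := F)
  let cnt : V → ℕ := fun x => #((U ×ˢ (univ : Finset Fˣ)).filter (fun z => (z.2 : F) • z.1.rep = x))
  have hfib : ∀ g : V → ℝ, ∑ x, (cnt x : ℝ) * g x = ∑ p ∈ U, ∑ a : Fˣ, g ((a : F) • p.rep) := by
    intro g
    rw [← Finset.sum_product' U (univ : Finset Fˣ) (fun p a => g ((a : F) • p.rep)),
      ← Finset.sum_fiberwise (U ×ˢ (univ : Finset Fˣ)) (fun z => (z.2 : F) • z.1.rep)]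
    refine Finset.sum_congr rfl (fun x _ => ?_)
    rw [Finset.sum_congr rfl (g := fun _ => g x)]
    · rw [Finset.sum_const, nsmul_eq_mul]
    · intro z hz
      rw [Finset.mem_filter] at hz
      rw [← hz.2]
  have hcnt0 : cnt 0 = 0 := by
    change #((U ×ˢ (univ : Finset Fˣ)).filter (fun z => (z.2 : F) • z.1.rep = 0)) = 0
    rw [Finset.card_eq_zero, Finset.filter_eq_empty_iff]
    intro z _ hz
    exact smul_ne_zero z.2.ne_zero z.1.rep_nonzero hz
  have hcnt1 : ∀ x, cnt x ≤ 1 := by
    intro x
    change #((U ×ˢ (univ : Finset Fˣ)).filter (fun z => (z.2 : F) • z.1.rep = x)) ≤ 1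
    rw [Finset.card_le_one]
    intro z hz z' hz'
    rw [Finset.mem_filter] at hz hz'
    have h3 := mh_inj z.2.ne_zero (hz.2.trans hz'.2.symm)
    exact Prod.ext h3.1 (Units.ext h3.2)
  have hcinv : ∀ a : F, a ≠ 0 → ∀ x, cnt (a • x) = cnt x := by
    intro a ha x
    refine Finset.card_bij (fun z _ => (z.1, (Units.mk0 a ha)⁻¹ * z.2)) ?_ ?_ ?_
    · intro z hz
      rw [Finset.mem_filter, Finset.mem_product] at hz
      rw [Finset.mem_filter, Finset.mem_product]
      refine ⟨⟨hz.1.1, Finset.mem_univ _⟩, ?_⟩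
      have h2 : (z.2 : F) • z.1.rep = a • x := hz.2
      change (((Units.mk0 a ha)⁻¹ * z.2 : Fˣ) : F) • z.1.rep = x
      rw [Units.val_mul, mul_smul, h2, ← mul_smul, Units.val_inv_eq_inv_val, Units.val_mk0,
        inv_mul_cancel₀ ha, one_smul]
    · intro z _ z' _ h
      rw [Prod.mk.injEq] at h
      exact Prod.ext h.1 (mul_left_cancel h.2)
    · intro z hz
      rw [Finset.mem_filter, Finset.mem_product] at hz
      have h2 : (z.2 : F) • z.1.rep = x := hz.2
      refine ⟨(z.1, Units.mk0 a ha * z.2), ?_, ?_⟩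
      · rw [Finset.mem_filter, Finset.mem_product]
        refine ⟨⟨hz.1.1, Finset.mem_univ _⟩, ?_⟩
        change ((Units.mk0 a ha * z.2 : Fˣ) : F) • z.1.rep = a • x
        rw [Units.val_mul, mul_smul, h2, Units.val_mk0]
      · exact Prod.ext rfl (inv_mul_cancel_left _ _)
  let ν : V → ℤ := fun x => (if x = 0 then (M : ℤ) else 0) + cnt x
  have hν : ∀ x, ν x = (if x = 0 then (M : ℤ) else 0) + cnt x := fun x => rfl
  have hinv : Inv F ν := by
    intro a ha x
    rw [hν, hν, hcinv a ha x]
    have h2 : (a • x = 0) ↔ (x = 0) := by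
      rw [smul_eq_zero]
      exact ⟨fun h => h.resolve_left ha, Or.inr⟩
    simp only [h2]
  have hsumg : ∀ g : V → ℝ, ∑ x, (ν x : ℝ) * g x =
      M * g 0 + ∑ p ∈ U, ∑ a : Fˣ, g ((a : F) • p.rep) := by
    intro g
    rw [← hfib]
    have h1 : ∀ x, (ν x : ℝ) * g x = (if x = 0 then (M : ℝ) * g x else 0) + (cnt x : ℝ) * g x := by
      intro x
      rw [hν]
      split_ifs <;> push_cast <;> ring
    rw [Finset.sum_congr rfl (fun x _ => h1 x), Finset.sum_add_distrib, Finset.sum_ite_eq' univ (0 : V)]
    rw [if_pos (Finset.mem_univ _)]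
  have hmR : (m : ℝ) = Fintype.card F * b + M := by exact_mod_cast hm
  have hsum : ∑ x, ν x = (Fintype.card F : ℤ) * m - Fintype.card F * b := by
    have h1 := hsumg (fun _ => 1)
    have h2 : ∑ p ∈ U, ∑ a : Fˣ, (1 : ℝ) = (m : ℝ) * ((Fintype.card F : ℝ) - 1) := by
      rw [Finset.sum_const, Finset.sum_const, hU, Finset.card_univ, nsmul_eq_mul, nsmul_eq_mul,
        mul_one, trans_card_units]
    rw [h2] at h1
    have h3 : ((∑ x, ν x : ℤ) : ℝ) = ((Fintype.card F : ℤ) * m - Fintype.card F * b : ℤ) := by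
      push_cast
      have h4 : ∑ x, (ν x : ℝ) * 1 = ∑ x, (ν x : ℝ) := Finset.sum_congr rfl (fun x _ => mul_one _)
      rw [← h4, h1, hmR]
      ring
    exact_mod_cast h3
  refine ⟨ν, ⟨?_, ?_, ?_⟩, hinv, hsum⟩
  · refine pd_of_ft (K := F) ?_ ?_
    · intro a ha x
      show ((ν (a • x) : ℤ) : ℝ) = ((ν x : ℤ) : ℝ)
      rw [hinv a ha x]
    · intro c
      unfold ftW
      have h0 : sF (⊤ : Submodule F V).toAddSubgroup = univ := by
        ext x
        rw [mem_sF]
        simp
      rw [h0, hsumg (fun x => kap (c x))]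
      have h1 : kap (c 0) = 1 := by rw [map_zero, trans_kap_zero]
      have h2 : ∀ p : ℙ F V, ∑ a : Fˣ, kap (c ((a : F) • p.rep)) =
          if c p.rep = 0 then (Fintype.card F : ℝ) - 1 else -1 := by
        intro p
        rw [← trans_sum_units]
        refine Finset.sum_congr rfl (fun a _ => ?_)
        rw [map_smul, smul_eq_mul]
      have h3 : ∑ p ∈ U, (if c p.rep = 0 then (Fintype.card F : ℝ) - 1 else -1) =
          (Fintype.card F : ℝ) * #(U.filter (fun p => c p.rep = 0)) - m := by
        have h31 : ∀ p : ℙ F V, (if c p.rep = 0 then (Fintype.card F : ℝ) - 1 else -1) =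
            (Fintype.card F : ℝ) * (if c p.rep = 0 then 1 else 0) - 1 := by
          intro p
          split_ifs <;> ring
        rw [Finset.sum_congr rfl (fun p _ => h31 p), Finset.sum_sub_distrib, ← Finset.mul_sum,
          Finset.sum_boole, Finset.sum_const, hU]
        simp
      have h4 : b ≤ #(U.filter (fun p => c p.rep = 0)) := by
        by_cases hc : c = 0
        · have h41 : U.filter (fun p => c p.rep = 0) = U := by
            rw [Finset.filter_true_of_mem]
            intro p _
            rw [hc]; rfl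
          rw [h41, hU, hm]
          have : 1 ≤ Fintype.card F := Fintype.card_pos
          nlinarith
        · have h41 : finrank F (LinearMap.ker c) = k := by
            have h42 := LinearMap.finrank_range_add_finrank_ker c
            have h43 : LinearMap.range c = ⊤ := by
              rw [LinearMap.range_eq_top]
              exact LinearMap.surjective hc
            rw [h43, finrank_top, Module.finrank_self, hk] at h42
            omega
          have h44 := hH _ h41
          refine h44.trans (le_of_eq ?_)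
          congr 1
          ext p
          rw [Finset.mem_filter, Finset.mem_filter, mh_le_iff, LinearMap.mem_ker]
      rw [h1, Finset.sum_congr rfl (fun p _ => h2 p), h3, hmR]
      have h5 : (b : ℝ) ≤ #(U.filter (fun p => c p.rep = 0)) := by exact_mod_cast h4
      have h6 : (Fintype.card F : ℝ) * b ≤ (Fintype.card F : ℝ) * #(U.filter (fun p => c p.rep = 0)) :=
        mul_le_mul_of_nonneg_left h5 (by linarith)
      linarith
  · rw [hν, if_pos rfl, hcnt0]
    simp
  · intro x hx
    rw [hν, if_neg hx, zero_add]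
    exact_mod_cast hcnt1 x

open Classical in
/-- The construction. -/
theorem mh_constr [Fintype (ℙ F V)] {k m b M r : ℕ} (hk : finrank F V = k + 1)
    (hm : m = Fintype.card F * b + M) (hr : r ≤ M) (u : Fin r → ℕ)
    (hT : Fintype.card F * m = Fintype.card F * b + ∑ a, Fintype.card F ^ u a)
    (U : Fin r → Submodule F V) (hU : ∀ a, finrank F (U a) = u a)
    (hdis : ∀ a b, a ≠ b → U a ⊓ U b = ⊥) :
    ∃ X : Finset (ℙ F V), #X = m ∧
      ∀ H : Submodule F V, finrank F H = k → b ≤ #(X.filter (fun p => p.submodule ≤ H)) := by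
  have hfin : FiniteDimensional F V := Module.Finite.of_finite
  obtain ⟨Q, hQ⟩ : ∃ Q, Fintype.card F = Q + 1 := ⟨Fintype.card F - 1, by
    have : 1 ≤ Fintype.card F := Fintype.card_pos
    omega⟩
  have hQ1 : 1 ≤ Q := by
    have : 1 < Fintype.card F := Fintype.one_lt_card
    omega
  let P : Submodule F V → Finset (ℙ F V) := fun W => univ.filter (fun p => p.submodule ≤ W)
  have hP : ∀ W, Q * #(P W) + 1 = (Q + 1) ^ finrank F W := by
    intro W
    have h1 := mh_card W
    rw [hQ] at h1
    exact h1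
  have hPdis : ∀ W W' : Submodule F V, W ⊓ W' = ⊥ → Disjoint (P W) (P W') := by
    intro W W' h
    rw [Finset.disjoint_left]
    intro p hp hp'
    rw [Finset.mem_filter, mh_le_iff] at hp hp'
    have h1 : p.rep ∈ W ⊓ W' := ⟨hp.2, hp'.2⟩
    rw [h, Submodule.mem_bot] at h1
    exact p.rep_nonzero h1
  let X : Finset (ℙ F V) := univ.biUnion (fun a => P (U a))
  have hX : Q * #X + r = ∑ a, (Q + 1) ^ u a := by
    have h1 : #X = ∑ a, #(P (U a)) := Finset.card_biUnion (fun a _ b _ hab => hPdis _ _ (hdis a b hab))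
    rw [h1, Finset.mul_sum]
    have h2 : ∑ a, (Q + 1) ^ u a = ∑ a, (Q * #(P (U a)) + 1) :=
      Finset.sum_congr rfl (fun a _ => by rw [hP, hU])
    rw [h2, Finset.sum_add_distrib]
    simp
  have hXH : ∀ H : Submodule F V, finrank F H = k →
      ∑ a, (Q + 1) ^ u a ≤ (Q + 1) * (Q * #(X.filter (fun p => p.submodule ≤ H)) + r) := by
    intro H hH
    have h1 : X.filter (fun p => p.submodule ≤ H) = univ.biUnion (fun a => P (U a ⊓ H)) := by
      ext p
      simp only [X, P, Finset.mem_filter, Finset.mem_biUnion, Finset.mem_univ, true_and, le_inf_iff]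
      constructor
      · rintro ⟨⟨a, ha⟩, h⟩
        exact ⟨a, ha, h⟩
      · rintro ⟨a, ha, h⟩
        exact ⟨⟨a, ha⟩, h⟩
    have h2 : #(X.filter (fun p => p.submodule ≤ H)) = ∑ a, #(P (U a ⊓ H)) := by
      rw [h1]
      refine Finset.card_biUnion (fun a _ b _ hab => hPdis _ _ ?_)
      rw [eq_bot_iff, ← hdis a b hab]
      exact inf_le_inf inf_le_left inf_le_left
    rw [h2, Finset.mul_sum]
    have h3 : ∑ a, Q * #(P (U a ⊓ H)) + r = ∑ a, (Q + 1) ^ finrank F (U a ⊓ H : Submodule F V) := by
      have h31 : ∑ a, (Q + 1) ^ finrank F (U a ⊓ H : Submodule F V) =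
          ∑ a, (Q * #(P (U a ⊓ H)) + 1) := Finset.sum_congr rfl (fun a _ => by rw [hP])
      rw [h31, Finset.sum_add_distrib]
      simp
    rw [h3, Finset.mul_sum]
    refine Finset.sum_le_sum (fun a _ => ?_)
    rw [← pow_succ']
    refine Nat.pow_le_pow_right (by omega) ?_
    have h4 := Submodule.finrank_sup_add_finrank_inf_eq (U a) H
    have h5 : finrank F (U a ⊔ H : Submodule F V) ≤ finrank F V := Submodule.finrank_le _
    rw [hU, hH] at h4
    omega
  rw [hQ] at hT hm
  have hmX : m ≤ #X := by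
    have h1 : (Q + 1) * m = (Q + 1) * b + (Q * #X + r) := by rw [hT, hX]
    have h2 : Q * m ≤ Q * #X := by nlinarith
    exact Nat.le_of_mul_le_mul_left h2 (by omega)
  obtain ⟨Y, hYX, hYm⟩ := Finset.exists_subset_card_eq hmX
  refine ⟨Y, hYm, ?_⟩
  intro H hH
  have h1 := hXH H hH
  have h2 : #(X.filter (fun p => p.submodule ≤ H)) ≤
      #(Y.filter (fun p => p.submodule ≤ H)) + #(X \ Y) := by
    have h21 : X.filter (fun p => p.submodule ≤ H) ⊆
        Y.filter (fun p => p.submodule ≤ H) ∪ (X \ Y) := by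
      intro p hp
      rw [Finset.mem_filter] at hp
      rw [Finset.mem_union, Finset.mem_filter, Finset.mem_sdiff]
      by_cases h : p ∈ Y
      · exact Or.inl ⟨h, hp.2⟩
      · exact Or.inr ⟨hp.1, h⟩
    exact (Finset.card_le_card h21).trans (Finset.card_union_le _ _)
  have h3 : #(X \ Y) + m = #X := by
    rw [← hYm]
    exact Finset.card_sdiff_add_card_eq_card hYX
  rw [← hX] at h1
  have h4 : (Q + 1) * m = (Q + 1) * b + (Q * #X + r) := by rw [hT, hX]
  set x := #X
  set y := #(Y.filter (fun p => p.submodule ≤ H))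
  set z := #(X.filter (fun p => p.submodule ≤ H))
  set w := #(X \ Y)
  have h5 : (Q + 1) * m ≤ (Q + 1) * (b + (Q * z + r)) := by
    rw [h4, mul_add]
    omega
  have h6 : m ≤ b + (Q * z + r) := Nat.le_of_mul_le_mul_left h5 (by omega)
  have h7 : Q * b ≤ Q * y := by nlinarith
  exact Nat.le_of_mul_le_mul_left h7 (by omega)

end MH

end Pool.Agent.Strip
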