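import Pool.Agent.Strip.Avg
import Pool.Agent.Strip.Cube

open Finset

namespace Pool.Agent.Strip

variable {G : Type} [AddCommGroup G] [Fintype G]

/-- Reflection inside a subgroup. -/
theorem near_refl {α : Type} [AddCommMonoid α] (E : AddSubgroup G) (f : G → α) {x : G}
    (hx : x ∈ sF E) : ∑ y ∈ sF E, f (x - y) = ∑ z ∈ sF E, f z := by
  have hxE := mem_sF.mp hx
  exact Finset.sum_bij' (s := sF E) (t := sF E) (f := fun y => f (x - y)) (g := f)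
    (fun y _ => x - y) (fun y _ => x - y)
    (fun y hy => mem_sF.mpr (E.sub_mem hxE (mem_sF.mp hy)))
    (fun y hy => mem_sF.mpr (E.sub_mem hxE (mem_sF.mp hy)))
    (fun y _ => sub_sub_cancel x y) (fun y _ => sub_sub_cancel x y) (fun y _ => rfl)

/-- On a nearly perfect subgroup the function is `1` up to a bounded error. -/
theorem near_sq {M : ℕ} {ν : G → ℤ} (h : Nu M ν) (hM : 1 ≤ M) (E : AddSubgroup G)
    (hE : 100 * M ≤ #(sF E)) (hσ : (99 / 100 : ℝ) * #(sF E) ≤ ∑ x ∈ sF E, (ν x : ℝ)) :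
    ∑ x ∈ sF E, (ν x - 1) ^ 2 ≤ (cQ2 M : ℤ) := by
  classical
  have hn := card_sF_pos E
  have hMi : (1 : ℤ) ≤ (M : ℤ) := by exact_mod_cast hM
  have hlow : ∀ x, -(M : ℤ) ≤ ν x := by
    intro x
    have h1 := h.pd.abs_le x
    rw [h.zero] at h1
    have h2 : |(ν x : ℝ)| ≤ (M : ℝ) := by exact_mod_cast h1
    have h3 : |ν x| ≤ (M : ℤ) := by exact_mod_cast h2
    linarith [(abs_le.mp h3).1]
  have hrows : Rows ν (sF E) := by
    intro x hx
    rw [near_refl E (fun z => (ν z : ℝ)) hx]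
    have h1 : ∑ z ∈ sF E, (ν z : ℝ) ≤ (M : ℝ) + (#(sF E) - 1) := by
      rw [← Finset.add_sum_erase _ _ (zero_mem_sF E), h.zero]
      have h2 : ∑ z ∈ (sF E).erase 0, (ν z : ℝ) ≤ ∑ _z ∈ (sF E).erase 0, (1 : ℝ) := by
        refine Finset.sum_le_sum (fun z hz => ?_)
        exact_mod_cast h.le z (Finset.ne_of_mem_erase hz)
      rw [Finset.sum_const, nsmul_eq_mul, mul_one, Finset.card_erase_of_mem (zero_mem_sF E),
        Nat.cast_sub (by omega)] at h2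
      push_cast at h2 ⊢
      linarith
    have h3 : 100 * (M : ℝ) ≤ #(sF E) := by exact_mod_cast hE
    rw [abs_le]
    constructor
    · linarith
    · linarith
  have hc := cube h hM (sF E) ⟨0, zero_mem_sF E⟩ hrows
  have h1 : ∑ x ∈ sF E, ∑ y ∈ sF E, max 0 (1 - ν (x - y)) =
      #(sF E) * ∑ z ∈ sF E, max 0 (1 - ν z) := by
    rw [Finset.sum_congr rfl (fun x hx => near_refl E (fun z => max 0 (1 - ν z)) hx),
      Finset.sum_const, nsmul_eq_mul]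
  rw [h1, mul_comm] at hc
  have hni : (0 : ℤ) < (#(sF E) : ℤ) := by exact_mod_cast hn
  have h2 : ∑ z ∈ sF E, max 0 (1 - ν z) ≤ (cQ M : ℤ) := le_of_mul_le_mul_right hc hni
  have h3 : ∀ z ∈ sF E, (ν z - 1) ^ 2 ≤ ((M : ℤ) + 1) * max 0 (1 - ν z) +
      (if z = 0 then ((M : ℤ) - 1) ^ 2 else 0) := by
    intro z _
    by_cases hz : z = 0
    · rw [if_pos hz, hz, h.zero]
      have : 0 ≤ ((M : ℤ) + 1) * max 0 (1 - (M : ℤ)) :=
        mul_nonneg (by linarith) (le_max_left _ _)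
      linarith
    · rw [if_neg hz, add_zero]
      have h4 := h.le z hz
      have h5 := hlow z
      rw [max_eq_right (by linarith)]
      nlinarith
  have h4 : ∑ x ∈ sF E, (ν x - 1) ^ 2 ≤ ((M : ℤ) + 1) * (cQ M : ℤ) + ((M : ℤ) - 1) ^ 2 := by
    refine le_trans (Finset.sum_le_sum h3) ?_
    rw [Finset.sum_add_distrib, ← Finset.mul_sum, Finset.sum_ite_eq' (sF E) 0,
      if_pos (zero_mem_sF E)]
    have := mul_le_mul_of_nonneg_left h2 (by linarith : (0 : ℤ) ≤ (M : ℤ) + 1)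
    linarith
  refine le_trans h4 ?_
  unfold cQ cQ2
  push_cast
  have h5 : ((M : ℤ) - 1) ^ 2 ≤ 2 * ((M : ℤ) + 1) ^ 4 := by
    have h6 : ((M : ℤ) - 1) ^ 2 ≤ ((M : ℤ) + 1) ^ 2 := by nlinarith
    have h7 : ((M : ℤ) + 1) ^ 2 ≤ ((M : ℤ) + 1) ^ 4 := by
      have h8 : (1 : ℤ) ≤ ((M : ℤ) + 1) ^ 2 := by nlinarith
      nlinarith
    nlinarith
  nlinarith

/-- On every coset it is constant up to a bounded error. -/
theorem near_coset {M : ℕ} {ν : G → ℤ} (h : Nu M ν) (hM : 1 ≤ M) (E : AddSubgroup G)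
    (hE : 100 * M ≤ #(sF E)) (hσ : (99 / 100 : ℝ) * #(sF E) ≤ ∑ x ∈ sF E, (ν x : ℝ)) (y : G) :
    ∃ m : ℤ, ∑ z ∈ sF E, (ν (y + z) - m) ^ 2 ≤ 4 * (cQ2 M : ℤ) := by
  have hn : (0 : ℝ) < (#(sF E) : ℝ) := by exact_mod_cast card_sF_pos E
  obtain ⟨f, hf⟩ : ∃ f : G → ℝ, f = fun x => (ν x : ℝ) := ⟨_, rfl⟩
  have hfpd : PD f := by rw [hf]; exact h.pd
  have hg := hfpd.sub_av E
  have hg2 := hg.mul hg
  have h1 := hg2.coset_sum E y
  have e1 : ∀ w : G, ∑ z ∈ sF E, (f (w + z) - av E f (w + z)) * (f (w + z) - av E f (w + z)) =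
      ∑ z ∈ sF E, (f (w + z) - av E f w) ^ 2 := by
    intro w
    refine Finset.sum_congr rfl (fun z hz => ?_)
    rw [av_add E f w z (mem_sF.mp hz)]
    ring
  have e2 : ∑ z ∈ sF E, (f z - av E f z) * (f z - av E f z) =
      ∑ z ∈ sF E, (f z - av E f 0) ^ 2 := by
    have := e1 0
    simpa only [zero_add] using this
  have h2 : ∑ z ∈ sF E, (f (y + z) - av E f y) ^ 2 ≤ ∑ z ∈ sF E, (f z - av E f 0) ^ 2 := by
    rw [← e1 y, ← e2]
    exact le_trans (le_abs_self _) h1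
  -- the variance is at most the mean square distance from `1`
  have h3 : ∑ z ∈ sF E, (f z - av E f 0) ^ 2 ≤ ∑ z ∈ sF E, (f z - 1) ^ 2 := by
    obtain ⟨σ, hσ'⟩ : ∃ σ : ℝ, av E f 0 = σ := ⟨_, rfl⟩
    have hsum : ∑ z ∈ sF E, f z = #(sF E) * σ := by
      rw [← hσ']
      unfold av
      simp only [zero_add]
      field_simp
    rw [hσ']
    have e3 : ∀ c : ℝ, ∑ z ∈ sF E, (f z - c) ^ 2 =
        ∑ z ∈ sF E, f z ^ 2 - 2 * c * (#(sF E) * σ) + #(sF E) * c ^ 2 := by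
      intro c
      rw [← hsum, Finset.mul_sum]
      have : (#(sF E) : ℝ) * c ^ 2 = ∑ _z ∈ sF E, c ^ 2 := by
        rw [Finset.sum_const, nsmul_eq_mul]
      rw [this, ← Finset.sum_sub_distrib, ← Finset.sum_add_distrib]
      refine Finset.sum_congr rfl (fun z _ => ?_)
      ring
    rw [e3, e3]
    nlinarith [mul_nonneg (le_of_lt hn) (sq_nonneg (σ - 1))]
  have h4 : ∑ z ∈ sF E, (f z - 1) ^ 2 ≤ (cQ2 M : ℝ) := by
    have h5 := near_sq h hM E hE hσ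
    have h6 : ((∑ x ∈ sF E, (ν x - 1) ^ 2 : ℤ) : ℝ) ≤ ((cQ2 M : ℤ) : ℝ) := by exact_mod_cast h5
    rw [hf]
    push_cast at h6 ⊢
    exact h6
  -- round the mean
  obtain ⟨a, ha⟩ : ∃ a : ℝ, av E f y = a := ⟨_, rfl⟩
  rw [ha] at h2
  refine ⟨round a, ?_⟩
  have h5 : ∀ z : G, ((ν (y + z) : ℝ) - (round a : ℝ)) ^ 2 ≤ 4 * (f (y + z) - a) ^ 2 := by
    intro z
    rw [hf]
    show ((ν (y + z) : ℝ) - (round a : ℝ)) ^ 2 ≤ 4 * ((ν (y + z) : ℝ) - a) ^ 2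
    have hr := abs_sub_round a
    obtain ⟨hr1, hr2⟩ := abs_le.mp hr
    rcases lt_trichotomy (ν (y + z)) (round a) with hlt | heq | hgt
    · have h6 : (ν (y + z) : ℝ) + 1 ≤ (round a : ℝ) := by exact_mod_cast hlt
      nlinarith
    · rw [heq, sub_self]
      nlinarith [sq_nonneg ((round a : ℝ) - a)]
    · have h6 : (round a : ℝ) + 1 ≤ (ν (y + z) : ℝ) := by exact_mod_cast hgt
      nlinarith
  have h6 : ((∑ z ∈ sF E, (ν (y + z) - round a) ^ 2 : ℤ) : ℝ) ≤ ((4 * (cQ2 M : ℤ) : ℤ) : ℝ) := by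
    push_cast
    calc ∑ z ∈ sF E, ((ν (y + z) : ℝ) - (round a : ℝ)) ^ 2
        ≤ ∑ z ∈ sF E, 4 * (f (y + z) - a) ^ 2 := Finset.sum_le_sum (fun z _ => h5 z)
      _ = 4 * ∑ z ∈ sF E, (f (y + z) - a) ^ 2 := by rw [← Finset.mul_sum]
      _ ≤ 4 * (cQ2 M : ℝ) := by linarith
  exact_mod_cast h6

end Pool.Agent.Strip
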