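import Pool.Agent.Strip.Defs

open Finset

namespace Pool.Agent.Strip

private theorem num_t {M : ℕ} (hM : 1 ≤ M) :
    ∃ t : ℕ, 2 ≤ t ∧ M + 1 ≤ t ∧ ∀ k : ℕ, 2 ^ (k * M) = t ^ k := by
  refine ⟨2 ^ M, ?_, ?_, fun k => by rw [mul_comm, pow_mul]⟩
  · calc 2 = 2 ^ 1 := rfl
      _ ≤ 2 ^ M := Nat.pow_le_pow_right (by norm_num) hM
  · exact Nat.lt_two_pow_self

private theorem num_const {t : ℕ} (ht : 2 ≤ t) (k : ℕ) {c : ℕ} (hc : c ≤ 2 ^ k) : c ≤ t ^ k :=
  hc.trans (Nat.pow_le_pow_left ht k)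

private theorem num_mul {t a b : ℕ} {i j k : ℕ} (ha : a ≤ t ^ i) (hb : b ≤ t ^ j)
    (hk : k = i + j) : a * b ≤ t ^ k := by
  rw [hk, pow_add]
  exact Nat.mul_le_mul ha hb

private theorem num_add {t a b : ℕ} (ht : 2 ≤ t) {i j k : ℕ} (ha : a ≤ t ^ i) (hb : b ≤ t ^ j)
    (hi : i + 1 ≤ k) (hj : j + 1 ≤ k) : a + b ≤ t ^ k := by
  obtain ⟨m, rfl⟩ : ∃ m, k = m + 1 := ⟨k - 1, by omega⟩
  have h1 : a ≤ t ^ m := ha.trans (Nat.pow_le_pow_right (by omega) (by omega))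
  have h2 : b ≤ t ^ m := hb.trans (Nat.pow_le_pow_right (by omega) (by omega))
  calc a + b ≤ t ^ m * 2 := by omega
    _ ≤ t ^ m * t := Nat.mul_le_mul_left _ ht
    _ = t ^ (m + 1) := (pow_succ t m).symm

private theorem num_pow {t a : ℕ} (h : a ≤ t) (k : ℕ) : a ^ k ≤ t ^ k := Nat.pow_le_pow_left h k

private theorem num_theta {t M : ℕ} (ht : 2 ≤ t) (hM : M + 1 ≤ t)
    (hp : ∀ k : ℕ, 2 ^ (k * M) = t ^ k) : cTheta M ≤ t ^ 1654 := by
  unfold cTheta cN1
  rw [hp 1603]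
  refine num_mul le_rfl ?_ (show 1654 = 1603 + 51 by norm_num)
  refine num_add ht (i := 50) (j := 12) ?_ ?_ (by norm_num) (by norm_num)
  · exact num_mul (num_const ht 40 (by norm_num)) (num_pow hM 10) (by norm_num)
  · exact num_mul (num_const ht 10 (by norm_num)) (num_pow (by omega) 2) (by norm_num)

private theorem num_K {t M : ℕ} (ht : 2 ≤ t) (hM : M + 1 ≤ t) : cK M ≤ t ^ 9 := by
  unfold cK
  exact num_mul (num_const ht 5 (by norm_num)) (num_pow hM 4) (by norm_num)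

/-- Numerical estimates for the constants. -/
theorem num_T {M : ℕ} (hM : 1 ≤ M) : cT M ≤ 2 ^ (1700 * M) := by
  obtain ⟨t, ht, hMt, hp⟩ := num_t hM
  rw [hp]
  unfold cT
  refine num_add ht (i := 15) (j := 1656) ?_ ?_ (by norm_num) (by norm_num)
  · exact num_mul (num_mul (num_const ht 2 (by norm_num)) (num_pow hMt 4) rfl) (num_K ht hMt)
      (by norm_num)
  · exact num_mul (num_const ht 2 (by norm_num)) (num_theta ht hMt hp) (by norm_num)

theorem num_Del {M : ℕ} (hM : 1 ≤ M) : cDel M ≤ 2 ^ (1700 * M) := by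
  obtain ⟨t, ht, hMt, hp⟩ := num_t hM
  rw [hp]
  unfold cDel
  have hMt' : M ≤ t := by omega
  refine num_add ht (i := 1660) (j := 0) ?_ (by simp) (by norm_num) (by norm_num)
  refine num_add ht (i := 1659) (j := 11) ?_ ?_ (by norm_num) (by norm_num)
  · refine num_add ht (i := 1658) (j := 3) ?_ (num_pow hMt' 3) (by norm_num) (by norm_num)
    exact num_mul (num_pow hMt' 4) (num_theta ht hMt hp) (by norm_num)
  · exact num_mul (num_const ht 2 (by norm_num)) (num_K ht hMt) (by norm_num)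

theorem num_Big {M : ℕ} (hM : 1 ≤ M) (q : ℕ) (hq : 1 ≤ q) :
    2 * M * cBig M (4 * M ^ 2 * q) ≤ 2 ^ (1720 * M) * q := by
  obtain ⟨t, ht, hMt, hp⟩ := num_t hM
  rw [hp]
  unfold cBig
  have hMt' : M ≤ t ^ 1 := by rw [pow_one]; omega
  have h1 : 8 * M * cK M ^ 3 * (4 * M ^ 2) ≤ t ^ 35 := by
    refine num_mul (i := 31) (j := 4) ?_ ?_ (by norm_num)
    · refine num_mul (i := 4) (j := 27) ?_ ?_ (by norm_num)
      · exact num_mul (num_const ht 3 (by norm_num)) hMt' (by norm_num)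
      · have := Nat.pow_le_pow_left (num_K ht hMt) 3
        rwa [← pow_mul] at this
    · exact num_mul (num_const ht 2 (by norm_num)) (num_pow (by omega) 2) (by norm_num)
  have h2 : cTheta M + 8 * M * cK M ^ 3 * (4 * M ^ 2 * q) ≤ t ^ 1655 * q := by
    calc cTheta M + 8 * M * cK M ^ 3 * (4 * M ^ 2 * q)
        = cTheta M * 1 + 8 * M * cK M ^ 3 * (4 * M ^ 2) * q := by ring
      _ ≤ cTheta M * q + 8 * M * cK M ^ 3 * (4 * M ^ 2) * q :=
          Nat.add_le_add_right (Nat.mul_le_mul_left _ hq) _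
      _ = (cTheta M + 8 * M * cK M ^ 3 * (4 * M ^ 2)) * q := by ring
      _ ≤ t ^ 1655 * q := Nat.mul_le_mul_right _
          (num_add ht (num_theta ht hMt hp) h1 (by norm_num) (by norm_num))
  have h3 : 2 * M ≤ t ^ 2 := num_mul (num_const ht 1 (by norm_num)) hMt' (by norm_num)
  calc 2 * M * (cTheta M + 8 * M * cK M ^ 3 * (4 * M ^ 2 * q))
      ≤ t ^ 2 * (t ^ 1655 * q) := Nat.mul_le_mul h3 h2
    _ = t ^ 1657 * q := by rw [← mul_assoc, ← pow_add]
    _ ≤ t ^ 1720 * q := Nat.mul_le_mul_right _ (Nat.pow_le_pow_right (by omega) (by norm_num))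

theorem num_low {M : ℕ} (hM : 1 ≤ M) : 2 * M * (2 * (M + cK M) + 3) ≤ 2 ^ (20 * M) := by
  obtain ⟨t, ht, hMt, hp⟩ := num_t hM
  rw [hp]
  have hMt' : M ≤ t ^ 1 := by rw [pow_one]; omega
  refine num_mul (i := 2) (j := 18)
    (num_mul (num_const ht 1 (by norm_num)) hMt' (by norm_num)) ?_ (by norm_num)
  refine num_add ht (i := 11) (j := 2) ?_ (num_const ht 2 (by norm_num)) (by norm_num)
    (by norm_num)
  exact num_mul (num_const ht 1 (by norm_num))
    (num_add ht hMt' (num_K ht hMt) (by norm_num) (le_refl 10)) (by norm_num)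

theorem num_inter {M : ℕ} (hM : 1 ≤ M) : 4 * M ^ 2 * (2 * cK M) ≤ 2 ^ (20 * M) := by
  obtain ⟨t, ht, hMt, hp⟩ := num_t hM
  rw [hp]
  refine (num_mul (i := 4) (j := 10)
    (num_mul (num_const ht 2 (by norm_num)) (num_pow (by omega) 2) (by norm_num))
    (num_mul (num_const ht 1 (by norm_num)) (num_K ht hMt) (by norm_num)) rfl).trans ?_
  exact Nat.pow_le_pow_right (by omega) (by norm_num)

end Pool.Agent.Strip
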