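import Pool.Agent.Strip.Cover2
import Pool.Agent.Strip.Ft

open Finset

namespace Pool.Agent.Strip

section pointAux

variable {K : Type} [Field K] [Fintype K] {V : Type} [AddCommGroup V] [Module K V] [Fintype V]

theorem point_kap_abs (a : K) : |kap a| ≤ 1 := by
  unfold kap
  split_ifs
  · simp
  · have h2 : (2 : ℝ) ≤ Fintype.card K := by exact_mod_cast Fintype.one_lt_card (α := K)
    rw [abs_div, abs_neg, abs_one, abs_of_pos (by linarith)]
    rw [div_le_one (by linarith)]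
    linarith

theorem point_ft_top (f : V → ℝ) (c : Module.Dual K V) :
    ftW (⊤ : Submodule K V) f c = ∑ x, f x * kap (c x) := by
  unfold ftW
  apply Finset.sum_congr _ (fun _ _ => rfl)
  ext x
  rw [mem_sF]
  simp

theorem point_int_sq (n : ℤ) : |n| ≤ n ^ 2 := by
  rcases le_or_gt 0 n with h | h
  · rw [abs_of_nonneg h]
    nlinarith [sq_nonneg (n - 1), (by rcases h.eq_or_lt with h0 | h0 <;> [left; right] <;> omega :
      n = 0 ∨ 1 ≤ n)] 
  · rw [abs_of_neg h]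
    nlinarith

end pointAux

section pointAux2

variable {G : Type} [AddCommGroup G] [Fintype G]

theorem point_cube_card {M : ℕ} {ν : G → ℤ} (h : Nu M ν) (hM : 1 ≤ M) :
    ∑ x, |(ν x) ^ 3 - ν x| ≤ (M : ℤ) ^ 3 + (M : ℤ) ^ 4 * cTheta M := by
  classical
  have habs : ∀ x, -(M : ℤ) ≤ ν x ∧ ν x ≤ M := by
    intro x
    have h1 := h.pd.abs_le x
    rw [h.zero] at h1
    have h2 : |ν x| ≤ (M : ℤ) := by exact_mod_cast h1
    exact abs_le.mp h2
  have hcard : #(univ.filter (fun x => ν x ≤ -2)) ≤ M * cTheta M := by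
    have h1 : ∀ x ∈ univ.filter (fun x => ν x ≤ -2), ν x ∈ Finset.Icc (-(M : ℤ)) (-2) := by
      intro x hx
      rw [Finset.mem_filter] at hx
      rw [Finset.mem_Icc]
      exact ⟨(habs x).1, hx.2⟩
    rw [Finset.card_eq_sum_card_fiberwise h1]
    have h2 : ∀ r ∈ Finset.Icc (-(M : ℤ)) (-2),
        #((univ.filter (fun x => ν x ≤ -2)).filter (fun x => ν x = r)) ≤ cTheta M := by
      intro r hr
      rw [Finset.mem_Icc] at hr
      refine le_trans (Finset.card_le_card ?_) (rare h hM r hr.2)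
      intro x hx
      rw [Finset.mem_filter] at hx ⊢
      exact ⟨Finset.mem_univ _, hx.2⟩
    refine le_trans (Finset.sum_le_sum h2) ?_
    rw [Finset.sum_const, smul_eq_mul, Int.card_Icc]
    apply Nat.mul_le_mul_right
    omega
  have hpt : ∀ x, |(ν x) ^ 3 - ν x| ≤ (if x = 0 then (M : ℤ) ^ 3 else 0) +
      (if ν x ≤ -2 then (M : ℤ) ^ 3 else 0) := by
    intro x
    obtain ⟨h1, h2⟩ := habs x
    have hM3 : (0 : ℤ) ≤ (M : ℤ) ^ 3 := by positivity
    have hMi : (1 : ℤ) ≤ M := by exact_mod_cast hM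
    by_cases hx : x = 0
    · subst hx
      rw [h.zero, if_pos rfl]
      have h3 : (0 : ℤ) ≤ (M : ℤ) ^ 3 - M := by nlinarith [mul_nonneg (by linarith : (0:ℤ) ≤ M) (by nlinarith : (0:ℤ) ≤ (M:ℤ)^2 - 1)]
      rw [abs_of_nonneg h3]
      split_ifs <;> linarith
    · rw [if_neg hx, zero_add]
      have h4 := h.le x hx
      by_cases h5 : ν x ≤ -2
      · rw [if_pos h5]
        obtain ⟨a, ha⟩ : ∃ a : ℤ, a = -ν x := ⟨_, rfl⟩
        have ha1 : 2 ≤ a := by omega
        have ha2 : a ≤ M := by omega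
        have h6 : (ν x) ^ 3 - ν x = -(a ^ 3 - a) := by rw [ha]; ring
        have h7 : 0 ≤ a ^ 3 - a := by nlinarith [mul_nonneg (by linarith : (0:ℤ) ≤ a) (by nlinarith : (0:ℤ) ≤ a^2 - 1)]
        rw [h6, abs_neg, abs_of_nonneg h7]
        have h8 : a ^ 3 ≤ (M : ℤ) ^ 3 := pow_le_pow_left₀ (by linarith) ha2 3
        linarith
      · rw [if_neg h5]
        have h6 : ν x = -1 ∨ ν x = 0 ∨ ν x = 1 := by omega
        rcases h6 with h6 | h6 | h6 <;> rw [h6] <;> norm_num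
  refine le_trans (Finset.sum_le_sum (fun x _ => hpt x)) ?_
  rw [Finset.sum_add_distrib, Finset.sum_ite_eq' univ (0 : G), if_pos (Finset.mem_univ _),
    ← Finset.sum_filter, Finset.sum_const, nsmul_eq_mul]
  have h9 : ((#(univ.filter (fun x => ν x ≤ -2)) : ℕ) : ℤ) ≤ (M : ℤ) * cTheta M := by
    exact_mod_cast hcard
  have hM3 : (0 : ℤ) ≤ (M : ℤ) ^ 3 := by positivity
  nlinarith [mul_le_mul_of_nonneg_right h9 hM3]

end pointAux2

variable {K : Type} [Field K] [Fintype K] {V : Type} [AddCommGroup V] [Module K V] [Fintype V]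

/-- Pointwise lower bound for the Fourier transform on the annihilator of a cluster. -/
theorem point {M : ℕ} {ν : V → ℤ} (h : Nu M ν) (hM : 1 ≤ M) (U : Submodule K V)
    (hU : IsCl M ν U.toAddSubgroup (fun _ => 1)) (D : ℕ)
    (hD : Fintype.card V ≤ D * #(sF U.toAddSubgroup) ^ 2)
    (hbig : cBig M D ≤ #(sF U.toAddSubgroup)) (c : Module.Dual K V) (hc : ∀ x ∈ U, c x = 0) :
    (#(sF U.toAddSubgroup) : ℝ) - cDel M ≤ ftW ⊤ (fun x => (ν x : ℝ)) c := by
  classical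
  set S := sF U.toAddSubgroup with hS
  set E := U.toAddSubgroup with hE
  have hNpos : (0 : ℝ) < (#S : ℝ) := by exact_mod_cast card_sF_pos E
  set b : V → ℝ := av E (fun x => (ν x : ℝ)) with hb
  set K0 : ℝ := (cK M : ℝ) with hK0
  have hK0nn : 0 ≤ K0 := Nat.cast_nonneg _
  -- positive definiteness
  have pb : PD b := h.pd.av E
  have pe : PD (fun x => (ν x : ℝ) - b x) := h.pd.sub_av E
  have pp := ((((pb.mul pb).mul pe).smul (by norm_num : (0 : ℝ) ≤ 3)).add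
    ((pb.mul (pe.mul pe)).smul (by norm_num : (0 : ℝ) ≤ 3))).add (pe.mul (pe.mul pe))
  have hft := ftW_nonneg pp (⊤ : Submodule K V) c
  rw [point_ft_top] at hft
  have hft1 : ∑ x, (b x) ^ 3 * kap (c x) ≤ ∑ x, ((ν x : ℝ)) ^ 3 * kap (c x) := by
    rw [← sub_nonneg, ← Finset.sum_sub_distrib]
    refine le_of_le_of_eq hft (Finset.sum_congr rfl ?_)
    intro x _
    ring
  -- the cube differs little from the function
  have hcube : ∑ x, ((ν x : ℝ)) ^ 3 * kap (c x) ≤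
      ∑ x, (ν x : ℝ) * kap (c x) + ((M : ℝ) ^ 3 + (M : ℝ) ^ 4 * cTheta M) := by
    have h1 : ((∑ x, |(ν x) ^ 3 - ν x| : ℤ) : ℝ) ≤
        (((M : ℤ) ^ 3 + (M : ℤ) ^ 4 * cTheta M : ℤ) : ℝ) := by
      exact_mod_cast point_cube_card h hM
    push_cast at h1
    refine le_trans ?_ (add_le_add (le_refl _) h1)
    rw [← Finset.sum_add_distrib]
    apply Finset.sum_le_sum
    intro x _
    have h2 : ((ν x : ℝ) ^ 3 - ν x) * kap (c x) ≤ |(ν x : ℝ) ^ 3 - ν x| := by
      refine le_trans (le_abs_self _) ?_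
      rw [abs_mul]
      exact mul_le_of_le_one_right (abs_nonneg _) (point_kap_abs _)
    linarith
  -- on the cluster
  have hbU : ∀ x ∈ S, b x = b 0 := by
    intro x hx
    have h1 := av_add E (fun x => (ν x : ℝ)) 0 x (mem_sF.mp hx)
    rw [zero_add] at h1
    exact h1
  have hsig : (#S : ℝ) - K0 ≤ (#S : ℝ) * b 0 := by
    have h1 : (#S : ℝ) * b 0 = ∑ x ∈ S, (ν x : ℝ) := by
      show (#S : ℝ) * ((∑ x ∈ sF E, ((ν (0 + x) : ℤ) : ℝ)) / (#(sF E) : ℝ)) = _
      rw [mul_div_cancel₀ _ (ne_of_gt hNpos)]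
      apply Finset.sum_congr rfl
      intro x _
      rw [zero_add]
    rw [h1]
    have h2 : ((∑ x ∈ S, (ν x - 1) ^ 2 : ℤ) : ℝ) ≤ K0 := by
      have := hU.on
      rw [hK0]
      exact_mod_cast this
    have h3 : (#S : ℝ) - ∑ x ∈ S, (((ν x - 1) ^ 2 : ℤ) : ℝ) ≤ ∑ x ∈ S, (ν x : ℝ) := by
      rw [← nsmul_one, ← Finset.sum_const, ← Finset.sum_sub_distrib]
      apply Finset.sum_le_sum
      intro x _
      have h4 : (1 : ℤ) - (ν x - 1) ^ 2 ≤ ν x := by
        have := point_int_sq (ν x - 1)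
        have h5 := neg_abs_le (ν x - 1)
        linarith
      exact_mod_cast h4
    push_cast at h2 h3
    linarith
  have hK0N : K0 ≤ (#S : ℝ) := by
    have h1 : cK M ≤ cNc M := by
      unfold cK cNc
      calc 32 * (M + 1) ^ 4 ≤ 10 ^ 11 * (M + 1) ^ 4 := Nat.mul_le_mul_right _ (by norm_num)
        _ ≤ 10 ^ 11 * (M + 1) ^ 9 :=
          Nat.mul_le_mul_left _ (Nat.pow_le_pow_right (by omega) (by norm_num))
    have h2 : cK M ≤ #S := le_trans h1 hU.big
    rw [hK0]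
    exact_mod_cast h2
  have hcl : (#S : ℝ) - 3 * K0 ≤ ∑ x ∈ S, (b x) ^ 3 * kap (c x) := by
    have h1 : ∑ x ∈ S, (b x) ^ 3 * kap (c x) = (#S : ℝ) * (b 0) ^ 3 := by
      rw [← nsmul_eq_mul, ← Finset.sum_const]
      apply Finset.sum_congr rfl
      intro x hx
      rw [hbU x hx, hc x (mem_sF.mp hx)]
      simp [kap]
    rw [h1]
    set t : ℝ := K0 / #S with ht
    have ht0 : 0 ≤ t := div_nonneg hK0nn hNpos.le
    have ht1 : t ≤ 1 := (div_le_one hNpos).mpr hK0N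
    have hNt : (#S : ℝ) * t = K0 := mul_div_cancel₀ _ (ne_of_gt hNpos)
    have h2 : 1 - t ≤ b 0 := by
      have h3 : (#S : ℝ) * (1 - t) ≤ (#S : ℝ) * b 0 := by
        rw [mul_sub, hNt, mul_one]
        exact hsig
      exact le_of_mul_le_mul_left h3 hNpos
    have h4 : (1 - t) ^ 3 ≤ (b 0) ^ 3 := pow_le_pow_left₀ (by linarith) h2 3
    have h5 : 1 - 3 * t ≤ (1 - t) ^ 3 := by nlinarith [mul_nonneg (sq_nonneg t) (by linarith : (0:ℝ) ≤ 3 - t)]
    have h6 : (#S : ℝ) * (1 - 3 * t) ≤ (#S : ℝ) * (b 0) ^ 3 :=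
      mul_le_mul_of_nonneg_left (le_trans h5 h4) hNpos.le
    have h7 : (#S : ℝ) * (1 - 3 * t) = (#S : ℝ) - 3 * K0 := by rw [← hNt]; ring
    linarith
  -- off the cluster
  have hoff : ∀ x ∈ Sᶜ, |b x| ≤ K0 / #S := by
    intro x hx
    have hx' : x ∉ E := fun hh => (Finset.mem_compl.mp hx) (mem_sF.mpr hh)
    have h1 : b x = (∑ y ∈ S, ((ν (x + y) : ℤ) : ℝ)) / (#S : ℝ) := rfl
    rw [h1, abs_div, abs_of_pos hNpos]
    apply div_le_div_of_nonneg_right _ hNpos.le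
    refine le_trans (Finset.abs_sum_le_sum_abs _ _) ?_
    have h2 : ((∑ y ∈ S, (ν (x + y)) ^ 2 : ℤ) : ℝ) ≤ K0 := by
      have := hU.off x hx'
      rw [hK0]
      exact_mod_cast this
    refine le_trans ?_ h2
    push_cast
    apply Finset.sum_le_sum
    intro y _
    have := point_int_sq (ν (x + y))
    exact_mod_cast this
  have hTh : cTheta M ≤ #S := le_trans (by unfold cBig; omega) hbig
  have hen := energy h hM E hU D hD hTh
  have henR : ∑ x, ((ν x : ℝ)) ^ 2 ≤ 8 * M * K0 * D * #S := by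
    rw [hK0]
    exact_mod_cast hen
  have hsumb : ∑ x, |b x| ≤ 8 * M * K0 * D * #S := by
    refine le_trans ?_ henR
    have h1 := sum_av E (fun x => |(ν x : ℝ)|)
    have h2 : ∑ x, |b x| ≤ ∑ x, |(ν x : ℝ)| := by
      rw [← h1]
      apply Finset.sum_le_sum
      intro x _
      show |(∑ y ∈ S, ((ν (x + y) : ℤ) : ℝ)) / (#S : ℝ)| ≤
        (∑ y ∈ S, |((ν (x + y) : ℤ) : ℝ)|) / (#S : ℝ)
      rw [abs_div, abs_of_pos hNpos]
      exact div_le_div_of_nonneg_right (Finset.abs_sum_le_sum_abs _ _) hNpos.le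
    refine le_trans h2 (Finset.sum_le_sum ?_)
    intro x _
    have := point_int_sq (ν x)
    exact_mod_cast this
  have hoffsum : -1 ≤ ∑ x ∈ Sᶜ, (b x) ^ 3 * kap (c x) := by
    have h1 : ∀ x ∈ Sᶜ, -((K0 / #S) ^ 2 * |b x|) ≤ (b x) ^ 3 * kap (c x) := by
      intro x hx
      have h2 : |(b x) ^ 3 * kap (c x)| ≤ (K0 / #S) ^ 2 * |b x| := by
        rw [abs_mul, abs_pow]
        have h3 : |b x| ^ 2 ≤ (K0 / #S) ^ 2 := pow_le_pow_left₀ (abs_nonneg _) (hoff x hx) 2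
        calc |b x| ^ 3 * |kap (c x)| ≤ |b x| ^ 3 * 1 :=
              mul_le_mul_of_nonneg_left (point_kap_abs _) (by positivity)
          _ = |b x| ^ 2 * |b x| := by ring
          _ ≤ (K0 / #S) ^ 2 * |b x| := mul_le_mul_of_nonneg_right h3 (abs_nonneg _)
      exact (abs_le.mp h2).1
    have h4 : ∑ x ∈ Sᶜ, |b x| ≤ ∑ x, |b x| :=
      Finset.sum_le_sum_of_subset_of_nonneg (Finset.subset_univ _) (fun _ _ _ => abs_nonneg _)
    have h5 : (K0 / #S) ^ 2 * ∑ x ∈ Sᶜ, |b x| ≤ 1 := by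
      have h6 : (K0 / #S) ^ 2 * ∑ x ∈ Sᶜ, |b x| ≤ (K0 / #S) ^ 2 * (8 * M * K0 * D * #S) :=
        mul_le_mul_of_nonneg_left (le_trans h4 hsumb) (by positivity)
      have h7 : (K0 / #S) ^ 2 * (8 * M * K0 * D * #S) = (8 * M * K0 ^ 3 * D) / #S := by
        field_simp
      have h8 : 8 * (M : ℝ) * K0 ^ 3 * D ≤ #S := by
        have h9 : 8 * M * cK M ^ 3 * D ≤ #S := le_trans (by unfold cBig; omega) hbig
        rw [hK0]
        exact_mod_cast h9
      rw [h7] at h6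
      exact le_trans h6 ((div_le_one hNpos).mpr h8)
    calc (-1 : ℝ) ≤ -((K0 / #S) ^ 2 * ∑ x ∈ Sᶜ, |b x|) := by linarith
      _ = ∑ x ∈ Sᶜ, -((K0 / #S) ^ 2 * |b x|) := by
          rw [Finset.sum_neg_distrib, Finset.mul_sum]
      _ ≤ _ := Finset.sum_le_sum h1
  have hsplit := Finset.sum_add_sum_compl S (fun x => (b x) ^ 3 * kap (c x))
  rw [point_ft_top]
  have hdel : (cDel M : ℝ) = (M : ℝ) ^ 4 * cTheta M + (M : ℝ) ^ 3 + 3 * K0 + 1 := by
    unfold cDel
    push_cast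
    rfl
  rw [hdel]
  linarith

end Pool.Agent.Strip
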