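import Pool.Agent.Strip.Gries

open Finset

namespace Pool.Agent.Strip

variable {K : Type} [Field K] [Fintype K] {V : Type} [AddCommGroup V] [Module K V] [Fintype V]

theorem inv_ind (U : Submodule K V) : Inv K (ind U.toAddSubgroup) := by
  intro a ha x
  have h : a • x ∈ U.toAddSubgroup ↔ x ∈ U.toAddSubgroup := by
    rw [Submodule.mem_toAddSubgroup, Submodule.mem_toAddSubgroup]
    exact U.smul_mem_iff ha
  unfold ind
  by_cases hx : x ∈ U.toAddSubgroup
  · rw [if_pos hx, if_pos (h.mpr hx)]
  · rw [if_neg hx, if_neg (fun h' => hx (h.mp h'))]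

theorem card_sF_sub (U : Submodule K V) :
    #(sF U.toAddSubgroup) = Fintype.card K ^ Module.finrank K U := by
  rw [card_sF]
  have h1 : Nat.card U.toAddSubgroup = Nat.card U := rfl
  rw [h1, Module.natCard_eq_pow_finrank (K := K), Nat.card_eq_fintype_card]

private theorem push_sum_ind (E : AddSubgroup V) : ∑ x, ind E x = (#(sF E) : ℤ) := by
  classical
  unfold ind sF
  rw [Finset.card_filter]
  push_cast
  refine Finset.sum_congr rfl fun x _ => ?_
  congr 1

theorem sum_ind (U : Submodule K V) :
    ∑ x, ind U.toAddSubgroup x = (Fintype.card K : ℤ) ^ Module.finrank K U := by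
  rw [push_sum_ind, card_sF_sub]
  push_cast
  rfl

/-- A subspace whose indicator can be subtracted forces the remaining mass to be a sum of few
small powers. -/
theorem push {M : ℕ} {ν : V → ℤ} (h : Nu (M + 1) ν) (hinv : Inv K ν) (U : Submodule K V)
    (hpd : PD (fun x => ((ν x - ind U.toAddSubgroup x : ℤ) : ℝ))) :
    ∃ s : Multiset ℕ, s.card ≤ M ∧
      (∀ u ∈ s, u ≤ Module.finrank K V - Module.finrank K U) ∧
      ∑ x, ν x = (Fintype.card K : ℤ) ^ Module.finrank K U + psum (Fintype.card K) s := by
  classical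
  haveI : Finite V := Finite.of_fintype V
  letI : Fintype (V ⧸ U) := Fintype.ofFinite _
  set f : V → ℤ := fun x => ν x - ind U.toAddSubgroup x with hf
  set g : V ⧸ U → ℤ := fun y => ∑ x ∈ univ.filter (fun x => U.mkQ x = y), f x with hg
  have hgpd : PD (fun y => (g y : ℝ)) := by
    have h1 := PD.push hpd (U.mkQ.toAddMonoidHom) U.mkQ_surjective
    have h2 : (fun y => (g y : ℝ)) = fun y => ∑ x ∈ univ.filter
        (fun x => U.mkQ.toAddMonoidHom x = y), ((ν x - ind U.toAddSubgroup x : ℤ) : ℝ) := by
      funext y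
      rw [hg]
      push_cast
      refine Finset.sum_congr ?_ fun x _ => ?_
      · ext x
        simp
      · rw [hf]
        push_cast
        ring
    rw [h2]
    exact h1
  have hginv : Inv K g := by
    intro a ha y
    rw [hg]
    beta_reduce
    symm
    refine Finset.sum_bij (fun x _ => a • x) ?_ ?_ ?_ ?_
    · intro x hx
      rw [Finset.mem_filter] at hx ⊢
      refine ⟨Finset.mem_univ _, ?_⟩
      rw [map_smul, hx.2]
    · intro x _ x' _ hxx
      exact smul_right_injective V ha hxx
    · intro x hx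
      rw [Finset.mem_filter] at hx
      refine ⟨a⁻¹ • x, ?_, ?_⟩
      · rw [Finset.mem_filter]
        refine ⟨Finset.mem_univ _, ?_⟩
        rw [map_smul, hx.2, smul_smul, inv_mul_cancel₀ ha, one_smul]
      · rw [smul_smul, mul_inv_cancel₀ ha, one_smul]
    · intro x _
      rw [hf]
      beta_reduce
      rw [hinv a ha x, inv_ind U a ha x]
  have hg0 : g 0 = ∑ x ∈ sF U.toAddSubgroup, (ν x - 1) := by
    rw [hg]
    beta_reduce
    refine Finset.sum_congr ?_ fun x hx => ?_
    · ext x
      rw [Finset.mem_filter, mem_sF, Submodule.mem_toAddSubgroup]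
      simp
    · rw [hf]
      beta_reduce
      rw [mem_sF] at hx
      unfold ind
      rw [if_pos hx]
  have hgM : g 0 ≤ M := by
    rw [hg0, ← Finset.add_sum_erase _ _ (zero_mem_sF U.toAddSubgroup), h.zero]
    have h1 : ∑ x ∈ (sF U.toAddSubgroup).erase 0, (ν x - 1) ≤ 0 := by
      refine Finset.sum_nonpos fun x hx => ?_
      have := h.le x (Finset.ne_of_mem_erase hx)
      linarith
    push_cast
    linarith
  have hgnn : 0 ≤ g 0 := by
    have := hgpd.zero_nonneg
    exact_mod_cast this
  obtain ⟨s, hs1, hs2, hs3⟩ := griesmer g hgpd hginv (g 0).toNat (Int.toNat_of_nonneg hgnn).symm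
  refine ⟨s, ?_, ?_, ?_⟩
  · have : ((g 0).toNat : ℤ) ≤ M := by rw [Int.toNat_of_nonneg hgnn]; exact hgM
    have h2 : (g 0).toNat ≤ M := by exact_mod_cast this
    exact hs1.trans h2
  · intro u hu
    have h1 := hs2 u hu
    have h2 := U.finrank_quotient_add_finrank
    omega
  · rw [← hs3, hg, Finset.sum_fiberwise univ U.mkQ f, hf, Finset.sum_sub_distrib, sum_ind]
    ring

end Pool.Agent.Strip
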