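import Pool.Agent.Strip.Point
import Pool.Agent.Strip.Cover1
import Pool.Agent.Strip.Desc
import Pool.Agent.Strip.Push
import Pool.Agent.Strip.Num
import Pool.Agent.Strip.Large

open Finset Module

namespace Pool.Agent.Strip

variable {K : Type} [Field K] [Fintype K] {V : Type} [AddCommGroup V] [Module K V] [Fintype V]

theorem Inv.sub {f g : V → ℤ} (hf : Inv K f) (hg : Inv K g) : Inv K (fun x => f x - g x) := by
  intro a ha x
  show f (a • x) - g (a • x) = f x - g x
  rw [hf a ha, hg a ha]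

theorem nu_sub {M : ℕ} {ν : V → ℤ} (h : Nu (M + 1) ν) (U : AddSubgroup V)
    (hpd : PD (fun x => ((ν x - ind U x : ℤ) : ℝ))) : Nu M (fun x => ν x - ind U x) := by
  refine ⟨hpd, ?_, ?_⟩
  · show ν 0 - ind U 0 = M
    rw [h.zero]
    unfold ind
    rw [if_pos U.zero_mem]
    push_cast; ring
  · intro x hx
    have h1 := h.le x hx
    have h2 : 0 ≤ ind U x := by unfold ind; split_ifs <;> norm_num
    show ν x - ind U x ≤ 1
    omega

/-- Subtracting a large cluster which is a subspace. -/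
theorem subtract {M : ℕ} {ν : V → ℤ} (h : Nu M ν) (hM : 1 ≤ M) (hinv : Inv K ν)
    (U : Submodule K V) (hU : IsCl M ν U.toAddSubgroup (fun _ => 1)) {q b : ℕ}
    (hq : Fintype.card K = q)
    (hD : Fintype.card V ≤ 4 * M ^ 2 * q * #(sF U.toAddSubgroup) ^ 2)
    (hb : q ^ b ≤ 2 * M * #(sF U.toAddSubgroup)) (hkb : 1900 * M ≤ b) :
    PD (fun x => ((ν x - ind U.toAddSubgroup x : ℤ) : ℝ)) := by
  have hq2 : 2 ≤ q := by rw [← hq]; exact Fintype.one_lt_card
  have hq1 : 1 ≤ q := by omega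
  have hpow : ∀ m : ℕ, 2 ^ m ≤ q ^ m := fun m => Nat.pow_le_pow_left hq2 m
  have hbig : cBig M (4 * M ^ 2 * q) ≤ #(sF U.toAddSubgroup) := by
    have h1 := num_Big hM q hq1
    have h2 : 2 ^ (1720 * M) * q ≤ q ^ b := by
      calc 2 ^ (1720 * M) * q ≤ q ^ (1720 * M) * q := Nat.mul_le_mul_right _ (hpow _)
        _ = q ^ (1720 * M + 1) := (pow_succ _ _).symm
        _ ≤ q ^ b := Nat.pow_le_pow_right hq1 (by omega)
    have h3 : 2 * M * cBig M (4 * M ^ 2 * q) ≤ 2 * M * #(sF U.toAddSubgroup) := by omega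
    exact Nat.le_of_mul_le_mul_left h3 (by omega)
  have hdel : cDel M ≤ q ^ (1700 * M) := le_trans (num_Del hM) (hpow _)
  have hlow : q ^ (1700 * M + M + 1) * (2 * (M + cK M) + 3) ≤ #(sF U.toAddSubgroup) := by
    have h1 := num_low hM
    have h2 : 2 * M * (q ^ (1700 * M + M + 1) * (2 * (M + cK M) + 3)) ≤ q ^ b := by
      calc 2 * M * (q ^ (1700 * M + M + 1) * (2 * (M + cK M) + 3))
          = q ^ (1700 * M + M + 1) * (2 * M * (2 * (M + cK M) + 3)) := by ring
        _ ≤ q ^ (1700 * M + M + 1) * q ^ (20 * M) :=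
            Nat.mul_le_mul_left _ (le_trans h1 (hpow _))
        _ = q ^ (1700 * M + M + 1 + 20 * M) := (pow_add _ _ _).symm
        _ ≤ q ^ b := Nat.pow_le_pow_right hq1 (by omega)
    have h3 : 2 * M * (q ^ (1700 * M + M + 1) * (2 * (M + cK M) + 3)) ≤
        2 * M * #(sF U.toAddSubgroup) := le_trans h2 hb
    exact Nat.le_of_mul_le_mul_left h3 (by omega)
  have hD' : Fintype.card V ≤ (4 * M ^ 2 * q) * #(sF U.toAddSubgroup) ^ 2 := hD
  refine desc h hM hinv U hU.on (cDel M) (1700 * M) (by rw [hq]; exact hdel) ?_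
    (by rw [hq]; exact hlow)
  intro c hc
  exact point h hM U hU (4 * M ^ 2 * q) hD' hbig c hc

/-- Over a prime field every subgroup is a subspace. -/
theorem exists_submodule_of_prime (hp : (Fintype.card K).Prime) (U : AddSubgroup V) :
    ∃ W : Submodule K V, W.toAddSubgroup = U := by
  classical
  have hchar : ∃ p : ℕ, CharP K p := CharP.exists K
  obtain ⟨p, hpc⟩ := hchar
  have hpp : p.Prime := by
    haveI := hpc
    exact CharP.char_is_prime K p
  haveI : Fact p.Prime := ⟨hpp⟩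
  obtain ⟨m, hm, hcard⟩ := FiniteField.card K p
  have hm1 : (m : ℕ) = 1 := by
    rw [hcard] at hp
    exact Nat.Prime.eq_one_of_pow hp
  have hcp : Fintype.card K = p := by rw [hcard, hm1, pow_one]
  have hsurj : ∀ a : K, ∃ b : ℕ, (b : K) = a := by
    have hinj : Function.Injective (fun i : Fin p => ((i : ℕ) : K)) := by
      intro i i' hii
      have : ((i : ℕ) : K) = ((i' : ℕ) : K) := hii
      rw [CharP.natCast_eq_natCast K p] at this
      have h1 := Nat.ModEq.eq_of_lt_of_lt this i.2 i'.2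
      exact Fin.ext h1
    have hbij := (Fintype.bijective_iff_injective_and_card (fun i : Fin p => ((i : ℕ) : K))).mpr
      ⟨hinj, by rw [Fintype.card_fin, hcp]⟩
    intro a
    obtain ⟨i, hi⟩ := hbij.2 a
    exact ⟨i, hi⟩
  refine ⟨{ U with smul_mem' := ?_ }, ?_⟩
  · intro a x hx
    obtain ⟨b, rfl⟩ := hsurj a
    rw [Nat.cast_smul_eq_nsmul]
    exact U.nsmul_mem hx b
  · ext x; rfl

theorem sum_list_pow (q : ℕ) (l : List ℕ) :
    ∑ i : Fin l.length, (q : ℤ) ^ (l[i.1]) = psum q (l : Multiset ℕ) := by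
  unfold psum
  rw [Multiset.map_coe, Multiset.sum_coe]
  exact Fin.sum_univ_fun_getElem l (fun u => (q : ℤ) ^ u)

/-- All exponents at most `k / 2`. -/
theorem good_of_half {q k M : ℕ} (s : Multiset ℕ) (hs : s.card ≤ M) (hk : ∀ u ∈ s, u ≤ k / 2) :
    Good q k M (psum q s) := by
  obtain ⟨l, rfl⟩ : ∃ l : List ℕ, (l : Multiset ℕ) = s := ⟨s.toList, s.coe_toList⟩
  refine ⟨l.length, by simpa using hs, fun i => l[i.1], ?_, (sum_list_pow q l).symm⟩
  intro a b _
  have h1 : l[a.1] ≤ k / 2 := hk _ (by simp)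
  have h2 : l[b.1] ≤ k / 2 := hk _ (by simp)
  show l[a.1] + l[b.1] ≤ k
  omega

/-- One exponent at least `k / 2`, all the others at most the complementary one. -/
theorem good_of_large {q k M u : ℕ} (s : Multiset ℕ) (hs : s.card ≤ M) (hu : k ≤ 2 * u)
    (huk : u ≤ k) (hk : ∀ v ∈ s, v ≤ k - u) :
    Good q k (M + 1) ((q : ℤ) ^ u + psum q s) := by
  obtain ⟨l, rfl⟩ : ∃ l : List ℕ, (l : Multiset ℕ) = s := ⟨s.toList, s.coe_toList⟩
  refine ⟨l.length + 1, by simpa using hs, Fin.cons u (fun i => l[i.1]), ?_, ?_⟩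
  · intro a b hab
    have hl : ∀ i : Fin l.length, l[i.1] ≤ k - u := fun i => hk _ (by simp)
    rcases Fin.eq_zero_or_eq_succ a with rfl | ⟨a', rfl⟩ <;>
      rcases Fin.eq_zero_or_eq_succ b with rfl | ⟨b', rfl⟩
    · exact absurd rfl hab
    · simp only [Fin.cons_zero, Fin.cons_succ]
      have := hl b'
      omega
    · simp only [Fin.cons_zero, Fin.cons_succ]
      have := hl a'
      omega
    · simp only [Fin.cons_succ]
      have h1 := hl a'
      have h2 := hl b'
      omega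
  · rw [Fin.sum_univ_succ]
    simp only [Fin.cons_zero, Fin.cons_succ]
    rw [sum_list_pow]

/-- Exponents are bounded by the sum. -/
theorem exp_le_of_psum {q b : ℕ} (hq : 2 ≤ q) (s : Multiset ℕ) (h : psum q s ≤ (q : ℤ) ^ b) :
    ∀ u ∈ s, u ≤ b := by
  intro u hu
  obtain ⟨s', rfl⟩ := Multiset.exists_cons_of_mem hu
  unfold psum at h
  rw [Multiset.map_cons, Multiset.sum_cons] at h
  have h0 : 0 ≤ (s'.map (fun u => (q : ℤ) ^ u)).sum := by
    apply Multiset.sum_nonneg
    intro x hx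
    rw [Multiset.mem_map] at hx
    obtain ⟨v, _, rfl⟩ := hx
    positivity
  have h1 : (q : ℤ) ^ u ≤ (q : ℤ) ^ b := by linarith
  have h2 : q ^ u ≤ q ^ b := by exact_mod_cast h1
  exact (Nat.pow_le_pow_iff_right (by omega)).mp h2

/-- Small sums. -/
theorem struct_small {M : ℕ} {ν : V → ℤ} (h : Nu M ν) (hinv : Inv K ν)
    (hT : ∑ x, ν x ≤ (Fintype.card K : ℤ) ^ (finrank K V / 2)) :
    Good (Fintype.card K) (finrank K V) M (∑ x, ν x) := by
  obtain ⟨s, hs, _, hsum⟩ := griesmer ν h.pd hinv M h.zero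
  rw [hsum] at hT ⊢
  exact good_of_half s hs (exp_le_of_psum Fintype.one_lt_card s hT)

theorem good_of_sub {M : ℕ} {ν : V → ℤ} (h : Nu (M + 1) ν) (hinv : Inv K ν) (U : Submodule K V)
    (hpd : PD (fun x => ((ν x - ind U.toAddSubgroup x : ℤ) : ℝ)))
    (hU : finrank K V ≤ 2 * finrank K U) :
    Good (Fintype.card K) (finrank K V) (M + 1) (∑ x, ν x) := by
  obtain ⟨s, hs, hsk, hsum⟩ := push h hinv U hpd
  rw [hsum]
  exact good_of_large s hs hU (Submodule.finrank_le U) hsk

/-- Case B. -/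
theorem caseB (hp : (Fintype.card K).Prime) (M : ℕ) : ∀ ν : V → ℤ, Nu M ν → Inv K ν →
    4000 * M ≤ finrank K V →
    (¬ ∃ U : Submodule K V, finrank K V ≤ 2 * finrank K U ∧
      PD (fun x => ((ν x - ind U.toAddSubgroup x : ℤ) : ℝ))) →
    ∃ s : Multiset ℕ, s.card ≤ M ∧ (∀ u ∈ s, u ≤ finrank K V / 2) ∧
      ∑ x, ν x = psum (Fintype.card K) s := by
  classical
  induction M with
  | zero =>
    intro ν h hinv _ _
    refine ⟨0, le_refl _, by simp, ?_⟩
    have h0 : ∀ x, ν x = 0 := by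
      intro x
      have h1 := h.pd.abs_le x
      rw [h.zero] at h1
      simpa using h1
    simp [h0, psum]
  | succ M ih =>
    intro ν h hinv hk hno
    have hq2 : 2 ≤ Fintype.card K := Fintype.one_lt_card
    by_cases hT : ∑ x, ν x ≤ (Fintype.card K : ℤ) ^ (finrank K V / 2)
    · obtain ⟨s, hs, _, hsum⟩ := griesmer ν h.pd hinv (M + 1) h.zero
      rw [hsum] at hT
      exact ⟨s, hs, exp_le_of_psum hq2 s hT, hsum⟩
    · push Not at hT
      have hM1 : 1 ≤ M + 1 := by omega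
      obtain ⟨q, hq⟩ : ∃ q, Fintype.card K = q := ⟨_, rfl⟩
      obtain ⟨k, hkk⟩ : ∃ k, finrank K V = k := ⟨_, rfl⟩
      have hcT : (cT (M + 1) : ℤ) ≤ ∑ x, ν x := by
        have h1 := num_T hM1
        have h2 : 2 ^ (1700 * (M + 1)) ≤ q ^ (k / 2) := by
          calc 2 ^ (1700 * (M + 1)) ≤ 2 ^ (k / 2) :=
                Nat.pow_le_pow_right (by omega) (by omega)
            _ ≤ q ^ (k / 2) := Nat.pow_le_pow_left (by omega) _
        have h3 : ((cT (M + 1) : ℕ) : ℤ) ≤ ((q ^ (k / 2) : ℕ) : ℤ) := by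
          exact_mod_cast le_trans h1 h2
        rw [hq, hkk] at hT
        push_cast at h3
        linarith
      obtain ⟨A, hA, hTA⟩ := big_unsigned h hM1 hcT
      obtain ⟨U, rfl⟩ := exists_submodule_of_prime (K := K) hp A
      have hb : q ^ (k / 2) ≤ 2 * (M + 1) * #(sF U.toAddSubgroup) := by
        have h1 : ((q ^ (k / 2) : ℕ) : ℤ) ≤ ((2 * (M + 1) * #(sF U.toAddSubgroup) : ℕ) : ℤ) := by
          push_cast
          rw [hq, hkk] at hT
          push_cast at hTA
          linarith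
        exact_mod_cast h1
      have hD : Fintype.card V ≤ 4 * (M + 1) ^ 2 * q * #(sF U.toAddSubgroup) ^ 2 := by
        have h1 : Fintype.card V = q ^ k := by
          rw [← hq, ← hkk]; exact Module.card_eq_pow_finrank
        rw [h1]
        calc q ^ k ≤ q ^ (1 + (k / 2) * 2) := Nat.pow_le_pow_right (by omega) (by omega)
          _ = q * (q ^ (k / 2)) ^ 2 := by rw [pow_add, pow_one, pow_mul]
          _ ≤ q * (2 * (M + 1) * #(sF U.toAddSubgroup)) ^ 2 :=
              Nat.mul_le_mul_left _ (Nat.pow_le_pow_left hb 2)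
          _ = 4 * (M + 1) ^ 2 * q * #(sF U.toAddSubgroup) ^ 2 := by ring
      have hpd := subtract h hM1 hinv U hA hq hD hb (by omega)
      have hU2 : ¬ finrank K V ≤ 2 * finrank K U := fun hU2 => hno ⟨U, hU2, hpd⟩
      have h' : Nu M (fun x => ν x - ind U.toAddSubgroup x) := nu_sub h _ hpd
      obtain ⟨s, hs, hsk, hsum⟩ := ih _ h' (hinv.sub (inv_ind U)) (by omega) (by
        rintro ⟨W, hW, hWpd⟩
        apply hno
        refine ⟨W, hW, ?_⟩
        have h1 := hWpd.add (PD.ind U.toAddSubgroup)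
        refine cast (congrArg PD ?_) h1
        funext x
        push_cast
        ring)
      refine ⟨finrank K U ::ₘ s, by simpa using hs, ?_, ?_⟩
      · intro v hv
        rw [Multiset.mem_cons] at hv
        rcases hv with rfl | hv
        · omega
        · exact hsk v hv
      · have h2 : ∑ x, (ν x - ind U.toAddSubgroup x) = ∑ x, ν x - ∑ x, ind U.toAddSubgroup x :=
          Finset.sum_sub_distrib _ _
        rw [h2, sum_ind] at hsum
        unfold psum at hsum ⊢
        rw [Multiset.map_cons, Multiset.sum_cons, ← hsum]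
        ring

/-- The structure theorem over prime fields. -/
theorem struct_prime (hp : (Fintype.card K).Prime) {M : ℕ} {ν : V → ℤ} (h : Nu M ν)
    (hinv : Inv K ν) (hk : 4000 * M ≤ finrank K V) :
    Good (Fintype.card K) (finrank K V) M (∑ x, ν x) := by
  by_cases hex : ∃ U : Submodule K V, finrank K V ≤ 2 * finrank K U ∧
      PD (fun x => ((ν x - ind U.toAddSubgroup x : ℤ) : ℝ))
  · obtain ⟨U, hU, hpd⟩ := hex
    rcases Nat.eq_zero_or_pos M with h0 | h0
    · subst h0
      exfalso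
      have h1 := hpd.zero_nonneg
      rw [h.zero] at h1
      have h2 : ind U.toAddSubgroup 0 = 1 := by
        unfold ind
        rw [if_pos U.toAddSubgroup.zero_mem]
      rw [h2] at h1
      norm_num at h1
    · obtain ⟨M', rfl⟩ : ∃ M', M = M' + 1 := ⟨M - 1, by omega⟩
      exact good_of_sub h hinv U hpd hU
  · obtain ⟨s, hs, hsk, hsum⟩ := caseB hp M ν h hinv hk hex
    rw [hsum]
    exact good_of_half s hs hsk

/-- The structure theorem over all finite fields for very large sums. -/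
theorem struct_large {M : ℕ} {ν : V → ℤ} (h : Nu M ν) (hinv : Inv K ν) (hM : 1 ≤ M)
    (hT : (Fintype.card K : ℤ) ^ ((finrank K V + 1) / 2 + 4000 * M) ≤ ∑ x, ν x) :
    Good (Fintype.card K) (finrank K V) M (∑ x, ν x) := by
  have hq2 : 2 ≤ Fintype.card K := Fintype.one_lt_card
  obtain ⟨q, hq⟩ : ∃ q, Fintype.card K = q := ⟨_, rfl⟩
  obtain ⟨k, hkk⟩ : ∃ k, finrank K V = k := ⟨_, rfl⟩
  have hpow : ∀ m : ℕ, 2 ^ m ≤ q ^ m := fun m => Nat.pow_le_pow_left (by omega) m
  have hcT : (cT M : ℤ) ≤ ∑ x, ν x := by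
    have h1 := num_T hM
    have h2 : 2 ^ (1700 * M) ≤ q ^ ((k + 1) / 2 + 4000 * M) :=
      le_trans (hpow _) (Nat.pow_le_pow_right (by omega) (by omega))
    have h3 : ((cT M : ℕ) : ℤ) ≤ ((q ^ ((k + 1) / 2 + 4000 * M) : ℕ) : ℤ) := by
      exact_mod_cast le_trans h1 h2
    rw [hq, hkk] at hT
    push_cast at h3
    linarith
  obtain ⟨A, hA, hTA⟩ := big_unsigned h hM hcT
  have hcardV : Fintype.card V = q ^ k := by
    rw [← hq, ← hkk]; exact Module.card_eq_pow_finrank
  have hb : q ^ ((k + 1) / 2 + 4000 * M) ≤ 2 * M * #(sF A) := by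
    have h1 : ((q ^ ((k + 1) / 2 + 4000 * M) : ℕ) : ℤ) ≤ ((2 * M * #(sF A) : ℕ) : ℤ) := by
      push_cast
      rw [hq, hkk] at hT
      linarith
    exact_mod_cast h1
  have hsq : q ^ k * q ^ (8000 * M) ≤ 4 * M ^ 2 * #(sF A) ^ 2 := by
    calc q ^ k * q ^ (8000 * M) = q ^ (k + 8000 * M) := (pow_add _ _ _).symm
      _ ≤ q ^ (((k + 1) / 2 + 4000 * M) * 2) := Nat.pow_le_pow_right (by omega) (by omega)
      _ = (q ^ ((k + 1) / 2 + 4000 * M)) ^ 2 := pow_mul _ _ _
      _ ≤ (2 * M * #(sF A)) ^ 2 := Nat.pow_le_pow_left hb 2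
      _ = 4 * M ^ 2 * #(sF A) ^ 2 := by ring
  have hqk : 0 < q ^ k := Nat.pow_pos (by omega)
  have hlarge : 2 * cK M * Fintype.card V < #(sF A) ^ 2 := by
    rw [hcardV]
    have h1 := num_inter hM
    have h2 : 4 * M ^ 2 * (2 * cK M) < q ^ (8000 * M) := by
      calc 4 * M ^ 2 * (2 * cK M) ≤ 2 ^ (20 * M) := h1
        _ ≤ q ^ (20 * M) := hpow _
        _ < q ^ (8000 * M) := Nat.pow_lt_pow_right (by omega) (by omega)
    have h3 : 4 * M ^ 2 * (2 * cK M * q ^ k) < 4 * M ^ 2 * #(sF A) ^ 2 := by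
      calc 4 * M ^ 2 * (2 * cK M * q ^ k) = (4 * M ^ 2 * (2 * cK M)) * q ^ k := by ring
        _ < q ^ (8000 * M) * q ^ k := Nat.mul_lt_mul_of_pos_right h2 hqk
        _ = q ^ k * q ^ (8000 * M) := by ring
        _ ≤ 4 * M ^ 2 * #(sF A) ^ 2 := hsq
    exact Nat.lt_of_mul_lt_mul_left h3
  obtain ⟨U, rfl⟩ := exists_submodule_of_large hinv A hA hlarge
  have hD : Fintype.card V ≤ 4 * M ^ 2 * q * #(sF U.toAddSubgroup) ^ 2 := by
    have h1 : Fintype.card V ≤ #(sF U.toAddSubgroup) ^ 2 := by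
      have h2 : 0 < 2 * cK M := by unfold cK; positivity
      calc Fintype.card V = 1 * Fintype.card V := (one_mul _).symm
        _ ≤ 2 * cK M * Fintype.card V := Nat.mul_le_mul_right _ h2
        _ ≤ _ := le_of_lt hlarge
    have h3 : 1 ≤ 4 * M ^ 2 * q := by
      have hM0 : 0 < M := hM
      have hq0 : 0 < q := by omega
      have : 0 < 4 * M ^ 2 * q := by positivity
      omega
    calc Fintype.card V ≤ 1 * #(sF U.toAddSubgroup) ^ 2 := by rw [one_mul]; exact h1
      _ ≤ _ := Nat.mul_le_mul_right _ h3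
  have hpd := subtract h hM hinv U hA hq hD hb (by omega)
  have hU2 : finrank K V ≤ 2 * finrank K U := by
    have h1 : Fintype.card V ≤ #(sF U.toAddSubgroup) ^ 2 := by
      have h2 : 0 < 2 * cK M := by unfold cK; positivity
      calc Fintype.card V = 1 * Fintype.card V := (one_mul _).symm
        _ ≤ 2 * cK M * Fintype.card V := Nat.mul_le_mul_right _ h2
        _ ≤ _ := le_of_lt hlarge
    rw [hcardV, card_sF_sub, hq, ← pow_mul] at h1
    have h2 := (Nat.pow_le_pow_iff_right (by omega)).mp h1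
    omega
  obtain ⟨M', rfl⟩ : ∃ M', M = M' + 1 := ⟨M - 1, by omega⟩
  exact good_of_sub h hinv U hpd hU2

end Pool.Agent.Strip
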