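import Pool.Agent.Strip.Avg
import Pool.Agent.Strip.Cube

open Finset

namespace Pool.Agent.Strip

variable {G : Type} [AddCommGroup G] [Fintype G]

/-- Numerical lemma. -/
theorem small_of_sq {M : ℕ} (n V : ℝ) (hn : (cN1 M : ℝ) ≤ n) (hV0 : 0 ≤ V)
    (hV : V ^ 2 ≤ ((M : ℝ) + 1) ^ 2 * V + 8 * ((M : ℝ) + 1) ^ 6 * n) :
    V ≤ 4 / 10 ^ 6 / ((M : ℝ) + 1) ^ 2 * n := by
  obtain ⟨a, ha⟩ : ∃ a : ℝ, a = (M : ℝ) + 1 := ⟨_, rfl⟩
  have ha1 : 1 ≤ a := by rw [ha]; have : (0 : ℝ) ≤ M := Nat.cast_nonneg M; linarith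
  have hn' : 10 ^ 12 * a ^ 10 ≤ n := by
    unfold cN1 at hn
    push_cast at hn
    rw [ha]
    norm_num at hn ⊢
    exact hn
  rw [← ha] at hV ⊢
  have ha0 : 0 < a := by linarith
  by_contra hcon
  push Not at hcon
  have h2 : 4 / 10 ^ 6 / a ^ 2 * n = 4 * n / (10 ^ 6 * a ^ 2) := by
    field_simp
  rw [h2, div_lt_iff₀ (by positivity)] at hcon
  -- hcon : 4 * n < V * (10 ^ 6 * a ^ 2)
  have hn0 : 0 < n := lt_of_lt_of_le (by positivity) hn'
  -- V is at least twice a ^ 2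
  have h3 : 2 * a ^ 2 ≤ V := by
    by_contra h4
    push Not at h4
    have h5 : V * (10 ^ 6 * a ^ 2) ≤ 2 * a ^ 2 * (10 ^ 6 * a ^ 2) :=
      mul_le_mul_of_nonneg_right h4.le (by positivity)
    have h6 : 2 * a ^ 2 * (10 ^ 6 * a ^ 2) ≤ 4 * (10 ^ 12 * a ^ 10) := by
      have h7 : a ^ 4 ≤ a ^ 10 := pow_le_pow_right₀ ha1 (by norm_num)
      nlinarith [pow_pos ha0 4]
    linarith
  have h4 : V ^ 2 ≤ 16 * a ^ 6 * n := by
    have h5 : a ^ 2 * V ≤ V ^ 2 / 2 := by nlinarith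
    linarith
  have h5 : (4 * n) ^ 2 < (V * (10 ^ 6 * a ^ 2)) ^ 2 :=
    pow_lt_pow_left₀ hcon (by positivity) (by norm_num)
  have h6 : (V * (10 ^ 6 * a ^ 2)) ^ 2 ≤ 16 * a ^ 6 * n * (10 ^ 12 * a ^ 4) := by
    have h7 : (V * (10 ^ 6 * a ^ 2)) ^ 2 = V ^ 2 * (10 ^ 12 * a ^ 4) := by ring
    rw [h7]
    exact mul_le_mul_of_nonneg_right h4 (by positivity)
  have h7 : 16 * a ^ 6 * n * (10 ^ 12 * a ^ 4) ≤ 16 * n * n := by
    have : 16 * a ^ 6 * n * (10 ^ 12 * a ^ 4) = 16 * n * (10 ^ 12 * a ^ 10) := by ring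
    rw [this]
    exact mul_le_mul_of_nonneg_left hn' (by positivity)
  nlinarith

/-- A weight on a translate of a finite set. -/
theorem subg1_bil_left (f v c : G → ℝ) (A : Finset G) (h : G) [DecidableEq G] :
    bil f (fun t => if t - h ∈ A then c (t - h) else 0) v =
      ∑ x ∈ A, c x * ∑ y, v y * f (x + h - y) := by
  unfold bil
  have h1 : ∀ x : G, (∑ y, (if x - h ∈ A then c (x - h) else 0) * v y * f (x - y)) =
      if x - h ∈ A then c (x - h) * ∑ y, v y * f (x - h + h - y) else 0 := by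
    intro x
    split_ifs with hx
    · rw [Finset.mul_sum]
      refine Finset.sum_congr rfl fun y _ => ?_
      rw [sub_add_cancel, mul_assoc]
    · simp
  rw [Finset.sum_congr rfl fun x _ => h1 x]
  rw [← Equiv.sum_comp (Equiv.addRight h)
    (fun x => if x - h ∈ A then c (x - h) * ∑ y, v y * f (x - h + h - y) else 0)]
  have h2 : ∀ x : G, (if (Equiv.addRight h) x - h ∈ A then c ((Equiv.addRight h) x - h) *
      ∑ y, v y * f ((Equiv.addRight h) x - h + h - y) else 0) =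
      if x ∈ A then c x * ∑ y, v y * f (x + h - y) else 0 := by
    intro x
    rw [Equiv.coe_addRight, add_sub_cancel_right]
  rw [Finset.sum_congr rfl fun x _ => h2 x, Finset.sum_ite_mem, Finset.univ_inter]

theorem subg1_bil_self (f c : G → ℝ) (A : Finset G) (h : G) [DecidableEq G] :
    bil f (fun t => if t - h ∈ A then c (t - h) else 0)
      (fun t => if t - h ∈ A then c (t - h) else 0) =
      ∑ x ∈ A, ∑ y ∈ A, c x * c y * f (x - y) := by
  rw [subg1_bil_left]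
  refine Finset.sum_congr rfl fun x _ => ?_
  rw [← Equiv.sum_comp (Equiv.addRight h)
    (fun y => (if y - h ∈ A then c (y - h) else 0) * f (x + h - y))]
  have h2 : ∀ y : G, (if (Equiv.addRight h) y - h ∈ A then c ((Equiv.addRight h) y - h) else 0) *
      f (x + h - (Equiv.addRight h) y) = if y ∈ A then c y * f (x - y) else 0 := by
    intro y
    rw [Equiv.coe_addRight, add_sub_cancel_right, add_sub_add_right_eq_sub]
    split_ifs <;> simp
  rw [Finset.sum_congr rfl fun y _ => h2 y, Finset.sum_ite_mem, Finset.univ_inter, Finset.mul_sum]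
  refine Finset.sum_congr rfl fun y _ => ?_
  ring

/-- The form on mean zero weights. -/
theorem subg1_form {M : ℕ} {ν : G → ℤ} (h : Nu M ν) (hM : 1 ≤ M) (A : Finset G)
    (hmiss : ∑ x ∈ A, ∑ y ∈ A, max 0 (1 - ν (x - y)) ≤ (cQ M : ℤ) * #A) (c : G → ℝ)
    (hc0 : ∑ x ∈ A, c x = 0) (hc : ∀ x ∈ A, |c x| ≤ 2 * M) :
    ∑ x ∈ A, ∑ y ∈ A, c x * c y * (ν (x - y) : ℝ) ≤
      ((M : ℝ) - 1) * (∑ x ∈ A, (c x) ^ 2) + 4 * (M : ℝ) ^ 2 * (2 * ((M : ℝ) + 1) ^ 3 * #A) := by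
  classical
  have hM1 : (1 : ℝ) ≤ M := by exact_mod_cast hM
  have h1 : ∑ x ∈ A, ∑ y ∈ A, c x * c y * (ν (x - y) : ℝ) =
      ∑ x ∈ A, ∑ y ∈ A, c x * c y * ((ν (x - y) : ℝ) - 1) := by
    have h2 : ∑ x ∈ A, ∑ y ∈ A, c x * c y * ((ν (x - y) : ℝ) - 1) =
        ∑ x ∈ A, ∑ y ∈ A, c x * c y * (ν (x - y) : ℝ) - ∑ x ∈ A, ∑ y ∈ A, c x * c y := by
      rw [← Finset.sum_sub_distrib]
      refine Finset.sum_congr rfl fun x _ => ?_
      rw [← Finset.sum_sub_distrib]
      refine Finset.sum_congr rfl fun y _ => ?_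
      ring
    have h3 : ∑ x ∈ A, ∑ y ∈ A, c x * c y = 0 := by
      rw [← Finset.sum_mul_sum, hc0, zero_mul]
    rw [h2, h3, sub_zero]
  have h2 : ∀ x ∈ A, ∀ y ∈ A, c x * c y * ((ν (x - y) : ℝ) - 1) ≤
      (if x = y then ((M : ℝ) - 1) * (c x) ^ 2 else 0) +
        4 * (M : ℝ) ^ 2 * ((max 0 (1 - ν (x - y)) : ℤ) : ℝ) := by
    intro x hx y hy
    by_cases hxy : x = y
    · subst hxy
      rw [if_pos rfl, sub_self, h.zero]
      have h4 : (0 : ℝ) ≤ ((max 0 (1 - (M : ℤ)) : ℤ) : ℝ) := by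
        exact_mod_cast le_max_left _ _
      have h5 : (((M : ℤ) : ℝ)) = (M : ℝ) := by norm_cast
      rw [h5]
      have h6 : 0 ≤ 4 * (M : ℝ) ^ 2 * ((max 0 (1 - (M : ℤ)) : ℤ) : ℝ) := by positivity
      nlinarith
    · rw [if_neg hxy, zero_add]
      have h4 : ν (x - y) ≤ 1 := h.le _ (sub_ne_zero.mpr hxy)
      have h5 : max 0 (1 - ν (x - y)) = 1 - ν (x - y) := max_eq_right (by omega)
      rw [h5]
      push_cast
      have h6 : (0 : ℝ) ≤ 1 - (ν (x - y) : ℝ) := by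
        have : (ν (x - y) : ℝ) ≤ 1 := by exact_mod_cast h4
        linarith
      have h7 : |c x * c y| ≤ 4 * (M : ℝ) ^ 2 := by
        rw [abs_mul]
        calc |c x| * |c y| ≤ (2 * M) * (2 * M) :=
              mul_le_mul (hc x hx) (hc y hy) (abs_nonneg _) (by positivity)
          _ = 4 * (M : ℝ) ^ 2 := by ring
      have h8 : -(c x * c y) ≤ 4 * (M : ℝ) ^ 2 := (neg_le_abs _).trans h7
      nlinarith [mul_le_mul_of_nonneg_right h8 h6]
  rw [h1]
  have h3 : ∑ x ∈ A, ∑ y ∈ A, c x * c y * ((ν (x - y) : ℝ) - 1) ≤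
      ∑ x ∈ A, ∑ y ∈ A, ((if x = y then ((M : ℝ) - 1) * (c x) ^ 2 else 0) +
        4 * (M : ℝ) ^ 2 * ((max 0 (1 - ν (x - y)) : ℤ) : ℝ)) :=
    Finset.sum_le_sum fun x hx => Finset.sum_le_sum fun y hy => h2 x hx y hy
  refine h3.trans ?_
  have h4 : ∑ x ∈ A, ∑ y ∈ A, ((if x = y then ((M : ℝ) - 1) * (c x) ^ 2 else 0) +
        4 * (M : ℝ) ^ 2 * ((max 0 (1 - ν (x - y)) : ℤ) : ℝ)) =
      ((M : ℝ) - 1) * (∑ x ∈ A, (c x) ^ 2) +
        4 * (M : ℝ) ^ 2 * ((∑ x ∈ A, ∑ y ∈ A, max 0 (1 - ν (x - y)) : ℤ) : ℝ) := by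
    push_cast
    rw [Finset.mul_sum, Finset.mul_sum, ← Finset.sum_add_distrib]
    refine Finset.sum_congr rfl fun x hx => ?_
    rw [Finset.sum_add_distrib, Finset.sum_ite_eq, if_pos hx, Finset.mul_sum]
  rw [h4]
  have h5 : ((∑ x ∈ A, ∑ y ∈ A, max 0 (1 - ν (x - y)) : ℤ) : ℝ) ≤
      2 * ((M : ℝ) + 1) ^ 3 * #A := by
    have : ((∑ x ∈ A, ∑ y ∈ A, max 0 (1 - ν (x - y)) : ℤ) : ℝ) ≤ (((cQ M : ℤ) * #A : ℤ) : ℝ) := by
      exact_mod_cast hmiss
    refine this.trans (le_of_eq ?_)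
    unfold cQ
    push_cast
    ring
  have h6 : 0 ≤ 4 * (M : ℝ) ^ 2 := by positivity
  nlinarith [mul_le_mul_of_nonneg_left h5 h6]

/-- Reals near the integers. -/
theorem subg1_round (a : ℤ) (r : ℝ) : |(a : ℝ) - round r| ≤ 4 * ((a : ℝ) - r) ^ 2 := by
  by_cases h : a = round r
  · rw [h, sub_self, abs_zero]; positivity
  · have h1 : (1 : ℝ) ≤ |(a : ℝ) - round r| := by
      have h2 : (1 : ℤ) ≤ |a - round r| := Int.one_le_abs (sub_ne_zero.mpr h)
      have h3 : ((1 : ℤ) : ℝ) ≤ ((|a - round r| : ℤ) : ℝ) := by exact_mod_cast h2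
      rw [Int.cast_abs, Int.cast_sub] at h3
      simpa using h3
    have h2 : |r - round r| ≤ 1 / 2 := abs_sub_round r
    have h3 : |(a : ℝ) - round r| ≤ |(a : ℝ) - r| + |r - round r| := abs_sub_le _ _ _
    have h4 : |(a : ℝ) - round r| ≤ 2 * |(a : ℝ) - r| := by linarith
    have h5 : ((a : ℝ) - r) ^ 2 = |(a : ℝ) - r| ^ 2 := (sq_abs _).symm
    rw [h5]
    nlinarith [abs_nonneg ((a : ℝ) - r)]

/-- Autocorrelations of a nearly perfect clique are nearly integers. -/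
theorem dichotomy {M : ℕ} {ν : G → ℤ} (h : Nu M ν) (hM : 1 ≤ M) (A : Finset G)
    (hN : cN1 M ≤ #A) (hA : Rows ν A) (z : G) :
    (∑ x ∈ A, ∑ y ∈ A, (ν (x - y + z) : ℝ)) / (#A : ℝ) ^ 2 ≤ 1 / (1000 * ((M : ℝ) + 1)) ∨
    1 - 1 / (1000 * ((M : ℝ) + 1)) ≤ (∑ x ∈ A, ∑ y ∈ A, (ν (x - y + z) : ℝ)) / (#A : ℝ) ^ 2 := by
  classical
  have hM1 : (1 : ℝ) ≤ M := by exact_mod_cast hM
  have hn0 : 0 < #A := lt_of_lt_of_le (by unfold cN1; positivity) hN
  have hAne : A.Nonempty := Finset.card_pos.mp hn0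
  have hmiss := cube h hM A hAne hA
  obtain ⟨n, hn⟩ : ∃ n : ℝ, n = (#A : ℝ) := ⟨_, rfl⟩
  have hnpos : 0 < n := by rw [hn]; exact_mod_cast hn0
  have hnN : (cN1 M : ℝ) ≤ n := by rw [hn]; exact_mod_cast hN
  obtain ⟨e, he⟩ : ∃ e : ℝ, e = 4 / 10 ^ 6 / ((M : ℝ) + 1) ^ 2 := ⟨_, rfl⟩
  have hepos : 0 < e := by rw [he]; positivity
  have habs : ∀ x, |(ν x : ℝ)| ≤ M := by
    intro x
    have h1 := h.pd.abs_le x
    rw [h.zero] at h1
    exact_mod_cast h1
  -- averages of rows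
  obtain ⟨r, hr⟩ : ∃ r : G → ℝ, r = fun t => (∑ y ∈ A, (ν (t - y) : ℝ)) / n := ⟨_, rfl⟩
  have hrt : ∀ t, r t * n = ∑ y ∈ A, (ν (t - y) : ℝ) := by
    intro t; rw [hr]; field_simp
  have hrabs : ∀ t, |r t| ≤ M := by
    intro t
    have h1 : |∑ y ∈ A, (ν (t - y) : ℝ)| ≤ ∑ _y ∈ A, (M : ℝ) :=
      (Finset.abs_sum_le_sum_abs _ _).trans (Finset.sum_le_sum fun y _ => habs _)
    rw [Finset.sum_const, nsmul_eq_mul, ← hn, ← hrt, abs_mul, abs_of_pos hnpos] at h1
    nlinarith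
  -- first step: each row average is near an integer
  have hstep1 : ∀ t, ∃ m : ℤ, |r t - m| ≤ 4 * e := by
    intro t
    obtain ⟨V, hV⟩ : ∃ V : ℝ, V = ∑ y ∈ A, ((ν (t - y) : ℝ) - r t) ^ 2 := ⟨_, rfl⟩
    have hV0 : 0 ≤ V := by rw [hV]; exact Finset.sum_nonneg fun y _ => sq_nonneg _
    have hc0 : ∑ y ∈ A, ((ν (t - y) : ℝ) - r t) = 0 := by
      rw [Finset.sum_sub_distrib, Finset.sum_const, nsmul_eq_mul, ← hn, ← hrt]
      ring
    have hcb : ∀ y ∈ A, |(ν (t - y) : ℝ) - r t| ≤ 2 * M := by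
      intro y _
      have h1 := habs (t - y)
      have h2 := hrabs t
      have h3 := abs_sub ((ν (t - y) : ℝ)) (r t)
      linarith
    obtain ⟨c, hc⟩ : ∃ c : G → ℝ, ∀ y, c y = (ν (t - y) : ℝ) - r t := ⟨_, fun _ => rfl⟩
    have hV' : V = ∑ y ∈ A, c y ^ 2 := by
      rw [hV]; exact Finset.sum_congr rfl fun y _ => by rw [hc]
    have hc0' : ∑ y ∈ A, c y = 0 := by
      rw [← hc0]; exact Finset.sum_congr rfl fun y _ => by rw [hc]
    have hcb' : ∀ y ∈ A, |c y| ≤ 2 * M := by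
      intro y hy; rw [hc]; exact hcb y hy
    have hform := subg1_form h hM A hmiss c hc0' hcb'
    have hcs := h.pd.cs (fun s => if s - 0 ∈ A then c (s - 0) else 0)
      (fun s => if s = t then 1 else 0)
    have hbs : bil (fun x => (ν x : ℝ)) (fun s => if s - 0 ∈ A then
        c (s - 0) else 0) (fun s => if s = t then 1 else 0) = V := by
      rw [subg1_bil_left]
      have h1 : ∀ x ∈ A, c x * ∑ y, (if y = t then (1 : ℝ) else 0) *
          (ν (x + 0 - y) : ℝ) = c x ^ 2 + c x * r t := by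
        intro x _
        have h2 : ∑ y, (if y = t then (1 : ℝ) else 0) * (ν (x + 0 - y) : ℝ) = (ν (t - x) : ℝ) := by
          have h3 : ∀ y, (if y = t then (1 : ℝ) else 0) * (ν (x + 0 - y) : ℝ) =
              if y = t then (ν (x + 0 - y) : ℝ) else 0 := by
            intro y; split_ifs <;> simp
          rw [Finset.sum_congr rfl fun y _ => h3 y, Finset.sum_ite_eq', if_pos (Finset.mem_univ _)]
          have h4 := h.pd.symm (t - x)
          rw [neg_sub] at h4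
          rw [add_zero]
          exact h4
        rw [h2, hc]; ring
      rw [Finset.sum_congr rfl h1, Finset.sum_add_distrib, ← Finset.sum_mul, hc0', zero_mul,
        add_zero, hV']
    have hbt : bil (fun x => (ν x : ℝ)) (fun s => if s = t then 1 else 0)
        (fun s => if s = t then 1 else 0) = M := by
      rw [bil_single]
      have h3 : ∀ y, (if y = t then (1 : ℝ) else 0) * (ν (t - y) : ℝ) =
              if y = t then (ν (t - y) : ℝ) else 0 := by
        intro y; split_ifs <;> simp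
      rw [Finset.sum_congr rfl fun y _ => h3 y, Finset.sum_ite_eq', if_pos (Finset.mem_univ _),
        sub_self, h.zero]
      norm_cast
    rw [hbs, hbt, subg1_bil_self] at hcs
    have hVle : V ≤ e * n := by
      rw [he]
      refine small_of_sq n V hnN hV0 (hcs.trans ?_)
      have h5 := mul_le_mul_of_nonneg_right hform (show (0 : ℝ) ≤ M by linarith)
      refine h5.trans ?_
      rw [← hV', ← hn]
      have h6 : (M : ℝ) * ((M : ℝ) - 1) ≤ ((M : ℝ) + 1) ^ 2 := by nlinarith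
      have h7 : (M : ℝ) ^ 3 ≤ ((M : ℝ) + 1) ^ 3 := pow_le_pow_left₀ (by linarith) (by linarith) 3
      have h8 : (M : ℝ) ^ 3 * ((M : ℝ) + 1) ^ 3 ≤ ((M : ℝ) + 1) ^ 6 := by
        have := mul_le_mul_of_nonneg_right h7 (show 0 ≤ ((M : ℝ) + 1) ^ 3 by positivity)
        nlinarith
      nlinarith [mul_le_mul_of_nonneg_right h6 hV0, mul_le_mul_of_nonneg_right h8 hnpos.le]
    refine ⟨round (r t), ?_⟩
    have h5 : (r t - round (r t)) * n = ∑ y ∈ A, ((ν (t - y) : ℝ) - round (r t)) := by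
      rw [Finset.sum_sub_distrib, Finset.sum_const, nsmul_eq_mul, ← hn, ← hrt]; ring
    have h6 : |r t - round (r t)| * n ≤ 4 * V := by
      have h6' : |r t - round (r t)| * n = |(r t - round (r t)) * n| := by
        rw [abs_mul, abs_of_pos hnpos]
      rw [h6', h5]
      refine (Finset.abs_sum_le_sum_abs _ _).trans ?_
      rw [hV, Finset.mul_sum]
      exact Finset.sum_le_sum fun y _ => subg1_round _ _
    have h7 : |r t - round (r t)| * n ≤ (4 * e) * n := by linarith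
    exact le_of_mul_le_mul_right h7 hnpos
  -- second step
  obtain ⟨R, hR⟩ : ∃ R : ℝ, R = (∑ x ∈ A, r (x + z)) / n := ⟨_, rfl⟩
  have hRn : R * n = ∑ x ∈ A, r (x + z) := by rw [hR]; field_simp
  have hRabs : |R| ≤ M := by
    have h1 : |∑ x ∈ A, r (x + z)| ≤ ∑ _y ∈ A, (M : ℝ) :=
      (Finset.abs_sum_le_sum_abs _ _).trans (Finset.sum_le_sum fun y _ => hrabs _)
    rw [Finset.sum_const, nsmul_eq_mul, ← hn, ← hRn, abs_mul, abs_of_pos hnpos] at h1
    nlinarith
  have hgoal : (∑ x ∈ A, ∑ y ∈ A, (ν (x - y + z) : ℝ)) / (#A : ℝ) ^ 2 = R := by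
    have h1 : R * n * n = ∑ x ∈ A, ∑ y ∈ A, (ν (x - y + z) : ℝ) := by
      rw [hRn, Finset.sum_mul]
      refine Finset.sum_congr rfl fun x _ => ?_
      rw [hrt]
      refine Finset.sum_congr rfl fun y _ => ?_
      congr 2
      abel
    rw [← h1, ← hn]
    field_simp
  rw [hgoal]
  obtain ⟨V, hV⟩ : ∃ V : ℝ, V = ∑ x ∈ A, (r (x + z) - R) ^ 2 := ⟨_, rfl⟩
  have hV0 : 0 ≤ V := by rw [hV]; exact Finset.sum_nonneg fun y _ => sq_nonneg _
  have hc0 : ∑ x ∈ A, (r (x + z) - R) = 0 := by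
    rw [Finset.sum_sub_distrib, Finset.sum_const, nsmul_eq_mul, ← hn, ← hRn]; ring
  have hcb : ∀ x ∈ A, |r (x + z) - R| ≤ 2 * M := by
    intro x _
    have h1 := hrabs (x + z)
    have h3 := abs_sub (r (x + z)) R
    linarith
  obtain ⟨c, hc⟩ : ∃ c : G → ℝ, ∀ x, c x = r (x + z) - R := ⟨_, fun _ => rfl⟩
  have hV' : V = ∑ y ∈ A, c y ^ 2 := by
    rw [hV]; exact Finset.sum_congr rfl fun y _ => by rw [hc]
  have hc0' : ∑ y ∈ A, c y = 0 := by
    rw [← hc0]; exact Finset.sum_congr rfl fun y _ => by rw [hc]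
  have hcb' : ∀ y ∈ A, |c y| ≤ 2 * M := by
    intro y hy; rw [hc]; exact hcb y hy
  obtain ⟨d, hd⟩ : ∃ d : G → ℝ, ∀ x, d x = 1 := ⟨fun _ => 1, fun _ => rfl⟩
  have hform := subg1_form h hM A hmiss c hc0' hcb'
  have hcs := h.pd.cs (fun s => if s - z ∈ A then c (s - z) else 0)
    (fun s => if s - 0 ∈ A then d (s - 0) else 0)
  have hbs : bil (fun x => (ν x : ℝ)) (fun s => if s - z ∈ A then c (s - z) else 0)
      (fun s => if s - 0 ∈ A then d (s - 0) else 0) = V * n := by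
    rw [subg1_bil_left]
    have h1 : ∀ x ∈ A, c x * ∑ y, (if y - 0 ∈ A then d (y - 0) else 0) *
        (ν (x + z - y) : ℝ) = (c x ^ 2 + c x * R) * n := by
      intro x _
      have h2 : ∑ y, (if y - 0 ∈ A then d (y - 0) else 0) *
          (ν (x + z - y) : ℝ) = r (x + z) * n := by
        have h3 : ∀ y, (if y - 0 ∈ A then d (y - 0) else 0) *
            (ν (x + z - y) : ℝ) = if y ∈ A then (ν (x + z - y) : ℝ) else 0 := by
          intro y; rw [sub_zero, hd]; split_ifs <;> simp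
        rw [Finset.sum_congr rfl fun y _ => h3 y, Finset.sum_ite_mem, Finset.univ_inter, hrt]
      rw [h2, hc]; ring
    rw [Finset.sum_congr rfl h1, ← Finset.sum_mul, Finset.sum_add_distrib, ← Finset.sum_mul, hc0',
      zero_mul, add_zero, hV']
  have hbg : bil (fun x => (ν x : ℝ)) (fun s => if s - 0 ∈ A then d (s - 0) else 0)
      (fun s => if s - 0 ∈ A then d (s - 0) else 0) ≤ 2 * n ^ 2 := by
    rw [subg1_bil_self]
    have h1 : ∀ x ∈ A, ∑ y ∈ A, d x * d y * (ν (x - y) : ℝ) ≤ 2 * n := by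
      intro x hx
      have h2 := (abs_le.mp (hA x hx)).2
      rw [← hn] at h2
      have h3 : ∑ y ∈ A, d x * d y * (ν (x - y) : ℝ) = ∑ y ∈ A, (ν (x - y) : ℝ) :=
        Finset.sum_congr rfl fun y _ => by rw [hd, hd]; ring
      rw [h3]
      linarith
    refine (Finset.sum_le_sum h1).trans (le_of_eq ?_)
    rw [Finset.sum_const, nsmul_eq_mul, ← hn]; ring
  rw [hbs] at hcs
  have hself := subg1_bil_self (fun x => (ν x : ℝ)) c A z
  have hVle : V ≤ e * n := by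
    rw [he]
    refine small_of_sq n V hnN hV0 ?_
    obtain ⟨F, hF⟩ : ∃ F : ℝ, F = ∑ x ∈ A, ∑ y ∈ A, c x * c y * (ν (x - y) : ℝ) := ⟨_, rfl⟩
    rw [← hF] at hself
    rw [hself] at hcs
    have hF0 : 0 ≤ F := by
      have h1 := h.pd.nonneg (fun s => if s - z ∈ A then c (s - z) else 0)
      rw [hself] at h1
      exact h1
    have h2 : (V * n) ^ 2 ≤ F * (2 * n ^ 2) := hcs.trans (mul_le_mul_of_nonneg_left hbg hF0)
    have h3 : V ^ 2 ≤ 2 * F := by
      have h4 : V ^ 2 * n ^ 2 ≤ (2 * F) * n ^ 2 := by nlinarith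
      exact le_of_mul_le_mul_right h4 (by positivity)
    have hform' : F ≤ ((M : ℝ) - 1) * V + 4 * (M : ℝ) ^ 2 * (2 * ((M : ℝ) + 1) ^ 3 * n) := by
      rw [hF, hV', hn]; exact hform
    have h6 : 2 * ((M : ℝ) - 1) ≤ ((M : ℝ) + 1) ^ 2 := by nlinarith
    have h7 : 2 * (M : ℝ) ^ 2 ≤ ((M : ℝ) + 1) ^ 3 := by
      nlinarith [sq_nonneg ((M : ℝ) - 1), pow_pos (show (0 : ℝ) < M by linarith) 3]
    have h8 : 2 * (M : ℝ) ^ 2 * ((M : ℝ) + 1) ^ 3 ≤ ((M : ℝ) + 1) ^ 6 := by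
      have := mul_le_mul_of_nonneg_right h7 (show 0 ≤ ((M : ℝ) + 1) ^ 3 by positivity)
      nlinarith
    nlinarith [mul_le_mul_of_nonneg_right h6 hV0, mul_le_mul_of_nonneg_right h8 hnpos.le]
  -- the average of the rows
  have hkey : ∀ x ∈ A, |r (x + z) - round R| ≤ 4 * e + 32 * M * (r (x + z) - R) ^ 2 := by
    intro x _
    obtain ⟨m, hm⟩ := hstep1 (x + z)
    have he1 : 4 * e ≤ 1 / 4 := by
      rw [he]
      have h1 : 4 / 10 ^ 6 / ((M : ℝ) + 1) ^ 2 ≤ 4 / 10 ^ 6 := by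
        apply div_le_self (by norm_num)
        nlinarith
      linarith
    by_cases hmR : m = round R
    · rw [← hmR]
      have : 0 ≤ 32 * (M : ℝ) * (r (x + z) - R) ^ 2 := by positivity
      linarith
    · have h1 : (1 : ℝ) ≤ |(m : ℝ) - round R| := by
        have h2 : (1 : ℤ) ≤ |m - round R| := Int.one_le_abs (sub_ne_zero.mpr hmR)
        have h3 : ((1 : ℤ) : ℝ) ≤ ((|m - round R| : ℤ) : ℝ) := by exact_mod_cast h2
        rw [Int.cast_abs, Int.cast_sub] at h3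
        simpa using h3
      have h2 : |R - round R| ≤ 1 / 2 := abs_sub_round R
      have h3 : |(m : ℝ) - round R| ≤ |(m : ℝ) - r (x + z)| + |r (x + z) - round R| :=
        abs_sub_le _ _ _
      have h4 : |r (x + z) - round R| ≤ |r (x + z) - R| + |R - round R| := abs_sub_le _ _ _
      have h5 : |(m : ℝ) - r (x + z)| = |r (x + z) - m| := abs_sub_comm _ _
      have h6 : 1 / 4 ≤ |r (x + z) - R| := by linarith
      have h7 : 1 / 16 ≤ (r (x + z) - R) ^ 2 := by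
        rw [← sq_abs]; nlinarith
      have h8 : |r (x + z) - round R| ≤ 2 * M := by
        have h9 := hrabs (x + z)
        have h10 : |(round R : ℝ)| ≤ M + 1 / 2 := by
          have := abs_sub_abs_le_abs_sub ((round R : ℝ)) R
          rw [abs_sub_comm] at this
          linarith
        have h11 : |round R| ≤ (M : ℤ) := by
          have h12 : ((|round R| : ℤ) : ℝ) < ((M + 1 : ℤ) : ℝ) := by
            push_cast
            linarith
          have h13 : |round R| < (M : ℤ) + 1 := by exact_mod_cast h12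
          omega
        have h12 : |(round R : ℝ)| ≤ M := by
          have : ((|round R| : ℤ) : ℝ) ≤ ((M : ℤ) : ℝ) := by exact_mod_cast h11
          push_cast at this
          exact this
        have h13 := abs_sub (r (x + z)) (round R : ℝ)
        linarith
      have h9 : 2 * (M : ℝ) ≤ 32 * M * (r (x + z) - R) ^ 2 := by nlinarith
      linarith
  have hfin : |R - round R| ≤ 4 * e + 32 * M * e := by
    have h5 : (R - round R) * n = ∑ x ∈ A, (r (x + z) - round R) := by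
      rw [Finset.sum_sub_distrib, Finset.sum_const, nsmul_eq_mul, ← hn, ← hRn]; ring
    have h6 : |R - round R| * n ≤ 4 * e * n + 32 * M * V := by
      have h6' : |R - round R| * n = |(R - round R) * n| := by
        rw [abs_mul, abs_of_pos hnpos]
      rw [h6', h5]
      refine (Finset.abs_sum_le_sum_abs _ _).trans ((Finset.sum_le_sum hkey).trans (le_of_eq ?_))
      rw [Finset.sum_add_distrib, Finset.sum_const, nsmul_eq_mul, ← hn, hV, Finset.mul_sum]
      ring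
    have h7 : 32 * (M : ℝ) * V ≤ 32 * M * (e * n) := mul_le_mul_of_nonneg_left hVle (by positivity)
    have h8 : |R - round R| * n ≤ (4 * e + 32 * M * e) * n := by nlinarith
    exact le_of_mul_le_mul_right h8 hnpos
  have hsmall : 4 * e + 32 * M * e ≤ 1 / (1000 * ((M : ℝ) + 1)) := by
    have h1 : 4 * e + 32 * M * e ≤ 36 * ((M : ℝ) + 1) * e := by nlinarith
    refine h1.trans ?_
    rw [he, le_div_iff₀ (by positivity)]
    have h2 : 36 * ((M : ℝ) + 1) * (4 / 10 ^ 6 / ((M : ℝ) + 1) ^ 2) * (1000 * ((M : ℝ) + 1)) =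
        36 * 4 * 1000 / 10 ^ 6 := by
      have : ((M : ℝ) + 1) ≠ 0 := by positivity
      field_simp
    rw [h2]
    norm_num
  have hlast : |R - round R| ≤ 1 / (1000 * ((M : ℝ) + 1)) := hfin.trans hsmall
  rcases le_or_gt (round R) 0 with h0 | h0
  · left
    have h1 : (round R : ℝ) ≤ 0 := by exact_mod_cast h0
    have h2 := (abs_le.mp hlast).2
    linarith
  · right
    have h1 : (1 : ℝ) ≤ (round R : ℝ) := by exact_mod_cast h0
    have h2 := (abs_le.mp hlast).1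
    linarith

end Pool.Agent.Strip
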